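import Pool.Agent.MP_993212_an.H15.LPath

/-! Division estimate for the weighted coefficient norm. -/

namespace Pool.Agent.MP_993212_an.H65

open Polynomial Pool.Agent.MP_993212_an.H15

/-- the weighted norm of a complex polynomial -/
noncomputable def nc (ρ : ℝ) (p : ℂ[X]) : ℝ := ∑ k ∈ p.support, ‖p.coeff k‖ * |ρ| ^ k

variable {ρ : ℝ}

theorem nc_eq {p : ℂ[X]} {T : Finset ℕ} (h : p.support ⊆ T) :
    nc ρ p = ∑ k ∈ T, ‖p.coeff k‖ * |ρ| ^ k :=
  Finset.sum_subset h fun k _ hk => by simp [notMem_support_iff.1 hk]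

theorem nc_nonneg (p : ℂ[X]) : 0 ≤ nc ρ p := Finset.sum_nonneg fun _ _ => by positivity

theorem nc_lin (α : ℂ) (p : ℂ[X]) : abs (|ρ| - ‖α‖) * nc ρ p ≤ nc ρ ((X - C α) * p) := by
  have hd : ((X - C α) * p).natDegree < p.natDegree + 1 + 1 :=
    natDegree_mul_le.trans_lt (by rw [natDegree_X_sub_C]; omega)
  have h1 : ∑ k ∈ Finset.range (p.natDegree + 1 + 1), ‖(X * p).coeff k‖ * |ρ| ^ k =
      |ρ| * nc ρ p := by
    rw [Finset.sum_range_succ', nc_eq (supp_subset_range (Nat.lt_succ_self _)), Finset.mul_sum]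
    simp only [coeff_X_mul, mul_coeff_zero, coeff_X_zero, zero_mul, norm_zero, add_zero]
    exact Finset.sum_congr rfl fun k _ => by ring
  have h2 : ∑ k ∈ Finset.range (p.natDegree + 1 + 1), ‖(C α * p).coeff k‖ * |ρ| ^ k =
      ‖α‖ * nc ρ p := by
    rw [nc_eq (supp_subset_range (show p.natDegree < p.natDegree + 1 + 1 by omega)), Finset.mul_sum]
    exact Finset.sum_congr rfl fun k _ => by rw [coeff_C_mul, norm_mul]; ring
  rw [← abs_of_nonneg (nc_nonneg (ρ := ρ) p), ← abs_mul, sub_mul, ← h1, ← h2,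
    nc_eq (supp_subset_range hd), ← Finset.sum_sub_distrib]
  refine (Finset.abs_sum_le_sum_abs _ _).trans (Finset.sum_le_sum fun k _ => ?_)
  rw [← sub_mul, abs_mul, abs_of_nonneg (show 0 ≤ |ρ| ^ k by positivity), sub_mul, coeff_sub]
  exact mul_le_mul_of_nonneg_right (abs_norm_sub_norm_le _ _) (by positivity)

theorem nc_div (n : ℕ) : ∀ χ : ℂ[X], χ.natDegree = n → χ ≠ 0 →
    (∀ α, χ.IsRoot α → ‖α‖ ≠ |ρ|) → ∃ c, 0 < c ∧ ∀ q, c * nc ρ q ≤ nc ρ (χ * q) := by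
  induction n with
  | zero =>
    intro χ h h0 _
    obtain ⟨a, rfl⟩ := natDegree_eq_zero.1 h
    have ha : a ≠ 0 := by rintro rfl; simp at h0
    refine ⟨‖a‖, norm_pos_iff.2 ha, fun q => le_of_eq ?_⟩
    rw [nc_eq (p := C a * q) (T := q.support) (fun k hk => by
      rw [mem_support_iff, coeff_C_mul] at hk
      exact mem_support_iff.2 (right_ne_zero_of_mul hk)), nc, Finset.mul_sum]
    exact Finset.sum_congr rfl fun k _ => by rw [coeff_C_mul, norm_mul]; ring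
  | succ n ih =>
    intro χ h h0 hr
    obtain ⟨α, hα⟩ := IsAlgClosed.exists_root χ (natDegree_pos_iff_degree_pos.1 (by omega)).ne'
    obtain ⟨χ', rfl⟩ := dvd_iff_isRoot.2 hα
    have h1 : χ' ≠ 0 := right_ne_zero_of_mul h0
    rw [natDegree_mul (X_sub_C_ne_zero α) h1, natDegree_X_sub_C] at h
    obtain ⟨c, hc, hq⟩ := ih χ' (by omega) h1 fun β hβ => hr β (by simp [IsRoot.def.1 hβ])
    have h2 : 0 < abs (|ρ| - ‖α‖) := abs_pos.2 (sub_ne_zero.2 (hr α hα).symm)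
    refine ⟨abs (|ρ| - ‖α‖) * c, by positivity, fun q => ?_⟩
    rw [mul_assoc, mul_assoc]
    exact (mul_le_mul_of_nonneg_left (hq q) h2.le).trans (nc_lin α _)

theorem nc_map (a : ℤ[X]) : nc ρ (a.map (Int.castRingHom ℂ)) = nz ρ a := by
  rw [nc_eq (support_map_subset _ _), nz_eq le_rfl]
  exact Finset.sum_congr rfl fun k _ => by simp [abs_mul]

/-- division estimate away from the moduli of the roots -/
theorem div_root {χ : ℤ[X]} (h0 : χ ≠ 0) (hr : ∀ α : ℂ, aeval α χ = 0 → ‖α‖ ≠ |ρ|) :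
    ∃ C : ℝ, 0 < C ∧ ∀ q, nz ρ q ≤ C * nz ρ (χ * q) := by
  obtain ⟨c, hc, hq⟩ := nc_div (ρ := ρ) _ (χ.map (Int.castRingHom ℂ)) rfl
    ((Polynomial.map_ne_zero_iff (RingHom.injective_int _)).2 h0)
    fun α hα => hr α (by rw [aeval_def, eval₂_eq_eval_map]; exact hα)
  refine ⟨c⁻¹, by positivity, fun q => ?_⟩
  have := hq (q.map (Int.castRingHom ℂ))
  rw [← Polynomial.map_mul, nc_map, nc_map] at this
  rwa [le_inv_mul_iff₀ hc]

/-- division estimate outside a finite set of radii -/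
theorem div_fin {χ : ℤ[X]} (h0 : χ ≠ 0) : ∃ S : Finset ℝ, ∀ ρ, ρ ∉ S →
    ∃ C : ℝ, 0 < C ∧ ∀ q, nz ρ q ≤ C * nz ρ (χ * q) := by
  classical
  refine ⟨(χ.aroots ℂ).toFinset.image (fun α => ‖α‖) ∪ (χ.aroots ℂ).toFinset.image (fun α => -‖α‖),
    fun ρ hρ => div_root h0 fun α hα he => hρ ?_⟩
  have hm : α ∈ (χ.aroots ℂ).toFinset := by
    rw [Multiset.mem_toFinset, mem_aroots']
    exact ⟨(Polynomial.map_ne_zero_iff (RingHom.injective_int _)).2 h0, hα⟩
  rcases abs_choice ρ with h | h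
  · exact Finset.mem_union_left _ (Finset.mem_image.2 ⟨α, hm, by rw [he, h]⟩)
  · exact Finset.mem_union_right _ (Finset.mem_image.2 ⟨α, hm, by rw [he, h, neg_neg]⟩)

/-- division estimate on a half open interval of radii -/
theorem div_int {χ : ℤ[X]} (h0 : χ ≠ 0) {a b : ℝ} (hab : a < b) : ∃ b', a < b' ∧ b' ≤ b ∧
    ∀ ρ, a < ρ → ρ ≤ b' → ∃ C : ℝ, 0 < C ∧ ∀ q, nz ρ q ≤ C * nz ρ (χ * q) := by
  classical
  obtain ⟨S, hS⟩ := div_fin h0
  obtain ⟨m, hm, hmin⟩ := (insert b (S.filter (a < ·))).exists_min_image id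
    (Finset.insert_nonempty _ _)
  have ham : a < m := by
    rcases Finset.mem_insert.1 hm with rfl | h
    · exact hab
    · exact (Finset.mem_filter.1 h).2
  have hmb : m ≤ b := hmin b (Finset.mem_insert_self _ _)
  refine ⟨(a + m) / 2, by linarith, by linarith, fun ρ h1 h2 => hS ρ fun h => ?_⟩
  have : m ≤ ρ := hmin ρ (Finset.mem_insert_of_mem (Finset.mem_filter.2 ⟨h, h1⟩))
  linarith

end Pool.Agent.MP_993212_an.H65
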