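import Pool.Agent.MP_993212_an.H65.Frame

namespace Pool.Agent.MP_993212_an.H65

open Matrix Pool.Agent.MP_993212_an.H12

namespace Fr

variable {F : Fr} {T : M2} {lam mu : ℝ}

theorem absorb_basis {u v : V} (h : det2 u v ^ 2 = 1) (r : V) :
    r = (det2 u v * det2 r v) • u + (det2 u v * det2 u r) • v := by
  funext i
  fin_cases i
  · simp only [det2, Pi.add_apply, Pi.smul_apply, smul_eq_mul, Fin.zero_eta] at h ⊢
    linear_combination (- r 0) * h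
  · simp only [det2, Pi.add_apply, Pi.smul_apply, smul_eq_mul, Fin.mk_one] at h ⊢
    linear_combination (- r 1) * h

theorem absorb_abs {Z a b c d : ℝ} (ha : |a| ≤ 2 * Z) (hb : |b| ≤ 4 * Z) (hc : |c| ≤ 8 * Z)
    (hd : |d| ≤ Z) : |a * b - c * d| ≤ 16 * Z ^ 2 := by
  have h1 : |a| * |b| ≤ 2 * Z * (4 * Z) :=
    mul_le_mul ha hb (abs_nonneg _) ((abs_nonneg _).trans ha)
  have h2 : |c| * |d| ≤ 8 * Z * Z := mul_le_mul hc hd (abs_nonneg _) ((abs_nonneg _).trans hc)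
  have h3 := abs_sub (a * b) (c * d)
  rw [abs_mul, abs_mul] at h3
  linarith

theorem absorb_frac {a b c d W : ℝ} (h1 : 0 ≤ a) (h2 : a ≤ 1) (h3 : 0 ≤ b) (h4 : b ≤ 1)
    (hc : |c| ≤ W) (hd : |d| ≤ W) : |a * c + b * d| ≤ 2 * W := by
  have h5 := abs_add_le (a * c) (b * d)
  rw [abs_mul, abs_mul, abs_of_nonneg h1, abs_of_nonneg h3] at h5
  have := mul_le_of_le_one_left (abs_nonneg c) h2
  have := mul_le_of_le_one_left (abs_nonneg d) h4
  linarith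

theorem Base.absorb (h : F.Is T lam mu) {Z ap am Ap Am : ℝ} {S0 : Fin 4 → V}
    (hb : F.Base Z ap am Ap Am S0) (hZ : 10000 ≤ Z) (hap : 0 < ap) (ham : 0 < am)
    (hAp : Ap ≤ 4) (hAm : Am ≤ 4) {s : V} (hs : F.InCone (ap - 1 / Z) (am - 1 / Z) s) (B : ℕ)
    (hB : 128 * Z ^ 4 * (B + 17 * Z ^ 2) ≤ F.X s) :
    ∃ n : Fin 4 → ℕ, s = ∑ i, n i • S0 i ∧ B ≤ n 0 ∧ B ≤ n 1 := by
  have hZ0 : 0 < Z := by linarith
  have hx : ∀ i, |F.X (S0 i)| ≤ Z := fun i => by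
    rw [abs_of_nonneg (hb.cone i).1]
    exact hb.size i
  have hy' : ∀ i, |F.Y (S0 i)| ≤ 4 * F.X (S0 i) := fun i => by
    obtain ⟨c0, c1, c2⟩ := hb.cone i
    have := mul_le_mul_of_nonneg_right hAp c0
    have := mul_le_mul_of_nonneg_right hAm c0
    rw [abs_le]
    constructor <;> linarith
  have hy : ∀ i, |F.Y (S0 i)| ≤ 4 * Z := fun i => (hy' i).trans (by linarith [hb.size i])
  have p2 := hb.pos2
  have p3 := hb.pos3
  have e2 := hb.ext2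
  have e3 := hb.ext3
  have s2 := hb.size 2
  have s3 := hb.size 3
  have u2 := (abs_le.1 (hy' 2)).2
  have u3 := (abs_le.1 (hy' 3)).1
  have hdet := h.abs_det2 (S0 3) (S0 2)
  set x2 := F.X (S0 2)
  set y2 := F.Y (S0 2)
  set x3 := F.X (S0 3)
  set y3 := F.Y (S0 3)
  have y2p : 0 < y2 := lt_of_lt_of_le (mul_pos hap p2) e2
  have y3p : 0 < - y3 := lt_of_lt_of_le (mul_pos ham p3) e3
  obtain ⟨N, hN⟩ : ∃ N, N = x3 * y2 - y3 * x2 := ⟨_, rfl⟩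
  have hN0 : 0 < N := by
    have := mul_pos p3 y2p
    have := mul_pos y3p p2
    linarith
  have hN1 : 1 ≤ N := by
    rw [← hN, abs_of_pos hN0] at hdet
    have h1 : (0 : ℝ) < ((|det2 (S0 3) (S0 2)| : ℤ) : ℝ) := by
      rw [Int.cast_abs, hdet]
      exact hN0
    have h2 : (1 : ℤ) ≤ |det2 (S0 3) (S0 2)| := by exact_mod_cast h1
    rw [← hdet, ← Int.cast_abs]
    exact_mod_cast h2
  have hN8 : N ≤ 8 * (x2 * x3) := by
    have := mul_le_mul_of_nonneg_left u2 p3.le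
    have := mul_le_mul_of_nonneg_left u3 p2.le
    linarith
  obtain ⟨c0, c1, c2⟩ := hs
  set x := F.X s
  set y := F.Y s
  let B1 : ℕ := B + ⌈16 * Z ^ 2⌉₊
  have hB1 : (B1 : ℝ) ≤ B + 17 * Z ^ 2 := by
    have := Nat.ceil_lt_add_one (show 0 ≤ 16 * Z ^ 2 by positivity)
    simp only [B1]
    push_cast
    nlinarith
  have hB1' : (B : ℝ) + 16 * Z ^ 2 ≤ B1 := by
    have := Nat.le_ceil (16 * Z ^ 2)
    simp only [B1]
    push_cast
    linarith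
  have hB10 : (0 : ℝ) ≤ B1 := Nat.cast_nonneg _
  have key : ∀ w a b : ℝ, 0 < w → 1 ≤ 8 * (Z * w) → w * (x / Z) ≤ a → |b| ≤ 16 * Z ^ 2 →
      0 ≤ a - B1 * b := by
    intro w a b hw h1 h2 h3
    have h4 : B1 * b ≤ (B + 17 * Z ^ 2) * (16 * Z ^ 2) :=
      (mul_le_mul_of_nonneg_left (le_abs_self b |>.trans h3) hB10).trans
        (mul_le_mul_of_nonneg_right hB1 (by positivity))
    have h5 : (B + 17 * Z ^ 2) * (16 * Z ^ 2) * (8 * Z ^ 2) ≤ w * (x / Z) * (8 * Z ^ 2) := by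
      have h6 : w * (x / Z) * (8 * Z ^ 2) = 8 * (Z * w) * x := by field_simp
      have h7 := mul_le_mul_of_nonneg_right h1 c0
      rw [h6]
      linarith
    have := le_of_mul_le_mul_right h5 (by positivity)
    linarith
  have hx01 : |F.X (S0 0) + F.X (S0 1)| ≤ 2 * Z :=
    (abs_add_le _ _).trans (by linarith [hx 0, hx 1])
  have hy01 : |F.Y (S0 0) + F.Y (S0 1)| ≤ 8 * Z :=
    (abs_add_le _ _).trans (by linarith [hy 0, hy 1])
  have a2 := key x3 (x3 * y - y3 * x)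
    (x3 * (F.Y (S0 0) + F.Y (S0 1)) - y3 * (F.X (S0 0) + F.X (S0 1))) p3
    (by nlinarith [mul_le_mul_of_nonneg_right s2 p3.le]) (by
      have h1 := mul_le_mul_of_nonneg_left c2 p3.le
      have h2 := mul_le_mul_of_nonneg_right e3 c0
      have h3 : x3 * ((am - 1 / Z) * x) = am * x3 * x - x3 * (x / Z) := by ring
      linarith) (by
      have := absorb_abs hx01 (hy 3) hy01 (hx 3)
      rw [abs_sub_comm] at this
      convert this using 2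
      ring)
  have a3 := key x2 (y2 * x - x2 * y)
    (y2 * (F.X (S0 0) + F.X (S0 1)) - x2 * (F.Y (S0 0) + F.Y (S0 1))) p2
    (by nlinarith [mul_le_mul_of_nonneg_right s3 p2.le]) (by
      have h1 := mul_le_mul_of_nonneg_left c1 p2.le
      have h2 := mul_le_mul_of_nonneg_right e2 c0
      have h3 : x2 * ((ap - 1 / Z) * x) = ap * x2 * x - x2 * (x / Z) := by ring
      linarith) (by
      have := absorb_abs hx01 (hy 2) hy01 (hx 2)
      convert this using 2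
      ring)
  obtain ⟨α2, hα2⟩ : ∃ a, a = (x3 * y - y3 * x - B1 *
    (x3 * (F.Y (S0 0) + F.Y (S0 1)) - y3 * (F.X (S0 0) + F.X (S0 1)))) / N := ⟨_, rfl⟩
  obtain ⟨α3, hα3⟩ : ∃ a, a = (y2 * x - x2 * y - B1 *
    (y2 * (F.X (S0 0) + F.X (S0 1)) - x2 * (F.Y (S0 0) + F.Y (S0 1)))) / N := ⟨_, rfl⟩
  have b2 : 0 ≤ α2 := hα2 ▸ div_nonneg a2 hN0.le
  have b3 : 0 ≤ α3 := hα3 ▸ div_nonneg a3 hN0.le
  have f2 := Nat.floor_le b2
  have f2' := Nat.lt_floor_add_one α2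
  have f3 := Nat.floor_le b3
  have f3' := Nat.lt_floor_add_one α3
  obtain ⟨r, hr⟩ : ∃ r : V, r = s - B1 • (S0 0 + S0 1) - ⌊α2⌋₊ • S0 2 - ⌊α3⌋₊ • S0 3 := ⟨_, rfl⟩
  have rx : F.X r = (α2 - ⌊α2⌋₊) * x2 + (α3 - ⌊α3⌋₊) * x3 := by
    have : α2 * x2 + α3 * x3 = x - B1 * (F.X (S0 0) + F.X (S0 1)) := by
      rw [hα2, hα3]
      field_simp
      rw [hN]
      ring
    rw [hr, X_sub, X_sub, X_sub, X_nsmul, X_nsmul, X_nsmul, X_add]
    linarith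
  have ry : F.Y r = (α2 - ⌊α2⌋₊) * y2 + (α3 - ⌊α3⌋₊) * y3 := by
    have : α2 * y2 + α3 * y3 = y - B1 * (F.Y (S0 0) + F.Y (S0 1)) := by
      rw [hα2, hα3]
      field_simp
      rw [hN]
      ring
    rw [hr, Y_sub, Y_sub, Y_sub, Y_nsmul, Y_nsmul, Y_nsmul, Y_add]
    linarith
  have g2 : 0 ≤ α2 - ⌊α2⌋₊ := by linarith
  have g2' : α2 - ⌊α2⌋₊ ≤ 1 := by linarith
  have g3 : 0 ≤ α3 - ⌊α3⌋₊ := by linarith
  have g3' : α3 - ⌊α3⌋₊ ≤ 1 := by linarith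
  generalize α2 - ⌊α2⌋₊ = φ2 at rx ry g2 g2'
  generalize α3 - ⌊α3⌋₊ = φ3 at rx ry g3 g3'
  have rx' : |F.X r| ≤ 2 * Z := by
    rw [rx]
    exact (absorb_frac g2 g2' g3 g3' (hx 2) (hx 3)).trans (by linarith)
  have ry' : |F.Y r| ≤ 8 * Z := by
    rw [ry]
    exact (absorb_frac g2 g2' g3 g3' (hy 2) (hy 3)).trans (by linarith)
  have hδ : |det2 (S0 0) (S0 1)| = 1 := by
    rcases mul_self_eq_one_iff.1 ((sq _).symm.trans hb.uni) with h | h <;> simp [h]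
  have co : ∀ d : ℤ, |(d : ℝ)| ≤ 16 * Z ^ 2 →
      ∃ n : ℕ, B ≤ n ∧ (n : ℤ) = B1 + det2 (S0 0) (S0 1) * d := by
    intro d hd
    have h1 : |((det2 (S0 0) (S0 1) * d : ℤ) : ℝ)| ≤ 16 * Z ^ 2 := by
      rwa [← Int.cast_abs, abs_mul, hδ, one_mul, Int.cast_abs]
    have h2 : (B : ℤ) ≤ B1 + det2 (S0 0) (S0 1) * d := by
      have : ((B : ℤ) : ℝ) ≤ ((B1 + det2 (S0 0) (S0 1) * d : ℤ) : ℝ) := by
        rw [Int.cast_add, Int.cast_natCast, Int.cast_natCast]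
        linarith [(abs_le.1 h1).1]
      exact_mod_cast this
    refine ⟨(B1 + det2 (S0 0) (S0 1) * d).toNat, by omega, by omega⟩
  obtain ⟨n0, k0, l0⟩ := co (det2 r (S0 1)) (by
    rw [h.abs_det2]
    exact absorb_abs rx' (hy 1) ry' (hx 1))
  obtain ⟨n1, k1, l1⟩ := co (det2 (S0 0) r) (by
    rw [h.abs_det2, abs_sub_comm, mul_comm (F.Y (S0 0)), mul_comm (F.X (S0 0))]
    exact absorb_abs rx' (hy 0) ry' (hx 0))
  refine ⟨![n0, n1, ⌊α2⌋₊, ⌊α3⌋₊], ?_, k0, k1⟩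
  have hr' := absorb_basis hb.uni r
  rw [Fin.sum_univ_four]
  simp only [Matrix.cons_val_zero, Matrix.cons_val_one, Matrix.cons_val]
  rw [← natCast_zsmul (S0 0), ← natCast_zsmul (S0 1), l0, l1, add_smul, add_smul, natCast_zsmul,
    natCast_zsmul]
  rw [smul_add] at hr
  linear_combination hr' - hr

/-- a vector inside the base cone is short or is absorbed by the base family -/
theorem Base.decomp (h : F.Is T lam mu) {Z ap am Ap Am : ℝ} {S0 : Fin 4 → V}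
    (hb : F.Base Z ap am Ap Am S0) (hZ : 10000 ≤ Z) (hap : 0 < ap) (ham : 0 < am)
    (hAp : Ap ≤ 4) (hAm : Am ≤ 4) {s : V} (hs : F.InCone (ap - 1 / Z) (am - 1 / Z) s) :
    ∃ (n : Fin 4 → ℕ) (s' : V), s = ∑ i, n i • S0 i + s' ∧ F.InCone Ap Am s' ∧ F.X s' ≤ Z ^ 7 ∧
      (Z ^ 22 ≤ F.X s → 2 * Z ^ 17 ≤ (n 0 : ℝ) ∧ 2 * Z ^ 17 ≤ (n 1 : ℝ)) := by
  have hZ0 : 0 < Z := by linarith
  have hZ1 : 1 ≤ Z := by linarith
  have h7 : F.X 0 ≤ Z ^ 7 := by rw [X_zero]; positivity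
  by_cases h22 : Z ^ 22 ≤ F.X s
  · obtain ⟨n, h1, h2, h3⟩ := hb.absorb h hZ hap ham hAp hAm hs ⌈2 * Z ^ 17⌉₊ (by
      refine le_trans ?_ h22
      have a1 := Nat.ceil_lt_add_one (show 0 ≤ 2 * Z ^ 17 by positivity)
      have a2 : Z ^ 2 ≤ Z ^ 17 := pow_le_pow_right₀ hZ1 (by norm_num)
      have a3 : 1 ≤ Z ^ 17 := one_le_pow₀ hZ1
      have a4 : 128 * Z ^ 4 * (⌈2 * Z ^ 17⌉₊ + 17 * Z ^ 2) ≤ 128 * Z ^ 4 * (20 * Z ^ 17) :=
        mul_le_mul_of_nonneg_left (by linarith) (by positivity)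
      have a5 : 128 * Z ^ 4 * (20 * Z ^ 17) = 2560 * Z ^ 21 := by ring
      have a6 : 2560 * Z ^ 21 ≤ Z * Z ^ 21 :=
        mul_le_mul_of_nonneg_right (by linarith) (by positivity)
      rw [pow_succ' Z 21]
      linarith)
    refine ⟨n, 0, by rw [add_zero]; exact h1, InCone.zero _ _ _, h7, fun _ => ?_⟩
    exact ⟨(Nat.le_ceil _).trans (by exact_mod_cast h2),
      (Nat.le_ceil _).trans (by exact_mod_cast h3)⟩
  by_cases h7' : F.X s ≤ Z ^ 7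
  · refine ⟨0, s, by simp, hs.mono ?_ ?_, h7', fun h => absurd h h22⟩
    · have := le_of_mul_le_mul_right (hb.ext2.trans (hb.cone 2).2.1) hb.pos2
      have : 0 < 1 / Z := by positivity
      linarith
    · have := le_of_mul_le_mul_right (hb.ext3.trans (hb.cone 3).2.2) hb.pos3
      have : 0 < 1 / Z := by positivity
      linarith
  · obtain ⟨n, h1, -, -⟩ := hb.absorb h hZ hap ham hAp hAm hs 0 (by
      refine le_trans ?_ (not_le.1 h7').le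
      have a5 : 128 * Z ^ 4 * ((0 : ℕ) + 17 * Z ^ 2) = 2176 * Z ^ 6 := by
        push_cast
        ring
      have a6 : 2176 * Z ^ 6 ≤ Z * Z ^ 6 :=
        mul_le_mul_of_nonneg_right (by linarith) (by positivity)
      rw [pow_succ' Z 6]
      linarith)
    exact ⟨n, 0, by rw [add_zero]; exact h1, InCone.zero _ _ _, h7, fun h => absurd h h22⟩

theorem Dec.of_cone (h : F.Is T lam mu) {Z ap am Ap Am bp bm Bp Bm : ℝ} {S0 R0 : Fin 4 → V}
    (hS : F.Base Z ap am Ap Am S0) (hR : F.dual.Base Z bp bm Bp Bm R0) (hZ : 10000 ≤ Z)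
    (hap : 0 < ap) (ham : 0 < am) (hAp : Ap ≤ 4) (hAm : Am ≤ 4)
    (hbp : 0 < bp) (hbm : 0 < bm) (hBp : Bp ≤ 4) (hBm : Bm ≤ 4) {S R : Fin 4 → V}
    (h1 : ∀ j, F.InCone (ap - 1 / Z) (am - 1 / Z) (S j))
    (h2 : ∀ j, F.dual.InCone (bp - 1 / Z) (bm - 1 / Z) (R j))
    (h3 : ∃ j, Z ^ 22 ≤ F.X (S j) ∧ Z ^ 22 ≤ F.dual.X (R j)) :
    F.Dec Z Ap Am Bp Bm S0 R0 S R := by
  choose n S' a1 a2 a3 a4 using fun j => hS.decomp h hZ hap ham hAp hAm (h1 j)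
  choose m R' b1 b2 b3 b4 using fun j => hR.decomp h.dual hZ hbp hbm hBp hBm (h2 j)
  obtain ⟨j, c1, c2⟩ := h3
  refine ⟨n, m, S', R', a1, b1, fun j => ⟨a2 j, a3 j⟩, fun j => ⟨b2 j, b3 j⟩, fun a b ha hb => ?_⟩
  have d1 : 2 * Z ^ 17 ≤ (n j a : ℝ) := by
    rcases ha with rfl | rfl
    exacts [(a4 j c1).1, (a4 j c1).2]
  have d2 : 2 * Z ^ 17 ≤ (m j b : ℝ) := by
    rcases hb with rfl | rfl
    exacts [(b4 j c2).1, (b4 j c2).2]
  have d3 : (1 : ℝ) ≤ Z ^ 17 := one_le_pow₀ (by linarith)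
  have d4 : n j a * m j b ≤ ∑ j, n j a * m j b :=
    Finset.single_le_sum (f := fun j => n j a * m j b) (fun _ _ => Nat.zero_le _)
      (Finset.mem_univ j)
  have d5 : ((n j a * m j b : ℕ) : ℝ) ≤ ((∑ j, n j a * m j b : ℕ) : ℝ) := by exact_mod_cast d4
  refine le_trans ?_ d5
  push_cast
  exact d1.trans (le_mul_of_one_le_right (by linarith) (by linarith))

end Fr

end Pool.Agent.MP_993212_an.H65
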