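import Pool.Agent.MP_993212_an.H65.Defs

namespace Pool.Agent.MP_993212_an.H65

open Matrix Pool.Agent.MP_993212_an.H12

variable {ι κ d : Type} [Fintype ι] [Fintype κ] [Fintype d] [DecidableEq ι] [DecidableEq κ]

theorem nsmul_sum_dot (n : κ → ℕ) (R : κ → d → ℤ) (s : d → ℤ) :
    (∑ k, n k • R k) ⬝ᵥ s = ∑ k, (n k : ℤ) * (R k ⬝ᵥ s) := by
  rw [sum_dotProduct]
  refine Finset.sum_congr rfl fun k _ => ?_
  rw [smul_dotProduct, nsmul_eq_mul]

theorem dot_nsmul_sum (n : κ → ℕ) (S : κ → d → ℤ) (r : d → ℤ) :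
    r ⬝ᵥ (∑ k, n k • S k) = ∑ k, (n k : ℤ) * (r ⬝ᵥ S k) := by
  rw [dotProduct_comm, nsmul_sum_dot]
  simp only [dotProduct_comm]

/-- the basic move: one elementary equivalence -/
theorem lemX (S : ι → d → ℤ) (R' : κ → d → ℤ) (X : ι → κ → ℕ) (S' : κ → d → ℤ) (R : ι → d → ℤ)
    (hS : ∀ k, S' k = ∑ i, X i k • S i) (hR : ∀ i, R i = ∑ k, X i k • R' k)
    (hpos : ∀ k i, 0 ≤ R' k ⬝ᵥ S i) : SSE (cm S' R') (cm S R) := by
  let G : Matrix κ ι ℕ := fun k i => (R' k ⬝ᵥ S i).toNat
  have hG : ∀ k i, (G k i : ℤ) = R' k ⬝ᵥ S i := fun k i => Int.toNat_of_nonneg (hpos k i)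
  have h1 : cm S' R' = G * (Matrix.of X) := by
    ext k k'
    have : R' k ⬝ᵥ S' k' = ((G * (Matrix.of X)) k k' : ℕ) := by
      rw [hS, dot_nsmul_sum, Matrix.mul_apply]
      push_cast
      refine Finset.sum_congr rfl fun i _ => ?_
      rw [hG, Matrix.of_apply, mul_comm]
    simp only [cm, this, Int.toNat_natCast]
  have h2 : cm S R = (Matrix.of X) * G := by
    ext i i'
    have : R i ⬝ᵥ S i' = (((Matrix.of X) * G) i i' : ℕ) := by
      rw [hR, nsmul_sum_dot, Matrix.mul_apply]
      push_cast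
      refine Finset.sum_congr rfl fun k _ => ?_
      rw [hG, Matrix.of_apply]
    simp only [cm, this, Int.toNat_natCast]
  rw [h1, h2]
  exact SSE.step _ _

/-- two distributions of covectors over the same types with the same type sums -/
theorem lemG (S : ι → d → ℤ) (R : κ → d → ℤ) (hpos : ∀ k i, 0 ≤ R k ⬝ᵥ S i) (n n' : ι → κ → ℕ)
    (h : ∀ k, ∑ i, n i k • S i = ∑ i, n' i k • S i) :
    SSE (cm S fun i => ∑ k, n i k • R k) (cm S fun i => ∑ k, n' i k • R k) :=
  (lemX S R n (fun k => ∑ i, n i k • S i) _ (fun _ => rfl) (fun _ => rfl) hpos).symm.trans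
    (lemX S R n' (fun k => ∑ i, n i k • S i) _ h (fun _ => rfl) hpos)

/-- moving a covector along a linear relation between the types -/
theorem lemR (S R R' : ι → d → ℤ) (w : d → ℤ) (v : ι → ℤ) (hv : ∑ i, v i • S i = 0)
    (hR' : ∀ i, R' i = R i + v i • w) (hw : ∀ i, 0 ≤ w ⬝ᵥ S i)
    (h : ∀ k i, 0 ≤ R k ⬝ᵥ S i) (h' : ∀ k i, 0 ≤ R' k ⬝ᵥ S i) : SSE (cm S R) (cm S R') := by
  let B : Option ι → d → ℤ := fun o => o.elim w fun i => if 0 ≤ v i then R i else R' i
  let n : ι → Option ι → ℕ := fun i o => o.elim (-v i).toNat fun k => if i = k then 1 else 0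
  let n' : ι → Option ι → ℕ := fun i o => o.elim (v i).toNat fun k => if i = k then 1 else 0
  have hB : ∀ k i, 0 ≤ B k ⬝ᵥ S i := by
    rintro (_ | k) i
    · exact hw i
    · simp only [B, Option.elim]
      split_ifs
      exacts [h k i, h' k i]
  have e1 : R = fun i => ∑ k, n i k • B k := by
    funext i
    rw [Fintype.sum_option]
    simp only [n, B, Option.elim, ite_smul, one_smul, zero_smul, Finset.sum_ite_eq,
      Finset.mem_univ, if_true]
    split_ifs with hi
    · rw [Int.toNat_of_nonpos (by omega), zero_smul, zero_add]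
    · rw [hR', ← natCast_zsmul, Int.toNat_of_nonneg (by omega), neg_smul]
      abel
  have e2 : R' = fun i => ∑ k, n' i k • B k := by
    funext i
    rw [Fintype.sum_option]
    simp only [n', B, Option.elim, ite_smul, one_smul, zero_smul, Finset.sum_ite_eq,
      Finset.mem_univ, if_true]
    split_ifs with hi
    · rw [hR', ← natCast_zsmul, Int.toNat_of_nonneg hi, add_comm]
    · rw [Int.toNat_of_nonpos (by omega), zero_smul, zero_add]
  have key := lemG S B hB n n' (by
    rintro (_ | k)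
    · simp only [n, n', Option.elim]
      rw [← sub_eq_zero, ← Finset.sum_sub_distrib, ← neg_eq_zero, ← Finset.sum_neg_distrib, ← hv]
      refine Finset.sum_congr rfl fun i _ => ?_
      rw [← natCast_zsmul, ← natCast_zsmul, ← sub_smul, ← neg_smul]
      congr 1
      omega
    · rfl)
  rwa [← e1, ← e2] at key

omit [Fintype ι] [DecidableEq ι] in
theorem cm_transpose (S R : ι → d → ℤ) : cm R S = (cm S R)ᵀ := by
  ext i j
  simp only [cm, transpose_apply, dotProduct_comm]

omit [Fintype ι] [DecidableEq ι] in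
theorem cm_neg (S R : ι → d → ℤ) : cm (fun i => - S i) (fun i => - R i) = cm S R := by
  ext i j
  simp only [cm, neg_dotProduct, dotProduct_neg, neg_neg]

theorem sse_transpose {A : Matrix ι ι ℕ} {B : Matrix κ κ ℕ} (h : SSE A B) : SSE Aᵀ Bᵀ :=
  SSE.ind (P := fun A B => SSE Aᵀ Bᵀ)
    (fun R S => by
      rw [transpose_mul, transpose_mul]
      exact SSE.step _ _)
    (fun h1 h2 => h1.trans h2) h

theorem cm_basis (A : Matrix ι ι ℕ) :
    cm (fun i => Pi.single i (1 : ℤ)) (fun i j => (A i j : ℤ)) = A := by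
  ext i j
  simp [cm]

/-- exchange of the two indices -/
def swp (A : N2) : N2 := !![A 1 1, A 1 0; A 0 1, A 0 0]

theorem sse_swp (A : N2) : SSE A (swp A) := by
  have h := SSE.sub A (Equiv.swap (0 : Fin 2) 1)
  have e : A.submatrix (Equiv.swap (0 : Fin 2) 1) (Equiv.swap (0 : Fin 2) 1) = swp A := by
    ext i j
    fin_cases i <;> fin_cases j <;> simp [swp]
  rwa [e] at h

omit [DecidableEq ι] in
theorem ten_swap (S R : ι → V) : ten R S = (ten S R)ᵀ := by
  ext a b
  simp only [ten, transpose_apply, mul_comm]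

omit [DecidableEq ι] in
theorem ten_neg (S R : ι → V) : ten (fun i => - S i) (fun i => - R i) = ten S R := by
  ext a b
  simp [ten]

omit [DecidableEq ι] in
theorem ten_mul (H G : M2) (S R : ι → V) :
    ten (fun i => H *ᵥ S i) (fun i => R i ᵥ* G) = H * ten S R * G := by
  ext a b
  simp only [ten, Matrix.mul_apply, mulVec, vecMul, dotProduct, Fin.sum_univ_two, Finset.mul_sum,
    Finset.sum_mul, ← Finset.sum_add_distrib, add_mul]
  refine Finset.sum_congr rfl fun i _ => ?_
  ring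

omit [Fintype ι] [DecidableEq ι] in
theorem cm_mul (H : M2) (S R : ι → V) :
    cm (fun i => H *ᵥ S i) R = cm S (fun i => R i ᵥ* H) := by
  ext i j
  simp only [cm, dotProduct_mulVec]

theorem dot2 (r s : V) : r ⬝ᵥ s = r 0 * s 0 + r 1 * s 1 := by
  simp [dotProduct, Fin.sum_univ_two]

end Pool.Agent.MP_993212_an.H65
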