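import Pool.Agent.MP_993212_an.H65.Frame

namespace Pool.Agent.MP_993212_an.H65

open Matrix Pool.Agent.MP_993212_an.H12

variable {T : M2} {lam mu : ℝ}

theorem exists_frame (hs : lam + mu ≠ 0) (hirr : Irrational lam)
    (ht : (T 0 0 : ℝ) + T 1 1 = lam - mu)
    (hd : (T 0 0 : ℝ) * T 1 1 - T 0 1 * T 1 0 = - (lam * mu)) : ∃ F : Fr, F.Is T lam mu := by
  have hbc : (lam - T 0 0) * (lam - T 1 1) = T 0 1 * T 1 0 := by
    linear_combination hd - lam * ht
  have hc : (T 1 0 : ℝ) ≠ 0 := by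
    intro h0
    rw [h0, mul_zero] at hbc
    rcases mul_eq_zero.mp hbc with h | h
    · exact hirr.ne_int _ (sub_eq_zero.mp h)
    · exact hirr.ne_int _ (sub_eq_zero.mp h)
  refine ⟨⟨![T 1 0, lam - T 0 0], ![1 / (lam + mu), (-mu - T 0 0) / (T 1 0 * (lam + mu))],
    ![(mu + T 0 0) / (T 1 0 * (lam + mu)), 1 / (lam + mu)], ![lam - T 0 0, -T 1 0]⟩,
    fun i j => ?_, fun i j => ?_, ?_⟩
  · fin_cases i <;> fin_cases j <;> simp <;> field_simp <;> ring
  · fin_cases i <;> fin_cases j <;> simp <;> field_simp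
    · ring
    · linear_combination (-(lam + mu)) * hbc - (lam + mu) * (lam - T 0 0) * ht
    · linear_combination (lam + mu) * ht
  · simp [Fr.e]
    right
    field_simp
    ring

theorem Fr.ext' {F F' : Fr} (h1 : ∀ i, F.x i = F'.x i) (h2 : ∀ i, F.y i = F'.y i)
    (h3 : ∀ i, F.p i = F'.p i) (h4 : ∀ i, F.q i = F'.q i) : F = F' := by
  cases F
  cases F'
  simp only [Fr.mk.injEq]
  exact ⟨funext h1, funext h2, funext h3, funext h4⟩

theorem Fr.Is.prop {F F' : Fr} (h : F.Is T lam mu) (h' : F'.Is T lam mu)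
    (hs : lam + mu ≠ 0) : ∃ a b : ℝ, (a * b) ^ 2 = 1 ∧ (∀ i, F'.x i = a * F.x i) ∧
      (∀ i, F'.y i = b * F.y i) ∧ (∀ i, F'.p i = a * b ^ 2 * F.p i) ∧
      ∀ i, F'.q i = a ^ 2 * b * F.q i := by
  have E : ∀ i j, lam * (F'.p i * F'.x j) - mu * (F'.q i * F'.y j) =
      lam * (F.p i * F.x j) - mu * (F.q i * F.y j) := fun i j => by rw [← h.hT, ← h'.hT]
  have e1 : F'.x 0 * F.q 0 + F'.x 1 * F.q 1 = 0 := by
    apply mul_left_cancel₀ hs
    linear_combination F'.x 0 * F.q 0 * E 0 0 + F'.x 0 * F.q 1 * E 0 1 + F'.x 1 * F.q 0 * E 1 0 +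
      F'.x 1 * F.q 1 * E 1 1 - lam * (F'.x 0 * F.q 0 + F'.x 1 * F.q 1) * h'.xp +
      mu * (F'.y 0 * F.q 0 + F'.y 1 * F.q 1) * h'.xq +
      lam * (F'.x 0 * F.p 0 + F'.x 1 * F.p 1) * h.xq -
      mu * (F'.x 0 * F.q 0 + F'.x 1 * F.q 1) * h.yq
  have e2 : F'.y 0 * F.p 0 + F'.y 1 * F.p 1 = 0 := by
    apply mul_left_cancel₀ hs
    linear_combination -(F'.y 0 * F.p 0 * E 0 0 + F'.y 0 * F.p 1 * E 0 1 +
      F'.y 1 * F.p 0 * E 1 0 + F'.y 1 * F.p 1 * E 1 1) +
      lam * (F'.x 0 * F.p 0 + F'.x 1 * F.p 1) * h'.yp -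
      mu * (F'.y 0 * F.p 0 + F'.y 1 * F.p 1) * h'.yq -
      lam * (F'.y 0 * F.p 0 + F'.y 1 * F.p 1) * h.xp +
      mu * (F'.y 0 * F.q 0 + F'.y 1 * F.q 1) * h.yp
  set a := F'.x 0 * F.p 0 + F'.x 1 * F.p 1 with ha
  set b := F'.y 0 * F.q 0 + F'.y 1 * F.q 1 with hb
  have x0 : F'.x 0 = a * F.x 0 := by
    rw [ha]
    linear_combination -F'.x 0 * h.o00 - F'.x 1 * h.o10 + F.y 0 * e1
  have x1 : F'.x 1 = a * F.x 1 := by
    rw [ha]
    linear_combination -F'.x 0 * h.o01 - F'.x 1 * h.o11 + F.y 1 * e1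
  have y0 : F'.y 0 = b * F.y 0 := by
    rw [hb]
    linear_combination -F'.y 0 * h.o00 - F'.y 1 * h.o10 + F.x 0 * e2
  have y1 : F'.y 1 = b * F.y 1 := by
    rw [hb]
    linear_combination -F'.y 0 * h.o01 - F'.y 1 * h.o11 + F.x 1 * e2
  clear_value a b
  have he : F'.e = a * b * F.e := by
    simp only [Fr.e]
    rw [x0, x1, y0, y1]
    ring
  have hab : (a * b) ^ 2 = 1 := by
    have d1 := h.det
    have d2 := h'.det
    rw [he, mul_pow, d1, mul_one] at d2
    exact d2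
  refine ⟨a, b, hab, fun i => ?_, fun i => ?_, fun i => ?_, fun i => ?_⟩
  · fin_cases i
    exacts [x0, x1]
  · fin_cases i
    exacts [y0, y1]
  · fin_cases i
    · show F'.p 0 = a * b ^ 2 * F.p 0
      rw [h'.p0, h.p0, he, y1]
      ring
    · show F'.p 1 = a * b ^ 2 * F.p 1
      rw [h'.p1, h.p1, he, y0]
      ring
  · fin_cases i
    · show F'.q 0 = a ^ 2 * b * F.q 0
      rw [h'.q0, h.q0, he, x1]
      ring
    · show F'.q 1 = a ^ 2 * b * F.q 1
      rw [h'.q1, h.q1, he, x0]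
      ring

theorem Fr.Is.unique {F F' : Fr} (h : F.Is T lam mu) (h' : F'.Is T lam mu)
    (hs : lam + mu ≠ 0) : ∃ k : ℝ, 0 < k ∧ (F' = F.sc k ∨ F' = (F.sc k).negx ∨ F' = (F.sc k).negy ∨
      F' = (F.sc k).negx.negy) := by
  obtain ⟨a, b, hab, hx, hy, hp, hq⟩ := h.prop h' hs
  have ha : a ≠ 0 := by
    rintro rfl
    simp at hab
  have hb : b = 1 / a ∨ b = -(1 / a) := by
    rcases mul_self_eq_one_iff.1 (by rw [← sq, hab] : a * b * (a * b) = 1) with e | e
    · left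
      field_simp
      linear_combination e
    · right
      field_simp
      linear_combination e
  rcases lt_or_gt_of_ne ha with h0 | h0
  · refine ⟨-a, by linarith, ?_⟩
    rcases hb with rfl | rfl
    · refine Or.inr (Or.inr (Or.inr (Fr.ext' ?_ ?_ ?_ ?_))) <;> intro i <;>
        simp only [hx, hy, hp, hq, Fr.sc, Fr.negx, Fr.negy] <;> field_simp
    · refine Or.inr (Or.inl (Fr.ext' ?_ ?_ ?_ ?_)) <;> intro i <;>
        simp only [hx, hy, hp, hq, Fr.sc, Fr.negx] <;> field_simp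
  · refine ⟨a, h0, ?_⟩
    rcases hb with rfl | rfl
    · refine Or.inl (Fr.ext' ?_ ?_ ?_ ?_) <;> intro i <;>
        simp only [hx, hy, hp, hq, Fr.sc] <;> field_simp
    · refine Or.inr (Or.inr (Or.inl (Fr.ext' ?_ ?_ ?_ ?_))) <;> intro i <;>
        simp only [hx, hy, hp, hq, Fr.sc, Fr.negy] <;> field_simp

theorem Fr.Is.coord {F : Fr} (h : F.Is T lam mu) (s : V) (i : Fin 2) :
    (s i : ℝ) = F.p i * F.X s + F.q i * F.Y s := by
  simp only [Fr.X, Fr.Y]
  fin_cases i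
  · show (s 0 : ℝ) = F.p 0 * _ + F.q 0 * _
    linear_combination -(s 0 : ℝ) * h.o00 - s 1 * h.o01
  · show (s 1 : ℝ) = F.p 1 * _ + F.q 1 * _
    linear_combination -(s 0 : ℝ) * h.o10 - s 1 * h.o11

theorem Fr.Is.X_ne {F : Fr} (h : F.Is T lam mu) (hirr : Irrational lam) {s : V} (hs : s ≠ 0) :
    F.X s ≠ 0 := by
  intro h0
  obtain ⟨i, hi⟩ := Function.ne_iff.mp hs
  have hi' : (s i : ℝ) ≠ 0 := by exact_mod_cast hi
  have e1 := h.coord s i
  have e2 := h.coord (T *ᵥ s) i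
  rw [h.X_mulVec, h.Y_mulVec] at e2
  rw [h0] at e1 e2
  apply hirr.ne_rational ((T 0 0 + T 1 1) * s i - (T *ᵥ s) i) (s i)
  rw [eq_div_iff hi']
  push_cast
  rw [h.trace]
  linear_combination e2 + mu * e1

theorem Fr.Is.Y_ne {F : Fr} (h : F.Is T lam mu) (hirr : Irrational lam) {s : V} (hs : s ≠ 0) :
    F.Y s ≠ 0 := by
  intro h0
  obtain ⟨i, hi⟩ := Function.ne_iff.mp hs
  have hi' : (s i : ℝ) ≠ 0 := by exact_mod_cast hi
  have e1 := h.coord s i
  have e2 := h.coord (T *ᵥ s) i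
  rw [h.X_mulVec, h.Y_mulVec] at e2
  rw [h0] at e1 e2
  apply hirr.ne_rational ((T *ᵥ s) i) (s i)
  rw [eq_div_iff hi']
  linear_combination lam * e1 - e2

theorem ZC.symm {A B : M2} (h : ZC A B) : ZC B A := by
  unfold ZC at h ⊢
  induction h with
  | refl => exact .refl
  | tail _ h ih =>
    obtain ⟨H, S, h1, h2⟩ := h
    exact .head ⟨S, H, h2, h1⟩ ih

theorem ZC.trace_det {A B : M2} (h : ZC A B) : A.trace = B.trace ∧ A.det = B.det := by
  unfold ZC at h
  induction h with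
  | refl => exact ⟨rfl, rfl⟩
  | tail _ h ih =>
    obtain ⟨H, S, h1, h2⟩ := h
    rw [ih.1, ih.2, h1, h2]
    exact ⟨trace_mul_comm _ _, det_mul_comm _ _⟩

/-- a subgroup of the plane lattice has two generators -/
theorem two_gen (N : Submodule ℤ V) :
    ∃ v ∈ N, ∃ w ∈ N, ∀ u ∈ N, ∃ m n : ℤ, u = m • v + n • w := by
  obtain ⟨a, ha⟩ := (IsPrincipalIdealRing.principal
    (N.map (LinearMap.proj (R := ℤ) (φ := fun _ : Fin 2 => ℤ) 0))).principal
  obtain ⟨b, hb⟩ := (IsPrincipalIdealRing.principal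
    (N.comap (LinearMap.single ℤ (fun _ : Fin 2 => ℤ) 1))).principal
  have ha' : a ∈ N.map (LinearMap.proj (R := ℤ) (φ := fun _ : Fin 2 => ℤ) 0) := by
    rw [ha]
    exact Submodule.mem_span_singleton_self a
  have hb' : b ∈ N.comap (LinearMap.single ℤ (fun _ : Fin 2 => ℤ) 1) := by
    rw [hb]
    exact Submodule.mem_span_singleton_self b
  obtain ⟨v, hv, hva⟩ := ha'
  refine ⟨v, hv, Pi.single 1 b, hb', fun u hu => ?_⟩
  have h1 : u 0 ∈ N.map (LinearMap.proj (R := ℤ) (φ := fun _ : Fin 2 => ℤ) 0) := ⟨u, hu, rfl⟩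
  rw [ha, Submodule.mem_span_singleton] at h1
  obtain ⟨m, hm⟩ := h1
  have hv0 : v 0 = a := hva
  have e : (Pi.single 1 (u 1 - m * v 1) : V) = u - m • v := by
    funext i
    fin_cases i
    · simp [hv0, ← hm]
    · simp
  have h2 : u 1 - m * v 1 ∈ N.comap (LinearMap.single ℤ (fun _ : Fin 2 => ℤ) 1) := by
    show (Pi.single 1 (u 1 - m * v 1) : V) ∈ N
    rw [e]
    exact N.sub_mem hu (N.smul_mem m hv)
  rw [hb, Submodule.mem_span_singleton] at h2
  obtain ⟨n, hn⟩ := h2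
  refine ⟨m, n, ?_⟩
  have e2 : n • (Pi.single 1 b : V) = Pi.single 1 (u 1 - m * v 1) := by
    rw [← hn, Pi.single_smul]
  rw [e2, e]
  abel

/-- a greatest common left divisor -/
theorem exists_gcd (R A : M2) :
    ∃ G P Q R1 A1 : M2, G = R * P + A * Q ∧ R = G * R1 ∧ A = G * A1 := by
  obtain ⟨v, hv, w, hw, h⟩ := two_gen (LinearMap.range R.mulVecLin ⊔ LinearMap.range A.mulVecLin)
  obtain ⟨_, ⟨p1, rfl⟩, _, ⟨q1, rfl⟩, e1⟩ := Submodule.mem_sup.mp hv
  obtain ⟨_, ⟨p2, rfl⟩, _, ⟨q2, rfl⟩, e2⟩ := Submodule.mem_sup.mp hw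
  have hR : ∀ j : Fin 2, ∃ m n : ℤ, R *ᵥ Pi.single j 1 = m • v + n • w := fun j =>
    h _ (Submodule.mem_sup_left ⟨Pi.single j 1, rfl⟩)
  have hA : ∀ j : Fin 2, ∃ m n : ℤ, A *ᵥ Pi.single j 1 = m • v + n • w := fun j =>
    h _ (Submodule.mem_sup_right ⟨Pi.single j 1, rfl⟩)
  choose m n hmn using hR
  choose m' n' hmn' using hA
  refine ⟨Matrix.of fun i j => ![v i, w i] j, Matrix.of fun i j => ![p1 i, p2 i] j,
    Matrix.of fun i j => ![q1 i, q2 i] j, Matrix.of ![m, n], Matrix.of ![m', n'], ?_, ?_, ?_⟩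
  · ext i j
    have a1 := congrFun e1 i
    have a2 := congrFun e2 i
    simp only [mulVecLin_apply, Pi.add_apply, mulVec, dotProduct, Fin.sum_univ_two] at a1 a2
    fin_cases j
    · simp [Matrix.mul_apply, Fin.sum_univ_two, ← a1]
    · simp [Matrix.mul_apply, Fin.sum_univ_two, ← a2]
  · ext i j
    have a1 := congrFun (hmn j) i
    simp only [mulVec_single_one, col_apply, Pi.add_apply, Pi.smul_apply, smul_eq_mul] at a1
    simp [Matrix.mul_apply, Fin.sum_univ_two, a1, mul_comm]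
  · ext i j
    have a1 := congrFun (hmn' j) i
    simp only [mulVec_single_one, col_apply, Pi.add_apply, Pi.smul_apply, smul_eq_mul] at a1
    simp [Matrix.mul_apply, Fin.sum_univ_two, a1, mul_comm]

theorem cancel_left {G X Y : M2} (hG : G.det ≠ 0) (h : G * X = G * Y) : X = Y := by
  have e : G.det • X = G.det • Y := by
    have := congrArg (fun Z => G.adjugate * Z) h
    simpa only [← Matrix.mul_assoc, adjugate_mul, Matrix.smul_mul, Matrix.one_mul] using this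
  exact smul_right_injective _ hG e

theorem zc_of_int (l : ℕ) : ∀ {A B R S : M2}, A.det ≠ 0 → A ^ l = R * S → A * R = R * B →
    ZC A B := by
  induction l with
  | zero =>
    intro A B R S _ h1 h2
    rw [pow_zero] at h1
    have h3 : S * R = 1 := mul_eq_one_comm.mp h1.symm
    refine Relation.ReflTransGen.single ⟨R, B * S, ?_, ?_⟩
    · rw [← Matrix.mul_assoc, ← h2, Matrix.mul_assoc, ← h1, Matrix.mul_one]
    · rw [Matrix.mul_assoc, h3, Matrix.mul_one]
  | succ l ih =>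
    intro A B R S hA h1 h2
    obtain ⟨G, P, Q, R1, A1, e1, e2, e3⟩ := exists_gcd R A
    have hG : G.det ≠ 0 := by
      intro h0
      apply hA
      rw [e3, det_mul, h0, zero_mul]
    have hi : A * G = G * (A1 * G) := by rw [← Matrix.mul_assoc, ← e3]
    refine Relation.ReflTransGen.head ⟨G, A1, e3, rfl⟩
      (ih (A := A1 * G) (R := R1) (S := B ^ l * P + S * Q) ?_ ?_ ?_)
    · rwa [det_mul_comm, ← e3]
    · apply cancel_left hG
      rw [← pow_inter hi l, ← Matrix.mul_assoc, ← e2, Matrix.mul_add, ← Matrix.mul_assoc,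
        ← Matrix.mul_assoc, ← pow_inter h2 l, ← h1, pow_succ]
      conv_lhs => rw [e1]
      rw [Matrix.mul_add, Matrix.mul_assoc, Matrix.mul_assoc]
    · apply cancel_left hG
      rw [← Matrix.mul_assoc, ← hi, Matrix.mul_assoc, ← e2, h2, ← Matrix.mul_assoc, ← e2]

theorem toZ_eq (A : N2) : toZ A = (Nat.castRingHom ℤ).mapMatrix A := rfl

/-- shift equivalence of nonsingular matrices is generated by elementary equivalences of integer
matrices of size two -/
theorem zc_of_se {A B : N2} (hA : (toZ A).det ≠ 0) (h : SE A B) : ZC (toZ A) (toZ B) := by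
  obtain ⟨l, R, S, -, h1, -, h2, -⟩ := h
  refine zc_of_int l (R := toZ R) (S := toZ S) hA ?_ ?_
  · simp only [toZ_eq]
    rw [← map_pow, ← map_mul, h1]
  · simp only [toZ_eq]
    rw [← map_mul, ← map_mul, h2]

end Pool.Agent.MP_993212_an.H65
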