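import Pool.Agent.MP_993212_an.H65.River
import Pool.Agent.MP_993212_an.H12.Code

namespace Pool.Agent.MP_993212_an.H65

open Matrix Pool.Agent.MP_993212_an.H12

def dzDec (M : ℕ) (s : List ℕ) : M2 := Matrix.of fun i j => (s.getD (2 * i + j) 0 : ℤ) - M

def dzEnc (M : ℕ) (T : M2) : List ℕ :=
  [(T 0 0 + M).toNat, (T 0 1 + M).toNat, (T 1 0 + M).toNat, (T 1 1 + M).toNat]

def dzBox (K : ℕ) : List (List ℕ) := lists 4 (List.range (K + 1))

def dzEq (M : ℕ) (t t' h s : List ℕ) : Bool :=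
  all2 2 (fun i j => t.getD (2 * i + j) 0 + M * (h.getD (2 * i) 0 + h.getD (2 * i + 1) 0) ==
    M + h.getD (2 * i) 0 * s.getD j 0 + h.getD (2 * i + 1) 0 * s.getD (2 + j) 0) &&
  all2 2 (fun i j => t'.getD (2 * i + j) 0 + M * (h.getD j 0 + h.getD (2 + j) 0) ==
    M + s.getD (2 * i) 0 * h.getD j 0 + s.getD (2 * i + 1) 0 * h.getD (2 + j) 0)

def dzEdge (N M : ℕ) (t t' : List ℕ) : Bool :=
  (dzBox N).any fun h => all1 4 (fun i => decide (h.getD i 0 ≤ N)) &&
    (dzBox (2 * M)).any fun s => dzEq M t t' h s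

def dzAdj (N M : ℕ) (t t' : List ℕ) : Bool :=
  decide (M < t.getD 1 0) && decide (M < t.getD 2 0) && decide (M < t'.getD 1 0) &&
    decide (M < t'.getD 2 0) && (dzEdge N M t t' || dzEdge N M t' t)

def dzMem (s : List ℕ) (L : List (List ℕ)) : Bool := L.any fun x => x == s

def dzReach (N M : ℕ) (a b : List ℕ) : Bool :=
  (lists (dzBox (2 * M)).length (dzBox (2 * M))).all fun L =>
    !(dzMem a L) || !(L.all fun s => (dzBox (2 * M)).all fun s' => !(dzAdj N M s s') || dzMem s' L)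
      || dzMem b L

def dzD (A : LL) : ℕ :=
  (ent A 0 0 - ent A 1 1) ^ 2 + (ent A 1 1 - ent A 0 0) ^ 2 + 4 * (ent A 0 1 * ent A 1 0)

def dzN (A : LL) : ℕ :=
  (ent A 0 0 * ent A 1 1 - ent A 0 1 * ent A 1 0) + (ent A 0 1 * ent A 1 0 - ent A 0 0 * ent A 1 1)

def dzM (A : LL) : ℕ := (2 * dzN A + 1) * (ent A 0 0 + ent A 1 1 + dzD A)

def dzCode (M : ℕ) (A : LL) : List ℕ :=
  [ent A 0 0 + M, ent A 0 1 + M, ent A 1 0 + M, ent A 1 1 + M]

def dzAll (p : LL × LL) : Bool :=
  all1 (dzD p.1 + 1) (fun r => !(r * r == dzD p.1)) && decide (0 < ent p.2 0 1) &&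
    decide (0 < ent p.2 1 0) &&
    dzReach (dzN p.1) (dzM p.1) (dzCode (dzM p.1) p.1) (dzCode (dzM p.1) p.2)

section Prim
variable {α : Type} [Primcodable α]

@[fun_prop] theorem P.dzBox {f : α → ℕ} (hf : Primrec f) : Primrec fun a => dzBox (f a) := by
  unfold H65.dzBox; fun_prop

@[fun_prop] theorem P.dzEq {M : α → ℕ} {t t' h s : α → List ℕ} (hM : Primrec M) (ht : Primrec t)
    (ht' : Primrec t') (hh : Primrec h) (hs : Primrec s) :
    Primrec fun a => dzEq (M a) (t a) (t' a) (h a) (s a) := by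
  unfold H65.dzEq; fun_prop

@[fun_prop] theorem P.dzEdge {N M : α → ℕ} {t t' : α → List ℕ} (hN : Primrec N) (hM : Primrec M)
    (ht : Primrec t) (ht' : Primrec t') : Primrec fun a => dzEdge (N a) (M a) (t a) (t' a) := by
  unfold H65.dzEdge; fun_prop

@[fun_prop] theorem P.dzAdj {N M : α → ℕ} {t t' : α → List ℕ} (hN : Primrec N) (hM : Primrec M)
    (ht : Primrec t) (ht' : Primrec t') : Primrec fun a => dzAdj (N a) (M a) (t a) (t' a) := by
  unfold H65.dzAdj; fun_prop

@[fun_prop] theorem P.dzMem {s : α → List ℕ} {L : α → List (List ℕ)} (hs : Primrec s)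
    (hL : Primrec L) : Primrec fun a => dzMem (s a) (L a) := by
  unfold H65.dzMem; fun_prop

@[fun_prop] theorem P.dzReach {N M : α → ℕ} {t t' : α → List ℕ} (hN : Primrec N) (hM : Primrec M)
    (ht : Primrec t) (ht' : Primrec t') : Primrec fun a => dzReach (N a) (M a) (t a) (t' a) := by
  unfold H65.dzReach; fun_prop

@[fun_prop] theorem P.dzD {A : α → LL} (hA : Primrec A) : Primrec fun a => dzD (A a) := by
  unfold H65.dzD; fun_prop

@[fun_prop] theorem P.dzN {A : α → LL} (hA : Primrec A) : Primrec fun a => dzN (A a) := by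
  unfold H65.dzN; fun_prop

@[fun_prop] theorem P.dzM {A : α → LL} (hA : Primrec A) : Primrec fun a => dzM (A a) := by
  unfold H65.dzM; fun_prop

@[fun_prop] theorem P.dzCode {M : α → ℕ} {A : α → LL} (hM : Primrec M) (hA : Primrec A) :
    Primrec fun a => dzCode (M a) (A a) := by
  unfold H65.dzCode; fun_prop

theorem dzAll_prim : Primrec dzAll := by
  unfold dzAll; fun_prop

end Prim

theorem dz_dec_enc {M : ℕ} {T : M2} (h : ∀ i j, |T i j| ≤ M) : dzDec M (dzEnc M T) = T := by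
  ext i j
  have := abs_le.mp (h i j)
  fin_cases i <;> fin_cases j <;> simp [dzDec, dzEnc] at this ⊢ <;> omega

theorem dz_enc_mem {M K : ℕ} {T : M2} (h : ∀ i j, T i j + M ≤ K) : dzEnc M T ∈ dzBox K := by
  apply mem_lists (List.range (K + 1)) (dzEnc M T)
  have h1 := h 0 0
  have h2 := h 0 1
  have h3 := h 1 0
  have h4 := h 1 1
  simp only [dzEnc, List.mem_cons, List.mem_range, List.not_mem_nil, or_false]
  rintro x (rfl | rfl | rfl | rfl) <;> omega

theorem dzEq_iff {M : ℕ} {t t' h s : List ℕ} : dzEq M t t' h s = true ↔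
    dzDec M t = dzDec 0 h * dzDec M s ∧ dzDec M t' = dzDec M s * dzDec 0 h := by
  simp only [dzEq, Bool.and_eq_true, all2_iff, beq_iff_eq, ← Matrix.ext_iff, Matrix.mul_apply,
    Fin.sum_univ_two, dzDec, Matrix.of_apply]
  refine and_congr (forall₂_congr fun i j => ?_) (forall₂_congr fun i j => ?_)
  · zify
    simp only [Fin.val_zero, Fin.val_one, add_zero, mul_zero, zero_add, mul_one, sub_zero]
    constructor <;> intro h <;> linear_combination h
  · zify
    simp only [Fin.val_zero, Fin.val_one, add_zero, mul_zero, zero_add, mul_one, sub_zero]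
    constructor <;> intro h <;> linear_combination h

theorem dzEdge_sound {N M : ℕ} {t t' : List ℕ} (h : dzEdge N M t t' = true) :
    Edge N (dzDec M t) (dzDec M t') := by
  simp only [dzEdge, List.any_eq_true, Bool.and_eq_true, all1_iff, decide_eq_true_eq] at h
  obtain ⟨h, -, h1, s, -, h2⟩ := h
  refine ⟨_, _, fun i j => ?_, dzEq_iff.mp h2⟩
  have := h1 ⟨2 * i + j, by omega⟩
  simp only [dzDec, Matrix.of_apply] at this ⊢
  omega

theorem dzEdge_complete {N K M : ℕ} {t t' : List ℕ} (hM : 2 * N * K ≤ M)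
    (hK : ∀ i j, |dzDec M t i j| ≤ K) (hd : (dzDec M t).det ≠ 0)
    (h : Edge N (dzDec M t) (dzDec M t')) : dzEdge N M t t' = true := by
  obtain ⟨H, S, hH, h1, h2⟩ := h
  have hH' : ∀ i j, |H i j| ≤ N := fun i j => by rw [abs_of_nonneg (hH i j).1]; exact (hH i j).2
  have hdH : H.det ≠ 0 := fun h0 => hd (by rw [h1, det_mul, h0, zero_mul])
  have hS : ∀ i j, |S i j| ≤ M := by
    intro i j
    have h3 : H.det • S = H.adjugate * dzDec M t := by
      rw [h1, ← Matrix.mul_assoc, adjugate_mul, smul_mul_assoc, Matrix.one_mul]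
    have h4 : H.det * S i j = H.adjugate i 0 * dzDec M t 0 j + H.adjugate i 1 * dzDec M t 1 j := by
      have := congrFun (congrFun h3 i) j
      simpa [Matrix.mul_apply, Fin.sum_univ_two] using this
    have h5 : ∀ k, |H.adjugate i k| ≤ N := by
      intro k
      rw [adjugate_fin_two]
      fin_cases i <;> fin_cases k <;> simp [hH']
    have h6 : ∀ k, |H.adjugate i k * dzDec M t k j| ≤ N * K := fun k => by
      rw [abs_mul]
      exact mul_le_mul (h5 k) (hK k j) (abs_nonneg _) (Nat.cast_nonneg _)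
    have h7 : |S i j| ≤ |H.det * S i j| := by
      rw [abs_mul]
      exact le_mul_of_one_le_left (abs_nonneg _) (Int.one_le_abs hdH)
    have h8 : ((2 * N * K : ℕ) : ℤ) ≤ M := by exact_mod_cast hM
    rw [h4] at h7
    have h9 := abs_add_le (H.adjugate i 0 * dzDec M t 0 j) (H.adjugate i 1 * dzDec M t 1 j)
    push_cast at h8
    linarith [h6 0, h6 1]
  have e1 : dzDec 0 (dzEnc 0 H) = H := by
    ext i j
    have := (hH i j).1
    fin_cases i <;> fin_cases j <;> simp [dzDec, dzEnc] at this ⊢ <;> omega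
  simp only [dzEdge, List.any_eq_true, Bool.and_eq_true, all1_iff, decide_eq_true_eq]
  refine ⟨dzEnc 0 H, dz_enc_mem fun i j => by simpa using (hH i j).2, fun i => ?_, dzEnc M S,
    dz_enc_mem fun i j => by have := abs_le.mp (hS i j); push_cast; omega, ?_⟩
  · have a1 := hH 0 0
    have a2 := hH 0 1
    have a3 := hH 1 0
    have a4 := hH 1 1
    fin_cases i <;> simp [dzEnc] <;> omega
  · rw [dzEq_iff, e1, dz_dec_enc hS]
    exact ⟨h1, h2⟩

theorem dz_rr {M : ℕ} {t : List ℕ} : RR (dzDec M t) ↔ M < t.getD 1 0 ∧ M < t.getD 2 0 := by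
  simp [RR, dzDec]

theorem dzAdj_sound {N M : ℕ} {t t' : List ℕ} (h : dzAdj N M t t' = true) :
    Adj N (dzDec M t) (dzDec M t') := by
  simp only [dzAdj, Bool.and_eq_true, decide_eq_true_eq, Bool.or_eq_true] at h
  obtain ⟨⟨⟨⟨h1, h2⟩, h3⟩, h4⟩, h5⟩ := h
  exact ⟨dz_rr.mpr ⟨h1, h2⟩, dz_rr.mpr ⟨h3, h4⟩, h5.imp dzEdge_sound dzEdge_sound⟩

theorem dz_disc (T : M2) : disc T = T.trace ^ 2 - 4 * T.det := by
  rw [disc, trace_fin_two, det_fin_two]
  ring

theorem dz_adj_inv {N : ℤ} {T T' : M2} (h : Adj N T T') : T.trace = T'.trace ∧ T.det = T'.det := by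
  rcases h.2.2 with ⟨H, S, -, h1, h2⟩ | ⟨H, S, -, h1, h2⟩ <;> rw [h1, h2] <;>
    exact ⟨trace_mul_comm _ _, det_mul_comm _ _⟩

theorem dz_bound {T : M2} {t D : ℕ} (h : RR T) (ht : T.trace = t) (hD : disc T = D) (i j : Fin 2) :
    |T i j| ≤ ((t + D : ℕ) : ℤ) := by
  obtain ⟨h1, h2⟩ := h
  rw [trace_fin_two] at ht
  rw [disc] at hD
  have h3 : |T 0 0 - T 1 1| ≤ (T 0 0 - T 1 1) ^ 2 := by
    rw [← sq_abs]
    exact Int.le_self_sq _
  have h4 : T 0 1 ≤ T 0 1 * T 1 0 := le_mul_of_one_le_right h1.le h2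
  have h5 : T 1 0 ≤ T 0 1 * T 1 0 := le_mul_of_one_le_left h2.le h1
  have h6 := abs_le.mp h3
  have h7 := sq_nonneg (T 0 0 - T 1 1)
  have h8 : (0 : ℤ) ≤ t := Nat.cast_nonneg t
  rw [abs_le]
  push_cast
  fin_cases i <;> fin_cases j <;> simp only [Fin.zero_eta, Fin.mk_one] <;> constructor <;> linarith

theorem dzMem_iff {s : List ℕ} {L : List (List ℕ)} : dzMem s L = true ↔ s ∈ L := by
  simp [dzMem]

theorem dzReach_iff {N t D M : ℕ} {A B : M2} (hM : M = (2 * N + 1) * (t + D)) (hA : RR A)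
    (ht : A.trace = t) (hD : disc A = D) (hd : A.det ≠ 0)
    (hB : dzDec M (dzEnc M B) = B) :
    dzReach N M (dzEnc M A) (dzEnc M B) = true ↔ Relation.ReflTransGen (Adj N) A B := by
  classical
  have hK : ((t + D : ℕ) : ℤ) ≤ M := by
    rw [hM]
    exact_mod_cast Nat.le_mul_of_pos_left _ (by omega)
  have inv : ∀ T, Relation.ReflTransGen (Adj N) A T →
      RR T ∧ T.trace = A.trace ∧ T.det = A.det := by
    intro T h
    induction h with
    | refl => exact ⟨hA, rfl, rfl⟩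
    | tail _ h ih => exact ⟨h.2.1, (dz_adj_inv h).1 ▸ ih.2.1, (dz_adj_inv h).2 ▸ ih.2.2⟩
  have bd : ∀ T, Relation.ReflTransGen (Adj N) A T → ∀ i j, |T i j| ≤ ((t + D : ℕ) : ℤ) := by
    intro T h
    obtain ⟨h1, h2, h3⟩ := inv T h
    exact dz_bound h1 (h2.trans ht) (by rw [dz_disc, h2, h3, ← dz_disc, hD])
  have de : ∀ T, Relation.ReflTransGen (Adj N) A T → dzDec M (dzEnc M T) = T := fun T h =>
    dz_dec_enc fun i j => (bd T h i j).trans hK
  have bx : ∀ T, Relation.ReflTransGen (Adj N) A T → dzEnc M T ∈ dzBox (2 * M) := fun T h =>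
    dz_enc_mem fun i j => by
      have := abs_le.mp ((bd T h i j).trans hK)
      push_cast
      omega
  have e : ∀ a b c : Prop, ((a → ¬ b) ∨ c) ↔ (a → b → c) := fun a b c => by tauto
  simp only [dzReach, List.all_eq_true, Bool.or_eq_true, Bool.not_eq_true', dzMem_iff,
    ← Bool.not_eq_true, ← imp_iff_not_or, e]
  constructor
  · intro h
    let f : List ℕ → List ℕ := fun s =>
      if Relation.ReflTransGen (Adj N) A (dzDec M s) then s else dzEnc M A
    have h1 : ∀ s ∈ (dzBox (2 * M)).map f,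
        s ∈ dzBox (2 * M) ∧ Relation.ReflTransGen (Adj N) A (dzDec M s) := by
      intro s hs
      obtain ⟨s0, h0, rfl⟩ := List.mem_map.mp hs
      by_cases hr : Relation.ReflTransGen (Adj N) A (dzDec M s0)
      · simp only [f, if_pos hr]
        exact ⟨h0, hr⟩
      · simp only [f, if_neg hr]
        exact ⟨bx A .refl, by rw [de A .refl]⟩
    have h2 : ∀ s ∈ dzBox (2 * M), Relation.ReflTransGen (Adj N) A (dzDec M s) →
        s ∈ (dzBox (2 * M)).map f := fun s hs hr => List.mem_map.mpr ⟨s, hs, if_pos hr⟩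
    have h3 := mem_lists (dzBox (2 * M)) _ fun s hs => (h1 s hs).1
    rw [List.length_map] at h3
    have h4 := h _ h3 (h2 _ (bx A .refl) (by rw [de A .refl]))
      (fun s hs s' hs' ha => h2 s' hs' ((h1 s hs).2.tail (dzAdj_sound ha)))
    exact hB ▸ (h1 _ h4).2
  · intro h L _ ha hc
    clear hB
    induction h with
    | refl => exact ha
    | @tail T T' h1 h2 ih =>
      have h3 := h1.tail h2
      apply hc _ ih _ (bx T' h3)
      have hN : 2 * N * (t + D) ≤ M := by rw [hM]; exact Nat.mul_le_mul_right _ (by omega)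
      have r1 := dz_rr.mp ((de T h1).symm ▸ h2.1)
      have r2 := dz_rr.mp ((de T' h3).symm ▸ h2.2.1)
      simp only [dzAdj, Bool.and_eq_true, decide_eq_true_eq, Bool.or_eq_true]
      refine ⟨⟨⟨r1, r2.1⟩, r2.2⟩, h2.2.2.imp (fun e => ?_) (fun e => ?_)⟩
      · refine dzEdge_complete hN ?_ ?_ ?_ <;> rw [de T h1]
        · exact bd T h1
        · rwa [(inv T h1).2.2]
        · rwa [de T' h3]
      · refine dzEdge_complete hN ?_ ?_ ?_ <;> rw [de T' h3]
        · exact bd T' h3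
        · rwa [(inv T' h3).2.2]
        · rwa [de T h1]

theorem dz_sq (a d : ℕ) : ((a - d : ℕ) : ℤ) ^ 2 + ((d - a : ℕ) : ℤ) ^ 2 = ((a : ℤ) - d) ^ 2 := by
  rcases le_total a d with h | h
  · rw [Nat.sub_eq_zero_of_le h, Nat.cast_sub h]
    push_cast
    ring
  · rw [Nat.sub_eq_zero_of_le h, Nat.cast_sub h]
    push_cast
    ring

theorem dz_rr_of {A : N2} (h : ¬ IsSquare (disc (toZ A))) : RR (toZ A) := by
  by_contra hn
  apply h
  have : toZ A 0 1 * toZ A 1 0 = 0 := by
    simp only [RR, toZ, not_and_or, not_lt] at hn ⊢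
    rcases hn with h | h
    · rw [le_antisymm h (Nat.cast_nonneg _), zero_mul]
    · rw [le_antisymm h (Nat.cast_nonneg _), mul_zero]
  rw [disc, this]
  exact ⟨_, by rw [mul_zero, add_zero, sq]⟩

/-- the integer equivalence of matrices of size two with nonsquare discriminant is decidable -/
theorem decide_zc : ComputablePred fun p : LL × LL =>
    ¬ IsSquare (disc (toZ (toM 2 2 p.1))) ∧ ZC (toZ (toM 2 2 p.1)) (toZ (toM 2 2 p.2)) := by
  refine ComputablePred.computable_iff.mpr ⟨dzAll, dzAll_prim.to_comp, funext fun p => propext ?_⟩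
  obtain ⟨A, B⟩ := p
  have hD : disc (toZ (toM 2 2 A)) = dzD A := by
    simp only [disc, dzD, toZ, toM, Matrix.of_apply, Fin.val_zero, Fin.val_one]
    push_cast
    rw [dz_sq]
  have hN : |(toZ (toM 2 2 A)).det| = dzN A := by
    simp only [det_fin_two, dzN, toZ, toM, Matrix.of_apply, Fin.val_zero, Fin.val_one]
    rw [← Nat.cast_mul, ← Nat.cast_mul]
    generalize ent A 0 0 * ent A 1 1 = u
    generalize ent A 0 1 * ent A 1 0 = v
    rcases le_total u v with h | h
    · rw [abs_of_nonpos (by omega)]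
      omega
    · rw [abs_of_nonneg (by omega)]
      omega
  have ht : (toZ (toM 2 2 A)).trace = ((ent A 0 0 + ent A 1 1 : ℕ) : ℤ) := by
    simp [trace_fin_two, toZ, toM]
  have hsq : (all1 (dzD A + 1) (fun r => !(r * r == dzD A)) = true) ↔
      ¬ IsSquare (disc (toZ (toM 2 2 A))) := by
    rw [hD, Int.isSquare_natCast_iff, all1_iff]
    simp only [Bool.not_eq_true', beq_eq_false_iff_ne]
    constructor
    · rintro h ⟨r, hr⟩
      exact h ⟨r, by have := Nat.le_mul_self r; omega⟩ hr.symm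
    · exact fun h r hr => h ⟨r, hr.symm⟩
  have hc : ∀ (M : ℕ) (X : LL), dzCode M X = dzEnc M (toZ (toM 2 2 X)) := by
    intro M X
    simp only [dzCode, dzEnc, toZ, toM, Matrix.of_apply, Fin.val_zero, Fin.val_one,
      ← Nat.cast_add, Int.toNat_natCast]
  have hB : dzDec (dzM A) (dzEnc (dzM A) (toZ (toM 2 2 B))) = toZ (toM 2 2 B) := by
    rw [← hc]
    ext i j
    fin_cases i <;> fin_cases j <;> simp [dzDec, dzCode, toZ, toM]
  have hrr : RR (toZ (toM 2 2 B)) ↔ 0 < ent B 0 1 ∧ 0 < ent B 1 0 := by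
    simp [RR, toZ, toM]
  simp only [dzAll, Bool.and_eq_true, decide_eq_true_eq, hsq, hc, and_assoc]
  refine and_congr_right fun hns => ?_
  have hA := dz_rr_of hns
  have hd : (toZ (toM 2 2 A)).det ≠ 0 := fun h0 =>
    hns ⟨(toZ (toM 2 2 A)).trace, by rw [dz_disc, h0]; ring⟩
  rw [dzReach_iff (M := dzM A) (N := dzN A) rfl hA ht hD hd hB, ← hN, ← and_assoc, ← hrr]
  constructor
  · intro h
    have h1 : RR (toZ (toM 2 2 B)) := dz_rr_of (by
      rwa [dz_disc, ← h.trace_det.1, ← h.trace_det.2, ← dz_disc])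
    exact ⟨h1, (zc_iff_adj hA h1 hns).mp h⟩
  · exact fun h => (zc_iff_adj hA h.1 hns).mpr h.2

end Pool.Agent.MP_993212_an.H65
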