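import Pool.Agent.MP_993212_an.H12.Basic

namespace Pool.Agent.MP_993212_an.H65

open Matrix Pool.Agent.MP_993212_an.H12

abbrev V := Fin 2 → ℤ
abbrev M2 := Matrix (Fin 2) (Fin 2) ℤ
abbrev N2 := Matrix (Fin 2) (Fin 2) ℕ

/-- a nonnegative matrix as an integer matrix -/
def toZ (A : N2) : M2 := fun i j => (A i j : ℤ)

def det2 (s t : V) : ℤ := s 0 * t 1 - s 1 * t 0

/-- the matrix of a configuration with types `S i` and covectors `R i` -/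
def cm {ι d : Type} [Fintype d] (S R : ι → d → ℤ) : Matrix ι ι ℕ :=
  fun i j => (R i ⬝ᵥ S j).toNat

/-- the tensor `∑ S i ⊗ R i` -/
def ten {ι : Type} [Fintype ι] (S R : ι → V) : M2 := fun a b => ∑ i, S i a * R i b

/-- real coordinates: `x, y` on vectors, `p, q` on covectors -/
structure Fr where
  x : Fin 2 → ℝ
  y : Fin 2 → ℝ
  p : Fin 2 → ℝ
  q : Fin 2 → ℝ

namespace Fr

def X (F : Fr) (s : V) : ℝ := F.x 0 * s 0 + F.x 1 * s 1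
def Y (F : Fr) (s : V) : ℝ := F.y 0 * s 0 + F.y 1 * s 1
def dual (F : Fr) : Fr := ⟨F.p, F.q, F.x, F.y⟩
noncomputable def sc (F : Fr) (k : ℝ) : Fr :=
  ⟨fun i => k * F.x i, fun i => F.y i / k, fun i => F.p i / k, fun i => k * F.q i⟩
def negx (F : Fr) : Fr := ⟨fun i => - F.x i, F.y, fun i => - F.p i, F.q⟩
def negy (F : Fr) : Fr := ⟨F.x, fun i => - F.y i, F.p, fun i => - F.q i⟩
/-- the frame of `S * H` induced by a frame of `H * S`; here `g ^ 2 = |det H|` -/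
noncomputable def pull (F : Fr) (lam mu : ℝ) (H S : M2) (g : ℝ) : Fr :=
  ⟨fun j => (F.x 0 * H 0 j + F.x 1 * H 1 j) / g, fun j => (F.y 0 * H 0 j + F.y 1 * H 1 j) / g,
    fun i => g / lam * (S i 0 * F.p 0 + S i 1 * F.p 1),
    fun i => - (g / mu) * (S i 0 * F.q 0 + S i 1 * F.q 1)⟩
/-- orientation sign -/
def e (F : Fr) : ℝ := F.x 0 * F.y 1 - F.x 1 * F.y 0

/-- `F` is a unimodular eigenframe of `T` with eigenvalues `lam`, `-mu` -/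
structure Is (F : Fr) (T : M2) (lam mu : ℝ) : Prop where
  one : ∀ i j, F.p i * F.x j + F.q i * F.y j = if i = j then 1 else 0
  hT : ∀ i j, (T i j : ℝ) = lam * (F.p i * F.x j) - mu * (F.q i * F.y j)
  det : F.e ^ 2 = 1

def InCone (F : Fr) (ap am : ℝ) (s : V) : Prop :=
  0 ≤ F.X s ∧ F.Y s ≤ ap * F.X s ∧ - F.Y s ≤ am * F.X s

/-- a configuration for `T` with margins -/
def Mar (F : Fr) (T : M2) (h : ℝ) (S R : Fin 4 → V) : Prop :=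
  ten S R = T ∧ (∀ j, F.InCone (1 - h) (1 - h) (S j)) ∧ ∀ j, F.dual.InCone (1 - h) (1 - h) (R j)

/-- a central configuration -/
def Cen (F : Fr) (T : M2) (h A : ℝ) (S R : Fin 4 → V) : Prop :=
  F.Mar T h S R ∧ ∃ j, A ≤ F.X (S j) ∧ A ≤ F.dual.X (R j)

def Bal (F : Fr) (E : ℝ) : Prop :=
  ∃ z f : V, det2 z f = 1 ∧ |F.X z| ≤ E ∧ |F.Y z| ≤ E ∧ |F.X f| ≤ E ∧ |F.Y f| ≤ E

def Good (F : Fr) (e : ℝ) : Prop := ∀ s : V, s ≠ 0 → e ≤ |F.X s| ∨ e ≤ |F.Y s|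

def Cover (F : Fr) (E : ℝ) : Prop := ∀ a b : ℝ, ∃ s : V, |F.X s - a| ≤ E ∧ |F.Y s - b| ≤ E

/-- a base family: a unimodular pair `0, 1`, an upper extreme `2`, a lower extreme `3` -/
structure Base (F : Fr) (Z ap am Ap Am : ℝ) (S : Fin 4 → V) : Prop where
  uni : det2 (S 0) (S 1) ^ 2 = 1
  size : ∀ i, F.X (S i) ≤ Z
  cone : ∀ i, F.InCone Ap Am (S i)
  pos2 : 0 < F.X (S 2)
  pos3 : 0 < F.X (S 3)
  ext2 : ap * F.X (S 2) ≤ F.Y (S 2)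
  ext3 : am * F.X (S 3) ≤ - F.Y (S 3)

/-- decomposition of a configuration along base families, with a deep block -/
def Dec (F : Fr) (Z Ap Am Bp Bm : ℝ) (S0 R0 S R : Fin 4 → V) : Prop :=
  ∃ (n m : Fin 4 → Fin 4 → ℕ) (S' R' : Fin 4 → V),
    (∀ j, S j = ∑ i, n j i • S0 i + S' j) ∧ (∀ j, R j = ∑ i, m j i • R0 i + R' j) ∧
    (∀ j, F.InCone Ap Am (S' j) ∧ F.X (S' j) ≤ Z ^ 7) ∧
    (∀ j, F.dual.InCone Bp Bm (R' j) ∧ F.dual.X (R' j) ≤ Z ^ 7) ∧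
    ∀ a b : Fin 4, (a = 0 ∨ a = 1) → (b = 0 ∨ b = 1) →
      2 * Z ^ 17 ≤ ((∑ j, n j a * m j b : ℕ) : ℝ)

end Fr

/-- the gap hypothesis -/
structure Par (K lam mu : ℝ) : Prop where
  hK : 10000 ≤ K
  mu_ne : mu ≠ 0
  abs_gap : |mu| ≤ (1 - 10 / K) * lam

/-- the canonical matrices attached to `T` -/
def KM (T : M2) (K lam mu : ℝ) : Set (Matrix (Fin 4) (Fin 4) ℕ) :=
  {C | ∃ (F : Fr) (S R : Fin 4 → V), F.Is T lam mu ∧ F.Good (1 / K ^ 4) ∧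
    F.Cen T (1 / K) (K ^ 308) S R ∧ C = cm S R}

/-- chains of elementary equivalences over the integers -/
def ZC : M2 → M2 → Prop := Relation.ReflTransGen fun T T' => ∃ H S : M2, T = H * S ∧ T' = S * H

/-- data of the two-level family -/
structure UD where
  g : ℤ
  a1 : ℤ
  b1 : ℤ
  c : ℤ
  d : ℤ
  k : ℤ
  y : ℤ

namespace UD

def A (D : UD) : M2 := !![D.g * D.a1 + D.k, D.g * D.b1 + D.y; D.c, D.d]
def S (i j : ℤ) : Fin 4 → Fin 3 → ℤ := ![![-i, 0, 1], ![j, 0, -1], ![1, 0, 0], ![0, 1, 0]]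
def r1 (D : UD) : Fin 3 → ℤ := ![D.g * D.a1, D.a1, D.b1]
def r2 (D : UD) : Fin 3 → ℤ := ![D.g * D.k, D.k, D.y]
def rF (D : UD) : Fin 3 → ℤ := ![D.g * D.c, D.c, D.d]
def R (D : UD) (i j : ℤ) (w : Fin 3 → ℤ) : Fin 4 → Fin 3 → ℤ :=
  ![w + D.rF, w, D.r1 + i • D.rF - (j - i) • w, D.r2]
def Up (D : UD) (i j : ℤ) (w : Fin 3 → ℤ) : Prop :=
  (∀ s t, 0 ≤ D.R i j w s ⬝ᵥ S i j t) ∧ (j - i) ^ 2 ≤ D.R i j w 2 ⬝ᵥ S i j 0 ∧
    (j - i) ^ 2 ≤ D.R i j w 2 ⬝ᵥ S i j 1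
def C (D : UD) (i j : ℤ) (w : Fin 3 → ℤ) : Matrix (Fin 4) (Fin 4) ℕ := cm (S i j) (D.R i j w)

/-- the real data attached to the family: `u = (lam - a) / c`, `W = (lam + mu) / c` -/
structure OK (D : UD) (K lam mu u W : ℝ) : Prop where
  g_lo : K ^ 4 ≤ D.g
  g_hi : (D.g : ℝ) ≤ 2 * K ^ 4
  k_lo : 1 ≤ D.k
  k_hi : D.k ≤ D.g
  y_lo : D.k * u - D.g ≤ D.y
  y_hi : (D.y : ℝ) ≤ D.k * u
  c_lo : 1 ≤ D.c
  ha : (D.g * D.a1 + D.k : ℝ) = lam - D.c * u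
  hd : (D.d : ℝ) = lam - D.c * (W - u)
  hb : (D.g * D.b1 + D.y : ℝ) = D.c * u * (W - u)
  hW : D.c * W = lam + mu
  mid : |2 * u - W| ≤ 1

end UD

end Pool.Agent.MP_993212_an.H65
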