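import Pool.Agent.MP_993212_an.H65.Cfg

namespace Pool.Agent.MP_993212_an.H65

open Matrix Pool.Agent.MP_993212_an.H12

namespace UD

variable (D : UD)

theorem engU_dot3 (r s : Fin 3 → ℤ) : r ⬝ᵥ s = r 0 * s 0 + r 1 * s 1 + r 2 * s 2 := by
  simp [dotProduct, Fin.sum_univ_three]

/-- nonnegativity of a covector on the four types -/
theorem engU_pos {i j : ℤ} (hij : i < j) (r : Fin 3 → ℤ) (h0 : 0 ≤ r 2 - i * r 0)
    (h1 : 0 ≤ j * r 0 - r 2) (h3 : 0 ≤ r 1) : ∀ t, 0 ≤ r ⬝ᵥ S i j t := by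
  have h2 : 0 ≤ r 0 := by
    by_contra hn
    push Not at hn
    nlinarith
  intro t
  fin_cases t <;> rw [engU_dot3] <;> simp [S] <;> linarith

theorem engU_S0 (i j : ℤ) (r : Fin 3 → ℤ) : r ⬝ᵥ S i j 0 = r 2 - i * r 0 := by
  rw [engU_dot3]; simp [S]; ring

theorem engU_S1 (i j : ℤ) (r : Fin 3 → ℤ) : r ⬝ᵥ S i j 1 = j * r 0 - r 2 := by
  rw [engU_dot3]; simp [S]; ring

theorem engU_S3 (i j : ℤ) (r : Fin 3 → ℤ) : r ⬝ᵥ S i j 3 = r 1 := by
  rw [engU_dot3]; simp [S]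

theorem engU_e0 (i j : ℤ) (w : Fin 3 → ℤ) (a : Fin 3) : D.R i j w 0 a = w a + D.rF a := rfl
theorem engU_e1 (i j : ℤ) (w : Fin 3 → ℤ) (a : Fin 3) : D.R i j w 1 a = w a := rfl
theorem engU_e2 (i j : ℤ) (w : Fin 3 → ℤ) (a : Fin 3) :
    D.R i j w 2 a = D.r1 a + i * D.rF a - (j - i) * w a := rfl
theorem engU_e3 (i j : ℤ) (w : Fin 3 → ℤ) (a : Fin 3) : D.R i j w 3 a = D.r2 a := rfl
theorem engU_f0 : D.rF 0 = D.g * D.c := rfl
theorem engU_f1 : D.rF 1 = D.c := rfl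
theorem engU_f2 : D.rF 2 = D.d := rfl
theorem engU_g0 : D.r1 0 = D.g * D.a1 := rfl
theorem engU_g1 : D.r1 1 = D.a1 := rfl
theorem engU_g2 : D.r1 2 = D.b1 := rfl
theorem engU_k0 : D.r2 0 = D.g * D.k := rfl
theorem engU_k1 : D.r2 1 = D.k := rfl
theorem engU_k2 : D.r2 2 = D.y := rfl

/-- explicit description of upper states -/
theorem engU_up_iff {i j : ℤ} (hij : i < j) (w : Fin 3 → ℤ) : D.Up i j w ↔
    (0 ≤ w 2 - i * w 0 ∧ 0 ≤ j * w 0 - w 2 ∧ 0 ≤ w 1) ∧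
    (0 ≤ w 2 - i * w 0 + (D.d - i * D.g * D.c) ∧ 0 ≤ j * w 0 - w 2 + (j * D.g * D.c - D.d) ∧
      0 ≤ w 1 + D.c) ∧
    ((j - i) ^ 2 ≤ D.b1 - i * D.g * D.a1 + i * (D.d - i * D.g * D.c) - (j - i) * (w 2 - i * w 0) ∧
      (j - i) ^ 2 ≤ j * D.g * D.a1 - D.b1 + i * (j * D.g * D.c - D.d) - (j - i) * (j * w 0 - w 2) ∧
      0 ≤ D.a1 + i * D.c - (j - i) * w 1) ∧
    (0 ≤ D.y - i * D.g * D.k ∧ 0 ≤ j * D.g * D.k - D.y ∧ 0 ≤ D.k) := by
  have e0 : ∀ a, D.R i j w 0 a = w a + D.rF a := fun a => by simp [R]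
  have e1 : ∀ a, D.R i j w 1 a = w a := fun a => by simp [R]
  have e2 : ∀ a, D.R i j w 2 a = D.r1 a + i * D.rF a - (j - i) * w a := fun a => by simp [R]
  have e3 : ∀ a, D.R i j w 3 a = D.r2 a := fun a => by simp [R]
  have f0 : D.rF 0 = D.g * D.c := rfl
  have f1 : D.rF 1 = D.c := rfl
  have f2 : D.rF 2 = D.d := rfl
  have g0 : D.r1 0 = D.g * D.a1 := rfl
  have g1 : D.r1 1 = D.a1 := rfl
  have g2 : D.r1 2 = D.b1 := rfl
  have k0 : D.r2 0 = D.g * D.k := rfl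
  have k1 : D.r2 1 = D.k := rfl
  have k2 : D.r2 2 = D.y := rfl
  constructor
  · rintro ⟨h, h1, h2⟩
    have a0 := h 0 0
    have a1 := h 0 1
    have a3 := h 0 3
    have b0 := h 1 0
    have b1 := h 1 1
    have b3 := h 1 3
    have c3 := h 2 3
    have d0 := h 3 0
    have d1 := h 3 1
    have d3 := h 3 3
    simp only [engU_S0, engU_S1, engU_S3, e0, e1, e2, e3, f0, f1, f2, g0, g1, g2, k0, k1, k2] at *
    refine ⟨⟨b0, b1, b3⟩, ⟨?_, ?_, a3⟩, ⟨?_, ?_, c3⟩, ⟨?_, ?_, d3⟩⟩ <;> linarith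
  · rintro ⟨⟨b0, b1, b3⟩, ⟨a0, a1, a3⟩, ⟨c0, c1, c3⟩, ⟨d0, d1, d3⟩⟩
    have hN : 0 ≤ (j - i) ^ 2 := sq_nonneg _
    refine ⟨fun s => ?_, ?_, ?_⟩
    · fin_cases s
      · refine engU_pos hij (D.R i j w 0) ?_ ?_ ?_ <;>
          simp only [e0, f0, f1, f2] <;> linarith
      · refine engU_pos hij (D.R i j w 1) ?_ ?_ ?_ <;>
          simp only [e1] <;> linarith
      · refine engU_pos hij (D.R i j w 2) ?_ ?_ ?_ <;>
          simp only [e2, f0, f1, f2, g0, g1, g2] <;> linarith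
      · refine engU_pos hij (D.R i j w 3) ?_ ?_ ?_ <;>
          simp only [e3, k0, k1, k2] <;> linarith
    · simp only [engU_S0, e2, f0, f2, g0, g2]; linarith
    · simp only [engU_S1, e2, f0, f2, g0, g2]; linarith

/-- a vector with prescribed approximate pairings -/
theorem engU_exists {i j : ℤ} (hij : i < j) (p q z : ℤ) :
    ∃ w : Fin 3 → ℤ, p ≤ w 2 - i * w 0 ∧ w 2 - i * w 0 < p + (j - i) ∧ j * w 0 - w 2 = q ∧
      w 1 = z := by
  have hN : 0 < j - i := by omega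
  obtain ⟨t, ht1, ht2⟩ : ∃ t : ℤ, p + q ≤ (j - i) * t ∧ (j - i) * t < p + q + (j - i) := by
    refine ⟨-((-(p + q)) / (j - i)), ?_, ?_⟩
    · have := Int.ediv_mul_le (-(p + q)) hN.ne'
      linarith
    · have := Int.lt_ediv_add_one_mul_self (-(p + q)) hN
      linarith
  refine ⟨![t, z, j * t - q], ?_, ?_, ?_, rfl⟩
  · show p ≤ j * t - q - i * t
    linarith
  · show j * t - q - i * t < p + (j - i)
    linarith
  · show j * t - (j * t - q) = q
    ring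

theorem engU_move {i j : ℤ} (hij : i < j) {w v : Fin 3 → ℤ} (h : D.Up i j w)
    (hp : w 2 - i * w 0 ≤ v 2 - i * v 0) (hq : j * w 0 - w 2 ≤ j * v 0 - v 2) (hz : w 1 ≤ v 1)
    (hv : ∀ s t, 0 ≤ D.R i j v s ⬝ᵥ S i j t) : SSE (D.C i j w) (D.C i j v) := by
  refine lemR (S i j) (D.R i j w) (D.R i j v) (v - w) ![1, 1, -(j - i), 0] ?_ ?_ ?_ h.1 hv
  · ext a
    fin_cases a <;> simp [S, Fin.sum_univ_four]
  · intro s
    ext a
    fin_cases s <;> simp [R] <;> ring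
  · refine engU_pos hij _ ?_ ?_ ?_ <;> simp only [Pi.sub_apply] <;> linarith

/-- all upper states of one family are equivalent -/
theorem join {i j : ℤ} (hij : i < j) {w w' : Fin 3 → ℤ} (h : D.Up i j w) (h' : D.Up i j w') :
    SSE (D.C i j w) (D.C i j w') := by
  obtain ⟨v, v1, v2, v3, v4⟩ := engU_exists hij (max (w 2 - i * w 0) (w' 2 - i * w' 0))
    (max (j * w 0 - w 2) (j * w' 0 - w' 2)) (max (w 1) (w' 1))
  obtain ⟨⟨b0, b1, b3⟩, ⟨a0, a1, a3⟩, ⟨c0, c1, c3⟩, ⟨d0, d1, d3⟩⟩ := (D.engU_up_iff hij w).1 h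
  obtain ⟨⟨b0', b1', b3'⟩, ⟨a0', a1', a3'⟩, ⟨c0', c1', c3'⟩, -⟩ := (D.engU_up_iff hij w').1 h'
  have hN : 0 < j - i := by omega
  have m1 := le_max_left (w 2 - i * w 0) (w' 2 - i * w' 0)
  have m2 := le_max_right (w 2 - i * w 0) (w' 2 - i * w' 0)
  have m3 := le_max_left (j * w 0 - w 2) (j * w' 0 - w' 2)
  have m4 := le_max_right (j * w 0 - w 2) (j * w' 0 - w' 2)
  have m5 := le_max_left (w 1) (w' 1)
  have m6 := le_max_right (w 1) (w' 1)
  have hv : ∀ s t, 0 ≤ D.R i j v s ⬝ᵥ S i j t := by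
    have hN2 : 0 ≤ (j - i) ^ 2 := sq_nonneg _
    have k0 : 0 ≤ D.b1 - i * D.g * D.a1 + i * (D.d - i * D.g * D.c) - (j - i) * (v 2 - i * v 0) := by
      rcases max_choice (w 2 - i * w 0) (w' 2 - i * w' 0) with e | e <;> rw [e] at v2 <;> nlinarith
    have k1 : 0 ≤ j * D.g * D.a1 - D.b1 + i * (j * D.g * D.c - D.d) - (j - i) * (j * v 0 - v 2) := by
      rcases max_choice (j * w 0 - w 2) (j * w' 0 - w' 2) with e | e <;> rw [v3, e] <;> linarith
    have k3 : 0 ≤ D.a1 + i * D.c - (j - i) * v 1 := by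
      rcases max_choice (w 1) (w' 1) with e | e <;> rw [v4, e] <;> linarith
    intro s
    fin_cases s
    · refine engU_pos hij (D.R i j v 0) ?_ ?_ ?_ <;>
        simp only [engU_e0, engU_f0, engU_f1, engU_f2] <;> linarith
    · refine engU_pos hij (D.R i j v 1) ?_ ?_ ?_ <;> simp only [engU_e1] <;> linarith
    · refine engU_pos hij (D.R i j v 2) ?_ ?_ ?_ <;>
        simp only [engU_e2, engU_f0, engU_f1, engU_f2, engU_g0, engU_g1, engU_g2] <;> linarith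
    · refine engU_pos hij (D.R i j v 3) ?_ ?_ ?_ <;>
        simp only [engU_e3, engU_k0, engU_k1, engU_k2] <;> linarith
  exact (D.engU_move hij h (by linarith) (by linarith) (by linarith) hv).trans
    (D.engU_move hij h' (by linarith) (by linarith) (by linarith) hv).symm

/-- widening of the family -/
theorem widen {i j i' j' : ℤ} (hi : 0 ≤ i) (hii : i ≤ i') (hij : i' < j') (hjj : j' ≤ j)
    (ha : 0 ≤ D.a1) (hc : 0 ≤ D.c) (hk : 0 ≤ D.k)
    (p1 : 0 ≤ D.y - i' * D.g * D.k) (p2 : 0 ≤ j' * D.g * D.k - D.y)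
    (h1 : 2 * (j - i) ^ 2 ≤ D.b1 - i' * D.g * D.a1 + i * (D.d - i' * D.g * D.c))
    (h2 : 2 * (j - i) ^ 2 ≤ D.b1 - i' * D.g * D.a1 + j * (D.d - i' * D.g * D.c))
    (h3 : 2 * (j - i) ^ 2 ≤ j' * D.g * D.a1 - D.b1 + i * (j' * D.g * D.c - D.d))
    (h4 : 2 * (j - i) ^ 2 ≤ j' * D.g * D.a1 - D.b1 + j * (j' * D.g * D.c - D.d)) :
    ∃ w, D.Up i j w ∧ D.Up i' j' w ∧ SSE (D.C i j w) (D.C i' j' w) := by
  obtain ⟨w, w1, w2, w3, w4⟩ := engU_exists hij (max 0 (-(D.d - i' * D.g * D.c)))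
    (max 0 (-(j' * D.g * D.c - D.d))) 0
  have hlt : i < j := by omega
  set f0 := D.d - i' * D.g * D.c with hf0
  set f1 := j' * D.g * D.c - D.d with hf1
  set b0 := D.b1 - i' * D.g * D.a1 with hb0
  set b1 := j' * D.g * D.a1 - D.b1 with hb1
  have m1 := le_max_left 0 (-f0)
  have m2 := le_max_right 0 (-f0)
  have m3 := le_max_left 0 (-f1)
  have m4 := le_max_right 0 (-f1)
  set p := w 2 - i' * w 0 with hp
  set q := j' * w 0 - w 2 with hq
  -- the key estimate, for every pair of indices between `i` and `j`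
  have key0 : ∀ a b : ℤ, i ≤ a → a < b → b ≤ j → (j - i) ^ 2 ≤ b0 + a * f0 - (b - a) * p := by
    intro a b ha' hab hb'
    have e1 : (b - a) * (j' - i') ≤ (j - i) ^ 2 := by nlinarith
    rcases le_total 0 f0 with hf | hf
    · rw [max_eq_left (by linarith)] at w2
      nlinarith
    · rw [max_eq_right (by linarith)] at w2
      nlinarith
  have key1 : ∀ a b : ℤ, i ≤ a → a < b → b ≤ j → (j - i) ^ 2 ≤ b1 + a * f1 - (b - a) * q := by
    intro a b ha' hab hb'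
    have e1 : 0 ≤ (j - i) ^ 2 := sq_nonneg _
    rcases le_total 0 f1 with hf | hf
    · rw [max_eq_left (by linarith)] at w3
      rw [w3]
      nlinarith
    · rw [max_eq_right (by linarith)] at w3
      rw [w3]
      nlinarith
  have hN : (j' - i') ^ 2 ≤ (j - i) ^ 2 := by nlinarith
  have hN0 : 0 ≤ (j - i) ^ 2 := sq_nonneg _
  have up' : D.Up i' j' w := by
    rw [D.engU_up_iff hij]
    have := key0 i' j' hii hij hjj
    have := key1 i' j' hii hij hjj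
    have : 0 ≤ i' * D.c := mul_nonneg (by omega) hc
    refine ⟨⟨?_, ?_, ?_⟩, ⟨?_, ?_, ?_⟩, ⟨?_, ?_, ?_⟩, p1, p2, hk⟩ <;> try rw [w4]
    all_goals linarith
  have k0 := key0 i j le_rfl hlt le_rfl
  have k1 := key1 i j le_rfl hlt le_rfl
  have hic : 0 ≤ i * D.c := mul_nonneg hi hc
  have hpos : ∀ s t, 0 ≤ D.R i j w s ⬝ᵥ S i' j' t := by
    intro s
    fin_cases s
    · exact up'.1 0
    · exact up'.1 1
    · refine engU_pos hij (D.R i j w 2) ?_ ?_ ?_ <;>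
        simp only [engU_e2, engU_f0, engU_f1, engU_f2, engU_g0, engU_g1, engU_g2, w4] <;> linarith
    · exact up'.1 3
  have hS2 : ∀ r : Fin 3 → ℤ, r ⬝ᵥ S i' j' 2 = r 0 := fun r => by rw [engU_dot3]; simp [S]
  have up : D.Up i j w := by
    have t0 : ∀ r : Fin 3 → ℤ, r ⬝ᵥ S i j 0 = r ⬝ᵥ S i' j' 0 + (i' - i) * r ⬝ᵥ S i' j' 2 := by
      intro r
      rw [engU_S0, engU_S0, hS2]; ring
    have t1 : ∀ r : Fin 3 → ℤ, r ⬝ᵥ S i j 1 = r ⬝ᵥ S i' j' 1 + (j - j') * r ⬝ᵥ S i' j' 2 := by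
      intro r
      rw [engU_S1, engU_S1, hS2]; ring
    have u0 : ∀ s, 0 ≤ (i' - i) * D.R i j w s ⬝ᵥ S i' j' 2 := fun s =>
      mul_nonneg (by omega) (hpos s 2)
    have u1 : ∀ s, 0 ≤ (j - j') * D.R i j w s ⬝ᵥ S i' j' 2 := fun s =>
      mul_nonneg (by omega) (hpos s 2)
    refine ⟨fun s t => ?_, ?_, ?_⟩
    · fin_cases t
      · have := hpos s 0
        have := u0 s
        have := t0 (D.R i j w s)
        show 0 ≤ D.R i j w s ⬝ᵥ S i j 0
        linarith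
      · have := hpos s 1
        have := u1 s
        have := t1 (D.R i j w s)
        show 0 ≤ D.R i j w s ⬝ᵥ S i j 1
        linarith
      · exact hpos s 2
      · exact hpos s 3
    · have := u0 2
      have e : D.R i j w 2 ⬝ᵥ S i' j' 0 = b0 + i * f0 - (j - i) * p := by
        rw [engU_S0]
        simp only [engU_e2, engU_f0, engU_f2, engU_g0, engU_g2, hb0, hf0, hp]; ring
      rw [t0, e]; linarith
    · have := u1 2
      have e : D.R i j w 2 ⬝ᵥ S i' j' 1 = b1 + i * f1 - (j - i) * q := by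
        rw [engU_S1]
        simp only [engU_e2, engU_f0, engU_f2, engU_g0, engU_g2, hb1, hf1, hq]; ring
      rw [t1, e]; linarith
  refine ⟨w, up, up', ?_⟩
  have c1 : (((i' - i).toNat : ℕ) : ℤ) = i' - i := Int.toNat_of_nonneg (by omega)
  have c2 : (((j - j').toNat : ℕ) : ℤ) = j - j' := Int.toNat_of_nonneg (by omega)
  refine lemX (S i' j') (D.R i j w)
    ![![1, 0, 0, 0], ![0, 1, 0, 0], ![(i' - i).toNat, (j - j').toNat, 1, 0], ![0, 0, 0, 1]]
    (S i j) (D.R i' j' w) ?_ ?_ hpos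
  · generalize (i' - i).toNat = x at c1
    generalize (j - j').toNat = y at c2
    intro k
    ext a
    fin_cases k <;> fin_cases a <;> simp [S, Fin.sum_univ_four] <;> linarith
  · generalize (i' - i).toNat = x at c1
    generalize (j - j').toNat = y at c2
    intro s
    ext a
    fin_cases s <;> simp [R, Fin.sum_univ_four]
    rw [c1, c2]
    ring

/-- a deep configuration on the three types of the first level is an upper state -/
theorem descent {i j : ℤ} (hij : i < j) (hg : 0 < D.g) (hk : 0 ≤ D.k)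
    (p1 : 0 ≤ D.y - i * D.g * D.k) (p2 : 0 ≤ j * D.g * D.k - D.y) (S R : Fin 3 → V)
    (hS : S = ![![-(i * D.g), 1], ![j * D.g, -1], ![1, 0]]) (ht : ten S R = D.A)
    (hpos : ∀ s t, 0 ≤ R s ⬝ᵥ S t)
    (h1 : D.g * (j - i) ^ 2 + (D.y - i * D.g * D.k) ≤ R 2 ⬝ᵥ S 0)
    (h2 : D.g * (j - i) ^ 2 + (j * D.g * D.k - D.y) ≤ R 2 ⬝ᵥ S 1) :
    ∃ w, D.Up i j w ∧ SSE (cm S R) (D.C i j w) := by
  have t00 := congrFun (congrFun ht 0) 0
  have t01 := congrFun (congrFun ht 0) 1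
  have t10 := congrFun (congrFun ht 1) 0
  have t11 := congrFun (congrFun ht 1) 1
  have q00 := hpos 0 0
  have q01 := hpos 0 1
  have q02 := hpos 0 2
  have q10 := hpos 1 0
  have q11 := hpos 1 1
  have q12 := hpos 1 2
  subst hS
  simp [ten, Fin.sum_univ_three, A] at t00 t01 t10 t11
  rw [dot2] at q00 q01 q02 q10 q11 q12 h1 h2
  simp at q00 q01 q02 q10 q11 q12 h1 h2
  set x := D.a1 + i * D.c - (j - i) * R 1 0 with hx
  set z := D.b1 + i * D.d - (j - i) * R 1 1 with hz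
  have e0 : R 2 0 = D.g * x + D.k := by
    rw [hx]; linear_combination t00 + i * D.g * t10
  have e1 : R 2 1 = D.g * z + D.y := by
    rw [hz]; linear_combination t01 + i * D.g * t11
  have k0 : (j - i) ^ 2 ≤ z - i * D.g * x := by
    refine le_of_mul_le_mul_left ?_ hg
    rw [e0, e1] at h1
    linarith
  have k1 : (j - i) ^ 2 ≤ j * D.g * x - z := by
    refine le_of_mul_le_mul_left ?_ hg
    rw [e0, e1] at h2
    linarith
  have hN0 : 0 ≤ (j - i) ^ 2 := sq_nonneg _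
  have hx0 : 0 ≤ x := by
    by_contra hn
    push Not at hn
    have : 0 < (j - i) * D.g := mul_pos (by omega) hg
    nlinarith
  have r00 : R 0 0 = R 1 0 + D.c := by linarith
  have r01 : R 0 1 = R 1 1 + D.d := by linarith
  let R' : Fin 4 → V := ![R 0, R 1, ![x, z], ![D.k, D.y]]
  let S' : Fin 4 → V := ![![-(i * D.g), 1], ![j * D.g, -1], ![D.g, 0], ![1, 0]]
  refine ⟨![D.g * R 1 0, R 1 0, R 1 1], ?_, ?_⟩
  · rw [D.engU_up_iff hij]
    rw [r00] at q00 q01 q02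
    rw [r01] at q00 q01
    refine ⟨⟨?_, ?_, ?_⟩, ⟨?_, ?_, ?_⟩, ⟨?_, ?_, ?_⟩, p1, p2, hk⟩ <;> simp <;> linarith
  · have hC : D.C i j ![D.g * R 1 0, R 1 0, R 1 1] = cm S' R' := by
      ext s t
      simp only [C, cm]
      congr 1
      rw [engU_dot3, dot2]
      fin_cases s <;> fin_cases t <;>
        simp [UD.R, UD.S, rF, r1, r2, R', S', r00, r01, hx, hz] <;> ring
    rw [hC]
    have c1 : ((D.g.toNat : ℕ) : ℤ) = D.g := Int.toNat_of_nonneg hg.le
    refine (lemX _ R' ![![1, 0, 0, 0], ![0, 1, 0, 0], ![0, 0, D.g.toNat, 1]] S' R ?_ ?_ ?_).symm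
    · generalize D.g.toNat = n at c1
      intro k
      ext a
      fin_cases k <;> fin_cases a <;> simp [S', Fin.sum_univ_three, c1]
    · generalize D.g.toNat = n at c1
      intro s
      ext a
      fin_cases s <;> fin_cases a <;> simp [R', Fin.sum_univ_four, c1, e0, e1]
    · intro k s
      fin_cases k
      · exact hpos 0 s
      · exact hpos 1 s
      · fin_cases s <;> rw [dot2] <;> simp [R'] <;> linarith
      · fin_cases s <;> rw [dot2] <;> simp [R'] <;> linarith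

/-- the initial state -/
theorem start {j : ℤ} (hj : 0 < j) (hg : 0 < D.g) (hk : 0 ≤ D.k) (p1 : 0 ≤ D.y)
    (p2 : 0 ≤ j * D.g * D.k - D.y) (A : N2) (hA : toZ A = D.A) (h0 : 0 ≤ j * D.g * D.c - D.d)
    (h1 : j ^ 2 ≤ D.b1) (h2 : j ^ 2 ≤ j * D.g * D.a1 - D.b1) :
    ∃ w, D.Up 0 j w ∧ SSE A (D.C 0 j w) := by
  have t00 := congrFun (congrFun hA 0) 0
  have t01 := congrFun (congrFun hA 0) 1
  have t10 := congrFun (congrFun hA 1) 0
  have t11 := congrFun (congrFun hA 1) 1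
  simp [toZ, UD.A] at t00 t01 t10 t11
  have n00 : (0 : ℤ) ≤ A 0 0 := Int.natCast_nonneg _
  have n01 : (0 : ℤ) ≤ A 0 1 := Int.natCast_nonneg _
  have n10 : (0 : ℤ) ≤ A 1 0 := Int.natCast_nonneg _
  have n11 : (0 : ℤ) ≤ A 1 1 := Int.natCast_nonneg _
  have g1 : D.g * j ^ 2 ≤ D.g * D.b1 := mul_le_mul_of_nonneg_left h1 hg.le
  have g2 : D.g * j ^ 2 ≤ D.g * (j * D.g * D.a1 - D.b1) := mul_le_mul_of_nonneg_left h2 hg.le
  have g3 : 0 ≤ D.g * j ^ 2 := mul_nonneg hg.le (sq_nonneg _)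
  let S : Fin 3 → V := ![![-(0 * D.g), 1], ![j * D.g, -1], ![1, 0]]
  let R : Fin 3 → V := ![fun b => (A 1 b : ℤ), 0, fun b => (A 0 b : ℤ)]
  have hp : ∀ (k : Fin 2) s, 0 ≤ (fun b => (A k b : ℤ)) ⬝ᵥ S s := by
    intro k s
    rw [dot2]
    fin_cases k <;> fin_cases s <;> simp [S, t00, t01, t10, t11] <;> linarith
  obtain ⟨w, hw, hs⟩ := D.descent (i := 0) hj hg hk (by linarith) p2 S R rfl (by
      rw [← hA]
      ext a b
      fin_cases a <;> simp [ten, S, R, Fin.sum_univ_three, toZ]) (by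
      intro s t
      fin_cases s
      · exact hp 1 t
      · simp [R]
      · exact hp 0 t)
    (by rw [dot2]; simp [R, S, t00, t01]; linarith)
    (by rw [dot2]; simp [R, S, t00, t01]; linarith)
  refine ⟨w, hw, SSE.trans ?_ hs⟩
  have key := lemX S (fun k b => (A k b : ℤ)) ![![0, 1], ![0, 0], ![1, 0]]
    (fun i => Pi.single i (1 : ℤ)) R (by
      intro k
      ext a
      fin_cases k <;> fin_cases a <;> simp [S, Fin.sum_univ_three]) (by
      intro s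
      ext a
      fin_cases s <;> simp [R, Fin.sum_univ_two]) hp
  rwa [cm_basis] at key

end UD

end Pool.Agent.MP_993212_an.H65
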