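import Pool.Agent.MP_993212_an.H65.EntryAux

namespace Pool.Agent.MP_993212_an.H65

open Matrix Pool.Agent.MP_993212_an.H12

open EntryAux in
/-- a reduced balanced matrix is canonical -/
theorem entry_bal {F : Fr} {A : N2} {K lam mu : ℝ} (h : F.Is (toZ A) lam mu) (hP : Par K lam mu)
    (hmu : 0 < mu) (hl : K ^ 1600 ≤ lam) (hda : A 1 1 ≤ A 0 0) (h1 : A 0 0 ≤ A 1 1 + A 0 1)
    (h2 : A 0 0 ≤ A 1 1 + A 1 0) (hb : lam + mu ≤ 4 * K ^ 6 * A 0 1)
    (hc : lam + mu ≤ 4 * K ^ 6 * A 1 0) : ∃ C ∈ KM (toZ A) K lam mu, SSE A C := by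
  have hK := hP.hK
  have hK0 := hP.K_pos
  have hK1 : 1 ≤ K := by linarith
  have hlam := hP.lam_pos
  have hml := hP.mu_le
  have pw : ∀ {i j : ℕ}, i ≤ j → K ^ i ≤ K ^ j := fun hij => pow_le_pow_right₀ hK1 hij
  have pk : ∀ i j : ℕ, i + 1 ≤ j → 10000 * K ^ i ≤ K ^ j := fun i j hij => by
    refine le_trans ?_ (pw hij)
    rw [pow_succ K i, mul_comm]
    exact mul_le_mul_of_nonneg_left hK (by positivity)
  have p1 : ∀ i : ℕ, 1 ≤ K ^ i := fun i => one_le_pow₀ hK1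
  have tr := h.trace
  have det := h.detT
  simp only [toZ, Int.cast_natCast] at tr det
  have hd0 : (0 : ℝ) ≤ A 1 1 := Nat.cast_nonneg _
  have hda' : (A 1 1 : ℝ) ≤ A 0 0 := by exact_mod_cast hda
  obtain ⟨b0, c0, P0, bL, cL, PQ, QP, mQ⟩ := nums hP.sum_pos (pow_pos hK0 6) hd0 tr det hda'
    (by exact_mod_cast h1) (by exact_mod_cast h2) hb hc
  have hgap : mu ≤ (1 - 10 * (1 / K)) * lam := by
    calc mu ≤ (1 - 10 / K) * lam := hP.gap
      _ = _ := by ring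
  have haK : 5 * lam ≤ K * A 0 0 := by
    have a1 : K * mu ≤ K * ((1 - 10 * (1 / K)) * lam) := mul_le_mul_of_nonneg_left hgap hK0.le
    have a2 : K * ((1 - 10 * (1 / K)) * lam) = K * lam - 10 * lam := by field_simp
    have a3 : K * (A 1 1 : ℝ) ≤ K * A 0 0 := mul_le_mul_of_nonneg_left hda' hK0.le
    have a4 : K * ((A 0 0 : ℝ) + A 1 1) = K * (lam - mu) := by rw [tr]
    linarith
  obtain ⟨J, J1, J2⟩ : ∃ J : ℤ, K ^ 7 ≤ J ∧ (J : ℝ) ≤ 2 * K ^ 7 :=
    ⟨⌈K ^ 7⌉, Int.le_ceil _, by linarith [Int.ceil_lt_add_one (K ^ 7), p1 7]⟩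
  obtain ⟨B, B1, B2⟩ : ∃ B : ℤ, 2 * K ^ 238 ≤ B ∧ (B : ℝ) ≤ 3 * K ^ 238 :=
    ⟨⌈2 * K ^ 238⌉, Int.le_ceil _, by linarith [Int.ceil_lt_add_one (2 * K ^ 238), p1 238]⟩
  have hJ1 : (1 : ℝ) ≤ J := (p1 7).trans J1
  have hB0 : (0 : ℝ) ≤ B := by linarith [p1 238]
  have hJB : (J : ℝ) * B ≤ 6 * K ^ 245 := by
    calc (J : ℝ) * B ≤ (2 * K ^ 7) * (3 * K ^ 238) := by gcongr
      _ = _ := by ring
  have hsum : 2 * ((J : ℝ) * B + J + 2 * B) ≤ K ^ 246 := by
    linarith [pw (show 7 ≤ 245 by norm_num), pw (show 238 ≤ 245 by norm_num), pk 245 246 (by norm_num), p1 245]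
  have hJB0 : (0 : ℝ) ≤ J * B := by positivity
  have aL : K ^ 246 ≤ (A 0 0 : ℝ) := by
    refine le_of_mul_le_mul_left ?_ hK0
    rw [← pow_succ']
    linarith [pw (show 246 + 1 ≤ 1600 by norm_num)]
  have big : ∀ t : ℝ, lam + mu ≤ 4 * K ^ 6 * t → K ^ 246 ≤ t := fun t ht => by
    refine le_of_mul_le_mul_left ?_ (show 0 < 4 * K ^ 6 by positivity)
    have a1 : 4 * K ^ 6 * K ^ 246 = 4 * K ^ 252 := by ring
    linarith [pk 252 1600 (by norm_num), p1 252]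
  have bL' := big _ hb
  have cL' := big _ hc
  have i1 : 2 * (A 0 1 : ℝ) ≤ J * A 0 0 := by
    have a1 : K ^ 7 * (A 0 0 : ℝ) ≤ J * A 0 0 := mul_le_mul_of_nonneg_right J1 (by positivity)
    have a2 : K ^ 6 * (5 * lam) ≤ K ^ 6 * (K * A 0 0) := by gcongr
    have a3 : K ^ 6 * (lam + mu) ≤ K ^ 6 * (2 * lam) := by gcongr; linarith
    have a4 : 0 ≤ K ^ 6 * lam := by positivity
    have a5 : K ^ 6 * (K * A 0 0) = K ^ 7 * (A 0 0 : ℝ) := by ring
    linarith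
  have i2 : 2 * (A 1 1 : ℝ) ≤ J * A 1 0 := by
    have a1 : K ^ 7 * (A 1 0 : ℝ) ≤ J * A 1 0 := mul_le_mul_of_nonneg_right J1 c0.le
    have a2 : 10000 * K ^ 6 * (A 1 0 : ℝ) ≤ K ^ 7 * A 1 0 :=
      mul_le_mul_of_nonneg_right (pk 6 7 (by norm_num)) c0.le
    have a3 : (0 : ℝ) ≤ A 0 0 := Nat.cast_nonneg _
    linarith
  have hJz : 1 ≤ J := by exact_mod_cast hJ1
  have hBz : 0 ≤ B := by exact_mod_cast hB0
  have i1z : 2 * (A 0 1 : ℤ) ≤ J * A 0 0 := by exact_mod_cast i1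
  have i2z : 2 * (A 1 1 : ℤ) ≤ J * A 1 0 := by exact_mod_cast i2
  have i3z : 2 * (J * B + J + 2 * B) ≤ (A 0 0 : ℤ) := by exact_mod_cast hsum.trans aL
  have i4z : J * B + B ≤ (A 0 1 : ℤ) := by
    have : (J : ℝ) * B + B ≤ A 0 1 := by linarith
    exact_mod_cast this
  have i5z : 2 * (J + 2 * B) ≤ (A 1 0 : ℤ) := by
    have : 2 * ((J : ℝ) + 2 * B) ≤ A 1 0 := by linarith
    exact_mod_cast this
  have hsse := sse_x A hJz hBz i1z i2z (by omega) (by omega)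
  obtain ⟨u, hu⟩ : ∃ u : ℝ, (A 1 0 : ℝ) * u = lam - A 0 0 :=
    ⟨(lam - A 0 0) / A 1 0, by field_simp⟩
  obtain ⟨W, hW⟩ : ∃ W : ℝ, (A 1 0 : ℝ) * W = lam + mu :=
    ⟨(lam + mu) / A 1 0, by field_simp⟩
  have hWu : (A 1 0 : ℝ) * (W - u) = mu + A 0 0 := by linarith
  have u0 : 0 < u := (mul_pos_iff_of_pos_left c0).1 (by rw [hu]; exact P0)
  have u1 : u ≤ W - u := le_of_mul_le_mul_left (by rw [hu, hWu]; exact PQ) c0
  have u2 : W - u ≤ 3 * u := le_of_mul_le_mul_left (by linarith) c0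
  have u3 : mu * (W - u) ≤ lam * u := by
    refine le_of_mul_le_mul_left ?_ c0
    rw [← hu, ← hWu] at mQ
    linarith
  have W0 : 0 < W := by linarith
  have W1 : W ≤ 4 * K ^ 6 := le_of_mul_le_mul_left (by linarith) c0
  have W2 : 1 ≤ K ^ 6 * W := by
    refine le_of_mul_le_mul_left ?_ c0
    rw [← hW] at cL
    linarith
  have hWJ : 2 * W ≤ J := by linarith [pk 6 7 (by norm_num), p1 6]
  have Ju : 0 < J - u := by linarith
  have hn1 : 1 / K ≤ 1 / 10000 := one_div_le_one_div_of_le (by norm_num) hK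
  have hen : 1 / (2 * K ^ 13) ≤ 1 / K := by
    refine one_div_le_one_div_of_le hK0 ?_
    have := pw (show 1 ≤ 13 by norm_num)
    rw [pow_one] at this
    linarith
  have m1 : 1 ≤ (W - u) / u := by rwa [le_div_iff₀ u0, one_mul]
  have m2 : (W - u) / u ≤ 3 := by rwa [div_le_iff₀ u0]
  have m3 : 1 / (2 * K ^ 13) ≤ W / (J - u) := by
    rw [div_le_div_iff₀ (by positivity) Ju]
    have a1 : 2 * K ^ 7 * 1 ≤ 2 * K ^ 7 * (K ^ 6 * W) := by gcongr
    have a2 : 2 * K ^ 7 * (K ^ 6 * W) = W * (2 * K ^ 13) := by ring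
    linarith
  have m4 : W / (J - u) ≤ 8 * (1 / K) := by
    rw [mul_one_div, div_le_div_iff₀ Ju hK0]
    have a1 : W * K ≤ 4 * K ^ 6 * K := by gcongr
    have a2 : 4 * K ^ 6 * K = 4 * K ^ 7 := by ring
    linarith
  have m5 : mu * ((W - u) / u) ≤ lam := by rwa [← mul_div_assoc, div_le_iff₀ u0]
  obtain ⟨s, s1, s2, s3, s4, s5, s6⟩ := slopes (mm := 1 + W / (J - u)) hlam hmu (by positivity)
    hen hn1 hgap m1 (by linarith) (by linarith) m5
  have s0 : 0 < s := by linarith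
  have c0' : ((toZ A 1 0 : ℤ) : ℝ) ≠ 0 := by simpa [toZ] using c0.ne'
  obtain ⟨G, hG, x0, y0⟩ := exists_norm h c0' s0
  obtain ⟨ee, eX, eY, dX, dY⟩ := coords hG c0' (u := u) (W := W) (by simpa [toZ] using hu)
    (by simpa [toZ] using hW) W0 s0 x0 y0
  generalize G.x 0 = x at ee eX eY dX dY x0
  have k6 : K ^ 6 = (K ^ 3) ^ 2 := by ring
  have x1 : x ≤ 3 * K ^ 3 := by
    refine (sq_le_sq₀ x0.le (by positivity)).1 ?_
    have a1 : x ^ 2 * 1 ≤ x ^ 2 * (K ^ 6 * W) := by gcongr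
    have a2 : x ^ 2 * (K ^ 6 * W) * (1 / 2) ≤ x ^ 2 * (K ^ 6 * W) * s := by gcongr
    have a3 : x ^ 2 * (K ^ 6 * W) * s = K ^ 6 := by linear_combination K ^ 6 * ee
    have a4 : (3 * K ^ 3) ^ 2 = 9 * K ^ 6 := by ring
    linarith [p1 6]
  have x2 : x * W ≤ 3 * K ^ 3 := by
    refine (sq_le_sq₀ (by positivity) (by positivity)).1 ?_
    have a2 : (x * W) ^ 2 * (1 / 2) ≤ (x * W) ^ 2 * s := by gcongr
    have a3 : (x * W) ^ 2 * s = W := by linear_combination W * ee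
    have a4 : (3 * K ^ 3) ^ 2 = 9 * K ^ 6 := by ring
    linarith [p1 6]
  have hbal : G.Bal (3 * K ^ 3) := by
    have a1 : s * x ≤ x := mul_le_of_le_one_left x0.le s2
    have a2 : x * u ≤ x * W := by gcongr; linarith
    have a3 : s * x * (W - u) ≤ x * W :=
      mul_le_mul a1 (by linarith) (by linarith) x0.le
    refine ⟨![1, 0], ![0, 1], by simp [det2], ?_, ?_, ?_, ?_⟩
    · have : G.X ![1, 0] = x := by simp [eX]
      rw [this, abs_of_pos x0]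
      exact x1
    · have : G.Y ![1, 0] = - (s * x) := by simp [eY]
      rw [this, abs_neg, abs_of_pos (by positivity)]
      linarith
    · have : G.X ![0, 1] = x * u := by simp [eX]
      rw [this, abs_of_pos (by positivity)]
      linarith
    · have : G.Y ![0, 1] = s * x * (W - u) := by simp [eY]
      rw [this, abs_of_pos (mul_pos (by positivity) (by linarith))]
      linarith
  have hq0 : 0 ≤ W / (J - u) := by positivity
  obtain ⟨hS, hR⟩ := bases (Z := K ^ 14) (ap := s * ((W - u) / u)) (am := s * (1 + W / (J - u)))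
    x0 s0 s2 u0 (by linarith) hJ1 (by linarith)
    (by
      have a1 : x * J ≤ 3 * K ^ 3 * (2 * K ^ 7) := by gcongr
      have a2 : 3 * K ^ 3 * (2 * K ^ 7) = 6 * K ^ 10 := by ring
      linarith [pk 10 14 (by norm_num), p1 10])
    (mul_pos s0 (by linarith)) (le_mul_of_one_le_right s0.le (by linarith))
    (by field_simp) (by field_simp) eX eY dX dY
  obtain ⟨C, hC, hs⟩ := geo hG hP hmu hl hbal s3 s4
    ((mul_le_of_le_one_left (by linarith) s2).trans m2)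
    ((mul_le_of_le_one_left (by linarith) s2).trans (by linarith)) s5 s6 hS hR
    (dec_x G (by positivity) hJz hBz (by rw [← pow_mul]; exact B1) (Int.natCast_nonneg _)
      i1z i2z i3z i4z i5z) (ten_x A J B)
  exact ⟨C, hC, hsse.trans hs⟩

end Pool.Agent.MP_993212_an.H65
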