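import Pool.Agent.MP_993212_an.H65.Frame

namespace Pool.Agent.MP_993212_an.H65

open Matrix Pool.Agent.MP_993212_an.H12

theorem lat_round (a b c d : ℝ) (hd : |a * d - b * c| = 1) (hb : |b| ≤ |a|) (ha : 0 < |a|) :
    |c - (round (c / a) : ℤ) * a| ≤ |a| / 2 ∧ |d - (round (c / a) : ℤ) * b| ≤ |a| / 2 + 1 / |a| := by
  have ha0 : a ≠ 0 := abs_pos.1 ha
  set n : ℝ := ((round (c / a) : ℤ) : ℝ) with hn
  have h1 : |c - n * a| ≤ |a| / 2 := by
    have e1 : c - n * a = (c / a - n) * a := by field_simp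
    have e2 := abs_sub_round (c / a)
    rw [e1, abs_mul]
    nlinarith [abs_nonneg a]
  refine ⟨h1, ?_⟩
  have e3 : a * (d - n * b) = (a * d - b * c) + b * (c - n * a) := by ring
  have e4 : |a| * |d - n * b| ≤ 1 + |a| * (|a| / 2) := by
    rw [← abs_mul, e3]
    refine (abs_add_le _ _).trans ?_
    rw [hd, abs_mul]
    have := mul_le_mul hb h1 (abs_nonneg _) (abs_nonneg _)
    linarith
  have e5 : |a| * (|a| / 2 + 1 / |a|) = 1 + |a| * (|a| / 2) := by field_simp; ring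
  exact le_of_mul_le_mul_left (e5 ▸ e4) ha

theorem det2_sub_smul (z f : V) (n : ℤ) : det2 z (f - n • z) = det2 z f := by
  simp only [det2, Pi.sub_apply, Pi.smul_apply, smul_eq_mul]; ring

theorem det2_add_smul (z f : V) (n : ℤ) : det2 z (f + n • z) = det2 z f := by
  simp only [det2, Pi.add_apply, Pi.smul_apply, smul_eq_mul]; ring

theorem det2_rot (z f : V) : det2 f (-z) = det2 z f := by
  simp only [det2, Pi.neg_apply]; ring

theorem lat_expand {z f : V} (hd : det2 z f = 1) (s : V) :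
    s = det2 s f • z + det2 z s • f := by
  simp only [det2] at hd ⊢
  funext i
  fin_cases i
  · simp only [Fin.zero_eta, Fin.isValue, Pi.add_apply, Pi.smul_apply, smul_eq_mul]
    linear_combination (-s 0) * hd
  · simp only [Fin.mk_one, Fin.isValue, Pi.add_apply, Pi.smul_apply, smul_eq_mul]
    linear_combination (-s 1) * hd

theorem exists_prim {s : V} (hs : s ≠ 0) :
    ∃ (g : ℤ) (z f : V), 1 ≤ g ∧ s = g • z ∧ det2 z f = 1 := by
  have hg : 0 < Int.gcd (s 0) (s 1) := by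
    rw [Int.gcd_pos_iff]
    by_contra hc
    push Not at hc
    apply hs
    funext i
    fin_cases i
    · exact hc.1
    · exact hc.2
  obtain ⟨a, ha⟩ := Int.gcd_dvd_left (a := s 0) (b := s 1)
  obtain ⟨b, hb⟩ := Int.gcd_dvd_right (a := s 0) (b := s 1)
  have hbez := Int.gcd_eq_gcd_ab (s 0) (s 1)
  set g : ℤ := (Int.gcd (s 0) (s 1) : ℤ) with hgdef
  have hg1 : 1 ≤ g := by rw [hgdef]; exact_mod_cast hg
  refine ⟨g, ![a, b], ![-Int.gcdB (s 0) (s 1), Int.gcdA (s 0) (s 1)], hg1, ?_, ?_⟩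
  · funext i
    fin_cases i
    · simpa using ha
    · simpa using hb
  · have hg0 : g ≠ 0 := by omega
    apply mul_left_cancel₀ hg0
    simp only [det2, cons_val_zero, cons_val_one, cons_val_fin_one]
    linear_combination -hbez - Int.gcdA (s 0) (s 1) * ha - Int.gcdB (s 0) (s 1) * hb

theorem lat_det_le {a b c d u v : ℝ} (ha : |a| ≤ u) (hb : |b| ≤ u) (hc : |c| ≤ v) (hd : |d| ≤ v) :
    |a * d - b * c| ≤ 2 * (u * v) := by
  have h1 := mul_le_mul ha hd (abs_nonneg _) ((abs_nonneg _).trans ha)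
  have h2 := mul_le_mul hb hc (abs_nonneg _) ((abs_nonneg _).trans ha)
  have h3 := abs_sub (a * d) (b * c)
  rw [abs_mul, abs_mul] at h3
  linarith

theorem lat_det_lt {a b c d u v : ℝ} (hu : 0 < u) (ha : |a| ≤ u) (hb : |b| ≤ u) (hc : |c| < v)
    (hd : |d| < v) : |a * d - b * c| < 2 * (u * v) := by
  have h1 := mul_le_mul_of_nonneg_right ha (abs_nonneg d)
  have h2 := mul_le_mul_of_nonneg_right hb (abs_nonneg c)
  have h4 := mul_lt_mul_of_pos_left hc hu
  have h5 := mul_lt_mul_of_pos_left hd hu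
  have h3 := abs_sub (a * d) (b * c)
  rw [abs_mul, abs_mul] at h3
  linarith

theorem lat_one_le {n : ℤ} (hn : n ≠ 0) : (1 : ℝ) ≤ |(n : ℝ)| := by
  have : (1 : ℤ) ≤ |n| := Int.one_le_abs hn
  exact_mod_cast this

namespace Fr

variable {F : Fr} {T : M2} {lam mu : ℝ}

theorem Is.abs_one (h : F.Is T lam mu) {z f : V} (hd : det2 z f = 1) :
    |F.X z * F.Y f - F.Y z * F.X f| = 1 := by
  rw [← h.abs_det2, hd]; simp

/-- reduction of the second basis vector; `m` is the sup norm of `z` -/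
theorem Is.reduce (h : F.Is T lam mu) {z f : V} (hd : det2 z f = 1) {m : ℝ}
    (hm : m = max |F.X z| |F.Y z|) :
    0 < m ∧ ∃ f' : V, det2 z f' = 1 ∧ |F.X f'| ≤ m / 2 + 1 / m ∧ |F.Y f'| ≤ m / 2 + 1 / m := by
  have h1 := h.abs_one hd
  have hpos : 0 < m := by
    by_contra hc
    have hx : F.X z = 0 := abs_nonpos_iff.1 ((le_max_left _ _).trans (hm ▸ not_lt.1 hc))
    have hy : F.Y z = 0 := abs_nonpos_iff.1 ((le_max_right _ _).trans (hm ▸ not_lt.1 hc))
    rw [hx, hy] at h1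
    simp at h1
  have hinv : 0 < 1 / m := by positivity
  refine ⟨hpos, ?_⟩
  rcases le_total |F.Y z| |F.X z| with hc | hc
  · rw [max_eq_left hc] at hm
    obtain ⟨a1, a2⟩ := lat_round _ _ _ _ h1 hc (hm ▸ hpos)
    refine ⟨f - round (F.X f / F.X z) • z, by rw [det2_sub_smul, hd], ?_, ?_⟩
    · rw [X_sub, X_zsmul]
      rw [← hm] at a1
      linarith
    · rw [Y_sub, Y_zsmul]
      rw [← hm] at a2
      exact a2
  · rw [max_eq_right hc] at hm
    have h2 : |F.Y z * F.X f - F.X z * F.Y f| = 1 := by rw [abs_sub_comm, h1]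
    obtain ⟨a1, a2⟩ := lat_round _ _ _ _ h2 hc (hm ▸ hpos)
    refine ⟨f - round (F.Y f / F.Y z) • z, by rw [det2_sub_smul, hd], ?_, ?_⟩
    · rw [X_sub, X_zsmul]
      rw [← hm] at a2
      exact a2
    · rw [Y_sub, Y_zsmul]
      rw [← hm] at a1
      linarith

theorem Is.exists_basis (h : F.Is T lam mu) :
    ∃ z f : V, det2 z f = 1 ∧ |F.X z| ≤ 2 ∧ |F.Y z| ≤ 2 := by
  have key : ∀ n : ℕ, ∀ z f : V, det2 z f = 1 → max |F.X z| |F.Y z| ≤ 2 + (n : ℝ) / 2 →
      ∃ z f : V, det2 z f = 1 ∧ |F.X z| ≤ 2 ∧ |F.Y z| ≤ 2 := by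
    intro n
    induction n with
    | zero =>
      intro z f hd hm
      simp only [Nat.cast_zero, zero_div, add_zero, max_le_iff] at hm
      exact ⟨z, f, hd, hm.1, hm.2⟩
    | succ n ih =>
      intro z f hd hm
      by_cases hc : max |F.X z| |F.Y z| ≤ 2
      · exact ⟨z, f, hd, (le_max_left _ _).trans hc, (le_max_right _ _).trans hc⟩
      · obtain ⟨hpos, f', hd', a1, a2⟩ := h.reduce hd rfl
        set m := max |F.X z| |F.Y z|
        have hc' : 2 < m := not_le.1 hc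
        have hinv : 1 / m ≤ 1 / 2 := one_div_le_one_div_of_le (by norm_num) hc'.le
        refine ih f' (-z) (by rw [det2_rot, hd']) ?_
        push_cast at hm
        exact max_le (by linarith) (by linarith)
  obtain ⟨n, hn⟩ := exists_nat_ge (2 * max |F.X ![1, 0]| |F.Y ![1, 0]|)
  exact key n ![1, 0] ![0, 1] (by simp [det2]) (by linarith)

theorem lat_ne_zero {z f : V} (hd : det2 z f = 1) : z ≠ 0 := by
  rintro rfl
  simp [det2] at hd

theorem Is.bal_of_good (h : F.Is T lam mu) {e : ℝ} (he : 0 < e) (he1 : e ≤ 1) (hg : F.Good e) :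
    F.Bal (1 + 1 / e) := by
  obtain ⟨z, f, hd, hx, hy⟩ := h.exists_basis
  obtain ⟨hpos, f', hd', a1, a2⟩ := h.reduce hd rfl
  have hm2 : max |F.X z| |F.Y z| ≤ 2 := max_le hx hy
  have hme : e ≤ max |F.X z| |F.Y z| := le_max_iff.2 (hg z (lat_ne_zero hd))
  set m := max |F.X z| |F.Y z|
  have h1 : 1 / m ≤ 1 / e := one_div_le_one_div_of_le he hme
  have h2 : 1 ≤ 1 / e := by rw [le_div_iff₀ he]; linarith
  exact ⟨z, f', hd', by linarith, by linarith, by linarith, by linarith⟩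

theorem Is.one_le_of_bal (h : F.Is T lam mu) {E : ℝ} (hb : F.Bal E) : 1 ≤ 2 * E ^ 2 := by
  obtain ⟨z, f, hd, a1, a2, a3, a4⟩ := hb
  have := lat_det_le a1 a2 a3 a4
  rw [h.abs_one hd] at this
  linarith [sq E]

theorem Is.pos_of_bal (h : F.Is T lam mu) {E : ℝ} (hb : F.Bal E) : 0 < E := by
  have h1 := h.one_le_of_bal hb
  obtain ⟨z, f, hd, a1, a2, a3, a4⟩ := hb
  have h0 : 0 ≤ E := (abs_nonneg _).trans a1
  rcases h0.eq_or_lt with h2 | h2
  · rw [← h2] at h1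
    norm_num at h1
  · exact h2

theorem Is.short_det (h : F.Is T lam mu) {z s : V} {u v : ℝ} (hu : 0 < u) (huv : 2 * (u * v) ≤ 1)
    (hx : |F.X z| ≤ u) (hy : |F.Y z| ≤ u) (sx : |F.X s| < v) (sy : |F.Y s| < v) :
    det2 z s = 0 := by
  by_contra hc
  have h1 := lat_one_le hc
  rw [h.abs_det2] at h1
  have := lat_det_lt hu hx hy sx sy
  linarith

theorem Is.good_of_bal (h : F.Is T lam mu) {E : ℝ} (hb : F.Bal E) : F.Good (1 / (2 * E)) := by
  have hE := h.pos_of_bal hb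
  obtain ⟨z, f, hd, a1, a2, a3, a4⟩ := hb
  intro s hs
  by_contra hc
  push Not at hc
  have huv : 2 * (E * (1 / (2 * E))) ≤ 1 := by
    apply le_of_eq
    field_simp
  have h1 := h.short_det hE huv a1 a2 hc.1 hc.2
  have h2 := h.short_det hE huv a3 a4 hc.1 hc.2
  have h3 : det2 s f = 0 := by
    simp only [det2] at h2 ⊢
    linarith
  apply hs
  rw [lat_expand hd s, h1, h3]
  simp

theorem Bal.mono {E E' : ℝ} (hb : F.Bal E) (hE : E ≤ E') : F.Bal E' := by
  obtain ⟨z, f, hd, a1, a2, a3, a4⟩ := hb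
  exact ⟨z, f, hd, a1.trans hE, a2.trans hE, a3.trans hE, a4.trans hE⟩

theorem Is.dual_X_rot (h : F.Is T lam mu) (f : V) : |F.dual.X ![f 1, -f 0]| = |F.Y f| := by
  have : F.dual.X ![f 1, -f 0] = F.e * F.Y f := by
    simp only [X, Y, Fr.dual, cons_val_zero, cons_val_one, cons_val_fin_one]
    rw [h.p0, h.p1]
    push_cast
    ring
  rw [this, abs_mul, h.abs_e, one_mul]

theorem Is.dual_Y_rot (h : F.Is T lam mu) (f : V) : |F.dual.Y ![f 1, -f 0]| = |F.X f| := by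
  have : F.dual.Y ![f 1, -f 0] = - (F.e * F.X f) := by
    simp only [X, Y, Fr.dual, cons_val_zero, cons_val_one, cons_val_fin_one]
    rw [h.q0, h.q1]
    push_cast
    ring
  rw [this, abs_neg, abs_mul, h.abs_e, one_mul]

theorem Is.bal_dual (h : F.Is T lam mu) {E : ℝ} (hb : F.Bal E) : F.dual.Bal E := by
  obtain ⟨z, f, hd, a1, a2, a3, a4⟩ := hb
  refine ⟨![z 1, -z 0], ![f 1, -f 0], ?_, ?_, ?_, ?_, ?_⟩
  · simp only [det2, cons_val_zero, cons_val_one, cons_val_fin_one] at hd ⊢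
    linarith
  · rwa [h.dual_X_rot]
  · rwa [h.dual_Y_rot]
  · rwa [h.dual_X_rot]
  · rwa [h.dual_Y_rot]

theorem Bal.sc {E k m : ℝ} (hb : F.Bal E) (hk : 0 < k) (h1 : k ≤ m) (h2 : 1 / k ≤ m) :
    (F.sc k).Bal (m * E) := by
  obtain ⟨z, f, hd, a1, a2, a3, a4⟩ := hb
  have hm : 0 ≤ m := hk.le.trans h1
  have hx : ∀ s : V, |F.X s| ≤ E → |(F.sc k).X s| ≤ m * E := by
    intro s hs
    rw [sc_X, abs_mul, abs_of_pos hk]
    exact mul_le_mul h1 hs (abs_nonneg _) hm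
  have hy : ∀ s : V, |F.Y s| ≤ E → |(F.sc k).Y s| ≤ m * E := by
    intro s hs
    rw [sc_Y, abs_div, abs_of_pos hk, div_eq_mul_one_div, mul_comm]
    exact mul_le_mul h2 hs (abs_nonneg _) hm
  exact ⟨z, f, hd, hx z a1, hy z a2, hx f a3, hy f a4⟩

theorem Is.cover (h : F.Is T lam mu) {E : ℝ} (hb : F.Bal E) : F.Cover E := by
  obtain ⟨z, f, hd, a1, a2, a3, a4⟩ := hb
  intro a b
  have h1 := h.det2_eq z f
  rw [hd] at h1
  push_cast at h1
  set α := F.e * (a * F.Y f - b * F.X f) with hα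
  set β := F.e * (F.X z * b - F.Y z * a) with hβ
  have ea : a = α * F.X z + β * F.X f := by
    rw [hα, hβ]; linear_combination a * h1
  have eb : b = α * F.Y z + β * F.Y f := by
    rw [hα, hβ]; linear_combination b * h1
  have r1 := abs_sub_round α
  have r2 := abs_sub_round β
  have key : ∀ u v : ℝ, |u| ≤ E → |v| ≤ E →
      |(round α : ℤ) * u + (round β : ℤ) * v - (α * u + β * v)| ≤ E := by
    intro u v hu hv
    have e1 : (round α : ℤ) * u + (round β : ℤ) * v - (α * u + β * v) =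
        -((α - round α) * u + (β - round β) * v) := by ring
    rw [e1, abs_neg]
    refine (abs_add_le _ _).trans ?_
    rw [abs_mul, abs_mul]
    have b1 := mul_le_mul r1 hu (abs_nonneg _) (by norm_num)
    have b2 := mul_le_mul r2 hv (abs_nonneg _) (by norm_num)
    linarith
  refine ⟨round α • z + round β • f, ?_, ?_⟩
  · rw [X_add, X_zsmul, X_zsmul]
    have := key _ _ a1 a3
    rwa [← ea] at this
  · rw [Y_add, Y_zsmul, Y_zsmul]
    have := key _ _ a2 a4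
    rwa [← eb] at this

theorem Is.good_of_prim (h : F.Is T lam mu) {z f : V} (hd : det2 z f = 1) {e : ℝ} (he : 0 < e)
    (h1 : e ≤ |F.X z| ∨ e ≤ |F.Y z|) (h2 : |F.X z| ≤ 1 / (2 * e)) (h3 : |F.Y z| ≤ 1 / (2 * e)) :
    F.Good e := by
  intro s hs
  by_contra hc
  push Not at hc
  have huv : 2 * (1 / (2 * e) * e) ≤ 1 := by
    apply le_of_eq
    field_simp
  have h4 := h.short_det (by positivity) huv h2 h3 hc.1 hc.2
  have h5 := lat_expand hd s
  rw [h4, zero_smul, add_zero] at h5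
  have h6 : det2 s f ≠ 0 := by
    intro h0
    rw [h0, zero_smul] at h5
    exact hs h5
  have h7 := lat_one_le h6
  obtain ⟨c1, c2⟩ := hc
  rw [h5, X_zsmul, abs_mul] at c1
  rw [h5, Y_zsmul, abs_mul] at c2
  rcases h1 with h1 | h1
  · nlinarith [abs_nonneg (F.X z)]
  · nlinarith [abs_nonneg (F.Y z)]

theorem exists_short {e : ℝ} (hg : ¬ F.Good e) :
    ∃ z f : V, det2 z f = 1 ∧ |F.X z| < e ∧ |F.Y z| < e := by
  simp only [Good] at hg
  push Not at hg
  obtain ⟨s, hs, c1, c2⟩ := hg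
  obtain ⟨g, z, f, hg1, rfl, hd⟩ := exists_prim hs
  have h7 : (1 : ℝ) ≤ |(g : ℝ)| := lat_one_le (by omega)
  rw [X_zsmul, abs_mul] at c1
  rw [Y_zsmul, abs_mul] at c2
  refine ⟨z, f, hd, ?_, ?_⟩
  · nlinarith [abs_nonneg (F.X z)]
  · nlinarith [abs_nonneg (F.Y z)]

theorem Is.bal3_of_mid (h : F.Is T lam mu) {z f : V} (hd : det2 z f = 1)
    (h1 : 1 / 2 ≤ max |F.X z| |F.Y z|) (h2 : max |F.X z| |F.Y z| ≤ 2) : F.Bal 3 := by
  obtain ⟨hpos, f', hd', a1, a2⟩ := h.reduce hd rfl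
  have b1 := le_max_left |F.X z| |F.Y z|
  have b2 := le_max_right |F.X z| |F.Y z|
  set m := max |F.X z| |F.Y z|
  have h3 : 1 / m ≤ 2 := by rw [div_le_iff₀ hpos]; linarith
  exact ⟨z, f', hd', by linarith, by linarith, by linarith, by linarith⟩

theorem Is.exists_bal3 (h : F.Is T lam mu) : ∃ k : ℝ, 0 < k ∧ (F.sc k).Bal 3 := by
  obtain ⟨z, f, hd, hx, hy⟩ := h.exists_basis
  by_cases hc : 1 / 2 ≤ max |F.X z| |F.Y z|
  · exact ⟨1, one_pos, by rw [sc_one]; exact h.bal3_of_mid hd hc (max_le hx hy)⟩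
  · rw [not_le, max_lt_iff] at hc
    by_cases hx0 : F.X z = 0
    · have hy0 : F.Y z ≠ 0 := fun hy0 => lat_ne_zero hd (h.eq_zero hx0 hy0)
      have hp : 0 < |F.Y z| := abs_pos.2 hy0
      have hk : 0 < 2 * |F.Y z| := by positivity
      have e1 : |(F.sc (2 * |F.Y z|)).X z| = 0 := by rw [sc_X, hx0]; simp
      have e2 : |(F.sc (2 * |F.Y z|)).Y z| = 1 / 2 := by
        rw [sc_Y, abs_div, abs_of_pos hk]; field_simp
      refine ⟨_, hk, (h.sc hk.ne').bal3_of_mid hd ?_ ?_⟩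
      · rw [e1, e2]; exact le_max_right _ _
      · rw [e1, e2]; exact max_le (by norm_num) (by norm_num)
    · have hp : 0 < |F.X z| := abs_pos.2 hx0
      have hk : 0 < 1 / (2 * |F.X z|) := by positivity
      have e1 : |(F.sc (1 / (2 * |F.X z|))).X z| = 1 / 2 := by
        rw [sc_X, abs_mul, abs_of_pos hk]; field_simp
      have e2 : |(F.sc (1 / (2 * |F.X z|))).Y z| = 2 * (|F.X z| * |F.Y z|) := by
        rw [sc_Y, abs_div, abs_of_pos hk]; field_simp
      have e3 : |F.X z| * |F.Y z| ≤ 1 := by nlinarith [abs_nonneg (F.Y z), hc.1, hc.2]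
      refine ⟨_, hk, (h.sc hk.ne').bal3_of_mid hd ?_ ?_⟩
      · rw [e1]; exact le_max_left _ _
      · rw [e1, e2]; exact max_le (by norm_num) (by linarith)

theorem lat_extreme {E a t A x y : ℝ} (hE : 1 ≤ E) (ha : 1 / 3 ≤ a) (ht : 0 < t)
    (ht1 : t ≤ 1 / 4) (hA : 1 ≤ A) (hx : |x - (A + 8 * E / t + E)| ≤ E)
    (hy : |y - a * (1 - t / 2) * (A + 8 * E / t + E)| ≤ E) :
    A ≤ x ∧ x ≤ A + 26 * E / t ∧ y ≤ a * x ∧ a * (1 - t) * x ≤ y ∧ 0 ≤ y := by
  obtain ⟨x1, x2⟩ := abs_le.1 hx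
  obtain ⟨y1, y2⟩ := abs_le.1 hy
  set u := E / t with hu
  have hu1 : t * u = E := by rw [hu]; field_simp
  have hu0 : 0 ≤ u := by rw [hu]; positivity
  have hu2 : E ≤ u := by nlinarith
  have e8 : 8 * E / t = 8 * u := by rw [hu]; ring
  have e26 : 26 * E / t = 26 * u := by rw [hu]; ring
  rw [e8] at x1 x2 y1 y2
  rw [e26]
  set X0 := A + 8 * u + E with hX0
  have k1 : 8 * E ≤ t * X0 := by rw [hX0]; nlinarith
  have k2 : a * (8 * E) ≤ a * (t * X0) := mul_le_mul_of_nonneg_left k1 (by linarith)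
  have k3 : 1 / 3 * E ≤ a * E := mul_le_mul_of_nonneg_right ha (by linarith)
  have k4 : a * (X0 - E) ≤ a * x := mul_le_mul_of_nonneg_left (by linarith) (by linarith)
  have k5 : 0 ≤ a * (1 - t) := mul_nonneg (by linarith) (by linarith)
  have k6 : a * (1 - t) * x ≤ a * (1 - t) * (X0 + E) := mul_le_mul_of_nonneg_left (by linarith) k5
  have k7 : 0 ≤ a * t * E := by positivity
  have hxA : A ≤ x := by linarith
  have k8 : a * (1 - t) * x ≤ y := by linarith
  have k9 : 0 ≤ a * (1 - t) * x := mul_nonneg k5 (by linarith)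
  have k10 : 0 ≤ a * x := mul_nonneg (by linarith) (by linarith)
  refine ⟨hxA, by linarith, by linarith, k8, by linarith⟩

theorem Is.exists_pair (h : F.Is T lam mu) {E : ℝ} (hb : F.Bal E) :
    ∃ w f : V, det2 w f = 1 ∧ 0 ≤ F.X w ∧ F.X w ≤ 26 * E ∧ |F.Y w| ≤ F.X w / 4 ∧
      0 ≤ F.X f ∧ F.X f ≤ 26 * E ∧ |F.Y f| ≤ F.X f / 4 := by
  have hE := h.pos_of_bal hb
  obtain ⟨w0, c1, c2⟩ := h.cover hb (9 * E) 0
  obtain ⟨x1, x2⟩ := abs_le.1 c1
  rw [sub_zero] at c2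
  have hw0 : w0 ≠ 0 := by
    rintro rfl
    rw [X_zero] at x1
    linarith
  obtain ⟨g, w, f, hg1, rfl, hd⟩ := exists_prim hw0
  have hg : (1 : ℝ) ≤ g := by exact_mod_cast hg1
  rw [X_zsmul] at x1 x2
  rw [Y_zsmul, abs_mul, abs_of_pos (by linarith : (0 : ℝ) < g)] at c2
  have wpos : 0 < F.X w := by
    by_contra hc
    nlinarith [not_lt.1 hc]
  have wle : F.X w ≤ 10 * E := by nlinarith
  have wsl : |F.Y w| ≤ F.X w / 8 := by
    have : (g : ℝ) * |F.Y w| ≤ g * (F.X w / 8) := by linarith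
    exact le_of_mul_le_mul_left this (by linarith)
  have wge : 1 / (2 * E) ≤ F.X w := by
    rcases h.good_of_bal hb w (lat_ne_zero hd) with h1 | h1
    · rwa [abs_of_pos wpos] at h1
    · linarith
  have wge' : 1 ≤ 2 * E * F.X w := by
    rw [div_le_iff₀ (by positivity)] at wge
    linarith
  set k : ℤ := ⌈(16 * E - F.X f) / F.X w⌉ with hk
  have k1 : (16 * E - F.X f) / F.X w ≤ k := Int.le_ceil _
  have k2 : (k : ℝ) < (16 * E - F.X f) / F.X w + 1 := Int.ceil_lt_add_one _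
  rw [div_le_iff₀ wpos] at k1
  have k3 : (k : ℝ) * F.X w < 16 * E - F.X f + F.X w := by
    have := mul_lt_mul_of_pos_right k2 wpos
    rwa [add_mul, div_mul_cancel₀ _ wpos.ne', one_mul] at this
  have hd' : det2 w (f + k • w) = 1 := by rw [det2_add_smul, hd]
  have f1 : 16 * E ≤ F.X (f + k • w) := by rw [X_add, X_zsmul]; linarith
  have f2 : F.X (f + k • w) ≤ 26 * E := by rw [X_add, X_zsmul]; linarith
  have h1 := h.abs_one hd'
  set f' := f + k • w
  refine ⟨w, f', hd', wpos.le, by linarith, by linarith, by linarith, f2, ?_⟩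
  have e3 : F.X w * F.Y f' = (F.X w * F.Y f' - F.Y w * F.X f') + F.Y w * F.X f' := by ring
  have e4 : F.X w * |F.Y f'| ≤ 1 + F.X w / 8 * F.X f' := by
    have : F.X w * |F.Y f'| = |F.X w * F.Y f'| := by rw [abs_mul, abs_of_pos wpos]
    rw [this, e3]
    refine (abs_add_le _ _).trans ?_
    rw [h1, abs_mul, abs_of_nonneg (by linarith : 0 ≤ F.X f')]
    have := mul_le_mul_of_nonneg_right wsl (by linarith : 0 ≤ F.X f')
    linarith
  have e5 : F.X w * |F.Y f'| ≤ F.X w * (F.X f' / 4) := by nlinarith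
  exact le_of_mul_le_mul_left e5 wpos

/-- base families with prescribed slopes exist in a balanced frame -/
theorem Is.exists_baseA (h : F.Is T lam mu) {E a b t A : ℝ} (hb : F.Bal E) (hE : 1 ≤ E)
    (ha : 1 / 3 ≤ a) (hb' : 1 / 3 ≤ b) (ht : 0 < t) (ht1 : t ≤ 1 / 4) (hA : 1 ≤ A) :
    ∃ S0 : Fin 4 → V, F.Base (A + 26 * E / t) (a * (1 - t)) (b * (1 - t)) a b S0 ∧
      A ≤ F.X (S0 2) := by
  obtain ⟨w, f, hd, w1, w2, w3, f1, f2, f3⟩ := h.exists_pair hb
  obtain ⟨s2, p1, p2⟩ := h.cover hb (A + 8 * E / t + E) (a * (1 - t / 2) * (A + 8 * E / t + E))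
  obtain ⟨s3, q1, q2⟩ := h.cover hb (A + 8 * E / t + E) (-(b * (1 - t / 2) * (A + 8 * E / t + E)))
  have q2' : |- F.Y s3 - b * (1 - t / 2) * (A + 8 * E / t + E)| ≤ E := by
    rw [← abs_neg]
    convert q2 using 2
    ring
  obtain ⟨a1, a2, a3, a4, a5⟩ := lat_extreme hE ha ht ht1 hA p1 p2
  obtain ⟨b1, b2, b3, b4, b5⟩ := lat_extreme hE hb' ht ht1 hA q1 q2'
  have hEt : 26 * E ≤ A + 26 * E / t := by
    have : 26 * E ≤ 26 * E / t := by
      rw [le_div_iff₀ ht]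
      nlinarith
    linarith
  have cone : ∀ s : V, 0 ≤ F.X s → |F.Y s| ≤ F.X s / 4 → F.InCone a b s := by
    intro s s1 s2
    obtain ⟨u1, u2⟩ := abs_le.1 s2
    have : F.X s / 4 ≤ a * F.X s := by nlinarith
    have : F.X s / 4 ≤ b * F.X s := by nlinarith
    exact ⟨s1, by linarith, by linarith⟩
  refine ⟨![w, f, s2, s3], ⟨?_, ?_, ?_, ?_, ?_, ?_, ?_⟩, ?_⟩
  · show det2 w f ^ 2 = 1
    rw [hd]; norm_num
  · intro i
    fin_cases i
    · exact w2.trans hEt
    · exact f2.trans hEt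
    · exact a2
    · exact b2
  · intro i
    fin_cases i
    · exact cone w w1 w3
    · exact cone f f1 f3
    · exact ⟨by show 0 ≤ F.X s2; linarith, a3, by show - F.Y s2 ≤ b * F.X s2; nlinarith⟩
    · exact ⟨by show 0 ≤ F.X s3; linarith, by show F.Y s3 ≤ a * F.X s3; nlinarith, b3⟩
  · show 0 < F.X s2
    linarith
  · show 0 < F.X s3
    linarith
  · exact a4
  · exact b4
  · exact a1

theorem Is.exists_base (h : F.Is T lam mu) {E a t A : ℝ} (hb : F.Bal E) (hE : 1 ≤ E)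
    (ha : 1 / 2 ≤ a) (_ : a ≤ 1) (ht : 0 < t) (ht1 : t ≤ 1 / 4) (hA : 1 ≤ A) :
    ∃ S0 : Fin 4 → V, F.Base (A + 26 * E / t) (a * (1 - t)) (a * (1 - t)) a a S0 ∧
      A ≤ F.X (S0 2) :=
  h.exists_baseA hb hE (by linarith) (by linarith) ht ht1 hA

end Fr

end Pool.Agent.MP_993212_an.H65
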