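import Pool.Agent.MP_993212_an.H65.Cfg

namespace Pool.Agent.MP_993212_an.H65

open Matrix Pool.Agent.MP_993212_an.H12

theorem exists_coord {ι : Type} [Fintype ι] [DecidableEq ι] (S : ι → V) (u0 u1 : ι)
    (hu : det2 (S u0) (S u1) ^ 2 = 1) (M : ℕ)
    (hM : ∀ i, |det2 (S i) (S u0)| ≤ M ∧ |det2 (S i) (S u1)| ≤ M) :
    ∃ a : ι → V, (∀ i, ∑ j, (a j ⬝ᵥ S i) • S j = S i) ∧ (∀ i j, |a j ⬝ᵥ S i| ≤ M) ∧
      ∀ j, ¬ (j = u0 ∨ j = u1) → a j = 0 := by
  have hne : u0 ≠ u1 := by
    rintro rfl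
    simp [det2, mul_comm] at hu
  have habs : |det2 (S u0) (S u1)| = 1 := by
    rwa [← sq_abs, pow_eq_one_iff_of_nonneg (abs_nonneg _) two_ne_zero] at hu
  let a : ι → V := fun j => if j = u0 then det2 (S u0) (S u1) • ![S u1 1, -S u1 0] else
    if j = u1 then det2 (S u0) (S u1) • ![-S u0 1, S u0 0] else 0
  have h0 : ∀ s, a u0 ⬝ᵥ s = det2 (S u0) (S u1) * det2 s (S u1) := fun s => by
    rw [dot2]; simp [a, det2]; ring
  have h1 : ∀ s, a u1 ⬝ᵥ s = -(det2 (S u0) (S u1) * det2 s (S u0)) := fun s => by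
    rw [dot2]; simp [a, hne.symm, det2]; ring
  have h2 : ∀ j, ¬ (j = u0 ∨ j = u1) → a j = 0 := fun j hj => by
    rw [not_or] at hj
    simp [a, hj.1, hj.2]
  refine ⟨a, fun i => ?_, fun i j => ?_, h2⟩
  · rw [Fintype.sum_eq_add u0 u1 hne fun j hj => by rw [h2 j (not_or.2 hj)]; simp, h0, h1]
    funext c
    simp only [det2] at hu
    fin_cases c
    · simp [det2]; linear_combination S i 0 * hu
    · simp [det2]; linear_combination S i 1 * hu
  · by_cases e0 : j = u0
    · rw [e0, h0, abs_mul, habs, one_mul]; exact (hM i).2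
    by_cases e1 : j = u1
    · rw [e1, h1, abs_neg, abs_mul, habs, one_mul]; exact (hM i).1
    · rw [h2 j (not_or.2 ⟨e0, e1⟩)]; simp

theorem ten_pair {ι κ : Type} [Fintype ι] [Fintype κ] (S : ι → V) (R : κ → V) (n : ι → κ → ℕ)
    (a b : V) : ∑ i, ∑ k, (n i k : ℤ) * ((a ⬝ᵥ S i) * (b ⬝ᵥ R k)) =
      a ⬝ᵥ (ten S (fun i => ∑ k, n i k • R k) *ᵥ b) := by
  simp only [dot2, mulVec, ten, Finset.sum_apply, Pi.smul_apply, Finset.mul_sum,
    Finset.sum_mul, mul_add, ← Finset.sum_add_distrib]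
  exact Finset.sum_congr rfl fun i _ => Finset.sum_congr rfl fun k _ => by
    simp only [nsmul_eq_mul]; ring

/-- connectivity of the fibre through elements with a deep block -/
theorem engineT {ι κ : Type} [Fintype ι] [Fintype κ] [DecidableEq ι] [DecidableEq κ]
    (S : ι → V) (R : κ → V) (hpos : ∀ k i, 0 ≤ R k ⬝ᵥ S i) (u0 u1 : ι) (v0 v1 : κ)
    (hu : det2 (S u0) (S u1) ^ 2 = 1) (hv : det2 (R v0) (R v1) ^ 2 = 1) (M : ℕ)
    (hMS : ∀ i, |det2 (S i) (S u0)| ≤ M ∧ |det2 (S i) (S u1)| ≤ M)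
    (hMR : ∀ k, |det2 (R k) (R v0)| ≤ M ∧ |det2 (R k) (R v1)| ≤ M)
    (n n' : ι → κ → ℕ)
    (hsum : ten S (fun i => ∑ k, n i k • R k) = ten S (fun i => ∑ k, n' i k • R k))
    (hn : ∀ a b, (a = u0 ∨ a = u1) → (b = v0 ∨ b = v1) →
      2 * Fintype.card ι * Fintype.card κ * M ^ 2 ≤ n a b)
    (hn' : ∀ a b, (a = u0 ∨ a = u1) → (b = v0 ∨ b = v1) →
      2 * Fintype.card ι * Fintype.card κ * M ^ 2 ≤ n' a b) :
    SSE (cm S fun i => ∑ k, n i k • R k) (cm S fun i => ∑ k, n' i k • R k) := by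
  obtain ⟨a, ha1, ha2, ha3⟩ := exists_coord S u0 u1 hu M hMS
  obtain ⟨b, hb1, hb2, hb3⟩ := exists_coord R v0 v1 hv M hMR
  let d : ι → κ → ℤ := fun i k => (n' i k : ℤ) - n i k
  have hd : ∀ j l, ∑ i, ∑ k, d i k * ((a j ⬝ᵥ S i) * (b l ⬝ᵥ R k)) = 0 := fun j l => by
    simp only [d, sub_mul, Finset.sum_sub_distrib]
    rw [ten_pair, ten_pair, hsum, sub_self]
  let st : (ι → κ → ℤ) → ι → κ → ℤ := fun h j l =>
    n j l + h j l - ∑ i, ∑ k, h i k * ((a j ⬝ᵥ S i) * (b l ⬝ᵥ R k))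
  let G : (ι → κ → ℤ) → ι → V := fun h j => ∑ l, st h j l • R l
  have hG : ∀ h j, G h j = ∑ k, (n j k + (h j k - ∑ i, h i k * (a j ⬝ᵥ S i))) • R k := by
    intro h j
    have e : ∑ l, (∑ i, ∑ k, h i k * ((a j ⬝ᵥ S i) * (b l ⬝ᵥ R k))) • R l =
        ∑ k, (∑ i, h i k * (a j ⬝ᵥ S i)) • R k := by
      simp only [Finset.sum_smul]
      rw [Finset.sum_comm, Finset.sum_comm (γ := κ) (s := Finset.univ) (t := Finset.univ)
        (f := fun k i => (h i k * (a j ⬝ᵥ S i)) • R k)]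
      refine Finset.sum_congr rfl fun i _ => ?_
      rw [Finset.sum_comm]
      refine Finset.sum_congr rfl fun k _ => ?_
      conv_rhs => rw [← hb1 k, Finset.smul_sum]
      exact Finset.sum_congr rfl fun l _ => by rw [smul_smul, mul_assoc]
    simp only [G, st, ← add_sub_assoc, sub_smul, Finset.sum_sub_distrib]
    rw [e]
  let Good : (ι → κ → ℤ) → Prop := fun h =>
    (∀ i k, min 0 (d i k) ≤ h i k) ∧ ∃ t : ℝ, ∀ i k, |(h i k : ℝ) - t * d i k| ≤ 2
  have pos : ∀ h, Good h → ∀ j i, 0 ≤ G h j ⬝ᵥ S i := by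
    rintro h ⟨h1, t, h2⟩ j i
    rw [sum_dotProduct]
    refine Finset.sum_nonneg fun l _ => ?_
    rw [smul_dotProduct, smul_eq_mul]
    refine mul_nonneg ?_ (hpos l i)
    have h3 := h1 j l
    by_cases hj : j = u0 ∨ j = u1
    swap
    · simp only [st, ha3 j hj, zero_dotProduct, zero_mul, mul_zero, Finset.sum_const_zero, d] at h3 ⊢
      omega
    by_cases hl : l = v0 ∨ l = v1
    swap
    · simp only [st, hb3 l hl, zero_dotProduct, mul_zero, Finset.sum_const_zero, d] at h3 ⊢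
      omega
    have h4 : ((2 * Fintype.card ι * Fintype.card κ * M ^ 2 : ℕ) : ℤ) ≤ n j l + h j l := by
      have := hn j l hj hl
      have := hn' j l hj hl
      simp only [d] at h3
      omega
    have h5 : ((∑ i, ∑ k, h i k * ((a j ⬝ᵥ S i) * (b l ⬝ᵥ R k)) : ℤ) : ℝ) ≤
        ∑ _i : ι, ∑ _k : κ, 2 * ((M : ℝ) * M) := by
      have h6 : ((∑ i, ∑ k, d i k * ((a j ⬝ᵥ S i) * (b l ⬝ᵥ R k)) : ℤ) : ℝ) = 0 := by
        rw [hd, Int.cast_zero]
      rw [← sub_zero (Int.cast _), ← mul_zero t, ← h6]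
      simp only [Int.cast_sum, Int.cast_mul, Finset.mul_sum, ← Finset.sum_sub_distrib]
      refine Finset.sum_le_sum fun i _ => Finset.sum_le_sum fun k _ => ?_
      rw [← mul_assoc t, ← sub_mul]
      refine (le_abs_self _).trans ?_
      rw [abs_mul, abs_mul]
      exact mul_le_mul (h2 i k) (mul_le_mul (by exact_mod_cast ha2 i j) (by exact_mod_cast hb2 k l)
        (abs_nonneg _) (Nat.cast_nonneg _)) (by positivity) zero_le_two
    have h7 : ((2 * Fintype.card ι * Fintype.card κ * M ^ 2 : ℕ) : ℝ) ≤ ((n j l + h j l : ℤ) : ℝ) := by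
      exact_mod_cast h4
    simp only [Finset.sum_const, Finset.card_univ, nsmul_eq_mul] at h5
    refine sub_nonneg.2 (Int.cast_le (R := ℝ).1 (h5.trans (le_trans (le_of_eq ?_) h7)))
    push_cast
    ring
  have col : ∀ h h' k0, Good h → Good h' → (∀ i k, k ≠ k0 → h' i k = h i k) →
      SSE (cm S (G h)) (cm S (G h')) := by
    intro h h' k0 g g' e
    refine lemR S _ _ (R k0) (fun j => h' j k0 - h j k0 - ∑ i, (h' i k0 - h i k0) * (a j ⬝ᵥ S i))
      ?_ (fun j => ?_) (hpos k0) (pos h g) (pos h' g')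
    · simp only [sub_smul _ (∑ _, _), Finset.sum_sub_distrib, Finset.sum_smul]
      rw [Finset.sum_comm, sub_eq_zero]
      refine Finset.sum_congr rfl fun i _ => ?_
      conv_lhs => rw [← ha1 i, Finset.smul_sum]
      exact Finset.sum_congr rfl fun j _ => smul_smul _ _ _
    · rw [hG, hG, ← sub_eq_iff_eq_add', ← Finset.sum_sub_distrib, Finset.sum_eq_single k0]
      · rw [← sub_smul]
        congr 1
        simp only [sub_mul, Finset.sum_sub_distrib]
        ring
      · intro k _ hk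
        simp only [e _ k hk, sub_self]
      · exact fun h => absurd (Finset.mem_univ _) h
  have stp : ∀ (h h' : ι → κ → ℤ) (t : ℝ), (∀ i k, min 0 (d i k) ≤ h i k) →
      (∀ i k, min 0 (d i k) ≤ h' i k) → (∀ i k, |(h i k : ℝ) - t * d i k| ≤ 2) →
      (∀ i k, |(h' i k : ℝ) - t * d i k| ≤ 2) → SSE (cm S (G h)) (cm S (G h')) := by
    intro h h' t g1 g1' g2 g2'
    have good : ∀ s : Finset κ, Good fun i k => if k ∈ s then h' i k else h i k := fun s =>
      ⟨fun i k => by dsimp only; split_ifs; exacts [g1' i k, g1 i k],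
        t, fun i k => by dsimp only; split_ifs; exacts [g2' i k, g2 i k]⟩
    have : ∀ s : Finset κ,
        SSE (cm S (G h)) (cm S (G fun i k => if k ∈ s then h' i k else h i k)) := by
      intro s
      induction s using Finset.induction_on with
      | empty => simpa using SSE.refl _
      | insert k0 s _ ih => exact ih.trans (col _ _ k0 (good s) (good _) fun i k hk => by simp [hk])
    simpa using this Finset.univ
  obtain ⟨m, hm0, hm⟩ : ∃ m : ℕ, 0 < m ∧ ∀ i k, |(d i k : ℝ)| ≤ m := by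
    obtain ⟨B, hB⟩ := (Set.finite_range fun p : ι × κ => |(d p.1 p.2 : ℝ)|).bddAbove
    refine ⟨⌈B⌉₊ + 1, Nat.succ_pos _, fun i k => (hB ⟨(i, k), rfl⟩).trans ?_⟩
    push_cast
    linarith [Nat.le_ceil B]
  have hm' : (0 : ℝ) < m := by exact_mod_cast hm0
  let H : ℕ → ι → κ → ℤ := fun j i k => ⌊(j : ℝ) / m * d i k⌋
  have hH : ∀ j ≤ m, ∀ i k, min 0 (d i k) ≤ H j i k := by
    intro j hj i k
    have h1 : (j : ℝ) / m ≤ 1 := (div_le_one hm').2 (by exact_mod_cast hj)
    have h2 : 0 ≤ (j : ℝ) / m := by positivity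
    refine Int.le_floor.2 ?_
    rcases le_total 0 (d i k) with h | h
    · rw [min_eq_left h, Int.cast_zero]
      exact mul_nonneg h2 (by exact_mod_cast h)
    · have : (d i k : ℝ) ≤ 0 := by exact_mod_cast h
      rw [min_eq_right h]
      nlinarith
  have path : ∀ j ≤ m, SSE (cm S (G (H 0))) (cm S (G (H j))) := by
    intro j hj
    induction j with
    | zero => exact SSE.refl _
    | succ j ih =>
      refine (ih (by omega)).trans (stp _ _ (j / m) (hH j (by omega)) (hH _ hj) (fun i k => ?_)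
        fun i k => ?_)
      · have h1 := Int.floor_le ((j : ℝ) / m * d i k)
        have h2 := Int.lt_floor_add_one ((j : ℝ) / m * d i k)
        exact abs_le.2 ⟨by simp only [H]; linarith, by simp only [H]; linarith⟩
      · have h1 := Int.floor_le (((j + 1 : ℕ) : ℝ) / m * d i k)
        have h2 := Int.lt_floor_add_one (((j + 1 : ℕ) : ℝ) / m * d i k)
        have h3 : ((j + 1 : ℕ) : ℝ) / m * d i k = (j : ℝ) / m * d i k + d i k / m := by
          push_cast; ring
        have h4 : |(d i k : ℝ) / m| ≤ 1 := by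
          rw [abs_div, abs_of_pos hm', div_le_one hm']; exact hm i k
        have h5 := abs_le.1 h4
        exact abs_le.2 ⟨by simp only [H]; linarith, by simp only [H]; linarith⟩
  have e0 : G (H 0) = fun i => ∑ k, n i k • R k := by
    funext j
    simp [G, st, H]
  have e1 : G (H m) = fun i => ∑ k, n' i k • R k := by
    funext j
    have : H m = d := by
      funext i k
      simp only [H]
      rw [div_self hm'.ne', one_mul, Int.floor_intCast]
    rw [this]
    simp only [G, st, hd]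
    simp [d]
  have := path m le_rfl
  rwa [e0, e1] at this

end Pool.Agent.MP_993212_an.H65
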