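import Pool.Agent.MP_993212_an.H65.Frame
import Pool.Agent.MP_993212_an.H65.Tensor

namespace Pool.Agent.MP_993212_an.H65

open Matrix Pool.Agent.MP_993212_an.H12

theorem link_red {ι κ τ : Type} [Fintype ι] [Fintype κ] [Fintype τ] [DecidableEq ι]
    [DecidableEq κ] [DecidableEq τ] (A : ι → V) (B : κ → V) (hpos : ∀ k i, 0 ≤ B k ⬝ᵥ A i) (x : ι → τ → ℕ)
    (y : κ → τ → ℕ) {S R : τ → V} (hS : ∀ j, S j = ∑ i, x i j • A i)
    (hR : ∀ j, R j = ∑ k, y k j • B k) :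
    SSE (cm S R) (cm A fun i => ∑ k, (∑ j, x i j * y k j) • B k) ∧
      ten A (fun i => ∑ k, (∑ j, x i j * y k j) • B k) = ten S R := by
  have e : ∀ i, ∑ k, (∑ j, x i j * y k j) • B k = ∑ j, x i j • R j := fun i => by
    simp only [hR, Finset.sum_smul, Finset.smul_sum, smul_smul]
    exact Finset.sum_comm
  refine ⟨lemX A R x S _ hS e fun j i => ?_, ?_⟩
  · rw [hR, nsmul_sum_dot]
    exact Finset.sum_nonneg fun k _ => mul_nonneg (Nat.cast_nonneg _) (hpos k i)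
  · rw [funext e]
    ext a b
    simp only [ten, hS, Finset.sum_apply, Pi.smul_apply, Finset.mul_sum, Finset.sum_mul]
    rw [Finset.sum_comm]
    exact Finset.sum_congr rfl fun j _ => Finset.sum_congr rfl fun i _ => by
      simp only [nsmul_eq_mul]; ring

namespace Fr

variable {F : Fr} {T : M2} {lam mu : ℝ}

theorem Is.det_le (h : F.Is T lam mu) {Z Ap Am : ℝ} (hAp : Ap ≤ 4) (hAm : Am ≤ 4) {s t : V}
    (hs : F.InCone Ap Am s) (ht : F.InCone Ap Am t) (h1 : F.X s ≤ Z ^ 7) (h2 : F.X t ≤ Z) :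
    |det2 s t| ≤ (⌊8 * Z ^ 8⌋₊ : ℕ) := by
  have k : ∀ {s : V}, F.InCone Ap Am s → |F.Y s| ≤ 4 * F.X s := fun hs =>
    abs_le.2 ⟨by nlinarith [hs.1, hs.2.2], by nlinarith [hs.1, hs.2.1]⟩
  have h3 : F.X s * F.X t ≤ Z ^ 7 * Z := mul_le_mul h1 h2 ht.1 (hs.1.trans h1)
  have h4 : |(det2 s t : ℝ)| ≤ 8 * Z ^ 8 := by
    rw [h.abs_det2]
    refine (abs_sub _ _).trans ?_
    rw [abs_mul, abs_mul, abs_of_nonneg hs.1, abs_of_nonneg ht.1, pow_succ]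
    nlinarith [mul_le_mul_of_nonneg_left (k ht) hs.1, mul_le_mul_of_nonneg_right (k hs) ht.1]
  rw [Int.abs_eq_natAbs, Int.ofNat_le]
  refine Nat.le_floor ?_
  rwa [Nat.cast_natAbs, Int.cast_abs]

/-- two configurations decomposed along the same base families are equivalent -/
theorem link (h : F.Is T lam mu) {Z ap am Ap Am bp bm Bp Bm : ℝ} {S0 R0 : Fin 4 → V}
    (hS : F.Base Z ap am Ap Am S0) (hR : F.dual.Base Z bp bm Bp Bm R0) (hZ : 10000 ≤ Z)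
    (hAp0 : 0 ≤ Ap) (hAm0 : 0 ≤ Am) (hAp : Ap ≤ 4) (hAm : Am ≤ 4)
    (hBp0 : 0 ≤ Bp) (hBm0 : 0 ≤ Bm) (hBp : Bp ≤ 4) (hBm : Bm ≤ 4)
    (c1 : Am * Bp ≤ 1) (c2 : Ap * Bm ≤ 1) {S R S' R' : Fin 4 → V}
    (hd : F.Dec Z Ap Am Bp Bm S0 R0 S R) (hd' : F.Dec Z Ap Am Bp Bm S0 R0 S' R')
    (ht : ten S R = ten S' R') : SSE (cm S R) (cm S' R') := by
  obtain ⟨n, m, s, r, e1, e2, e3, e4, e5⟩ := hd
  obtain ⟨n', m', s', r', f1, f2, f3, f4, f5⟩ := hd'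
  have hZ7 : Z ≤ Z ^ 7 := le_self_pow₀ (by linarith) (by norm_num)
  let A : Fin 4 ⊕ Fin 4 ⊕ Fin 4 → V := Sum.elim S0 (Sum.elim s s')
  let B : Fin 4 ⊕ Fin 4 ⊕ Fin 4 → V := Sum.elim R0 (Sum.elim r r')
  have hA : ∀ i, F.InCone Ap Am (A i) ∧ F.X (A i) ≤ Z ^ 7 := by
    rintro (i | i | i)
    exacts [⟨hS.cone i, (hS.size i).trans hZ7⟩, e3 i, f3 i]
  have hB : ∀ i, F.dual.InCone Bp Bm (B i) ∧ F.dual.X (B i) ≤ Z ^ 7 := by
    rintro (i | i | i)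
    exacts [⟨hR.cone i, (hR.size i).trans hZ7⟩, e4 i, f4 i]
  have hpos : ∀ k i, 0 ≤ B k ⬝ᵥ A i := fun k i =>
    h.pair_nonneg (hA i).1 (hB k).1 hAp0 hAm0 c1 c2
  let x : (Fin 4 → Fin 4 → ℕ) → Fin 4 ⊕ Fin 4 ⊕ Fin 4 → Fin 4 → ℕ := fun n i j =>
    Sum.elim (n j) (Sum.elim (fun i => if j = i then 1 else 0) fun _ => 0) i
  let x' : (Fin 4 → Fin 4 → ℕ) → Fin 4 ⊕ Fin 4 ⊕ Fin 4 → Fin 4 → ℕ := fun n i j =>
    Sum.elim (n j) (Sum.elim (fun _ => 0) fun i => if j = i then 1 else 0) i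
  obtain ⟨g1, g2⟩ := link_red A B hpos (x n) (x m) (S := S) (R := R)
    (fun j => by rw [e1 j]; simp [x, A, Fintype.sum_sum_type])
    (fun j => by rw [e2 j]; simp [x, B, Fintype.sum_sum_type])
  obtain ⟨g1', g2'⟩ := link_red A B hpos (x' n') (x' m') (S := S') (R := R')
    (fun j => by rw [f1 j]; simp [x', A, Fintype.sum_sum_type])
    (fun j => by rw [f2 j]; simp [x', B, Fintype.sum_sum_type])
  have hM : ((2 * Fintype.card (Fin 4 ⊕ Fin 4 ⊕ Fin 4) * Fintype.card (Fin 4 ⊕ Fin 4 ⊕ Fin 4) *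
      ⌊8 * Z ^ 8⌋₊ ^ 2 : ℕ) : ℝ) ≤ 2 * Z ^ 17 := by
    have h0 : 0 ≤ Z ^ 8 := by positivity
    have h1 : (⌊8 * Z ^ 8⌋₊ : ℝ) ≤ 8 * Z ^ 8 := Nat.floor_le (by positivity)
    have h2 := pow_le_pow_left₀ (Nat.cast_nonneg _) h1 2
    have h3 : Z ^ 17 = (Z ^ 8) ^ 2 * Z := by ring
    simp only [Fintype.card_sum, Fintype.card_fin]
    push_cast
    rw [h3]
    nlinarith [sq_nonneg (Z ^ 8)]
  refine g1.trans ((engineT A B hpos (Sum.inl 0) (Sum.inl 1) (Sum.inl 0) (Sum.inl 1) hS.uni hR.uni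
    ⌊8 * Z ^ 8⌋₊ (fun i => ?_) (fun k => ?_) _ _ (g2.trans (ht.trans g2'.symm)) ?_ ?_).trans g1'.symm)
  · exact ⟨h.det_le hAp hAm (hA i).1 (hS.cone 0) (hA i).2 (hS.size 0),
      h.det_le hAp hAm (hA i).1 (hS.cone 1) (hA i).2 (hS.size 1)⟩
  · exact ⟨h.dual.det_le hBp hBm (hB k).1 (hR.cone 0) (hB k).2 (hR.size 0),
      h.dual.det_le hBp hBm (hB k).1 (hR.cone 1) (hB k).2 (hR.size 1)⟩
  · rintro a b (rfl | rfl) (rfl | rfl) <;>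
      exact Nat.cast_le.1 (hM.trans (e5 _ _ (by simp) (by simp)))
  · rintro a b (rfl | rfl) (rfl | rfl) <;>
      exact Nat.cast_le.1 (hM.trans (f5 _ _ (by simp) (by simp)))

end Fr

end Pool.Agent.MP_993212_an.H65
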