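import Pool.Agent.MP_993212_an.H65.Frame

namespace Pool.Agent.MP_993212_an.H65

open Matrix Pool.Agent.MP_993212_an.H12

namespace Fr

/-- the estimate for an extreme covector -/
theorem mix_ext1 {L t ρ ξ η d E P R : ℝ} (hL : 0 < L) (ht : 0 < t) (ht1 : t ≤ 1) (hρ0 : 0 ≤ ρ)
    (hρ : ρ ≤ 8 / 3) (hξ : L / 4 ≤ ξ) (hη : η ≤ ρ * ξ) (hd : |d| ≤ t * L / 32)
    (hE : E ≤ t * L / 40) (hP : |P - (ξ - d)| ≤ E) (hR : R - η ≤ E) :
    R ≤ (ρ + t) * P ∧ L / 8 ≤ P := by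
  obtain ⟨b1, b2⟩ := abs_le.1 hd
  obtain ⟨c1, c2⟩ := abs_le.1 hP
  have htL : t * L ≤ L := by nlinarith
  have htL0 : 0 < t * L := mul_pos ht hL
  have h1 : ξ - (t * L / 32 + t * L / 40) ≤ P := by linarith
  have h2 : (ρ + t) * (ξ - (t * L / 32 + t * L / 40)) ≤ (ρ + t) * P :=
    mul_le_mul_of_nonneg_left h1 (by linarith)
  have h3 : (ρ + t) * (t * L / 32 + t * L / 40) ≤ 11 / 3 * (t * L / 32 + t * L / 40) :=
    mul_le_mul_of_nonneg_right (by linarith) (by linarith)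
  have h4 : t * (L / 4) ≤ t * ξ := mul_le_mul_of_nonneg_left hξ ht.le
  have h5 : ρ * ξ + E ≤ (ρ + t) * P := by nlinarith
  exact ⟨by linarith, by linarith⟩

theorem mix_ext {L t ρ σ ξ η d E P R : ℝ} (hL : 0 < L) (ht : 0 < t) (ht1 : t ≤ 1) (hρ0 : 0 ≤ ρ)
    (hρ : ρ ≤ 8 / 3) (hσ0 : 0 ≤ σ) (hσ : σ ≤ 8 / 3) (hξ : L / 4 ≤ ξ) (hη : η ≤ ρ * ξ)
    (hη' : - η ≤ σ * ξ) (hd : |d| ≤ t * L / 32)
    (hE : E ≤ t * L / 40) (hP : |P - (ξ - d)| ≤ E) (hR : |R - η| ≤ E) :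
    (0 ≤ P ∧ R ≤ (ρ + t) * P ∧ - R ≤ (σ + t) * P) ∧ L / 8 ≤ P := by
  obtain ⟨d1, d2⟩ := abs_le.1 hR
  obtain ⟨a1, a2⟩ := mix_ext1 hL ht ht1 hρ0 hρ hξ hη hd hE hP d2
  obtain ⟨b1, -⟩ := mix_ext1 (R := - R) hL ht ht1 hσ0 hσ hξ hη' hd hE hP (by linarith)
  exact ⟨⟨by linarith, a1, b1⟩, a2⟩

/-- the estimate for a covector of the unimodular pair -/
theorem mix_uni {t ρ σ θ B E c2 c3 e2 e3 f2 f3 P R : ℝ} (ht : 0 < t) (ht1 : t ≤ 1) (hρ0 : 0 ≤ ρ)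
    (hσ0 : 0 ≤ σ)
    (hB : 4 * (B * E) ≤ t * θ) (h2 : |c2| ≤ B) (h3 : |c3| ≤ B) (he2 : |e2| ≤ E) (he3 : |e3| ≤ E)
    (hf2 : |f2| ≤ E) (hf3 : |f3| ≤ E) (hP : P = θ - c2 * e2 - c3 * e3)
    (hR : R = - (c2 * f2) - c3 * f3) :
    0 ≤ P ∧ R ≤ (ρ + t) * P ∧ - R ≤ (σ + t) * P := by
  have hB0 : 0 ≤ B := (abs_nonneg _).trans h2
  have hE0 : 0 ≤ E := (abs_nonneg _).trans he2
  have k : ∀ c e : ℝ, |c| ≤ B → |e| ≤ E → |c * e| ≤ B * E := fun c e hc he => by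
    rw [abs_mul]
    exact mul_le_mul hc he (abs_nonneg _) hB0
  obtain ⟨a1, a2⟩ := abs_le.1 (k _ _ h2 he2)
  obtain ⟨b1, b2⟩ := abs_le.1 (k _ _ h3 he3)
  obtain ⟨c1, c2'⟩ := abs_le.1 (k _ _ h2 hf2)
  obtain ⟨d1, d2⟩ := abs_le.1 (k _ _ h3 hf3)
  have hBE : 0 ≤ B * E := mul_nonneg hB0 hE0
  have hθ : 0 ≤ θ := by
    by_contra hn
    have := mul_pos ht (neg_pos.2 (not_le.1 hn))
    linarith
  have hθ' : t * θ ≤ θ := by nlinarith
  have h1 : θ - 2 * (B * E) ≤ P := by linarith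
  have hP0 : 0 ≤ P := by linarith
  have h4 : t * (θ - 2 * (B * E)) ≤ t * P := mul_le_mul_of_nonneg_left h1 ht.le
  have h5 : t * (B * E) ≤ B * E := by nlinarith
  have h6 : 0 ≤ ρ * P := mul_nonneg hρ0 hP0
  have h7 : 0 ≤ σ * P := mul_nonneg hσ0 hP0
  exact ⟨hP0, by linarith, by linarith⟩

/-- central covectors, taken in the row lattice of `H`, for a given base family of types -/
theorem Is.mixA {F : Fr} {G H : M2} {lam mu : ℝ} (h : F.Is (G * H) lam mu) (hlam : 0 < lam)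
    {M ap am Ap Am t E ρ σ : ℝ} {S0 : Fin 4 → V} (hb : F.Base M ap am Ap Am S0) (hM : 1 ≤ M)
    (hap : 3 / 8 ≤ ap) (ham : 3 / 8 ≤ am) (hAp : Ap ≤ 1) (hAm : Am ≤ 1) (ht : 0 < t) (ht1 : t ≤ 1)
    (hρ0 : 0 ≤ ρ) (hρ1 : ρ ≤ 8 / 3) (hσ0 : 0 ≤ σ) (hσ1 : σ ≤ 8 / 3)
    (m1 : mu ≤ ρ * lam * ap) (m2 : - mu ≤ ρ * lam * am) (m3 : mu ≤ σ * lam * am)
    (m4 : - mu ≤ σ * lam * ap)
    (hc : ∀ u v : ℝ, ∃ r : V, |F.dual.X (r ᵥ* H) - u| ≤ E ∧ |F.dual.Y (r ᵥ* H) - v| ≤ E)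
    (hE : 1024 * M ^ 5 * E ≤ t ^ 2 * lam) :
    ∃ Q : Fin 4 → V, ten S0 Q = G ∧
      (∀ j, F.dual.InCone (ρ + t) (σ + t) (Q j ᵥ* H)) ∧
      lam / (8 * M) ≤ F.dual.X (Q 2 ᵥ* H) := by
  have hM0 : 0 < M := by linarith
  have hE0 : 0 ≤ E := by
    obtain ⟨r, hr, -⟩ := hc 0 0
    exact (abs_nonneg _).trans hr
  have hx0 : ∀ i, 0 ≤ F.X (S0 i) := fun i => (hb.cone i).1
  have hxM : ∀ i, F.X (S0 i) ≤ M := hb.size
  have hy : ∀ i, |F.Y (S0 i)| ≤ F.X (S0 i) := fun i => by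
    obtain ⟨h0, h1, h2⟩ := hb.cone i
    have := mul_le_mul_of_nonneg_right hAp h0
    have := mul_le_mul_of_nonneg_right hAm h0
    exact abs_le.2 ⟨by linarith, by linarith⟩
  have hyM : ∀ i, |F.Y (S0 i)| ≤ M := fun i => (hy i).trans (hxM i)
  have hxM' : ∀ i, |F.X (S0 i)| ≤ M := fun i => by rw [abs_of_nonneg (hx0 i)]; exact hxM i
  have hdet : ∀ i j, |(det2 (S0 i) (S0 j) : ℝ)| ≤ 2 * M ^ 2 := fun i j => by
    rw [h.abs_det2]
    refine (abs_sub _ _).trans ?_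
    rw [abs_mul, abs_mul]
    have e1 := mul_le_mul (hxM' i) (hyM j) (abs_nonneg _) hM0.le
    have e2 := mul_le_mul (hyM i) (hxM' j) (abs_nonneg _) hM0.le
    linarith
  have hp2 := hb.pos2
  have hp3 := hb.pos3
  have he2 := hb.ext2
  have he3 := hb.ext3
  have hu := hb.uni
  obtain ⟨hy2a, hy2b⟩ := abs_le.1 (hy 2)
  obtain ⟨hy3a, hy3b⟩ := abs_le.1 (hy 3)
  set x2 := F.X (S0 2) with hx2
  set y2 := F.Y (S0 2) with hy2
  set x3 := F.X (S0 3) with hx3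
  set y3 := F.Y (S0 3) with hy3
  have hy2p : 3 / 8 * x2 ≤ y2 := (mul_le_mul_of_nonneg_right hap hp2.le).trans he2
  have hy3p : 3 / 8 * x3 ≤ - y3 := (mul_le_mul_of_nonneg_right ham hp3.le).trans he3
  obtain ⟨N, hN⟩ : ∃ N, N = x3 * y2 - y3 * x2 := ⟨_, rfl⟩
  have hN0 : 0 < N := by
    have e1 : 0 < x3 * y2 := mul_pos hp3 (by linarith)
    have e2 : 0 < - y3 * x2 := mul_pos (by linarith) hp2
    linarith
  have hN1 : 1 ≤ N := by
    have e1 : |(det2 (S0 3) (S0 2) : ℝ)| = N := by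
      rw [h.abs_det2, ← hx2, ← hy2, ← hx3, ← hy3, ← hN, abs_of_pos hN0]
    have e2 : det2 (S0 3) (S0 2) ≠ 0 := by
      intro h0
      rw [h0] at e1
      simp at e1
      linarith
    rw [← e1, ← Int.cast_abs]
    exact_mod_cast Int.one_le_abs e2
  obtain ⟨L, hL⟩ : ∃ L, L = lam / M := ⟨_, rfl⟩
  have hL0 : 0 < L := by rw [hL]; positivity
  have hLM : L * M = lam := by rw [hL]; field_simp
  obtain ⟨θ, hθ⟩ : ∃ θ, θ = t * lam / (128 * M ^ 3) := ⟨_, rfl⟩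
  have hθ0 : 0 < θ := by rw [hθ]; positivity
  have hθ1 : θ * (4 * M ^ 2) = t * L / 32 := by rw [hθ, hL]; field_simp; ring
  have hθ2 : 4 * (2 * M ^ 2 * E) ≤ t * θ := by
    rw [hθ, ← mul_div_assoc, le_div_iff₀ (by positivity)]
    linarith
  have hE1 : E ≤ t * L / 40 := by
    have e1 : M ≤ M ^ 5 := le_self_pow₀ hM (by norm_num)
    have e2 : M * E ≤ M ^ 5 * E := mul_le_mul_of_nonneg_right e1 hE0
    have e3 : t ^ 2 * lam ≤ t * lam := by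
      have := mul_pos ht hlam
      nlinarith
    have e4 : 0 ≤ M * E := by positivity
    have e5 : (40 * E) * M ≤ (t * L) * M := by
      rw [mul_assoc t L M, hLM]
      linarith
    have := le_of_mul_le_mul_right e5 hM0
    linarith
  obtain ⟨sx, hsx⟩ : ∃ sx, sx = F.X (S0 0) + F.X (S0 1) := ⟨_, rfl⟩
  obtain ⟨sy, hsy⟩ : ∃ sy, sy = F.Y (S0 0) + F.Y (S0 1) := ⟨_, rfl⟩
  have hsx' : |sx| ≤ 2 * M := by
    rw [hsx]
    refine (abs_add_le _ _).trans ?_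
    linarith [hxM' 0, hxM' 1]
  have hsy' : |sy| ≤ 2 * M := by
    rw [hsy]
    refine (abs_add_le _ _).trans ?_
    linarith [hyM 0, hyM 1]
  have hσ : ∀ p q u v : ℝ, |p| ≤ M → |q| ≤ M → |u| ≤ 2 * M → |v| ≤ 2 * M →
      |θ * ((p * u - q * v) / N)| ≤ t * L / 32 := by
    intro p q u v hp hq hu hv
    rw [abs_mul, abs_of_pos hθ0, ← hθ1, abs_div, abs_of_pos hN0]
    refine mul_le_mul_of_nonneg_left ?_ hθ0.le
    refine (div_le_self (abs_nonneg _) hN1).trans ((abs_sub _ _).trans ?_)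
    rw [abs_mul, abs_mul]
    have e1 := mul_le_mul hp hu (abs_nonneg _) hM0.le
    have e2 := mul_le_mul hq hv (abs_nonneg _) hM0.le
    linarith
  obtain ⟨Q2, h2x, h2y⟩ := hc (lam * - y3 / N - θ * ((x3 * sy - y3 * sx) / N)) (- (mu * x3 / N))
  obtain ⟨Q3, h3x, h3y⟩ := hc (lam * y2 / N - θ * ((y2 * sx - x2 * sy) / N)) (mu * x2 / N)
  have k2 := mix_ext hL0 ht ht1 hρ0 hρ1 hσ0 hσ1 (ξ := lam * - y3 / N) (η := - (mu * x3 / N))
    (by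
      rw [le_div_iff₀ hN0, ← hLM]
      have e1 : N ≤ 4 * (M * - y3) := by
        have e2 : x3 * y2 ≤ x3 * M := mul_le_mul_of_nonneg_left (hy2b.trans (hxM 2)) hp3.le
        have e3 : - y3 * x2 ≤ - y3 * M := mul_le_mul_of_nonneg_left (hxM 2) (by linarith)
        have e4 : 3 / 8 * x3 * M ≤ - y3 * M := mul_le_mul_of_nonneg_right hy3p hM0.le
        have e5 : 0 ≤ x3 * M := by positivity
        linarith
      have := mul_le_mul_of_nonneg_left e1 hL0.le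
      linarith)
    (by
      rw [← neg_div, ← mul_div_assoc]
      refine div_le_div_of_nonneg_right ?_ hN0.le
      have := mul_le_mul_of_nonneg_left he3 (mul_nonneg hρ0 hlam.le)
      have := mul_le_mul_of_nonneg_right m2 hp3.le
      linarith)
    (by
      rw [neg_neg, ← mul_div_assoc]
      refine div_le_div_of_nonneg_right ?_ hN0.le
      have := mul_le_mul_of_nonneg_left he3 (mul_nonneg hσ0 hlam.le)
      have := mul_le_mul_of_nonneg_right m3 hp3.le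
      linarith)
    (hσ _ _ _ _ (hxM' 3) (hyM 3) hsy' hsx') hE1 h2x h2y
  have k3 := mix_ext hL0 ht ht1 hρ0 hρ1 hσ0 hσ1 (ξ := lam * y2 / N) (η := mu * x2 / N)
    (by
      rw [le_div_iff₀ hN0, ← hLM]
      have e1 : N ≤ 4 * (M * y2) := by
        have e2 : x3 * y2 ≤ M * y2 := mul_le_mul_of_nonneg_right (hxM 3) (by linarith)
        have e3 : - y3 * x2 ≤ M * x2 :=
          mul_le_mul_of_nonneg_right (by linarith [hxM 3]) hp2.le
        have e4 : M * (3 / 8 * x2) ≤ M * y2 := mul_le_mul_of_nonneg_left hy2p hM0.le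
        have e5 : 0 ≤ M * x2 := by positivity
        linarith
      have := mul_le_mul_of_nonneg_left e1 hL0.le
      linarith)
    (by
      rw [← mul_div_assoc]
      refine div_le_div_of_nonneg_right ?_ hN0.le
      have := mul_le_mul_of_nonneg_left he2 (mul_nonneg hρ0 hlam.le)
      have := mul_le_mul_of_nonneg_right m1 hp2.le
      linarith)
    (by
      rw [← neg_div, ← mul_div_assoc]
      refine div_le_div_of_nonneg_right ?_ hN0.le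
      have := mul_le_mul_of_nonneg_left he2 (mul_nonneg hσ0 hlam.le)
      have := mul_le_mul_of_nonneg_right m4 hp2.le
      linarith)
    (hσ _ _ _ _ (hyM 2) (hxM' 2) hsx' hsy') hE1 h3x h3y
  have key : ∀ c : V, c ⬝ᵥ S0 0 + c ⬝ᵥ S0 1 = 1 → |((c ⬝ᵥ S0 2 : ℤ) : ℝ)| ≤ 2 * M ^ 2 →
      |((c ⬝ᵥ S0 3 : ℤ) : ℝ)| ≤ 2 * M ^ 2 → F.dual.InCone (ρ + t) (σ + t)
        ((c ᵥ* G - (c ⬝ᵥ S0 2) • Q2 - (c ⬝ᵥ S0 3) • Q3) ᵥ* H) := by
    intro c h1 b2 b3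
    have p2 := h.pair c (S0 2)
    have p3 := h.pair c (S0 3)
    have p1 : F.dual.X c * sx + F.dual.Y c * sy = 1 := by
      have q0 := h.pair c (S0 0)
      have q1 := h.pair c (S0 1)
      have q2 : ((c ⬝ᵥ S0 0 : ℤ) : ℝ) + ((c ⬝ᵥ S0 1 : ℤ) : ℝ) = 1 := by exact_mod_cast h1
      rw [hsx, hsy]
      linarith
    rw [← hx2, ← hy2] at p2
    rw [← hx3, ← hy3] at p3
    refine mix_uni ht ht1 hρ0 hσ0 hθ2 b2 b3 h2x h3x h2y h3y ?_ ?_
    · rw [sub_vecMul, sub_vecMul, smul_vecMul, smul_vecMul, vecMul_vecMul, X_sub, X_sub, X_zsmul,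
        X_zsmul, h.X_vecMul, p2, p3]
      field_simp
      rw [hN]
      linear_combination (θ * (x3 * y2 - y3 * x2)) * p1
    · rw [sub_vecMul, sub_vecMul, smul_vecMul, smul_vecMul, vecMul_vecMul, Y_sub, Y_sub, Y_zsmul,
        Y_zsmul, h.Y_vecMul, p2, p3]
      field_simp
      rw [hN]
      ring
  obtain ⟨δ, hδ⟩ : ∃ δ, δ = det2 (S0 0) (S0 1) := ⟨_, rfl⟩
  have hδ1 : |(δ : ℝ)| = 1 := by
    rw [← hδ] at hu
    rcases mul_self_eq_one_iff.1 (show δ * δ = 1 by rw [← sq, hu]) with e | e <;> simp [e]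
  obtain ⟨c0, hc0⟩ : ∃ c0 : V, c0 = ![δ * S0 1 1, - (δ * S0 1 0)] := ⟨_, rfl⟩
  obtain ⟨c1, hc1⟩ : ∃ c1 : V, c1 = ![- (δ * S0 0 1), δ * S0 0 0] := ⟨_, rfl⟩
  have d0 : ∀ s : V, c0 ⬝ᵥ s = δ * det2 s (S0 1) := fun s => by
    rw [dot2, hc0, det2]
    simp only [cons_val_zero, cons_val_one, cons_val_fin_one]
    ring
  have d1 : ∀ s : V, c1 ⬝ᵥ s = δ * det2 (S0 0) s := fun s => by
    rw [dot2, hc1, det2]
    simp only [cons_val_zero, cons_val_one, cons_val_fin_one]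
    ring
  have bd : ∀ i j, |((δ * det2 (S0 i) (S0 j) : ℤ) : ℝ)| ≤ 2 * M ^ 2 := fun i j => by
    rw [Int.cast_mul, abs_mul, hδ1, one_mul]
    exact hdet i j
  have k0 := key c0 (by
    rw [d0, d0, hδ]
    simp only [det2] at hu ⊢
    linear_combination hu) (by rw [d0]; exact bd _ _) (by rw [d0]; exact bd _ _)
  have k1 := key c1 (by
    rw [d1, d1, hδ]
    simp only [det2] at hu ⊢
    linear_combination hu) (by rw [d1]; exact bd _ _) (by rw [d1]; exact bd _ _)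
  refine ⟨![c0 ᵥ* G - (c0 ⬝ᵥ S0 2) • Q2 - (c0 ⬝ᵥ S0 3) • Q3,
    c1 ᵥ* G - (c1 ⬝ᵥ S0 2) • Q2 - (c1 ⬝ᵥ S0 3) • Q3, Q2, Q3], ?_, ?_, ?_⟩
  · have gen : ∀ (s : V) (i : Fin 2), S0 0 i * (c0 ⬝ᵥ s) + S0 1 i * (c1 ⬝ᵥ s) = s i := by
      intro s i
      rw [d0, d1, hδ]
      simp only [det2] at hu ⊢
      fin_cases i
      · simp only [Fin.zero_eta, Fin.isValue]
        linear_combination s 0 * hu
      · simp only [Fin.mk_one, Fin.isValue]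
        linear_combination s 1 * hu
    ext i j
    have g0 := gen (fun k => G k j) i
    have g2 := gen (S0 2) i
    have g3 := gen (S0 3) i
    simp only [ten, Fin.sum_univ_four, cons_val, Pi.sub_apply, Pi.smul_apply, smul_eq_mul, vecMul]
    linear_combination g0 - Q2 j * g2 - Q3 j * g3
  · intro j
    fin_cases j
    exacts [k0, k1, k2.1, k3.1]
  · have e : lam / (8 * M) = L / 8 := by rw [hL]; field_simp
    rw [e]
    exact k2.2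

theorem Is.mix {F : Fr} {G H : M2} {lam mu : ℝ} (h : F.Is (G * H) lam mu) (hml : |mu| < lam)
    {M a A t E : ℝ} {S0 : Fin 4 → V} (hb : F.Base M a a A A S0) (hM : 1 ≤ M)
    (ha : 3 / 8 ≤ a) (hA : A ≤ 1) (ht : 0 < t) (ht1 : t ≤ 1)
    (hc : ∀ u v : ℝ, ∃ r : V, |F.dual.X (r ᵥ* H) - u| ≤ E ∧ |F.dual.Y (r ᵥ* H) - v| ≤ E)
    (hE : 1024 * M ^ 5 * E ≤ t ^ 2 * lam) :
    ∃ Q : Fin 4 → V, ten S0 Q = G ∧
      (∀ j, F.dual.InCone (|mu| / (lam * a) + t) (|mu| / (lam * a) + t) (Q j ᵥ* H)) ∧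
      lam / (8 * M) ≤ F.dual.X (Q 2 ᵥ* H) := by
  have hlam : 0 < lam := (abs_nonneg mu).trans_lt hml
  have ha0 : 0 < a := by linarith
  have hρ0 : 0 ≤ |mu| / (lam * a) := by positivity
  have hρ1 : |mu| / (lam * a) ≤ 8 / 3 := by
    rw [div_le_iff₀ (by positivity)]
    nlinarith
  have hρ2 : |mu| / (lam * a) * lam * a = |mu| := by field_simp
  exact h.mixA hlam hb hM ha ha hA hA ht ht1 hρ0 hρ1 hρ0 hρ1 (by rw [hρ2]; exact le_abs_self _)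
    (by rw [hρ2]; exact neg_le_abs _) (by rw [hρ2]; exact le_abs_self _)
    (by rw [hρ2]; exact neg_le_abs _) hc hE

end Fr

end Pool.Agent.MP_993212_an.H65
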