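import Pool.Agent.MP_993212_an.H65.Absorb
import Pool.Agent.MP_993212_an.H65.Link
import Pool.Agent.MP_993212_an.H65.Lattice
import Pool.Agent.MP_993212_an.H65.Mix

namespace Pool.Agent.MP_993212_an.H65

open Matrix Pool.Agent.MP_993212_an.H12

namespace EntryAux

theorem slope_le {lam mu n e a0 s : ℝ} (hl : 0 < lam) (hmu : 0 < mu) (hn0 : 0 < n)
    (hn : n ≤ 1 / 10000) (he0 : 0 < e) (he : e ≤ 1 / 10000)
    (ha0 : a0 = (1 - n) * (1 - e / 8) * (1 - e / 8)) (hs0 : 0 < s) (hs3 : s ≤ 3)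
    (hs : mu * (1 + e) * s ≤ (1 - n) * lam) :
    mu / (lam * a0) + e / 12 ≤ 1 / s - 2 * n * e := by
  have h1 : 0 < 1 - n := by linarith
  have h2 : 0 < 1 - e / 8 := by linarith
  have hap : 0 < a0 := by rw [ha0]; positivity
  have k1 : 1 ≤ (1 - e / 2) * ((1 + e) * ((1 - e / 8) * (1 - e / 8))) := by
    have a1 : 1 - e / 4 ≤ (1 - e / 8) * (1 - e / 8) := by nlinarith
    have a2 : (1 + e) * (1 - e / 4) ≤ (1 + e) * ((1 - e / 8) * (1 - e / 8)) :=
      mul_le_mul_of_nonneg_left a1 (by linarith)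
    have a3 : 1 + 7 * e / 10 ≤ (1 + e) * (1 - e / 4) := by nlinarith
    have a4 : 1 ≤ (1 - e / 2) * (1 + 7 * e / 10) := by nlinarith
    exact a4.trans (mul_le_mul_of_nonneg_left (a3.trans a2) (by linarith))
  have k2 : mu / (lam * a0) ≤ (1 - e / 2) / s := by
    rw [div_le_div_iff₀ (by positivity) hs0, ha0]
    have b1 : mu * s ≤ mu * s * ((1 - e / 2) * ((1 + e) * ((1 - e / 8) * (1 - e / 8)))) :=
      le_mul_of_one_le_right (by positivity) k1
    have b2 : (mu * (1 + e) * s) * ((1 - e / 2) * ((1 - e / 8) * (1 - e / 8))) ≤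
        ((1 - n) * lam) * ((1 - e / 2) * ((1 - e / 8) * (1 - e / 8))) :=
      mul_le_mul_of_nonneg_right hs (mul_nonneg (by linarith) (by positivity))
    nlinarith
  have k3 : 1 / 3 ≤ 1 / s := one_div_le_one_div_of_le hs0 hs3
  have k4 : (1 - e / 2) / s = 1 / s - e / 2 * (1 / s) := by ring
  have k5 : e / 2 * (1 / 3) ≤ e / 2 * (1 / s) := mul_le_mul_of_nonneg_left k3 (by linarith)
  have k6 : n * e ≤ 1 / 10000 * e := mul_le_mul_of_nonneg_right hn he0.le
  linarith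

/-- from an explicit decomposed configuration to a central one -/
theorem geo {F : Fr} {T : M2} {K lam mu : ℝ} (h : F.Is T lam mu) (hP : Par K lam mu)
    (hmu : 0 < mu)
    (hl : K ^ 1600 ≤ lam) (hbal : F.Bal (3 * K ^ 3)) {ap am : ℝ} (h1 : 1 - 1 / K ≤ ap)
    (h2 : 1 - 1 / K ≤ am) (h3 : ap ≤ 3) (h4 : am ≤ 3)
    (h5 : mu * (1 + 1 / (2 * K ^ 13)) * ap ≤ (1 - 1 / K) * lam)
    (h6 : mu * (1 + 1 / (2 * K ^ 13)) * am ≤ (1 - 1 / K) * lam) {S0 R0 : Fin 4 → V}
    (hS : F.Base (K ^ 14) ap am ap am S0)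
    (hR : F.dual.Base (K ^ 14) (1 / am) (1 / ap) (1 / am) (1 / ap) R0) {S R : Fin 4 → V}
    (hd : F.Dec (K ^ 14) ap am (1 / am) (1 / ap) S0 R0 S R) (ht : ten S R = T) :
    ∃ C ∈ KM T K lam mu, SSE (cm S R) C := by
  have hK := hP.hK
  have hK0 := hP.K_pos
  have hK1 : 1 ≤ K := by linarith
  have hlam := hP.lam_pos
  have pw : ∀ {i j : ℕ}, i ≤ j → K ^ i ≤ K ^ j := fun hij => pow_le_pow_right₀ hK1 hij
  obtain ⟨n, hn⟩ : ∃ n, n = 1 / K := ⟨_, rfl⟩
  obtain ⟨e, he⟩ : ∃ e, e = 1 / (2 * K ^ 13) := ⟨_, rfl⟩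
  have hn0 : 0 < n := by rw [hn]; positivity
  have he0 : 0 < e := by rw [he]; positivity
  have hn1 : n ≤ 1 / 10000 := by rw [hn]; exact one_div_le_one_div_of_le (by norm_num) hK
  have hen : e ≤ n := by
    rw [hn, he]
    refine one_div_le_one_div_of_le hK0 ?_
    have := pw (show 1 ≤ 13 by norm_num)
    rw [pow_one] at this
    linarith
  have hZ : 1 / K ^ 14 = 2 * n * e := by rw [hn, he]; field_simp
  have hZ1 : 10000 ≤ K ^ 14 := by
    have := pw (show 1 ≤ 14 by norm_num)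
    rw [pow_one] at this
    linarith
  have hgap : mu ≤ (1 - 10 * n) * lam := by
    have := hP.gap
    rw [hn]
    calc mu ≤ (1 - 10 / K) * lam := this
      _ = _ := by ring
  rw [← hn] at h1 h2
  rw [← hn, ← he] at h5 h6
  have hap : 0 < ap := by linarith
  have ham : 0 < am := by linarith
  have hE1 : 1 ≤ 3 * K ^ 3 := by
    have := pw (show 0 ≤ 3 by norm_num)
    rw [pow_zero] at this
    linarith
  have hA1 : 1 ≤ K ^ 308 := one_le_pow₀ hK1
  have ha01 : (1 - n) * (1 - e / 8) ≤ 1 - n := mul_le_of_le_one_right (by linarith) (by linarith)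
  have ha00 : 1 - 2 * n ≤ (1 - n) * (1 - e / 8) := by nlinarith
  obtain ⟨S1, hb, hA⟩ := h.exists_base (a := (1 - n) * (1 - e / 8)) (t := e / 8) (A := K ^ 308)
    hbal hE1 (by linarith) (by linarith) (by linarith) (by linarith) hA1
  obtain ⟨M, hM⟩ : ∃ M, M = K ^ 308 + 26 * (3 * K ^ 3) / (e / 8) := ⟨_, rfl⟩
  rw [← hM] at hb
  have hM1 : K ^ 308 ≤ M := by
    rw [hM]
    have : 0 ≤ 26 * (3 * K ^ 3) / (e / 8) := by positivity
    linarith
  have hM2 : M ≤ 2 * K ^ 308 := by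
    rw [hM, he]
    have a1 : 26 * (3 * K ^ 3) / (1 / (2 * K ^ 13) / 8) = 1248 * K ^ 16 := by
      field_simp
      norm_num
    have a2 : 1248 * K ^ 16 ≤ K ^ 17 := by
      rw [pow_succ K 16, mul_comm]
      exact mul_le_mul_of_nonneg_left (by linarith) (by positivity)
    have a3 := pw (show 17 ≤ 308 by norm_num)
    linarith
  have hcov : F.dual.Cover (3 * K ^ 3) := h.dual.cover (h.bal_dual hbal)
  have ha1 : 1 - 3 * n ≤ (1 - n) * (1 - e / 8) * (1 - e / 8) := by nlinarith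
  have hE : 1024 * M ^ 5 * (3 * K ^ 3) ≤ (e / 12) ^ 2 * lam := by
    have a1 : M ^ 5 ≤ (2 * K ^ 308) ^ 5 := pow_le_pow_left₀ (by linarith) hM2 5
    have a2 : 1024 * M ^ 5 * (3 * K ^ 3) ≤ 1024 * (2 * K ^ 308) ^ 5 * (3 * K ^ 3) := by gcongr
    have a3 : (e / 12) ^ 2 * K ^ 1600 ≤ (e / 12) ^ 2 * lam := by gcongr
    have a4 : (e / 12) ^ 2 * K ^ 1600 = K ^ 1574 / 576 := by
      rw [he]
      field_simp
      norm_num
    have a5 : 1024 * (2 * K ^ 308) ^ 5 * (3 * K ^ 3) = 98304 * K ^ 1543 := by ring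
    have a6 : 98304 * 576 ≤ K ^ 31 := by
      have := pw (show 2 ≤ 31 by norm_num)
      nlinarith
    have a7 : K ^ 1574 = K ^ 31 * K ^ 1543 := by rw [← pow_add]
    have a8 : 98304 * 576 * K ^ 1543 ≤ K ^ 31 * K ^ 1543 :=
      mul_le_mul_of_nonneg_right a6 (by positivity)
    linarith
  obtain ⟨Q, hQ, hQc, hQ2⟩ := Fr.Is.mix (G := T) (H := 1) (by rwa [mul_one]) hP.abs_lt hb
    (by linarith) (by linarith) (by linarith) (t := e / 12) (by linarith) (by linarith)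
    (E := 3 * K ^ 3) (fun u v => by simpa only [vecMul_one] using hcov u v) hE
  simp only [vecMul_one] at hQc hQ2
  rw [abs_of_pos hmu] at hQc
  have hQ3 : K ^ 308 ≤ F.dual.X (Q 2) := by
    refine le_trans ?_ hQ2
    rw [le_div_iff₀ (by linarith)]
    have a1 : K ^ 308 * (8 * M) ≤ K ^ 308 * (8 * (2 * K ^ 308)) := by gcongr
    have a2 : K ^ 308 * (8 * (2 * K ^ 308)) = 16 * K ^ 616 := by ring
    have a3 : 16 * K ^ 616 ≤ K ^ 617 := by
      rw [pow_succ K 616, mul_comm]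
      exact mul_le_mul_of_nonneg_left (by linarith) (by positivity)
    have a4 := pw (show 617 ≤ 1600 by norm_num)
    linarith
  have s1 := slope_le hlam hmu hn0 hn1 he0 (by linarith) rfl hap h3 h5
  have s2 := slope_le hlam hmu hn0 hn1 he0 (by linarith) rfl ham h4 h6
  have s3 : mu / (lam * ((1 - n) * (1 - e / 8) * (1 - e / 8))) + e / 12 ≤ 1 - n := by
    have a1 : mu / (lam * ((1 - n) * (1 - e / 8) * (1 - e / 8))) ≤ 1 - 2 * n := by
      rw [div_le_iff₀ (mul_pos hlam (by linarith))]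
      have b1 : lam * (1 - 3 * n) ≤ lam * ((1 - n) * (1 - e / 8) * (1 - e / 8)) := by gcongr
      have b2 : (1 - 2 * n) * (lam * (1 - 3 * n)) ≤
          (1 - 2 * n) * (lam * ((1 - n) * (1 - e / 8) * (1 - e / 8))) :=
        mul_le_mul_of_nonneg_left b1 (by linarith)
      have b3 : (1 - 10 * n) * lam ≤ ((1 - 2 * n) * (1 - 3 * n)) * lam :=
        mul_le_mul_of_nonneg_right (by nlinarith) hlam.le
      linarith
    linarith
  have s4 : (1 - n) * (1 - e / 8) ≤ 1 - n - 2 * n * e := by nlinarith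
  have hinv : ∀ s : ℝ, 1 - n ≤ s → 1 / s ≤ 4 := fun s hs => by
    rw [div_le_iff₀ (by linarith)]
    linarith
  have hZ22 : (K ^ 14) ^ 22 = K ^ 308 := by rw [← pow_mul]
  have hd' : F.Dec (K ^ 14) ap am (1 / am) (1 / ap) S0 R0 S1 Q :=
    Fr.Dec.of_cone h hS hR hZ1 hap ham (by linarith) (by linarith) (by positivity) (by positivity)
      (hinv _ h2) (hinv _ h1)
      (fun j => (hb.cone j).mono (by rw [hZ]; linarith) (by rw [hZ]; linarith))
      (fun j => (hQc j).mono (by rw [hZ]; linarith) (by rw [hZ]; linarith))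
      ⟨2, by rw [hZ22]; exact ⟨hA, hQ3⟩⟩
  refine ⟨cm S1 Q, ⟨F, S1, Q, h, ?_, ⟨⟨hQ, fun j => ?_, fun j => ?_⟩, 2, hA, hQ3⟩, rfl⟩, ?_⟩
  · refine (h.good_of_bal hbal).mono (one_div_le_one_div_of_le (by positivity) ?_)
    rw [pow_succ K 3]
    nlinarith [pow_pos hK0 3]
  · rw [← hn]
    exact (hb.cone j).mono ha01 ha01
  · rw [← hn]
    exact (hQc j).mono s3 s3
  · exact Fr.link h hS hR hZ1 hap.le ham.le (by linarith) (by linarith) (by positivity)
      (by positivity) (hinv _ h2) (hinv _ h1) (by rw [mul_one_div_cancel ham.ne'])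
      (by rw [mul_one_div_cancel hap.ne']) hd hd' (ht.trans hQ.symm)

def Sx (J : ℤ) : Fin 4 → V := ![![1, 0], ![0, 1], ![J, -1], 0]
def Rx (a b c d J B : ℤ) : Fin 4 → V := ![![a - J * B, b - J * B], ![c + B, d + B], ![B, B], 0]
def Sb (J : ℤ) : Fin 4 → V := ![![1, 0], ![0, 1], ![0, 1], ![J, -1]]
def Rb (J : ℤ) : Fin 4 → V := ![![1, 0], ![1, 1], ![1, J], ![1, 0]]

theorem ten_x (A : N2) (J B : ℤ) :
    ten (Sx J) (Rx (A 0 0) (A 0 1) (A 1 0) (A 1 1) J B) = toZ A := by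
  ext i j
  fin_cases i <;> fin_cases j <;> simp [ten, Sx, Rx, toZ, Fin.sum_univ_four]

theorem sse_x (A : N2) {J B : ℤ} (hJ : 1 ≤ J) (hB : 0 ≤ B)
    (h1 : 2 * (A 0 1 : ℤ) ≤ J * A 0 0) (h2 : 2 * (A 1 1 : ℤ) ≤ J * A 1 0)
    (h3 : 2 * (J * B) ≤ A 0 0) (h4 : J * B ≤ A 0 1) :
    SSE A (cm (Sx J) (Rx (A 0 0) (A 0 1) (A 1 0) (A 1 1) J B)) := by
  have ha : (0 : ℤ) ≤ A 0 0 := Int.natCast_nonneg _
  have hb : (0 : ℤ) ≤ A 0 1 := Int.natCast_nonneg _
  have hc : (0 : ℤ) ≤ A 1 0 := Int.natCast_nonneg _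
  have hd : (0 : ℤ) ≤ A 1 1 := Int.natCast_nonneg _
  have hJB : B ≤ J * B := le_mul_of_one_le_left hB hJ
  have h5 : J * (2 * (J * B)) ≤ J * A 0 0 := mul_le_mul_of_nonneg_left h3 (by omega)
  have e1 := lemX (Sx J) (fun (i : Fin 2) j => (A i j : ℤ)) ![![1, 0], ![0, 1], 0, 0]
    (fun i => Pi.single i (1 : ℤ)) ![![A 0 0, A 0 1], ![A 1 0, A 1 1], 0, 0]
    (fun k => by
      ext i
      fin_cases k <;> fin_cases i <;> simp [Sx, Fin.sum_univ_four])
    (fun k => by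
      ext i
      fin_cases k <;> fin_cases i <;> simp)
    (fun k i => by
      rw [dot2]
      fin_cases k <;> fin_cases i <;> simp [Sx] <;> nlinarith)
  rw [cm_basis] at e1
  refine e1.trans (lemR _ _ _ ![B, B] ![-J, 1, 1, 0] ?_ ?_ ?_ ?_ ?_)
  · ext i
    fin_cases i <;> simp [Sx, Fin.sum_univ_four]
  · intro k
    ext i
    fin_cases k <;> fin_cases i <;> simp [Rx, sub_eq_add_neg]
  · intro i
    fin_cases i <;> simp [Sx] <;> nlinarith
  · intro k i
    fin_cases k <;> fin_cases i <;> simp [Sx] <;> nlinarith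
  · intro k i
    fin_cases k <;> fin_cases i <;> simp [Sx, Rx] <;> nlinarith

theorem dec_row {J B p q : ℤ} (hJ : 1 ≤ J) (hB : 0 ≤ B) (hq : B ≤ q)
    (hp : q + J * (J + 2 * B) ≤ J * p) :
    ∃ m : Fin 4 → ℕ, (![p, q] : V) = ∑ i, m i • Rb J i ∧ B ≤ m 0 ∧ B ≤ m 1 := by
  have h1 := Int.emod_add_mul_ediv (q - B) J
  have h2 := Int.emod_nonneg (q - B) (show J ≠ 0 by omega)
  have h3 := Int.emod_lt_of_pos (q - B) (show 0 < J by omega)
  have h4 : 0 ≤ (q - B) / J := Int.ediv_nonneg (by omega) (by omega)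
  generalize (q - B) % J = r at *
  generalize (q - B) / J = s at *
  have h5 : s + J + 2 * B ≤ p := by
    refine le_of_mul_le_mul_left ?_ (show 0 < J by omega)
    nlinarith
  obtain ⟨n0, hn0⟩ := Int.eq_ofNat_of_zero_le (show 0 ≤ p - (B + r) - s by omega)
  obtain ⟨n1, hn1⟩ := Int.eq_ofNat_of_zero_le (show 0 ≤ B + r by omega)
  obtain ⟨n2, hn2⟩ := Int.eq_ofNat_of_zero_le h4
  refine ⟨![n0, n1, n2, 0], ?_, ?_, ?_⟩
  · ext i
    fin_cases i <;> simp [Rb, Fin.sum_univ_four, ← hn0, ← hn1, ← hn2] <;> linarith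
  · simp only [cons_val_zero]
    omega
  · simp only [cons_val_one, cons_val_zero]
    omega

theorem dec_x (F : Fr) {Z Ap Am Bp Bm : ℝ} (hZ : 0 ≤ Z) {a b c d J B : ℤ} (hJ : 1 ≤ J)
    (hB : 0 ≤ B) (hZB : 2 * Z ^ 17 ≤ B) (hd : 0 ≤ d) (h1 : 2 * b ≤ J * a) (h2 : 2 * d ≤ J * c)
    (h3 : 2 * (J * B + J + 2 * B) ≤ a) (h4 : J * B + B ≤ b) (h5 : 2 * (J + 2 * B) ≤ c) :
    F.Dec Z Ap Am Bp Bm (Sb J) (Rb J) (Sx J) (Rx a b c d J B) := by
  have hJB : B ≤ J * B := le_mul_of_one_le_left hB hJ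
  obtain ⟨m0, e0, a0, b0⟩ := dec_row (p := a - J * B) (q := b - J * B) hJ hB (by linarith)
    (by nlinarith [mul_le_mul_of_nonneg_left h3 (show 0 ≤ J by omega)])
  obtain ⟨m1, e1, a1, b1⟩ := dec_row (p := c + B) (q := d + B) hJ hB (by linarith)
    (by nlinarith [mul_le_mul_of_nonneg_left h5 (show 0 ≤ J by omega)])
  obtain ⟨n, hn⟩ := Int.eq_ofNat_of_zero_le hB
  have cast : ∀ k : ℕ, B ≤ k → 2 * Z ^ 17 ≤ (k : ℝ) := fun k hk =>
    hZB.trans (by exact_mod_cast hk)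
  refine ⟨![![1, 0, 0, 0], ![0, 1, 0, 0], ![0, 0, 0, 1], 0], ![m0, m1, ![0, n, 0, 0], 0], 0, 0,
    fun j => ?_, fun j => ?_, fun j => ⟨Fr.InCone.zero _ _ _, ?_⟩,
    fun j => ⟨Fr.InCone.zero _ _ _, ?_⟩, ?_⟩
  · ext i
    fin_cases j <;> fin_cases i <;> simp [Sx, Sb, Fin.sum_univ_four]
  · fin_cases j
    · simpa [Rx] using e0
    · simpa [Rx] using e1
    · ext i
      fin_cases i <;> simp [Rx, Rb, Fin.sum_univ_four, hn]
    · simp [Rx]
  · rw [Pi.zero_apply, Fr.X_zero]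
    positivity
  · rw [Pi.zero_apply, Fr.X_zero]
    positivity
  · rintro x y (rfl | rfl) (rfl | rfl) <;> apply cast <;> simpa [Fin.sum_univ_four]

theorem exists_norm {F : Fr} {T : M2} {lam mu s : ℝ} (h : F.Is T lam mu) (hc : (T 1 0 : ℝ) ≠ 0)
    (hs : 0 < s) : ∃ G : Fr, G.Is T lam mu ∧ 0 < G.x 0 ∧ G.y 0 = - (s * G.x 0) := by
  have hx := h.X_mulVec ![1, 0]
  have hy := h.Y_mulVec ![1, 0]
  simp only [Fr.X, Fr.Y, mulVec, dotProduct, Fin.sum_univ_two, cons_val_zero, cons_val_one,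
    mul_one, mul_zero, add_zero, Int.cast_one, Int.cast_zero] at hx hy
  have he := h.det
  have hx0 : F.x 0 ≠ 0 := by
    intro h0
    rw [h0] at hx
    have : F.x 1 = 0 := by
      have : F.x 1 * T 1 0 = 0 := by linarith
      exact (mul_eq_zero.1 this).resolve_right hc
    simp [Fr.e, h0, this] at he
  have hy0 : F.y 0 ≠ 0 := by
    intro h0
    rw [h0] at hy
    have : F.y 1 = 0 := by
      have : F.y 1 * T 1 0 = 0 := by linarith
      exact (mul_eq_zero.1 this).resolve_right hc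
    simp [Fr.e, h0, this] at he
  have key : ∀ G : Fr, G.Is T lam mu → 0 < G.x 0 → G.y 0 < 0 →
      ∃ G : Fr, G.Is T lam mu ∧ 0 < G.x 0 ∧ G.y 0 = - (s * G.x 0) := by
    intro G hG a b
    have hq : 0 < - G.y 0 / (s * G.x 0) := div_pos (by linarith) (by positivity)
    have hk := Real.sqrt_pos.2 hq
    have hk2 := Real.mul_self_sqrt hq.le
    generalize √(- G.y 0 / (s * G.x 0)) = k at hk hk2
    refine ⟨G.sc k, hG.sc hk.ne', mul_pos hk a, ?_⟩
    simp only [Fr.sc]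
    field_simp
    field_simp at hk2
    linarith
  rcases lt_or_gt_of_ne hx0 with a | a <;> rcases lt_or_gt_of_ne hy0 with b | b
  · exact key F.negx h.negx (by simpa [Fr.negx] using a) b
  · exact key F.negx.negy h.negx.negy (by simpa [Fr.negx, Fr.negy] using a)
      (by simpa [Fr.negx, Fr.negy] using b)
  · exact key F h a b
  · exact key F.negy h.negy a (by simpa [Fr.negy] using b)

theorem coords {F : Fr} {T : M2} {lam mu s u W : ℝ} (h : F.Is T lam mu) (hc : (T 1 0 : ℝ) ≠ 0)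
    (hu : T 1 0 * u = lam - T 0 0) (hW : T 1 0 * W = lam + mu) (hW0 : 0 < W) (hs : 0 < s)
    (hx : 0 < F.x 0) (hy : F.y 0 = - (s * F.x 0)) :
    F.x 0 ^ 2 * s * W = 1 ∧ (∀ z : V, F.X z = F.x 0 * (z 0 + u * z 1)) ∧
      (∀ z : V, F.Y z = s * F.x 0 * ((W - u) * z 1 - z 0)) ∧
      (∀ z : V, F.dual.X z = s * F.x 0 * ((W - u) * z 0 + z 1)) ∧
      (∀ z : V, F.dual.Y z = F.x 0 * (z 1 - u * z 0)) := by
  have ex := h.X_mulVec ![1, 0]
  have ey := h.Y_mulVec ![1, 0]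
  simp only [Fr.X, Fr.Y, mulVec, dotProduct, Fin.sum_univ_two, cons_val_zero, cons_val_one,
    mul_one, mul_zero, add_zero, Int.cast_one, Int.cast_zero] at ex ey
  have x1 : F.x 1 = u * F.x 0 := by
    apply mul_left_cancel₀ hc
    linear_combination ex - F.x 0 * hu
  have y1 : F.y 1 = (W - u) * (s * F.x 0) := by
    apply mul_left_cancel₀ hc
    rw [hy] at ey
    linear_combination ey - s * F.x 0 * hW + s * F.x 0 * hu
  have he : F.e = F.x 0 ^ 2 * s * W := by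
    rw [Fr.e, x1, y1, hy]
    ring
  have he1 : F.e = 1 := by
    rcases h.e_cases with h1 | h1
    · exact h1
    · have : 0 < F.e := by rw [he]; positivity
      linarith
  have p0 := h.p0
  have p1 := h.p1
  have q0 := h.q0
  have q1 := h.q1
  rw [he1, one_mul] at p0 p1 q0 q1
  refine ⟨he ▸ he1, fun z => ?_, fun z => ?_, fun z => ?_, fun z => ?_⟩
  · rw [Fr.X, x1]; ring
  · rw [Fr.Y, y1, hy]; ring
  · simp only [Fr.X, Fr.dual]
    rw [p0, p1, y1, hy]; ring
  · simp only [Fr.Y, Fr.dual]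
    rw [q0, q1, x1]; ring

theorem bases {F : Fr} {x s u W ap am Z : ℝ} {J : ℤ} (hx : 0 < x) (hs : 0 < s) (hs1 : s ≤ 1)
    (hu : 0 < u) (huW : u < W) (hJ : 1 ≤ (J : ℝ)) (hWJ : W ≤ J) (hZ : 2 * (x * J) ≤ Z)
    (hap0 : 0 < ap) (hsam : s ≤ am) (hap : ap * u = s * (W - u))
    (ham : am * (J - u) = s * (J - u + W))
    (eX : ∀ z : V, F.X z = x * (z 0 + u * z 1)) (eY : ∀ z : V, F.Y z = s * x * ((W - u) * z 1 - z 0))
    (dX : ∀ z : V, F.dual.X z = s * x * ((W - u) * z 0 + z 1))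
    (dY : ∀ z : V, F.dual.Y z = x * (z 1 - u * z 0)) :
    F.Base Z ap am ap am (Sb J) ∧
      F.dual.Base Z (1 / am) (1 / ap) (1 / am) (1 / ap) (Rb J) := by
  have ham0 : 0 < am := hs.trans_le hsam
  have hWu : 0 < W - u := by linarith
  have hJu : 0 < J - u := by linarith
  have X0 : F.X ![1, 0] = x := by simp [eX]
  have X1 : F.X ![0, 1] = x * u := by simp [eX]
  have X2 : F.X ![J, -1] = x * (J - u) := by simp [eX]; ring_nf; simp
  have Y0 : F.Y ![1, 0] = - (s * x) := by simp [eY]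
  have Y1 : F.Y ![0, 1] = ap * (x * u) := by
    simp only [eY, cons_val_zero, cons_val_one, Int.cast_one, Int.cast_zero]
    linear_combination (-x) * hap
  have Y2 : F.Y ![J, -1] = - (am * (x * (J - u))) := by
    simp only [eY, cons_val_zero, cons_val_one, Int.cast_one, Int.cast_neg]
    linear_combination x * ham
  have P0 : F.dual.X ![1, 0] = ap * (x * u) := by
    simp only [dX, cons_val_zero, cons_val_one, Int.cast_one, Int.cast_zero]
    linear_combination (-x) * hap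
  have P1 : F.dual.X ![1, 1] = s * x * (W - u + 1) := by simp [dX]
  have P2 : F.dual.X ![1, J] = am * (x * (J - u)) := by
    simp only [dX, cons_val_zero, cons_val_one, Int.cast_one]
    linear_combination (-x) * ham
  have Q0 : F.dual.Y ![1, 0] = - (x * u) := by simp [dY]
  have Q1 : F.dual.Y ![1, 1] = x * (1 - u) := by simp [dY]
  have Q2 : F.dual.Y ![1, J] = x * (J - u) := by simp [dY]
  have c0 : F.InCone ap am ![1, 0] := by
    rw [Fr.InCone, X0, Y0]
    refine ⟨hx.le, ?_, by nlinarith⟩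
    nlinarith [mul_pos hs hx, mul_pos hap0 hx]
  have c1 : F.InCone ap am ![0, 1] := by
    rw [Fr.InCone, X1, Y1]
    have := mul_pos hx hu
    refine ⟨this.le, le_rfl, ?_⟩
    nlinarith [mul_pos hap0 this, mul_pos ham0 this]
  have c2 : F.InCone ap am ![J, -1] := by
    rw [Fr.InCone, X2, Y2]
    have := mul_pos hx hJu
    refine ⟨this.le, ?_, by rw [neg_neg]⟩
    nlinarith [mul_pos hap0 this, mul_pos ham0 this]
  have ia : ∀ {a : ℝ}, 0 < a → ∀ t, 1 / a * (a * t) = t := fun ha t => by field_simp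
  have d0 : F.dual.InCone (1 / am) (1 / ap) ![1, 0] := by
    rw [Fr.InCone, P0, Q0, ia hap0, neg_neg]
    have := mul_pos hx hu
    refine ⟨by positivity, ?_, le_rfl⟩
    have : 0 ≤ 1 / am * (ap * (x * u)) := by positivity
    linarith
  have d2 : F.dual.InCone (1 / am) (1 / ap) ![1, J] := by
    rw [Fr.InCone, P2, Q2, ia ham0]
    have := mul_pos hx hJu
    refine ⟨by positivity, le_rfl, ?_⟩
    have : 0 ≤ 1 / ap * (am * (x * (J - u))) := by positivity
    linarith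
  have d1 : F.dual.InCone (1 / am) (1 / ap) ![1, 1] := by
    rw [Fr.InCone, P1, Q1]
    refine ⟨by positivity, ?_, ?_⟩
    · rw [one_div_mul_eq_div, le_div_iff₀ ham0]
      have a1 : s * (J - 1) ≤ am * (J - 1) := mul_le_mul_of_nonneg_right hsam (by linarith)
      have a2 : (1 - u) * am ≤ s * (W - u + 1) := by linarith
      nlinarith [mul_le_mul_of_nonneg_left a2 hx.le]
    · rw [one_div_mul_eq_div, le_div_iff₀ hap0]
      have a2 : (u - 1) * ap ≤ s * (W - u + 1) := by linarith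
      nlinarith [mul_le_mul_of_nonneg_left a2 hx.le]
  have hxJ : x ≤ x * J := le_mul_of_one_le_right hx.le hJ
  have z1 : x * u ≤ x * J := mul_le_mul_of_nonneg_left (by linarith) hx.le
  have z2 : x * (J - u) ≤ x * J := mul_le_mul_of_nonneg_left (by linarith) hx.le
  have z3 : ∀ t : ℝ, 0 ≤ t → t ≤ J → s * x * (W - u + t) ≤ Z := fun t h0 h1 => by
    have a1 : s * x * (W - u + t) ≤ 1 * x * (2 * J) := by
      gcongr
      linarith
    linarith
  constructor
  · refine ⟨by simp [Sb, det2], fun i => ?_, fun i => ?_, ?_, ?_, ?_, ?_⟩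
    · fin_cases i
      · show F.X ![1, 0] ≤ Z
        rw [X0]; linarith
      · show F.X ![0, 1] ≤ Z
        rw [X1]; linarith
      · show F.X ![0, 1] ≤ Z
        rw [X1]; linarith
      · show F.X ![J, -1] ≤ Z
        rw [X2]; linarith
    · fin_cases i
      exacts [c0, c1, c1, c2]
    · show 0 < F.X ![0, 1]
      rw [X1]; positivity
    · show 0 < F.X ![J, -1]
      rw [X2]; positivity
    · show ap * F.X ![0, 1] ≤ F.Y ![0, 1]
      rw [X1, Y1]
    · show am * F.X ![J, -1] ≤ - F.Y ![J, -1]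
      rw [X2, Y2, neg_neg]
  · refine ⟨by simp [Rb, det2], fun i => ?_, fun i => ?_, ?_, ?_, ?_, ?_⟩
    · have w0 : F.dual.X ![1, 0] ≤ Z := by simpa [dX] using z3 0 le_rfl (by linarith)
      fin_cases i
      · exact w0
      · show F.dual.X ![1, 1] ≤ Z
        rw [P1]; exact z3 1 zero_le_one hJ
      · show F.dual.X ![1, J] ≤ Z
        simpa [dX] using z3 J (by linarith) le_rfl
      · exact w0
    · fin_cases i
      exacts [d0, d1, d2, d0]
    · show 0 < F.dual.X ![1, J]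
      rw [P2]; positivity
    · show 0 < F.dual.X ![1, 0]
      rw [P0]; positivity
    · show 1 / am * F.dual.X ![1, J] ≤ F.dual.Y ![1, J]
      rw [P2, Q2, ia ham0]
    · show 1 / ap * F.dual.X ![1, 0] ≤ - F.dual.Y ![1, 0]
      rw [P0, Q0, ia hap0, neg_neg]

theorem slopes {lam mu n e mp mm : ℝ} (hl : 0 < lam) (hmu : 0 < mu) (he0 : 0 < e) (hen : e ≤ n)
    (hn : n ≤ 1 / 10000) (hgap : mu ≤ (1 - 10 * n) * lam) (h1 : 1 ≤ mp) (h2 : 1 + e ≤ mm)
    (h3 : mm ≤ 1 + 8 * n) (h4 : mu * mp ≤ lam) :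
    ∃ s : ℝ, 1 / 2 ≤ s ∧ s ≤ 1 ∧ 1 - n ≤ s * mp ∧ 1 - n ≤ s * mm ∧
      mu * (1 + e) * (s * mp) ≤ (1 - n) * lam ∧ mu * (1 + e) * (s * mm) ≤ (1 - n) * lam := by
  have hn0 : 0 < n := he0.trans_le hen
  obtain ⟨m, m1, m2, m3⟩ : ∃ m, m ≤ mp ∧ m ≤ mm ∧ (m = mp ∨ m = mm) :=
    ⟨min mp mm, min_le_left _ _, min_le_right _ _, min_choice _ _⟩
  have m4 : 1 ≤ m := by rcases m3 with rfl | rfl <;> linarith
  have m0 : 0 < m := by linarith
  have k1 : mu * (1 + e) * mm ≤ lam := by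
    have a0 : 0 ≤ (1 - 10 * n) * lam := hmu.le.trans hgap
    have a00 : 0 ≤ mm := by linarith
    have a1 : mu * (1 + e) * mm ≤ (1 - 10 * n) * lam * (1 + n) * (1 + 8 * n) := by
      gcongr
    have a2 : (1 - 10 * n) * (1 + n) * (1 + 8 * n) ≤ 1 := by nlinarith [mul_pos hn0 hn0]
    nlinarith
  have k2 : mu * (1 + e) * mm ≤ lam * m := k1.trans (le_mul_of_one_le_right hl.le m4)
  have k3 : mu * (1 + e) * mp ≤ lam * m := by
    rcases m3 with rfl | rfl
    · have : mu * (1 + e) ≤ lam :=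
        (le_mul_of_one_le_right (by positivity) (by linarith)).trans k1
      exact mul_le_mul_of_nonneg_right this m0.le
    · nlinarith [mul_le_mul_of_nonneg_right h4 (show 0 ≤ 1 + e by linarith),
        mul_le_mul_of_nonneg_left h2 hl.le]
  have hs : (1 - n) / m * m = 1 - n := by field_simp
  have hs0 : 0 < (1 - n) / m := div_pos (by linarith) m0
  refine ⟨(1 - n) / m, ?_, ?_, ?_, ?_, ?_, ?_⟩
  · rw [le_div_iff₀ m0]; linarith
  · rw [div_le_iff₀ m0]; linarith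
  · nlinarith [mul_le_mul_of_nonneg_left m1 hs0.le]
  · nlinarith [mul_le_mul_of_nonneg_left m2 hs0.le]
  · nlinarith [mul_le_mul_of_nonneg_left k3 hs0.le]
  · nlinarith [mul_le_mul_of_nonneg_left k2 hs0.le]

theorem nums {lam mu a b c d L : ℝ} (s0 : 0 < lam + mu) (hL : 0 < L) (hd : 0 ≤ d)
    (tr : a + d = lam - mu) (det : a * d - b * c = - (lam * mu)) (hda : d ≤ a) (h1 : a ≤ d + b)
    (h2 : a ≤ d + c) (hb : lam + mu ≤ 4 * L * b) (hc : lam + mu ≤ 4 * L * c) :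
    0 < b ∧ 0 < c ∧ 0 < lam - a ∧ b ≤ L * (lam + mu) ∧ c ≤ L * (lam + mu) ∧
      lam - a ≤ mu + a ∧ mu + a ≤ 3 * (lam - a) ∧ mu * (mu + a) ≤ lam * (lam - a) := by
  have b0 : 0 < b := by
    by_contra h
    nlinarith
  have c0 : 0 < c := by
    by_contra h
    nlinarith
  have e1 : b * c = (lam - a) * (mu + a) := by
    have : d = lam - mu - a := by linarith
    rw [this] at det
    linear_combination -det
  have q0 : 0 < mu + a := by linarith
  have p0 : 0 < lam - a := by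
    have := mul_pos b0 c0
    rw [e1] at this
    exact (mul_pos_iff_of_pos_right q0).1 this
  have am : 4 * (b * c) ≤ (lam + mu) * (lam + mu) := by
    rw [e1]
    nlinarith [sq_nonneg (lam - a - (mu + a))]
  refine ⟨b0, c0, p0, ?_, ?_, by linarith, ?_, ?_⟩
  · refine le_of_mul_le_mul_right ?_ c0
    nlinarith [mul_le_mul_of_nonneg_left hc s0.le]
  · refine le_of_mul_le_mul_right ?_ b0
    nlinarith [mul_le_mul_of_nonneg_left hb s0.le]
  · have a1 : (a - d) * (a - d) ≤ b * c :=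
      mul_le_mul (by linarith) (by linarith) (by linarith) b0.le
    have a2 : a - d = (mu + a) - (lam - a) := by linarith
    rw [a2, e1] at a1
    generalize lam - a = P at *
    generalize mu + a = Q at *
    by_contra h
    nlinarith [mul_pos p0 p0]
  · nlinarith [mul_nonneg hd s0.le]

end EntryAux

end Pool.Agent.MP_993212_an.H65
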