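import Pool.Agent.MP_993212_an.H65.Absorb
import Pool.Agent.MP_993212_an.H65.Link
import Pool.Agent.MP_993212_an.H65.Lattice
import Pool.Agent.MP_993212_an.H65.Mix

namespace Pool.Agent.MP_993212_an.H65

open Matrix Pool.Agent.MP_993212_an.H12

namespace Fr

variable {F : Fr} {T : M2} {K lam mu E Z : ℝ}

theorem Base.mono_size {Z Z' ap am Ap Am : ℝ} {S : Fin 4 → V} (h : F.Base Z ap am Ap Am S)
    (hZ : Z ≤ Z') : F.Base Z' ap am Ap Am S :=
  ⟨h.uni, fun i => (h.size i).trans hZ, h.cone, h.pos2, h.pos3, h.ext2, h.ext3⟩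

theorem Is.base_one (h : F.Is T lam mu) (hP : Par K lam mu) (hb : F.Bal E) (hE : 1 ≤ E)
    (hZ : 60 * E * K ≤ Z) :
    ∃ S0 : Fin 4 → V, F.Base Z (1 - 1 / (2 * K)) (1 - 1 / (2 * K)) 1 1 S0 := by
  have hK := hP.hK
  have t1 : 1 / (2 * K) ≤ 1 / 4 := one_div_le_one_div_of_le (by norm_num) (by linarith)
  obtain ⟨S0, h0, -⟩ := h.exists_base (a := 1) (t := 1 / (2 * K)) (A := 1) hb hE (by norm_num)
    le_rfl (by positivity) t1 le_rfl
  rw [one_mul] at h0
  refine ⟨S0, h0.mono_size ?_⟩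
  have e : 26 * E / (1 / (2 * K)) = 52 * (E * K) := by
    field_simp
    norm_num
  rw [e]
  nlinarith

/-- central configurations in one balanced frame are equivalent -/
theorem Is.uniq (h : F.Is T lam mu) (hP : Par K lam mu) (hb : F.Bal E) (hE : 1 ≤ E)
    (hZ : 60 * E * K ≤ Z) {S R S' R' : Fin 4 → V} (hc : F.Cen T (1 / K) (Z ^ 22) S R)
    (hc' : F.Cen T (1 / K) (Z ^ 22) S' R') : SSE (cm S R) (cm S' R') := by
  have hK := hP.hK
  have hK0 := hP.K_pos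
  obtain ⟨S0, hS0⟩ := h.base_one hP hb hE hZ
  obtain ⟨R0, hR0⟩ := h.dual.base_one hP (h.bal_dual hb) hE hZ
  have hZ2 : 2 * K ≤ Z := by nlinarith
  have hZ1 : 10000 ≤ Z := by linarith
  have t1 : 1 / (2 * K) ≤ 1 / 4 := one_div_le_one_div_of_le (by norm_num) (by linarith)
  have t2 : 1 / Z ≤ 1 / (2 * K) := one_div_le_one_div_of_le (by positivity) hZ2
  have t3 : 1 / K = 2 * (1 / (2 * K)) := by field_simp
  have t4 : 1 - 1 / K ≤ 1 - 1 / (2 * K) - 1 / Z := by linarith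
  have t5 : 0 < 1 - 1 / (2 * K) := by linarith
  have dec : ∀ {S R : Fin 4 → V}, F.Cen T (1 / K) (Z ^ 22) S R → F.Dec Z 1 1 1 1 S0 R0 S R :=
    fun hc => Dec.of_cone h hS0 hR0 hZ1 t5 t5 (by norm_num) (by norm_num) t5 t5 (by norm_num)
      (by norm_num) (fun j => (hc.1.2.1 j).mono t4 t4) (fun j => (hc.1.2.2 j).mono t4 t4) hc.2
  exact link h hS0 hR0 hZ1 zero_le_one zero_le_one (by norm_num) (by norm_num) zero_le_one
    zero_le_one (by norm_num) (by norm_num) (by norm_num) (by norm_num) (dec hc) (dec hc')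
    (hc.1.1.trans hc'.1.1.symm)

theorem Is.exists_cen (h : F.Is T lam mu) (hP : Par K lam mu) (hb : F.Bal E) (hE : 1 ≤ E)
    (hZ : 60 * E * K ≤ Z) (hl : Z ^ 113 ≤ lam) :
    ∃ S R : Fin 4 → V, F.Cen T (2 / K) (2 * Z ^ 22) S R := by
  have hK := hP.hK
  have hK0 := hP.K_pos
  have hl0 := hP.lam_pos
  have hEK : K ≤ E * K := le_mul_of_one_le_left hK0.le hE
  have hZ1 : 1 ≤ Z := by nlinarith
  have t0 : 0 < 1 / K := by positivity
  have t1 : 1 / K ≤ 1 / 10000 := one_div_le_one_div_of_le (by norm_num) hK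
  have e2 : 2 / K = 2 * (1 / K) := by ring
  have hA1 : Z ≤ Z ^ 22 := le_self_pow₀ hZ1 (by norm_num)
  obtain ⟨S0, hS0, hS2⟩ := h.exists_base (a := 1 - 2 / K) (t := 1 / K) (A := 2 * Z ^ 22) hb hE
    (by linarith) (by linarith) t0 (by linarith) (by linarith)
  have e : 26 * E / (1 / K) = 26 * (E * K) := by field_simp
  rw [e] at hS0
  have hS1 := hS0.mono_size (Z' := 3 * Z ^ 22) (by nlinarith)
  have h1 : F.Is (T * 1) lam mu := by rwa [Matrix.mul_one]
  have hE' : 1024 * (3 * Z ^ 22) ^ 5 * E ≤ (1 / K) ^ 2 * lam := by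
    have a2 : (3 * Z ^ 22) ^ 5 = 243 * Z ^ 110 := by
      rw [mul_pow, ← pow_mul]
      norm_num
    have a3 : Z ^ 113 = Z ^ 110 * Z ^ 3 := by rw [← pow_add]
    have a4 : (60 * E * K) ^ 3 ≤ Z ^ 3 := pow_le_pow_left₀ (by positivity) hZ 3
    have a5 : 0 ≤ Z ^ 110 := by positivity
    have a6 : 248832 * (E * K ^ 2) ≤ (60 * E * K) ^ 3 := by
      have b1 : (60 * E * K) ^ 3 = 216000 * (E * K) * E * (E * K ^ 2) := by ring
      have b2 : 2 ≤ E * K * E := by nlinarith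
      have b3 : 0 ≤ E * K ^ 2 := by positivity
      rw [b1]
      nlinarith
    have e : (1 / K) ^ 2 * lam = lam / K ^ 2 := by field_simp
    rw [a2, e, le_div_iff₀ (by positivity)]
    rw [a3] at hl
    have := mul_le_mul_of_nonneg_left (a6.trans a4) a5
    generalize Z ^ 110 = P at *
    linarith
  obtain ⟨Q, hQ, hQc, hQ2⟩ := h1.mix hP.abs_lt hS1 (by linarith) (by nlinarith)
    (by linarith) t0 (by linarith)
    (by simpa only [vecMul_one, Cover] using h.dual.cover (h.bal_dual hb)) hE'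
  simp only [vecMul_one] at hQc hQ2
  have hsl : |mu| / (lam * ((1 - 2 / K) * (1 - 1 / K))) + 1 / K ≤ 1 - 2 / K := by
    have hg := hP.abs_gap
    have e : 10 / K = 10 * (1 / K) := by ring
    rw [e] at hg
    rw [e2]
    generalize 1 / K = t at t0 t1 hg
    have hp : 0 < lam * ((1 - 2 * t) * (1 - t)) :=
      mul_pos hl0 (mul_pos (by linarith) (by linarith))
    have key : |mu| / (lam * ((1 - 2 * t) * (1 - t))) ≤ 1 - 3 * t := by
      rw [div_le_iff₀ hp]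
      have : 1 - 10 * t ≤ (1 - 3 * t) * ((1 - 2 * t) * (1 - t)) := by
        nlinarith [mul_nonneg t0.le t0.le,
          mul_nonneg (mul_nonneg t0.le t0.le) (by linarith : 0 ≤ 1 - t)]
      have := mul_le_mul_of_nonneg_right this hl0.le
      linarith
    linarith
  refine ⟨S0, Q, ⟨hQ, hS0.cone, fun j => (hQc j).mono hsl hsl⟩, 2, hS2, le_trans ?_ hQ2⟩
  rw [le_div_iff₀ (by positivity)]
  have a1 : Z ^ 22 * Z ^ 22 * Z ≤ Z ^ 113 := by
    rw [← pow_add, ← pow_succ]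
    exact pow_le_pow_right₀ hZ1 (by norm_num)
  have a2 : 48 ≤ Z := by nlinarith
  have a3 : Z ^ 22 * Z ^ 22 * 48 ≤ Z ^ 22 * Z ^ 22 * Z := by gcongr
  generalize Z ^ 22 = P at *
  linarith

theorem Cen.sc (hP : Par K lam mu) {A k : ℝ} (hA : 0 ≤ A) {S R : Fin 4 → V}
    (hc : F.Cen T (2 / K) (2 * A) S R) (hk : 1 ≤ k) (hk' : k ≤ 1 + 1 / (4 * K)) :
    (F.sc k).Cen T (1 / K) A S R := by
  have hK := hP.hK
  have hK0 := hP.K_pos
  have t0 : 0 < 1 / K := by positivity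
  have t1 : 1 / K ≤ 1 / 10000 := one_div_le_one_div_of_le (by norm_num) hK
  have e2 : 2 / K = 2 * (1 / K) := by ring
  have e4 : 1 / (4 * K) = 1 / K / 4 := by field_simp
  rw [e2] at hc
  rw [e4] at hk'
  generalize 1 / K = t at *
  have hk0 : 0 < k := by linarith
  have c1 : 1 - 2 * t ≤ (1 - t) * k * k := by
    have : 1 ≤ k * k := by nlinarith
    nlinarith
  have c2 : (1 - 2 * t) * (k * k) ≤ 1 - t := by
    have : k * k ≤ 1 + t := by nlinarith
    nlinarith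
  obtain ⟨⟨h1, h2, h3⟩, j, h4, h5⟩ := hc
  refine ⟨⟨h1, fun j => ?_, fun j => ?_⟩, j, ?_, ?_⟩
  · obtain ⟨a0, a1, a2⟩ := h2 j
    have b := mul_le_mul_of_nonneg_right c1 a0
    refine ⟨?_, ?_, ?_⟩
    · rw [sc_X]
      positivity
    · rw [sc_X, sc_Y, div_le_iff₀ hk0]
      linarith
    · rw [sc_X, sc_Y, ← neg_div, div_le_iff₀ hk0]
      linarith
  · obtain ⟨a0, a1, a2⟩ := h3 j
    have b := mul_le_mul_of_nonneg_right c2 a0
    have kk : 0 ≤ k * k := by positivity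
    refine ⟨?_, ?_, ?_⟩
    · rw [sc_dual_X]
      positivity
    · rw [sc_dual_X, sc_dual_Y, ← mul_div_assoc, le_div_iff₀ hk0]
      have := mul_le_mul_of_nonneg_right a1 kk
      linarith
    · rw [sc_dual_X, sc_dual_Y, ← mul_div_assoc, le_div_iff₀ hk0]
      have := mul_le_mul_of_nonneg_right a2 kk
      linarith
  · rw [sc_X]
    nlinarith
  · rw [sc_dual_X, le_div_iff₀ hk0]
    nlinarith

/-- one small change of scale -/
theorem Is.loc (h : F.Is T lam mu) (hP : Par K lam mu) (hE : 1 ≤ E) (hZ : 60 * E * K ≤ Z)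
    (hl : Z ^ 113 ≤ lam) {k : ℝ} (hk : 1 ≤ k) (hk' : k ≤ 1 + 1 / (4 * K)) (hb : F.Bal E)
    (hb' : (F.sc k).Bal E) {S R S' R' : Fin 4 → V} (hc : F.Cen T (1 / K) (Z ^ 22) S R)
    (hc' : (F.sc k).Cen T (1 / K) (Z ^ 22) S' R') : SSE (cm S R) (cm S' R') := by
  have hK0 := hP.K_pos
  have hA : 0 ≤ Z ^ 22 := by positivity
  obtain ⟨S0, R0, h0⟩ := h.exists_cen hP hb hE hZ hl
  have h1 : F.Cen T (1 / K) (Z ^ 22) S0 R0 :=
    h0.mono (div_le_div_of_nonneg_right (by norm_num) hK0.le) (by linarith)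
  exact (h.uniq hP hb hE hZ hc h1).trans
    ((h.sc (by linarith : (0 : ℝ) < k).ne').uniq hP hb' hE hZ (h0.sc hP hA hk hk') hc')

/-- a change of scale through balanced frames -/
theorem Is.loc_star (h : F.Is T lam mu) (hP : Par K lam mu) (hE : 1 ≤ E) (hZ : 60 * E * K ≤ Z)
    (hl : Z ^ 113 ≤ lam) {k1 k2 : ℝ} (hk1 : 0 < k1) (hk : k1 ≤ k2)
    (hb : ∀ k, k1 ≤ k → k ≤ k2 → (F.sc k).Bal E) {S R S' R' : Fin 4 → V}
    (hc : (F.sc k1).Cen T (1 / K) (Z ^ 22) S R) (hc' : (F.sc k2).Cen T (1 / K) (Z ^ 22) S' R') :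
    SSE (cm S R) (cm S' R') := by
  have hK0 := hP.K_pos
  have hA : 0 ≤ Z ^ 22 := by positivity
  have t0 : 0 < 1 / (4 * K) := by positivity
  obtain ⟨θ, hθ⟩ : ∃ θ, θ = 1 + 1 / (4 * K) := ⟨_, rfl⟩
  have hθ1 : 1 < θ := by linarith
  obtain ⟨n, hn⟩ := pow_unbounded_of_one_lt (k2 / k1) hθ1
  rw [div_lt_iff₀ hk1] at hn
  replace hn := hn.le
  induction n generalizing k2 S' R' with
  | zero =>
    obtain rfl : k1 = k2 := le_antisymm hk (by simpa using hn)
    exact (h.sc hk1.ne').uniq hP (hb _ le_rfl le_rfl) hE hZ hc hc'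
  | succ n ih =>
    obtain ⟨k, hkm⟩ : ∃ k, k = max k1 (k2 / θ) := ⟨_, rfl⟩
    have a1 : k1 ≤ k := hkm ▸ le_max_left _ _
    have a2 : k2 / θ ≤ k := hkm ▸ le_max_right _ _
    have a0 : 0 < k := hk1.trans_le a1
    have a3 : k ≤ k2 := by
      rw [hkm]
      exact max_le hk (div_le_self (by linarith) hθ1.le)
    have a4 : k ≤ θ ^ n * k1 := by
      rw [hkm]
      refine max_le (le_mul_of_one_le_left hk1.le (one_le_pow₀ hθ1.le)) ?_
      rw [div_le_iff₀ (by linarith)]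
      rw [pow_succ] at hn
      linarith
    obtain ⟨S0, R0, h0⟩ := (h.sc a0.ne').exists_cen hP (hb k a1 a3) hE hZ hl
    have h1 : (F.sc k).Cen T (1 / K) (Z ^ 22) S0 R0 :=
      h0.mono (div_le_div_of_nonneg_right (by norm_num) hK0.le) (by linarith)
    have e : (F.sc k).sc (k2 / k) = F.sc k2 := by
      rw [sc_sc, mul_div_cancel₀ _ a0.ne']
    refine (ih a1 (fun l h1 h2 => hb l h1 (h2.trans a3)) h1 a4).trans
      ((h.sc a0.ne').loc hP hE hZ hl (k := k2 / k) ((one_le_div a0).2 a3) ?_ (hb k a1 a3)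
        (by rw [e]; exact hb k2 hk le_rfl) h1 (by rw [e]; exact hc'))
    rw [← hθ, div_le_iff₀ a0]
    rw [div_le_iff₀ (by linarith)] at a2
    linarith

end Fr

end Pool.Agent.MP_993212_an.H65
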