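import Pool.Agent.MP_993212_an.H65.EntryAux
import Pool.Agent.MP_993212_an.H65.Local

namespace Pool.Agent.MP_993212_an.H65

open Matrix Pool.Agent.MP_993212_an.H12

namespace Fr

variable {F : Fr} {T : M2} {K lam mu : ℝ}

/-- central configurations for a cone that is narrower on the lower side -/
def ACen (F : Fr) (T : M2) (h a A : ℝ) (S R : Fin 4 → V) : Prop :=
  ten S R = T ∧ (∀ j, F.InCone (1 - h) (a * (1 - h)) (S j)) ∧
    (∀ j, F.dual.InCone (1 / a * (1 - h)) (1 - h) (R j)) ∧ ∃ j, A ≤ F.X (S j) ∧ A ≤ F.dual.X (R j)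

theorem acen_small (hP : Par K lam mu) : 10000 ≤ K ^ 14 ∧ 1 / K ^ 14 ≤ 1 / K / 8 := by
  have hK := hP.hK
  have h1 : K ^ 2 ≤ K ^ 14 := pow_le_pow_right₀ (by linarith) (by norm_num)
  have h2 : 8 * K ≤ K ^ 14 := by nlinarith
  refine ⟨by linarith, ?_⟩
  rw [div_div]
  exact one_div_le_one_div_of_le (by positivity) (by linarith)

theorem ACen.dec (h : F.Is T lam mu) (hP : Par K lam mu) {a c : ℝ} (ha : 0.38 ≤ a) (ha1 : a ≤ 1)
    (hc : 1 - 1 / K / 2 ≤ c) {S0 R0 S R : Fin 4 → V} (hS : F.Base (K ^ 14) c (a * c) 1 a S0)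
    (hR : F.dual.Base (K ^ 14) (1 / a * c) c (1 / a) 1 R0)
    (hc' : F.ACen T (1 / K) a (K ^ 308) S R) : F.Dec (K ^ 14) 1 a (1 / a) 1 S0 R0 S R := by
  obtain ⟨z1, z2⟩ := acen_small hP
  have t0 : 0 < 1 / K := one_div_pos.2 hP.K_pos
  have t1 : 1 / K ≤ 1 / 10000 := one_div_le_one_div_of_le (by norm_num) hP.hK
  have ha0 : 0 < a := by linarith
  have i1 : 1 ≤ 1 / a := by rwa [le_div_iff₀ ha0, one_mul]
  have i2 : 1 / a ≤ 4 := by
    rw [div_le_iff₀ ha0]
    linarith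
  obtain ⟨-, c1, c2, c3⟩ := hc'
  rw [show 308 = 14 * 22 from rfl, pow_mul] at c3
  generalize 1 / K = t at *
  generalize K ^ 14 = Z at *
  generalize 1 / a = b at *
  have c0 : 0 < c := by linarith
  have m1 : 1 - t ≤ c - 1 / Z := by linarith
  have m2 : a * (1 - t) ≤ a * c - 1 / Z := by nlinarith
  have m3 : b * (1 - t) ≤ b * c - 1 / Z := by nlinarith
  exact Dec.of_cone h hS hR z1 c0 (by positivity) (by norm_num) (by linarith) (by positivity) c0 i2
    (by norm_num) (fun j => (c1 j).mono m1 m2) (fun j => (c2 j).mono m3 m1) c3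

theorem link_acen (h : F.Is T lam mu) (hP : Par K lam mu) {a c : ℝ} (ha : 0.38 ≤ a) (ha1 : a ≤ 1)
    {S0 R0 S R S' R' : Fin 4 → V} (hS : F.Base (K ^ 14) c (a * c) 1 a S0)
    (hR : F.dual.Base (K ^ 14) (1 / a * c) c (1 / a) 1 R0)
    (d : F.Dec (K ^ 14) 1 a (1 / a) 1 S0 R0 S R) (d' : F.Dec (K ^ 14) 1 a (1 / a) 1 S0 R0 S' R')
    (ht : ten S R = ten S' R') : SSE (cm S R) (cm S' R') := by
  have ha0 : 0 < a := by linarith
  exact link h hS hR (acen_small hP).1 zero_le_one ha0.le (by norm_num) (by linarith)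
    (by positivity) zero_le_one (by rw [div_le_iff₀ ha0]; linarith) (by norm_num)
    (by rw [mul_one_div_cancel ha0.ne']) (by norm_num) d d' ht

theorem Is.uniqA (h : F.Is T lam mu) (hP : Par K lam mu) (hb : F.Bal (3 * K ^ 3)) {a : ℝ}
    (ha : 0.38 ≤ a) (ha1 : a ≤ 1) {S R S' R' : Fin 4 → V}
    (hc : F.ACen T (1 / K) a (K ^ 308) S R) (hc' : F.ACen T (1 / K) a (K ^ 308) S' R') :
    SSE (cm S R) (cm S' R') := by
  have hK := hP.hK
  have hK0 := hP.K_pos
  have hK1 : 1 ≤ K := by linarith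
  have t1 : 1 / K ≤ 1 / 10000 := one_div_le_one_div_of_le (by norm_num) hK
  have ha0 : 0 < a := by linarith
  have hE : 1 ≤ 3 * K ^ 3 := by linarith [one_le_pow₀ (n := 3) hK1]
  have i1 : 1 ≤ 1 / a := by rwa [le_div_iff₀ ha0, one_mul]
  have hsz : 1 + 26 * (3 * K ^ 3) / (1 / K / 2) ≤ K ^ 14 := by
    have e : 26 * (3 * K ^ 3) / (1 / K / 2) = 156 * K ^ 4 := by
      field_simp
      norm_num
    have a1 : 10000 * K ^ 4 ≤ K * K ^ 4 := mul_le_mul_of_nonneg_right hK (by positivity)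
    have a2 : K ^ 5 ≤ K ^ 14 := pow_le_pow_right₀ hK1 (by norm_num)
    have a3 : 1 ≤ K ^ 4 := one_le_pow₀ hK1
    rw [e]
    linarith [pow_succ' K 4]
  obtain ⟨S0, hS, -⟩ := h.exists_baseA (a := 1) (b := a) (t := 1 / K / 2) (A := 1) hb hE
    (by norm_num) (by linarith) (by positivity) (by linarith) le_rfl
  obtain ⟨R0, hR, -⟩ := h.dual.exists_baseA (a := 1 / a) (b := 1) (t := 1 / K / 2) (A := 1)
    (h.bal_dual hb) hE (by linarith) (by norm_num) (by positivity) (by linarith) le_rfl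
  rw [one_mul] at hS hR
  exact link_acen h hP ha ha1 (hS.mono_size hsz) (hR.mono_size hsz)
    (hc.dec h hP ha ha1 le_rfl (hS.mono_size hsz) (hR.mono_size hsz))
    (hc'.dec h hP ha ha1 le_rfl (hS.mono_size hsz) (hR.mono_size hsz)) (hc.1.trans hc'.1.symm)

theorem Is.existsA (h : F.Is T lam mu) (hP : Par K lam mu) (hmu : mu < 0) (hl : K ^ 1600 ≤ lam)
    (hb : F.Bal (3 * K ^ 3)) {a a' : ℝ} (ha : 0.38 ≤ a) (haa : a ≤ a') (ha1 : a' ≤ 1)
    (ha' : a' ≤ a * (1 + 1 / K)) : ∃ S R : Fin 4 → V,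
      F.ACen T (1 / K) a (K ^ 308) S R ∧ F.ACen T (1 / K) a' (K ^ 308) S R := by
  have hK := hP.hK
  have hK0 := hP.K_pos
  have hK1 : 1 ≤ K := by linarith
  have hl0 := hP.lam_pos
  have pw : ∀ {i j : ℕ}, i ≤ j → K ^ i ≤ K ^ j := fun hij => pow_le_pow_right₀ hK1 hij
  have t0 : 0 < 1 / K := by positivity
  have t1 : 1 / K ≤ 1 / 10000 := one_div_le_one_div_of_le (by norm_num) hK
  have ha0 : 0 < a := by linarith
  have hE : 1 ≤ 3 * K ^ 3 := by linarith [one_le_pow₀ (n := 3) hK1]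
  have hA1 : 1 ≤ K ^ 308 := one_le_pow₀ hK1
  obtain ⟨S, hS, hS2⟩ := h.exists_baseA (a := 1 - 1 / K) (b := a * (1 - 1 / K)) (t := 1 / K)
    (A := K ^ 308) hb hE (by linarith) (by nlinarith) t0 (by linarith) hA1
  have hsz : K ^ 308 + 26 * (3 * K ^ 3) / (1 / K) ≤ 2 * K ^ 308 := by
    have e : 26 * (3 * K ^ 3) / (1 / K) = 78 * K ^ 4 := by
      field_simp
      norm_num
    have a1 : 10000 * K ^ 4 ≤ K * K ^ 4 := mul_le_mul_of_nonneg_right hK (by positivity)
    have a2 := pw (show 5 ≤ 308 by norm_num)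
    have a3 : 0 ≤ K ^ 4 := by positivity
    rw [e]
    linarith [pow_succ' K 4]
  have hE' : 1024 * (2 * K ^ 308) ^ 5 * (3 * K ^ 3) ≤ (1 / K) ^ 2 * lam := by
    have a1 : 1024 * (2 * K ^ 308) ^ 5 * (3 * K ^ 3) = 98304 * K ^ 1543 := by ring
    have a2 : (1 / K) ^ 2 * K ^ 1600 = K ^ 55 * K ^ 1543 := by
      field_simp
    have a3 : (1 / K) ^ 2 * K ^ 1600 ≤ (1 / K) ^ 2 * lam := by gcongr
    have a4 : 98304 ≤ K ^ 55 := by
      have := pw (show 2 ≤ 55 by norm_num)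
      nlinarith
    have a5 : 98304 * K ^ 1543 ≤ K ^ 55 * K ^ 1543 := mul_le_mul_of_nonneg_right a4 (by positivity)
    linarith
  have hcov : F.dual.Cover (3 * K ^ 3) := h.dual.cover (h.bal_dual hb)
  have hg := hP.gap'
  rw [show 10 / K = 10 * (1 / K) by ring] at hg
  have hlong : K ^ 308 ≤ lam / (8 * (2 * K ^ 308)) := by
    rw [le_div_iff₀ (by positivity)]
    have a2 : K ^ 308 * (8 * (2 * K ^ 308)) = 16 * K ^ 616 := by ring
    have a3 : 16 * K ^ 616 ≤ K ^ 617 := by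
      rw [pow_succ K 616, mul_comm]
      exact mul_le_mul_of_nonneg_left (by linarith) (by positivity)
    linarith [pw (show 617 ≤ 1600 by norm_num)]
  have hS' := hS.mono_size hsz
  generalize 1 / K = t at *
  generalize K ^ 308 = A at *
  have i0 : 0 < 1 / a := by positivity
  have i1 : 1 ≤ 1 / a := by
    rw [le_div_iff₀ ha0]
    linarith
  have i2 : 1 / a ≤ 8 / 3 := by
    rw [div_le_iff₀ ha0]
    linarith
  have k0 : 1 - 10 * t ≤ (1 - 7 * t) * ((1 - t) * (1 - t)) := by nlinarith [mul_pos t0 t0]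
  have k1 := mul_le_mul_of_nonneg_right k0 hl0.le
  have k2 : 0 < (1 - t) * (1 - t) := mul_pos (by linarith) (by linarith)
  have k3 : 0 < 1 - 7 * t := by linarith
  obtain ⟨Q, hQ, hQc, hQ2⟩ := Is.mixA (G := T) (H := 1) (by rwa [mul_one]) hl0 hS' (by linarith)
    (by nlinarith) (by nlinarith) (by linarith) (by nlinarith) t0 (by linarith)
    (ρ := 1 / a * (1 - 7 * t)) (σ := 1 - 7 * t) (by positivity) (by nlinarith) k3.le (by linarith)
    (hmu.le.trans (by positivity))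
    (by
      have : 1 / a * (1 - 7 * t) * lam * (a * (1 - t) * (1 - t)) =
          (1 - 7 * t) * ((1 - t) * (1 - t)) * lam := by field_simp
      linarith)
    (hmu.le.trans (mul_nonneg (by positivity) (by rw [mul_assoc]; positivity))) (by linarith)
    (fun u v => by simpa only [vecMul_one] using hcov u v) hE'
  simp only [vecMul_one] at hQc hQ2
  have ha0' : 0 < a' := by linarith
  have s1 : 1 / a * (1 - 7 * t) + t ≤ 1 / a' * (1 - t) := by
    have b1 : 1 / a * (1 - 7 * t) + t ≤ 1 / a * (1 - 6 * t) := by nlinarith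
    have b2 : 1 / a * (1 - 6 * t) ≤ 1 / a' * (1 - t) := by
      rw [one_div_mul_eq_div, one_div_mul_eq_div, div_le_div_iff₀ ha0 ha0']
      have := mul_le_mul_of_nonneg_left ha' (show 0 ≤ 1 - 6 * t by linarith)
      nlinarith [mul_pos ha0 t0, mul_pos (mul_pos ha0 t0) t0]
    linarith
  have s2 : 1 / a' * (1 - t) ≤ 1 / a * (1 - t) :=
    mul_le_mul_of_nonneg_right (one_div_le_one_div_of_le ha0 haa) (by linarith)
  exact ⟨S, Q, ⟨hQ, hS.cone, fun j => (hQc j).mono (s1.trans s2) (by linarith), 2, hS2,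
    hlong.trans hQ2⟩, hQ, fun j => (hS.cone j).mono le_rfl
      (mul_le_mul_of_nonneg_right haa (by linarith)), fun j => (hQc j).mono s1 (by linarith), 2,
    hS2, hlong.trans hQ2⟩

theorem Is.chainA (h : F.Is T lam mu) (hP : Par K lam mu) (hmu : mu < 0) (hl : K ^ 1600 ≤ lam)
    (hb : F.Bal (3 * K ^ 3)) {a : ℝ} (ha : 0.38 ≤ a) (ha1 : a ≤ 1) {S R : Fin 4 → V}
    (hc : F.ACen T (1 / K) a (K ^ 308) S R) :
    ∃ S' R' : Fin 4 → V, F.Cen T (1 / K) (K ^ 308) S' R' ∧ SSE (cm S R) (cm S' R') := by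
  have t0 : 0 < 1 / K := one_div_pos.2 hP.K_pos
  obtain ⟨n, hn⟩ := pow_unbounded_of_one_lt (1 / a) (show 1 < 1 + 1 / K by linarith)
  rw [div_lt_iff₀ (by linarith)] at hn
  replace hn := hn.le
  induction n generalizing a S R with
  | zero =>
    obtain rfl : a = 1 := le_antisymm ha1 (by simpa using hn)
    simp only [ACen, div_one, one_mul] at hc
    exact ⟨S, R, ⟨⟨hc.1, hc.2.1, hc.2.2.1⟩, hc.2.2.2⟩, SSE.refl _⟩
  | succ n ih =>
    have a1 : a ≤ min 1 (a * (1 + 1 / K)) :=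
      le_min ha1 (le_mul_of_one_le_right (by linarith) (by linarith))
    obtain ⟨S1, R1, c1, c2⟩ := h.existsA hP hmu hl hb ha a1 (min_le_left _ _) (min_le_right _ _)
    obtain ⟨S', R', c3, c4⟩ := ih (ha.trans a1) (min_le_left _ _) c2 (by
      rcases min_cases 1 (a * (1 + 1 / K)) with ⟨e, -⟩ | ⟨e, -⟩ <;> rw [e]
      · rw [mul_one]
        exact one_le_pow₀ (by linarith)
      · rw [pow_succ] at hn
        linarith)
    exact ⟨S', R', c3, (h.uniqA hP hb ha ha1 hc c1).trans c4⟩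

end Fr

open EntryAux in
/-- a reduced balanced matrix with two positive eigenvalues is canonical -/
theorem entry_pos {F : Fr} {A : N2} {K lam mu : ℝ} (h : F.Is (toZ A) lam mu) (hP : Par K lam mu)
    (hmu : mu < 0) (hl : K ^ 1600 ≤ lam) (hda : A 1 1 ≤ A 0 0) (h1 : A 0 0 ≤ A 1 1 + A 0 1)
    (h2 : A 0 0 ≤ A 1 1 + A 1 0) (hb : lam + mu ≤ 4 * K ^ 6 * A 0 1)
    (hc : lam + mu ≤ 4 * K ^ 6 * A 1 0) : ∃ C ∈ KM (toZ A) K lam mu, SSE A C := by
  have hK := hP.hK
  have hK0 := hP.K_pos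
  have hK1 : 1 ≤ K := by linarith
  have hlam := hP.lam_pos
  have pw : ∀ {i j : ℕ}, i ≤ j → K ^ i ≤ K ^ j := fun hij => pow_le_pow_right₀ hK1 hij
  have p1 : ∀ i : ℕ, 1 ≤ K ^ i := fun i => one_le_pow₀ hK1
  have tr := h.trace
  have det := h.detT
  simp only [toZ, Int.cast_natCast] at tr det
  have hd0 : (0 : ℝ) ≤ A 1 1 := Nat.cast_nonneg _
  have hda' : (A 1 1 : ℝ) ≤ A 0 0 := by exact_mod_cast hda
  have h1' : (A 0 0 : ℝ) ≤ A 1 1 + A 0 1 := by exact_mod_cast h1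
  have h2' : (A 0 0 : ℝ) ≤ A 1 1 + A 1 0 := by exact_mod_cast h2
  obtain ⟨b0, c0, P0, -, cL, PQ, QP, -⟩ := nums hP.sum_pos (pow_pos hK0 6) hd0 tr det hda'
    h1' h2' hb hc
  have QP' : 0.38 * (mu + A 0 0) ≤ lam - A 0 0 := by
    have a1 : ((A 0 0 : ℝ) - A 1 1) * (A 0 0 - A 1 1) ≤ A 0 1 * A 1 0 :=
      mul_le_mul (by linarith) (by linarith) (by linarith) b0.le
    have a2 : (A 0 0 : ℝ) - A 1 1 = (mu + A 0 0) - (lam - A 0 0) := by linarith
    have a3 : (A 0 1 : ℝ) * A 1 0 = (lam - A 0 0) * (mu + A 0 0) := by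
      linear_combination (A 0 0 : ℝ) * tr - det
    rw [a2, a3] at a1
    generalize lam - A 0 0 = P at *
    generalize mu + A 0 0 = Q at *
    by_contra hcon
    have a4 : 0 < 0.38 * Q - P := by linarith
    have a5 : 0 < 2.62 * Q - P := by linarith
    nlinarith [mul_pos a4 a5, mul_pos P0 P0, mul_le_mul_of_nonneg_left PQ P0.le]
  have big : ∀ t : ℝ, lam + mu ≤ 4 * K ^ 6 * t → 2 * K ^ 238 ≤ t := fun t ht => by
    refine le_of_mul_le_mul_left ?_ (show 0 < 4 * K ^ 7 by positivity)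
    have a1 : 4 * K ^ 7 * (2 * K ^ 238) = 8 * K ^ 245 := by ring
    have a2 := mul_le_mul_of_nonneg_left ht hK0.le
    have a3 : K * (4 * K ^ 6 * t) = 4 * K ^ 7 * t := by ring
    linarith [pw (show 245 ≤ 1600 by norm_num), hP.sum_lo]
  have bL' := big _ hb
  have cL' := big _ hc
  have dL' : 2 * K ^ 238 ≤ (A 1 1 : ℝ) := by
    have a1 : 10000 * K ^ 238 ≤ K * K ^ 238 := mul_le_mul_of_nonneg_right hK (by positivity)
    linarith [pw (show 239 ≤ 1600 by norm_num), pow_succ' K 238, p1 238]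
  obtain ⟨u, hu⟩ : ∃ u : ℝ, (A 1 0 : ℝ) * u = lam - A 0 0 :=
    ⟨(lam - A 0 0) / A 1 0, by field_simp⟩
  obtain ⟨W, hW⟩ : ∃ W : ℝ, (A 1 0 : ℝ) * W = lam + mu :=
    ⟨(lam + mu) / A 1 0, by field_simp⟩
  have hWu : (A 1 0 : ℝ) * (W - u) = mu + A 0 0 := by linarith
  have u0 : 0 < u := (mul_pos_iff_of_pos_left c0).1 (by rw [hu]; exact P0)
  have u1 : u ≤ W - u := le_of_mul_le_mul_left (by rw [hu, hWu]; exact PQ) c0
  have u2 : 0.38 * (W - u) ≤ u := le_of_mul_le_mul_left (by linarith) c0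
  have W0 : 0 < W := by linarith
  have W1 : W ≤ 4 * K ^ 6 := le_of_mul_le_mul_left (by linarith) c0
  have W2 : 1 ≤ K ^ 6 * W := by
    refine le_of_mul_le_mul_left ?_ c0
    rw [← hW] at cL
    linarith
  obtain ⟨s, hs⟩ : ∃ s, s * (W - u) = u := ⟨u / (W - u), div_mul_cancel₀ _ (by linarith)⟩
  have s1 : 0.38 ≤ s := le_of_mul_le_mul_right (by linarith) (show 0 < W - u by linarith)
  have s2 : s ≤ 1 := le_of_mul_le_mul_right (by linarith) (show 0 < W - u by linarith)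
  have s0 : 0 < s := by linarith
  have c0' : ((toZ A 1 0 : ℤ) : ℝ) ≠ 0 := by simpa [toZ] using c0.ne'
  obtain ⟨G, hG, x0, y0⟩ := exists_norm h c0' s0
  obtain ⟨ee, eX, eY, dX, dY⟩ := coords hG c0' (u := u) (W := W) (by simpa [toZ] using hu)
    (by simpa [toZ] using hW) W0 s0 x0 y0
  generalize G.x 0 = x at ee eX eY dX dY x0
  have x1 : x ≤ 3 * K ^ 3 := by
    refine (sq_le_sq₀ x0.le (by positivity)).1 ?_
    have a1 : x ^ 2 * 1 ≤ x ^ 2 * (K ^ 6 * W) := by gcongr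
    have a2 : x ^ 2 * (K ^ 6 * W) * 0.38 ≤ x ^ 2 * (K ^ 6 * W) * s := by gcongr
    have a3 : x ^ 2 * (K ^ 6 * W) * s = K ^ 6 := by linear_combination K ^ 6 * ee
    have a4 : (3 * K ^ 3) ^ 2 = 9 * K ^ 6 := by ring
    linarith [p1 6]
  have x2 : x * u ≤ 3 * K ^ 3 := by
    refine (sq_le_sq₀ (by positivity) (by positivity)).1 ?_
    have a1 : (2 * (x * u)) ^ 2 ≤ (x * W) ^ 2 := by
      refine pow_le_pow_left₀ (by positivity) ?_ 2
      have := mul_le_mul_of_nonneg_left u1 x0.le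
      linarith
    have a2 : (x * W) ^ 2 * 0.38 ≤ (x * W) ^ 2 * s := by gcongr
    have a3 : (x * W) ^ 2 * s = W := by linear_combination W * ee
    have a4 : (3 * K ^ 3) ^ 2 = 9 * K ^ 6 := by ring
    linarith [p1 6]
  have sx : s * x ≤ x := mul_le_of_le_one_left x0.le s2
  have sx0 : 0 < s * x := by positivity
  have xu0 : 0 < x * u := by positivity
  have X0 : G.X ![1, 0] = x := by simp [eX]
  have Y0 : G.Y ![1, 0] = - (s * x) := by simp [eY]
  have X1 : G.X ![0, 1] = x * u := by simp [eX]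
  have Y1 : G.Y ![0, 1] = x * u := by
    have : G.Y ![0, 1] = s * x * (W - u) := by simp [eY]
    rw [this]
    linear_combination x * hs
  have P0' : G.dual.X ![1, 0] = x * u := by
    have : G.dual.X ![1, 0] = s * x * (W - u) := by simp [dX]
    rw [this]
    linear_combination x * hs
  have Q0 : G.dual.Y ![1, 0] = - (x * u) := by simp [dY]
  have P1 : G.dual.X ![0, 1] = s * x := by simp [dX]
  have Q1 : G.dual.Y ![0, 1] = x := by simp [dY]
  have hbal : G.Bal (3 * K ^ 3) := by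
    refine ⟨![1, 0], ![0, 1], by simp [det2], ?_, ?_, ?_, ?_⟩
    · rwa [X0, abs_of_pos x0]
    · rw [Y0, abs_neg, abs_of_pos sx0]
      linarith
    · rwa [X1, abs_of_pos xu0]
    · rwa [Y1, abs_of_pos xu0]
  have hZ : 3 * K ^ 3 ≤ K ^ 14 := by
    have a1 : 10000 * K ^ 3 ≤ K * K ^ 3 := mul_le_mul_of_nonneg_right hK (by positivity)
    linarith [pw (show 4 ≤ 14 by norm_num), pow_succ' K 3, p1 3]
  have is : 1 / s * (s * x) = x := by field_simp
  have is0 : 0 ≤ 1 / s * (x * u) := by positivity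
  have su0 : 0 ≤ s * (x * u) := by positivity
  have k0 : G.InCone 1 s ![1, 0] := ⟨by rw [X0]; linarith, by rw [X0, Y0]; linarith,
    by rw [X0, Y0]; linarith⟩
  have k1 : G.InCone 1 s ![0, 1] := ⟨by rw [X1]; linarith, by rw [X1, Y1]; linarith,
    by rw [X1, Y1]; linarith⟩
  have l0 : G.dual.InCone (1 / s) 1 ![1, 0] := ⟨by rw [P0']; linarith, by rw [P0', Q0]; linarith,
    by rw [P0', Q0]; linarith⟩
  have l1 : G.dual.InCone (1 / s) 1 ![0, 1] := ⟨by rw [P1]; linarith, by rw [P1, Q1]; linarith,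
    by rw [P1, Q1]; linarith⟩
  obtain ⟨B, hB⟩ : ∃ B : Fin 4 → V, B = ![![1, 0], ![0, 1], ![0, 1], ![1, 0]] := ⟨_, rfl⟩
  have B0 : B 0 = ![1, 0] := by rw [hB]; rfl
  have B1 : B 1 = ![0, 1] := by rw [hB]; rfl
  have B2 : B 2 = ![0, 1] := by rw [hB]; rfl
  have B3 : B 3 = ![1, 0] := by rw [hB]; rfl
  have all : ∀ p : V → Prop, p ![1, 0] → p ![0, 1] → ∀ i, p (B i) := by
    intro p a b i
    rw [hB]
    fin_cases i
    exacts [a, b, b, a]
  have hS : G.Base (K ^ 14) 1 (s * 1) 1 s B :=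
    ⟨by simp [B0, B1, det2], all (fun v => G.X v ≤ K ^ 14) (by rw [X0]; linarith)
      (by rw [X1]; linarith), all _ k0 k1, by rwa [B2, X1], by rwa [B3, X0],
      by rw [B2, X1, Y1]; linarith, by rw [B3, X0, Y0]; linarith⟩
  have hR : G.dual.Base (K ^ 14) (1 / s * 1) 1 (1 / s) 1 B :=
    ⟨by simp [B0, B1, det2], all (fun v => G.dual.X v ≤ K ^ 14) (by rw [P0']; linarith)
      (by rw [P1]; linarith), all _ l0 l1, by rwa [B2, P1], by rwa [B3, P0'],
      by rw [B2, P1, Q1]; linarith, by rw [B3, P0', Q0]; linarith⟩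
  let S : Fin 4 → V := ![![1, 0], ![0, 1], 0, 0]
  let R : Fin 4 → V := ![![A 0 0, A 0 1], ![A 1 0, A 1 1], 0, 0]
  have hten : ten S R = toZ A := by
    ext i j
    fin_cases i <;> fin_cases j <;> simp [ten, S, R, toZ, Fin.sum_univ_four]
  have hsse : SSE A (cm S R) := by
    have := lemX S (fun i j => (A i j : ℤ)) ![![1, 0], ![0, 1], 0, 0]
      (fun i => Pi.single i (1 : ℤ)) R
      (fun k => by
        funext i
        fin_cases k <;> fin_cases i <;> simp [S, Fin.sum_univ_four])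
      (fun k => by
        funext i
        fin_cases k <;> fin_cases i <;> simp [R, Fin.sum_univ_two])
      (fun k i => by
        have p0 : (0 : ℤ) ≤ (A k 0 : ℤ) := Int.natCast_nonneg _
        have p1 : (0 : ℤ) ≤ (A k 1 : ℤ) := Int.natCast_nonneg _
        rw [dot2]
        fin_cases i <;> simp [S])
    rwa [cm_basis] at this
  have hdec : G.Dec (K ^ 14) 1 s (1 / s) 1 B B S R := by
    refine ⟨![![1, 0, 0, 0], ![0, 1, 0, 0], 0, 0], ![![A 0 0, A 0 1, 0, 0], ![A 1 0, A 1 1, 0, 0],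
      0, 0], 0, 0, fun j => ?_, fun j => ?_, fun j => ⟨Fr.InCone.zero _ _ _, ?_⟩,
      fun j => ⟨Fr.InCone.zero _ _ _, ?_⟩, ?_⟩
    · funext i
      fin_cases j <;> fin_cases i <;> simp [S, hB, Fin.sum_univ_four]
    · funext i
      fin_cases j <;> fin_cases i <;> simp [R, hB, Fin.sum_univ_four]
    · rw [Pi.zero_apply, Fr.X_zero]
      positivity
    · rw [Pi.zero_apply, Fr.X_zero]
      positivity
    · rw [← pow_mul]
      have aL' := dL'.trans hda'
      generalize 2 * K ^ (14 * 17) = L at *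
      rintro a b (rfl | rfl) (rfl | rfl) <;> simpa [Fin.sum_univ_four]
  obtain ⟨S1, R1, c1, -⟩ := hG.existsA hP hmu hl hbal s1 le_rfl s2
    (le_mul_of_one_le_right s0.le (by linarith [one_div_pos.2 hK0]))
  obtain ⟨S2, R2, c2, c3⟩ := hG.chainA hP hmu hl hbal s1 s2 c1
  refine ⟨cm S2 R2, ⟨G, S2, R2, hG, ?_, c2, rfl⟩, (hsse.trans (Fr.link_acen hG hP s1 s2 hS hR hdec
    (c1.dec hG hP s1 s2 (by linarith [one_div_pos.2 hK0]) hS hR) (hten.trans c1.1.symm))).trans c3⟩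
  refine (hG.good_of_bal hbal).mono (one_div_le_one_div_of_le (by positivity) ?_)
  rw [pow_succ K 3]
  nlinarith [pow_pos hK0 3]

end Pool.Agent.MP_993212_an.H65
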