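import Pool.Agent.MP_993212_an.H65.Main
import Pool.Agent.MP_993212_an.H65.DecZ

namespace Pool.Agent.MP_993212_an.H65

open Matrix Pool.Agent.MP_993212_an.H12

theorem williams {C k : ℕ} (hk : k + 1 = 175000) (hC : C = (10000 ^ (k + 1)) ^ 2) {A B : N2}
    (hA : Cl C k A) : SSE A B ↔ SE A B :=
  ⟨SSE.se, fun h => main hk hC hA (zc_of_se hA.det_ne h)⟩

@[fun_prop] theorem P.min {α : Type} [Primcodable α] {f g : α → ℕ} (hf : Primrec f)
    (hg : Primrec g) : Primrec fun a => min (f a) (g a) := Primrec.nat_min.comp hf hg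

def gapB (C k : ℕ) (p : LL × LL) : Bool :=
  decide (p.1.length = 2) && decide (p.2.length = 2) &&
    decide (C * max ((ent p.1 0 0 + ent p.1 1 1) ^ 2) (dzD p.1) ^ k ≤
      min ((ent p.1 0 0 + ent p.1 1 1) ^ 2) (dzD p.1) ^ (k + 1))

theorem gapB_prim (C k : ℕ) : Primrec (gapB C k) := by
  unfold gapB; fun_prop

theorem decide_gap {C k : ℕ} (hk : k + 1 = 175000) (hC : C = (10000 ^ (k + 1)) ^ 2) :
    ComputablePred fun p : LL × LL => p.1.length = 2 ∧ p.2.length = 2 ∧ Cl C k (toM 2 2 p.1) ∧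
      Relation.TransGen E ⟨p.1.length, toM _ _ p.1⟩ ⟨p.2.length, toM _ _ p.2⟩ := by
  obtain ⟨f, hf, hfe⟩ := ComputablePred.computable_iff.1 decide_zc
  refine ComputablePred.computable_iff.2 ⟨fun p => gapB C k p && f p,
    Primrec.and.to_comp.comp (gapB_prim C k).to_comp hf, funext fun p => propext ?_⟩
  have h1 := congrFun hfe p
  obtain ⟨A, B⟩ := p
  have hD : ((toM 2 2 A 0 0 : ℤ) - toM 2 2 A 1 1) ^ 2 + 4 * toM 2 2 A 0 1 * toM 2 2 A 1 0 =
      dzD A := by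
    simp only [dzD, toM, Matrix.of_apply, Fin.val_zero, Fin.val_one]
    push_cast
    rw [dz_sq, mul_assoc]
  have hD' : disc (toZ (toM 2 2 A)) = dzD A := by
    rw [← hD, disc, mul_assoc]
    rfl
  have ht : (toM 2 2 A 0 0 : ℤ) + toM 2 2 A 1 1 = (ent A 0 0 + ent A 1 1 : ℕ) := by
    simp [toM]
  have hC' : Cl C k (toM 2 2 A) ↔ ¬ IsSquare (dzD A : ℤ) ∧
      C * max ((ent A 0 0 + ent A 1 1) ^ 2) (dzD A) ^ k ≤
        min ((ent A 0 0 + ent A 1 1) ^ 2) (dzD A) ^ (k + 1) := by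
    rw [Cl, hD, ht]
    refine and_congr_right fun _ => ?_
    generalize ent A 0 0 + ent A 1 1 = t
    norm_cast
  simp only [gapB, Bool.and_eq_true, decide_eq_true_eq, ← h1, hD', and_assoc]
  refine and_congr_right fun a => and_congr_right fun b => ?_
  rw [a, b, ← sse_iff]
  constructor
  · rintro ⟨c, d⟩
    exact ⟨(hC'.1 c).2, (hC'.1 c).1, zc_of_se c.det_ne d.se⟩
  · rintro ⟨c, d, e⟩
    exact ⟨hC'.2 ⟨d, c⟩, main hk hC (hC'.2 ⟨d, c⟩) e⟩

theorem big_eq : (10 : ℕ) ^ 1400000 = (10000 ^ (174999 + 1)) ^ 2 := by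
  rw [← pow_mul, show (10000 : ℕ) = 10 ^ 4 by norm_num, ← pow_mul]

end Pool.Agent.MP_993212_an.H65
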