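import Pool.Agent.MP_993212_an.H65.Cfg

namespace Pool.Agent.MP_993212_an.H65

open Matrix Pool.Agent.MP_993212_an.H12

namespace Fr

variable {F : Fr} {T : M2} {lam mu : ℝ}

theorem X_add (F : Fr) (s t : V) : F.X (s + t) = F.X s + F.X t := by
  simp only [X, Pi.add_apply]; push_cast; ring
theorem Y_add (F : Fr) (s t : V) : F.Y (s + t) = F.Y s + F.Y t := by
  simp only [Y, Pi.add_apply]; push_cast; ring
theorem X_sub (F : Fr) (s t : V) : F.X (s - t) = F.X s - F.X t := by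
  simp only [X, Pi.sub_apply]; push_cast; ring
theorem Y_sub (F : Fr) (s t : V) : F.Y (s - t) = F.Y s - F.Y t := by
  simp only [Y, Pi.sub_apply]; push_cast; ring
theorem X_neg (F : Fr) (s : V) : F.X (-s) = - F.X s := by
  simp only [X, Pi.neg_apply]; push_cast; ring
theorem Y_neg (F : Fr) (s : V) : F.Y (-s) = - F.Y s := by
  simp only [Y, Pi.neg_apply]; push_cast; ring
theorem X_zsmul (F : Fr) (n : ℤ) (s : V) : F.X (n • s) = n * F.X s := by
  simp only [X, Pi.smul_apply, smul_eq_mul]; push_cast; ring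
theorem Y_zsmul (F : Fr) (n : ℤ) (s : V) : F.Y (n • s) = n * F.Y s := by
  simp only [Y, Pi.smul_apply, smul_eq_mul]; push_cast; ring
theorem X_nsmul (F : Fr) (n : ℕ) (s : V) : F.X (n • s) = n * F.X s := by
  rw [← natCast_zsmul, X_zsmul]; simp
theorem Y_nsmul (F : Fr) (n : ℕ) (s : V) : F.Y (n • s) = n * F.Y s := by
  rw [← natCast_zsmul, Y_zsmul]; simp
theorem X_zero (F : Fr) : F.X 0 = 0 := by simp [X]
theorem Y_zero (F : Fr) : F.Y 0 = 0 := by simp [Y]

theorem dual_dual (F : Fr) : F.dual.dual = F := rfl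

theorem sc_X (F : Fr) (k : ℝ) (s : V) : (F.sc k).X s = k * F.X s := by
  simp only [X, sc]; ring
theorem sc_Y (F : Fr) (k : ℝ) (s : V) : (F.sc k).Y s = F.Y s / k := by
  simp only [Y, sc]; ring
theorem sc_dual (F : Fr) (k : ℝ) : (F.sc k).dual = F.dual.sc k⁻¹ := by
  simp only [sc, dual, div_eq_mul_inv, inv_inv, mul_comm]
theorem sc_dual_X (F : Fr) (k : ℝ) (r : V) : (F.sc k).dual.X r = F.dual.X r / k := by
  simp only [X, sc, dual]; ring
theorem sc_dual_Y (F : Fr) (k : ℝ) (r : V) : (F.sc k).dual.Y r = k * F.dual.Y r := by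
  simp only [Y, sc, dual]; ring
theorem sc_sc (F : Fr) (k l : ℝ) : (F.sc k).sc l = F.sc (k * l) := by
  simp only [sc, Fr.mk.injEq]
  refine ⟨?_, ?_, ?_, ?_⟩ <;> funext i <;> ring
theorem sc_one (F : Fr) : F.sc 1 = F := by
  cases F
  simp [sc]
theorem negx_X (F : Fr) (s : V) : F.negx.X s = - F.X s := by
  simp only [X, negx]; ring
theorem negx_Y (F : Fr) (s : V) : F.negx.Y s = F.Y s := rfl
theorem negy_X (F : Fr) (s : V) : F.negy.X s = F.X s := rfl
theorem negy_Y (F : Fr) (s : V) : F.negy.Y s = - F.Y s := by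
  simp only [Y, negy]; ring
theorem negx_dual (F : Fr) : F.negx.dual = F.dual.negx := rfl
theorem negy_dual (F : Fr) : F.negy.dual = F.dual.negy := rfl

theorem Is.o00 (h : F.Is T lam mu) : F.p 0 * F.x 0 + F.q 0 * F.y 0 = 1 := by simpa using h.one 0 0
theorem Is.o01 (h : F.Is T lam mu) : F.p 0 * F.x 1 + F.q 0 * F.y 1 = 0 := by simpa using h.one 0 1
theorem Is.o10 (h : F.Is T lam mu) : F.p 1 * F.x 0 + F.q 1 * F.y 0 = 0 := by simpa using h.one 1 0
theorem Is.o11 (h : F.Is T lam mu) : F.p 1 * F.x 1 + F.q 1 * F.y 1 = 1 := by simpa using h.one 1 1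

theorem Is.e_cases (h : F.Is T lam mu) : F.e = 1 ∨ F.e = -1 := by
  have := h.det
  exact mul_self_eq_one_iff.1 (by rw [← sq, this])

theorem Is.abs_e (h : F.Is T lam mu) : |F.e| = 1 := by
  rcases h.e_cases with h | h <;> simp [h]

theorem Is.p0 (h : F.Is T lam mu) : F.p 0 = F.e * F.y 1 := by
  have := h.det
  simp only [e] at this ⊢
  linear_combination (F.x 0 * F.y 1 - F.x 1 * F.y 0) * (F.y 1 * h.o00 - F.y 0 * h.o01) -
    F.p 0 * this
theorem Is.p1 (h : F.Is T lam mu) : F.p 1 = - (F.e * F.y 0) := by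
  have := h.det
  simp only [e] at this ⊢
  linear_combination (F.x 0 * F.y 1 - F.x 1 * F.y 0) * (F.y 1 * h.o10 - F.y 0 * h.o11) -
    F.p 1 * this
theorem Is.q0 (h : F.Is T lam mu) : F.q 0 = - (F.e * F.x 1) := by
  have := h.det
  simp only [e] at this ⊢
  linear_combination (F.x 0 * F.y 1 - F.x 1 * F.y 0) * (F.x 0 * h.o01 - F.x 1 * h.o00) -
    F.q 0 * this
theorem Is.q1 (h : F.Is T lam mu) : F.q 1 = F.e * F.x 0 := by
  have := h.det
  simp only [e] at this ⊢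
  linear_combination (F.x 0 * F.y 1 - F.x 1 * F.y 0) * (F.x 0 * h.o11 - F.x 1 * h.o10) -
    F.q 1 * this

theorem Is.xp (h : F.Is T lam mu) : F.x 0 * F.p 0 + F.x 1 * F.p 1 = 1 := by
  have := h.det
  rw [h.p0, h.p1]
  simp only [e] at this ⊢
  linear_combination this
theorem Is.xq (h : F.Is T lam mu) : F.x 0 * F.q 0 + F.x 1 * F.q 1 = 0 := by
  rw [h.q0, h.q1]; ring
theorem Is.yp (h : F.Is T lam mu) : F.y 0 * F.p 0 + F.y 1 * F.p 1 = 0 := by
  rw [h.p0, h.p1]; ring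
theorem Is.yq (h : F.Is T lam mu) : F.y 0 * F.q 0 + F.y 1 * F.q 1 = 1 := by
  have := h.det
  rw [h.q0, h.q1]
  simp only [e] at this ⊢
  linear_combination this

theorem Is.dual_e (h : F.Is T lam mu) : F.dual.e = F.e := by
  have := h.det
  show F.p 0 * F.q 1 - F.p 1 * F.q 0 = F.e
  rw [h.p0, h.p1, h.q0, h.q1]
  simp only [e] at this ⊢
  linear_combination (F.x 0 * F.y 1 - F.x 1 * F.y 0) * this

theorem Is.dual (h : F.Is T lam mu) : F.dual.Is Tᵀ lam mu where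
  one i j := by
    have := h.one j i
    simp only [Fr.dual, eq_comm (a := i)]
    linear_combination this
  hT i j := by
    have := h.hT j i
    simp only [Fr.dual, transpose_apply]
    linear_combination this
  det := by rw [h.dual_e, h.det]

theorem Is.sc (h : F.Is T lam mu) {k : ℝ} (hk : k ≠ 0) : (F.sc k).Is T lam mu where
  one i j := by
    rw [← h.one i j]
    simp only [Fr.sc]
    field_simp
  hT i j := by
    rw [h.hT i j]
    simp only [Fr.sc]
    field_simp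
  det := by
    rw [← h.det]
    simp only [Fr.sc, e]
    field_simp

theorem Is.negx (h : F.Is T lam mu) : F.negx.Is T lam mu where
  one i j := by
    rw [← h.one i j]
    simp only [Fr.negx]
    ring
  hT i j := by
    rw [h.hT i j]
    simp only [Fr.negx]
    ring
  det := by
    rw [← h.det]
    simp only [Fr.negx, e]
    ring

theorem Is.negy (h : F.Is T lam mu) : F.negy.Is T lam mu where
  one i j := by
    rw [← h.one i j]
    simp only [Fr.negy]
    ring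
  hT i j := by
    rw [h.hT i j]
    simp only [Fr.negy]
    ring
  det := by
    rw [← h.det]
    simp only [Fr.negy, e]
    ring

/-- the pairing in coordinates -/
theorem Is.pair (h : F.Is T lam mu) (r s : V) :
    ((r ⬝ᵥ s : ℤ) : ℝ) = F.dual.X r * F.X s + F.dual.Y r * F.Y s := by
  rw [dot2]
  push_cast
  simp only [X, Y, Fr.dual]
  linear_combination (-(r 0 : ℝ) * s 0) * h.o00 - (r 0 : ℝ) * s 1 * h.o01 -
    (r 1 : ℝ) * s 0 * h.o10 - (r 1 : ℝ) * s 1 * h.o11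

/-- the determinant in coordinates -/
theorem Is.det2_eq (h : F.Is T lam mu) (s t : V) :
    (det2 s t : ℝ) = F.e * (F.X s * F.Y t - F.Y s * F.X t) := by
  have := h.det
  simp only [det2, X, Y, e] at this ⊢
  push_cast
  linear_combination (-((s 0 : ℝ) * t 1 - s 1 * t 0)) * this

theorem Is.abs_det2 (h : F.Is T lam mu) (s t : V) :
    |(det2 s t : ℝ)| = |F.X s * F.Y t - F.Y s * F.X t| := by
  rw [h.det2_eq, abs_mul, h.abs_e, one_mul]

theorem Is.X_mulVec (h : F.Is T lam mu) (s : V) : F.X (T *ᵥ s) = lam * F.X s := by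
  simp only [X, mulVec, dotProduct, Fin.sum_univ_two]
  push_cast
  rw [h.hT, h.hT, h.hT, h.hT]
  linear_combination lam * (F.x 0 * s 0 + F.x 1 * s 1) * h.xp -
    mu * (F.y 0 * s 0 + F.y 1 * s 1) * h.xq

theorem Is.Y_mulVec (h : F.Is T lam mu) (s : V) : F.Y (T *ᵥ s) = - mu * F.Y s := by
  simp only [Y, mulVec, dotProduct, Fin.sum_univ_two]
  push_cast
  rw [h.hT, h.hT, h.hT, h.hT]
  linear_combination lam * (F.x 0 * s 0 + F.x 1 * s 1) * h.yp -
    mu * (F.y 0 * s 0 + F.y 1 * s 1) * h.yq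

theorem Is.X_vecMul (h : F.Is T lam mu) (r : V) : F.dual.X (r ᵥ* T) = lam * F.dual.X r := by
  rw [← mulVec_transpose]
  exact h.dual.X_mulVec r

theorem Is.Y_vecMul (h : F.Is T lam mu) (r : V) : F.dual.Y (r ᵥ* T) = - mu * F.dual.Y r := by
  rw [← mulVec_transpose]
  exact h.dual.Y_mulVec r

theorem Is.trace (h : F.Is T lam mu) : (T 0 0 : ℝ) + T 1 1 = lam - mu := by
  rw [h.hT, h.hT]
  linear_combination lam * h.xp - mu * h.yq

theorem Is.detT (h : F.Is T lam mu) : (T 0 0 : ℝ) * T 1 1 - T 0 1 * T 1 0 = - (lam * mu) := by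
  have h1 := h.det
  have h2 := h.dual_e
  rw [h.hT, h.hT, h.hT, h.hT]
  simp only [e, Fr.dual] at h1 h2
  linear_combination (-(lam * mu)) * h1 - lam * mu * (F.x 0 * F.y 1 - F.x 1 * F.y 0) * h2

/-- coordinates determine a vector -/
theorem Is.eq_zero (h : F.Is T lam mu) {s : V} (hx : F.X s = 0) (hy : F.Y s = 0) : s = 0 := by
  simp only [X, Y] at hx hy
  have h0 : (s 0 : ℝ) = 0 := by
    linear_combination F.p 0 * hx + F.q 0 * hy - s 0 * h.o00 - s 1 * h.o01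
  have h1 : (s 1 : ℝ) = 0 := by
    linear_combination F.p 1 * hx + F.q 1 * hy - s 0 * h.o10 - s 1 * h.o11
  funext i
  fin_cases i
  · exact_mod_cast h0
  · exact_mod_cast h1

/-- the mass identity of a configuration -/
theorem Is.ten_XX {ι : Type} [Fintype ι] (h : F.Is T lam mu) {S R : ι → V} (hS : ten S R = T) :
    ∑ i, F.X (S i) * F.dual.X (R i) = lam := by
  have e : ∀ a b, ∑ i, (S i a : ℝ) * R i b = T a b := by
    intro a b
    rw [← hS]
    simp [ten]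
  have : ∑ i, F.X (S i) * F.dual.X (R i) = F.x 0 * F.p 0 * (∑ i, (S i 0 : ℝ) * R i 0) +
      F.x 0 * F.p 1 * (∑ i, (S i 0 : ℝ) * R i 1) + F.x 1 * F.p 0 * (∑ i, (S i 1 : ℝ) * R i 0) +
      F.x 1 * F.p 1 * (∑ i, (S i 1 : ℝ) * R i 1) := by
    simp only [Finset.mul_sum, ← Finset.sum_add_distrib, X, Fr.dual]
    refine Finset.sum_congr rfl fun i _ => ?_
    ring
  rw [this, e, e, e, e, h.hT, h.hT, h.hT, h.hT]
  linear_combination lam * (F.x 0 * F.p 0 + F.x 1 * F.p 1 + 1) * h.xp -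
    mu * (F.x 0 * F.q 0 + F.x 1 * F.q 1) * h.yp

theorem InCone.mono {ap am ap' am' : ℝ} {s : V} (h : F.InCone ap am s) (h1 : ap ≤ ap')
    (h2 : am ≤ am') : F.InCone ap' am' s :=
  ⟨h.1, h.2.1.trans (mul_le_mul_of_nonneg_right h1 h.1),
    h.2.2.trans (mul_le_mul_of_nonneg_right h2 h.1)⟩

theorem InCone.zero (F : Fr) (ap am : ℝ) : F.InCone ap am 0 := by
  simp [InCone, X_zero, Y_zero]

/-- compatible cones pair nonnegatively -/
theorem Is.pair_nonneg (h : F.Is T lam mu) {ap am bp bm : ℝ} {r s : V} (hs : F.InCone ap am s)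
    (hr : F.dual.InCone bp bm r) (hap : 0 ≤ ap) (ham : 0 ≤ am) (h1 : am * bp ≤ 1)
    (h2 : ap * bm ≤ 1) : 0 ≤ r ⬝ᵥ s := by
  have : (0 : ℝ) ≤ ((r ⬝ᵥ s : ℤ) : ℝ) := by
    rw [h.pair]
    obtain ⟨s0, s1, s2⟩ := hs
    obtain ⟨r0, r1, r2⟩ := hr
    have hxx := mul_nonneg r0 s0
    rcases le_total 0 (F.dual.Y r) with hy | hy
    · have a1 : - (F.dual.Y r * F.Y s) ≤ F.dual.Y r * (am * F.X s) := by nlinarith
      have a2 : F.dual.Y r * (am * F.X s) ≤ bp * F.dual.X r * (am * F.X s) :=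
        mul_le_mul_of_nonneg_right r1 (mul_nonneg ham s0)
      nlinarith
    · have a1 : - (F.dual.Y r * F.Y s) ≤ - F.dual.Y r * (ap * F.X s) := by nlinarith
      have a2 : - F.dual.Y r * (ap * F.X s) ≤ bm * F.dual.X r * (ap * F.X s) :=
        mul_le_mul_of_nonneg_right r2 (mul_nonneg hap s0)
      nlinarith
  exact_mod_cast this

theorem Mar.pos (h : F.Is T lam mu) {a : ℝ} (ha0 : 0 ≤ a) (ha : a ≤ 1) {S R : Fin 4 → V}
    (hm : F.Mar T a S R) (k i : Fin 4) : 0 ≤ R k ⬝ᵥ S i :=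
  h.pair_nonneg (hm.2.1 i) (hm.2.2 k) (by linarith) (by linarith) (by nlinarith) (by nlinarith)

theorem Mar.dual {a : ℝ} {S R : Fin 4 → V} (hm : F.Mar T a S R) : F.dual.Mar Tᵀ a R S :=
  ⟨by rw [ten_swap, hm.1], hm.2.2, hm.2.1⟩

theorem Cen.dual {a A : ℝ} {S R : Fin 4 → V} (hm : F.Cen T a A S R) : F.dual.Cen Tᵀ a A R S :=
  ⟨hm.1.dual, hm.2.imp fun _ h => ⟨h.2, h.1⟩⟩

theorem Mar.mono {a a' : ℝ} {S R : Fin 4 → V} (hm : F.Mar T a S R) (h : a' ≤ a) :
    F.Mar T a' S R :=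
  ⟨hm.1, fun j => (hm.2.1 j).mono (by linarith) (by linarith),
    fun j => (hm.2.2 j).mono (by linarith) (by linarith)⟩

theorem Cen.mono {a a' A A' : ℝ} {S R : Fin 4 → V} (hm : F.Cen T a A S R) (h : a' ≤ a)
    (hA : A' ≤ A) : F.Cen T a' A' S R :=
  ⟨hm.1.mono h, hm.2.imp fun _ h => ⟨hA.trans h.1, hA.trans h.2⟩⟩

theorem InCone.negy {a : ℝ} {s : V} (h : F.InCone a a s) : F.negy.InCone a a s := by
  obtain ⟨h0, h1, h2⟩ := h
  refine ⟨h0, ?_, ?_⟩ <;> rw [negy_X, negy_Y] <;> linarith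

theorem InCone.negx {a : ℝ} {s : V} (h : F.InCone a a s) : F.negx.InCone a a (-s) := by
  obtain ⟨h0, h1, h2⟩ := h
  refine ⟨?_, ?_, ?_⟩ <;> simp only [negx_X, negx_Y, X_neg, Y_neg] <;> linarith

theorem Mar.negy {a : ℝ} {S R : Fin 4 → V} (hm : F.Mar T a S R) : F.negy.Mar T a S R :=
  ⟨hm.1, fun j => (hm.2.1 j).negy, fun j => (hm.2.2 j).negy⟩

theorem Mar.negx {a : ℝ} {S R : Fin 4 → V} (hm : F.Mar T a S R) :
    F.negx.Mar T a (fun i => - S i) (fun i => - R i) :=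
  ⟨by rw [ten_neg, hm.1], fun j => (hm.2.1 j).negx, fun j => (hm.2.2 j).negx⟩

theorem Cen.negy {a A : ℝ} {S R : Fin 4 → V} (hm : F.Cen T a A S R) : F.negy.Cen T a A S R :=
  ⟨hm.1.negy, hm.2⟩

theorem Cen.negx {a A : ℝ} {S R : Fin 4 → V} (hm : F.Cen T a A S R) :
    F.negx.Cen T a A (fun i => - S i) (fun i => - R i) :=
  ⟨hm.1.negx, hm.2.imp fun j h => by
    simpa only [negx_dual, negx_X, X_neg, neg_neg] using h⟩

theorem Good.negx {a : ℝ} (h : F.Good a) : F.negx.Good a := fun s hs => by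
  simpa only [negx_X, negx_Y, abs_neg] using h s hs

theorem Good.negy {a : ℝ} (h : F.Good a) : F.negy.Good a := fun s hs => by
  simpa only [negy_X, negy_Y, abs_neg] using h s hs

theorem Good.mono {a a' : ℝ} (h : F.Good a) (ha : a' ≤ a) : F.Good a' := fun s hs =>
  (h s hs).imp ha.trans ha.trans

theorem pull_X (F : Fr) (lam mu : ℝ) (H S : M2) (g : ℝ) (s : V) :
    (F.pull lam mu H S g).X s = F.X (H *ᵥ s) / g := by
  simp only [X, pull, mulVec, dotProduct, Fin.sum_univ_two]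
  push_cast
  ring

theorem pull_Y (F : Fr) (lam mu : ℝ) (H S : M2) (g : ℝ) (s : V) :
    (F.pull lam mu H S g).Y s = F.Y (H *ᵥ s) / g := by
  simp only [Y, pull, mulVec, dotProduct, Fin.sum_univ_two]
  push_cast
  ring

theorem pull_dual_X' (F : Fr) (lam mu : ℝ) (H S : M2) (g : ℝ) (r : V) :
    (F.pull lam mu H S g).dual.X r = g / lam * F.dual.X (r ᵥ* S) := by
  simp only [X, pull, Fr.dual, vecMul, dotProduct, Fin.sum_univ_two]
  push_cast
  ring

theorem pull_dual_Y' (F : Fr) (lam mu : ℝ) (H S : M2) (g : ℝ) (r : V) :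
    (F.pull lam mu H S g).dual.Y r = - (g / mu) * F.dual.Y (r ᵥ* S) := by
  simp only [Y, pull, Fr.dual, vecMul, dotProduct, Fin.sum_univ_two]
  push_cast
  ring

theorem pull_sc (F : Fr) (lam mu : ℝ) (H S : M2) (g k : ℝ) :
    (F.sc k).pull lam mu H S g = (F.pull lam mu H S g).sc k := by
  simp only [sc, pull, Fr.mk.injEq]
  refine ⟨?_, ?_, ?_, ?_⟩ <;> funext i <;> ring

theorem Is.pull_dual_X {H S : M2} (h : F.Is (H * S) lam mu) (hl : lam ≠ 0) (g : ℝ) (r : V) :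
    (F.pull lam mu H S g).dual.X (r ᵥ* H) = g * F.dual.X r := by
  rw [pull_dual_X', vecMul_vecMul, h.X_vecMul]
  field_simp

theorem Is.pull_dual_Y {H S : M2} (h : F.Is (H * S) lam mu) (hm : mu ≠ 0) (g : ℝ) (r : V) :
    (F.pull lam mu H S g).dual.Y (r ᵥ* H) = g * F.dual.Y r := by
  rw [pull_dual_Y', vecMul_vecMul, h.Y_vecMul]
  field_simp

theorem Is.pull_X_S {H S : M2} (h : F.Is (H * S) lam mu) (g : ℝ) (s : V) :
    (F.pull lam mu H S g).X (S *ᵥ s) = lam * F.X s / g := by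
  rw [pull_X, mulVec_mulVec, h.X_mulVec]

theorem Is.pull_Y_S {H S : M2} (h : F.Is (H * S) lam mu) (g : ℝ) (s : V) :
    (F.pull lam mu H S g).Y (S *ᵥ s) = - mu * F.Y s / g := by
  rw [pull_Y, mulVec_mulVec, h.Y_mulVec]

theorem Is.pull {H S : M2} (h : F.Is (H * S) lam mu) (hl : lam ≠ 0) (hm : mu ≠ 0) {g : ℝ}
    (hg : g ^ 2 = |(H.det : ℝ)|) : (F.pull lam mu H S g).Is (S * H) lam mu := by
  have hd := h.detT
  have hdet : (H.det : ℝ) * S.det = - (lam * mu) := by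
    rw [← hd, ← Int.cast_mul, ← det_mul, det_fin_two]
    push_cast
    ring
  have hH : (H.det : ℝ) ≠ 0 := by
    intro h0
    rw [h0, zero_mul] at hdet
    exact mul_ne_zero hl hm (by linarith)
  have hg0 : g ≠ 0 := by
    rintro rfl
    exact hH (abs_eq_zero.1 (by simpa using hg.symm))
  have hH' : (H 0 0 : ℝ) * H 1 1 - H 0 1 * H 1 0 ≠ 0 := by
    rw [det_fin_two] at hH
    exact_mod_cast hH
  have t : ∀ i j, (H i 0 : ℝ) * S 0 j + H i 1 * S 1 j =
      lam * (F.p i * F.x j) - mu * (F.q i * F.y j) := by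
    intro i j
    rw [← h.hT, Matrix.mul_apply, Fin.sum_univ_two]
    push_cast
    ring
  have hp : ∀ i, (H i 0 : ℝ) * (S 0 0 * F.p 0 + S 0 1 * F.p 1) +
      H i 1 * (S 1 0 * F.p 0 + S 1 1 * F.p 1) = lam * F.p i := by
    intro i
    linear_combination F.p 0 * t i 0 + F.p 1 * t i 1 + lam * F.p i * h.xp - mu * F.q i * h.yp
  have hq : ∀ i, (H i 0 : ℝ) * (S 0 0 * F.q 0 + S 0 1 * F.q 1) +
      H i 1 * (S 1 0 * F.q 0 + S 1 1 * F.q 1) = - mu * F.q i := by
    intro i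
    linear_combination F.q 0 * t i 0 + F.q 1 * t i 1 + lam * F.p i * h.xq - mu * F.q i * h.yq
  refine ⟨fun i j => ?_, fun i j => ?_, ?_⟩
  · suffices key : mu * ((S i 0 * F.p 0 + S i 1 * F.p 1) * (F.x 0 * H 0 j + F.x 1 * H 1 j)) -
        lam * ((S i 0 * F.q 0 + S i 1 * F.q 1) * (F.y 0 * H 0 j + F.y 1 * H 1 j)) =
        lam * mu * (if i = j then 1 else 0) by
      simp only [Fr.pull]
      field_simp
      linear_combination key
    apply mul_left_cancel₀ hH'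
    have a0 := hp 0
    have a1 := hp 1
    have b0 := hq 0
    have b1 := hq 1
    fin_cases i <;> fin_cases j <;> simp only [Fin.zero_eta, Fin.mk_one, Fin.isValue] <;>
      simp only [if_true, zero_ne_one, one_ne_zero, if_false]
    · linear_combination mu * (F.x 0 * H 0 0 + F.x 1 * H 1 0) * (H 1 1 * a0 - H 0 1 * a1) -
        lam * (F.y 0 * H 0 0 + F.y 1 * H 1 0) * (H 1 1 * b0 - H 0 1 * b1) +
        lam * mu * (H 1 1 * H 0 0 * h.o00 + H 1 1 * H 1 0 * h.o01 - H 0 1 * H 0 0 * h.o10 -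
          H 0 1 * H 1 0 * h.o11)
    · linear_combination mu * (F.x 0 * H 0 1 + F.x 1 * H 1 1) * (H 1 1 * a0 - H 0 1 * a1) -
        lam * (F.y 0 * H 0 1 + F.y 1 * H 1 1) * (H 1 1 * b0 - H 0 1 * b1) +
        lam * mu * (H 1 1 * H 0 1 * h.o00 + H 1 1 * H 1 1 * h.o01 - H 0 1 * H 0 1 * h.o10 -
          H 0 1 * H 1 1 * h.o11)
    · linear_combination mu * (F.x 0 * H 0 0 + F.x 1 * H 1 0) * (H 0 0 * a1 - H 1 0 * a0) -
        lam * (F.y 0 * H 0 0 + F.y 1 * H 1 0) * (H 0 0 * b1 - H 1 0 * b0) +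
        lam * mu * (H 0 0 * H 0 0 * h.o10 + H 0 0 * H 1 0 * h.o11 - H 1 0 * H 0 0 * h.o00 -
          H 1 0 * H 1 0 * h.o01)
    · linear_combination mu * (F.x 0 * H 0 1 + F.x 1 * H 1 1) * (H 0 0 * a1 - H 1 0 * a0) -
        lam * (F.y 0 * H 0 1 + F.y 1 * H 1 1) * (H 0 0 * b1 - H 1 0 * b0) +
        lam * mu * (H 0 0 * H 0 1 * h.o10 + H 0 0 * H 1 1 * h.o11 - H 1 0 * H 0 1 * h.o00 -
          H 1 0 * H 1 1 * h.o01)
  · simp only [Fr.pull, Matrix.mul_apply, Fin.sum_univ_two]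
    push_cast
    field_simp
    linear_combination (-(S i 0 : ℝ) * H 0 j) * h.o00 - (S i 0 : ℝ) * H 1 j * h.o01 -
      (S i 1 : ℝ) * H 0 j * h.o10 - (S i 1 : ℝ) * H 1 j * h.o11
  · have h1 := h.det
    have h2 : (g ^ 2) ^ 2 = ((H 0 0 : ℝ) * H 1 1 - H 0 1 * H 1 0) ^ 2 := by
      rw [hg, sq_abs, det_fin_two]
      push_cast
      ring
    simp only [e, Fr.pull] at h1 ⊢
    field_simp
    linear_combination ((H 0 0 : ℝ) * H 1 1 - H 0 1 * H 1 0) ^ 2 * h1 - h2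

end Fr

theorem Par.K_pos {K lam mu : ℝ} (h : Par K lam mu) : 0 < K := by linarith [h.hK]

theorem Par.gap {K lam mu : ℝ} (h : Par K lam mu) : mu ≤ (1 - 10 / K) * lam :=
  (le_abs_self mu).trans h.abs_gap

theorem Par.gap' {K lam mu : ℝ} (h : Par K lam mu) : - mu ≤ (1 - 10 / K) * lam :=
  (neg_le_abs mu).trans h.abs_gap

theorem Par.lam_pos {K lam mu : ℝ} (h : Par K lam mu) : 0 < lam := by
  have h1 := h.abs_gap
  have h2 := abs_pos.2 h.mu_ne
  have h3 : 10 / K ≤ 1 / 1000 := by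
    rw [div_le_div_iff₀ h.K_pos (by norm_num)]
    linarith [h.hK]
  by_contra h4
  nlinarith

theorem Par.abs_lt {K lam mu : ℝ} (h : Par K lam mu) : |mu| < lam := by
  have h1 := h.abs_gap
  have h3 : 0 < 10 / K * lam := mul_pos (div_pos (by norm_num) h.K_pos) h.lam_pos
  linarith

theorem Par.mu_le {K lam mu : ℝ} (h : Par K lam mu) : mu ≤ lam :=
  (le_abs_self mu).trans h.abs_lt.le

theorem Par.sum_pos {K lam mu : ℝ} (h : Par K lam mu) : 0 < lam + mu := by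
  linarith [neg_le_abs mu, h.abs_lt]

theorem Par.sum_lo {K lam mu : ℝ} (h : Par K lam mu) : 10 * lam ≤ K * (lam + mu) := by
  have h1 := mul_le_mul_of_nonneg_left h.gap' h.K_pos.le
  have h2 : K * ((1 - 10 / K) * lam) = K * lam - 10 * lam := by
    have := h.K_pos.ne'
    field_simp
  linarith

end Pool.Agent.MP_993212_an.H65
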