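import Pool.Agent.MP_993212_an.H65.Final

namespace Pool.Agent.Results.MP_993212_an.GapTwoWilliams

/-- For `2 × 2` nonnegative integer matrices `A`, `B` such that `A` has a nonsquare discriminant
and a polynomial spectral gap, strong shift equivalence is the same as shift equivalence. -/
theorem result (A B : Matrix (Fin 2) (Fin 2) ℕ) (t D : ℤ) (ht : t = (A 0 0 : ℤ) + A 1 1)
    (hD : D = ((A 0 0 : ℤ) - A 1 1) ^ 2 + 4 * A 0 1 * A 1 0) (hsq : ¬ IsSquare D)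
    (hgap : 10 ^ 1400000 * max (t ^ 2) D ^ 174999 ≤ min (t ^ 2) D ^ 175000) :
    Relation.TransGen
        (fun X Y : (Σ n : ℕ, Matrix (Fin n) (Fin n) ℕ) =>
          ∃ R : Matrix (Fin X.1) (Fin Y.1) ℕ, ∃ S : Matrix (Fin Y.1) (Fin X.1) ℕ,
            X.2 = R * S ∧ Y.2 = S * R) ⟨2, A⟩ ⟨2, B⟩ ↔
      ∃ (l : ℕ) (R S : Matrix (Fin 2) (Fin 2) ℕ),
        1 ≤ l ∧ A ^ l = R * S ∧ B ^ l = S * R ∧ A * R = R * B ∧ S * A = B * S := by
  subst ht hD
  refine (Pool.Agent.MP_993212_an.H12.sse_iff A B).symm.trans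
    (Pool.Agent.MP_993212_an.H65.williams (k := 174999) rfl Pool.Agent.MP_993212_an.H65.big_eq
      ⟨hsq, ?_⟩)
  simpa only [Nat.cast_pow, Nat.cast_ofNat] using hgap

end Pool.Agent.Results.MP_993212_an.GapTwoWilliams
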