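import Pool.Agent.MP_993212_an.H65.Cfg

namespace Pool.Agent.MP_993212_an.H65

open Matrix Pool.Agent.MP_993212_an.H12

/-- types of the three state family -/
def shS (d I : ℤ) : Fin 3 → V := ![![1, 0], ![1, 1], ![I, d]]

/-- covectors of the three state family -/
def shR (a b c d I : ℤ) : Fin 3 → V := ![![d + a, b - I], ![c, 0], ![0, 1]]

theorem shear_step (a b c d I : ℕ) (hb : 1 ≤ b) (hI : I + 1 ≤ d) :
    SSE (cm (shS d (I + 1)) (shR a b c d (I + 1))) (cm (shS d I) (shR a b c d I)) := by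
  refine lemX (shS d I) (shR a b c d (I + 1)) ![![1, 0, 1], ![0, 1, 0], ![0, 0, 1]] _ _ ?_ ?_ ?_
  · intro k
    fin_cases k <;> ext j <;> fin_cases j <;> simp [shS, Fin.sum_univ_three, add_comm]
  · intro k
    fin_cases k <;> ext j <;> fin_cases j <;> simp [shR, Fin.sum_univ_three]
    ring
  · intro k i
    have hb' : (1 : ℤ) ≤ b := by exact_mod_cast hb
    have hI' : (I : ℤ) + 1 ≤ d := by exact_mod_cast hI
    have h0 : (0 : ℤ) ≤ I := Int.natCast_nonneg _
    have ha : (0 : ℤ) ≤ a := Int.natCast_nonneg _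
    have hc : (0 : ℤ) ≤ c := Int.natCast_nonneg _
    fin_cases k <;> fin_cases i <;> simp [shS, shR] <;> nlinarith [mul_nonneg ha h0]

theorem shear_chain (a b c d : ℕ) (hb : 1 ≤ b) (I : ℕ) (hI : I ≤ d) :
    SSE (cm (shS d I) (shR a b c d I)) (cm (shS d 0) (shR a b c d 0)) := by
  induction I with
  | zero => exact SSE.refl _
  | succ I ih =>
    have h := shear_step a b c d I hb hI
    push_cast
    exact h.trans (ih (by omega))

theorem shear_start (a b c d : ℕ) :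
    SSE (cm (shS d 0) (shR a b c d 0)) (!![c + d + a, b; c, d] : N2) := by
  have h := lemX (ι := Fin 2) (κ := Fin 3) (fun i => Pi.single i (1 : ℤ)) (shR a b c d 0)
    ![![1, 1, 0], ![0, 1, d]] (shS d 0)
    (fun i j => (((!![c + d + a, b; c, d] : N2) i j : ℕ) : ℤ)) ?_ ?_ ?_
  · rwa [cm_basis] at h
  · intro k
    fin_cases k <;> ext j <;> fin_cases j <;> simp [shS, Fin.sum_univ_two]
  · intro k
    fin_cases k <;> ext j <;> fin_cases j <;> simp [shR, Fin.sum_univ_three]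
    ring
  · intro k i
    fin_cases k <;> fin_cases i <;> simp [shR]
    positivity

theorem shear_end (a b c d : ℕ) :
    SSE (cm (shS d d) (shR a b c d d)) (!![d + a, b + a; c, d + c] : N2) := by
  have h := lemX (ι := Fin 2) (κ := Fin 3) ![![1, 0], ![1, 1]] (shR a b c d d)
    ![![1, 0, 0], ![0, 1, d]] (shS d d) ![![(d : ℤ) + a, b - d], ![c, d]] ?_ ?_ ?_
  · have e : cm (![![1, 0], ![1, 1]] : Fin 2 → V) ![![(d : ℤ) + a, b - d], ![c, d]] =
        (!![d + a, b + a; c, d + c] : N2) := by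
      ext i j
      fin_cases i <;> fin_cases j <;> simp [cm] <;> omega
    rwa [e] at h
  · intro k
    fin_cases k <;> ext j <;> fin_cases j <;> simp [shS, Fin.sum_univ_two]
  · intro k
    fin_cases k <;> ext j <;> fin_cases j <;> simp [shR, Fin.sum_univ_three]
  · intro k i
    fin_cases k <;> fin_cases i <;> simp [shR] <;> omega

/-- the shear move -/
theorem shear (a b c d : ℕ) (hb : 1 ≤ b) :
    SSE (!![c + d + a, b; c, d] : N2) (!![d + a, b + a; c, d + c] : N2) :=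
  (shear_start a b c d).symm.trans
    ((shear_chain a b c d hb d le_rfl).symm.trans (shear_end a b c d))

/-- the conclusion of `exists_reduced` -/
def Red (A : N2) : Prop :=
  ∃ B : N2, SSE A B ∧ ZC (toZ A) (toZ B) ∧ 1 ≤ B 0 1 ∧ 1 ≤ B 1 0 ∧
    B 0 0 ≤ B 1 1 + B 0 1 ∧ B 0 0 ≤ B 1 1 + B 1 0 ∧ B 1 1 ≤ B 0 0 + B 0 1 ∧
    B 1 1 ≤ B 0 0 + B 1 0

theorem Red.of {A A' : N2} (h1 : SSE A A') (h2 : ZC (toZ A) (toZ A')) (h : Red A') : Red A := by
  obtain ⟨B, hs, hz, hB⟩ := h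
  exact ⟨B, h1.trans hs, Relation.ReflTransGen.trans h2 hz, hB⟩

theorem zc_transpose_shear {T T' : M2} (h : ZC T T') : ZC Tᵀ T'ᵀ := by
  induction h with
  | refl => exact Relation.ReflTransGen.refl
  | tail _ h ih =>
    obtain ⟨H, S, h1, h2⟩ := h
    exact Relation.ReflTransGen.tail ih ⟨Sᵀ, Hᵀ, by rw [h1, transpose_mul], by rw [h2, transpose_mul]⟩

theorem Red.transpose {A : N2} (h : Red Aᵀ) : Red A := by
  obtain ⟨B, hs, hz, h1, h2, h3, h4, h5, h6⟩ := h
  refine ⟨Bᵀ, ?_, ?_, h2, h1, h4, h3, h6, h5⟩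
  · simpa using sse_transpose hs
  · exact zc_transpose_shear hz

theorem zc_swp_shear (A : N2) : ZC (toZ A) (toZ (swp A)) := by
  refine Relation.ReflTransGen.single
    ⟨!![0, 1; 1, 0], !![(A 1 0 : ℤ), A 1 1; A 0 0, A 0 1], ?_, ?_⟩
  · ext i j
    fin_cases i <;> fin_cases j <;> simp [toZ, Matrix.mul_apply, Fin.sum_univ_two]
  · ext i j
    fin_cases i <;> fin_cases j <;> simp [toZ, swp, Matrix.mul_apply, Fin.sum_univ_two]

theorem Red.swp {A : N2} (h : Red (swp A)) : Red A := Red.of (sse_swp A) (zc_swp_shear A) h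

theorem zc_shear (a b c d : ℕ) :
    ZC (toZ !![c + d + a, b; c, d]) (toZ !![d + a, b + a; c, d + c]) := by
  refine Relation.ReflTransGen.single
    ⟨!![1, 1; 0, 1], !![(d : ℤ) + a, b - d; c, d], ?_, ?_⟩
  · ext i j
    fin_cases i <;> fin_cases j <;> simp [toZ, Matrix.mul_apply, Fin.sum_univ_two]
    ring
  · ext i j
    fin_cases i <;> fin_cases j <;> simp [toZ, Matrix.mul_apply, Fin.sum_univ_two] <;> ring

theorem red_aux (n : ℕ) : ∀ A : N2, 1 ≤ A 0 1 → 1 ≤ A 1 0 → A 0 0 ≤ A 1 1 + n →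
    A 1 1 ≤ A 0 0 + n → Red A := by
  induction n with
  | zero =>
    intro A hb hc h1 h2
    exact ⟨A, SSE.refl _, Relation.ReflTransGen.refl, hb, hc, by omega, by omega, by omega,
      by omega⟩
  | succ n ih =>
    have key : ∀ A : N2, 1 ≤ A 0 1 → 1 ≤ A 1 0 → A 0 0 ≤ A 1 1 + (n + 1) →
        A 1 1 + A 1 0 < A 0 0 → Red A := by
      intro A hb hc h1 h2
      obtain ⟨a, ha⟩ : ∃ a, A 0 0 = A 1 0 + A 1 1 + a := ⟨A 0 0 - (A 1 0 + A 1 1), by omega⟩
      have e : A = !![A 1 0 + A 1 1 + a, A 0 1; A 1 0, A 1 1] := by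
        ext i j
        fin_cases i <;> fin_cases j <;> simp [ha]
      rw [e]
      refine Red.of (shear _ _ _ _ hb) (zc_shear _ _ _ _) (ih _ ?_ ?_ ?_ ?_) <;> simp <;> omega
    intro A hb hc h1 h2
    by_cases c1 : A 1 1 + A 1 0 < A 0 0
    · exact key A hb hc h1 c1
    by_cases c2 : A 1 1 + A 0 1 < A 0 0
    · exact Red.transpose (key Aᵀ hc hb h1 c2)
    by_cases c3 : A 0 0 + A 0 1 < A 1 1
    · exact Red.swp (key (swp A) (by simpa [swp] using hc) (by simpa [swp] using hb)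
        (by simpa [swp] using h2) (by simpa [swp] using c3))
    by_cases c4 : A 0 0 + A 1 0 < A 1 1
    · exact Red.swp (Red.transpose (key (swp A)ᵀ (by simpa [swp] using hb)
        (by simpa [swp] using hc) (by simpa [swp] using h2) (by simpa [swp] using c4)))
    exact ⟨A, SSE.refl _, Relation.ReflTransGen.refl, hb, hc, by omega, by omega, by omega,
      by omega⟩

/-- reduction to a matrix with `|a - d| ≤ min b c` -/
theorem exists_reduced (A : N2) (hb : 1 ≤ A 0 1) (hc : 1 ≤ A 1 0) :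
    ∃ B : N2, SSE A B ∧ ZC (toZ A) (toZ B) ∧ 1 ≤ B 0 1 ∧ 1 ≤ B 1 0 ∧
      B 0 0 ≤ B 1 1 + B 0 1 ∧ B 0 0 ≤ B 1 1 + B 1 0 ∧ B 1 1 ≤ B 0 0 + B 0 1 ∧
      B 1 1 ≤ B 0 0 + B 1 0 :=
  red_aux (A 0 0 + A 1 1) A hb hc (by omega) (by omega)

end Pool.Agent.MP_993212_an.H65
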