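import Pool.Agent.MP_993212_an.H65.Step2
import Pool.Agent.MP_993212_an.H65.Entry
import Pool.Agent.MP_993212_an.H65.EntryPos
import Pool.Agent.MP_993212_an.H65.Shear

namespace Pool.Agent.MP_993212_an.H65

open Matrix Pool.Agent.MP_993212_an.H12

theorem Par.pow_le {K lam mu : ℝ} (hP : Par K lam mu) {a b : ℕ} (hl : K ^ b ≤ lam) (h : a ≤ b) :
    K ^ a ≤ lam :=
  (pow_le_pow_right₀ (by linarith [hP.hK]) h).trans hl

theorem ZC.real {T T' : M2} {a b : ℝ} (h : ZC T T') (ht : (T 0 0 : ℝ) + T 1 1 = a)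
    (hd : (T 0 0 : ℝ) * T 1 1 - T 0 1 * T 1 0 = b) :
    (T' 0 0 : ℝ) + T' 1 1 = a ∧ (T' 0 0 : ℝ) * T' 1 1 - T' 0 1 * T' 1 0 = b := by
  obtain ⟨h1, h2⟩ := h.trace_det
  rw [trace_fin_two, trace_fin_two] at h1
  rw [det_fin_two, det_fin_two] at h2
  rw [← ht, ← hd]
  exact ⟨by exact_mod_cast h1.symm, by exact_mod_cast h2.symm⟩

theorem km_step {H G : M2} {K lam mu : ℝ} (hP : Par K lam mu) (hl : K ^ 175000 ≤ lam)
    (hirr : Irrational lam) (ht : ((H * G) 0 0 : ℝ) + (H * G) 1 1 = lam - mu)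
    (hd : ((H * G) 0 0 : ℝ) * (H * G) 1 1 - (H * G) 0 1 * (H * G) 1 0 = - (lam * mu)) :
    ∃ C ∈ KM (H * G) K lam mu, ∃ C' ∈ KM (G * H) K lam mu, SSE C C' := by
  have hl0 := hP.lam_pos
  have hz : ZC (H * G) (G * H) := Relation.ReflTransGen.single ⟨H, G, rfl, rfl⟩
  obtain ⟨ht', hd'⟩ := hz.real ht hd
  obtain ⟨F, hF⟩ := exists_frame hP.sum_pos.ne' hirr ht hd
  obtain ⟨F', hF'⟩ := exists_frame hP.sum_pos.ne' hirr ht' hd'
  have hdet : |(H.det : ℝ)| * |(G.det : ℝ)| = lam * |mu| := by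
    rw [← abs_mul, ← Int.cast_mul, ← det_mul, det_fin_two]
    push_cast
    rw [hd, abs_neg, abs_mul, abs_of_pos hl0]
  by_cases hH : |(H.det : ℝ)| ≤ lam
  · exact step2 hF hP hl hirr hH
  · have hG : |(G.det : ℝ)| ≤ lam := by
      by_contra hG
      have h1 := mul_lt_mul'' (not_le.1 hH) (not_le.1 hG) hl0.le hl0.le
      have h2 := mul_le_mul_of_nonneg_left hP.abs_lt.le hl0.le
      linarith
    obtain ⟨C, hC, C', hC', h⟩ := step2 hF' hP hl hirr hG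
    exact ⟨C', hC', C, hC, h.symm⟩

theorem km_zc {T T' : M2} {K lam mu : ℝ} (hP : Par K lam mu) (hl : K ^ 175000 ≤ lam)
    (hirr : Irrational lam) (hT : ZC T T') (ht : (T 0 0 : ℝ) + T 1 1 = lam - mu)
    (hd : (T 0 0 : ℝ) * T 1 1 - T 0 1 * T 1 0 = - (lam * mu))
    {C C' : Matrix (Fin 4) (Fin 4) ℕ} (hC : C ∈ KM T K lam mu) (hC' : C' ∈ KM T' K lam mu) :
    SSE C C' := by
  have hl' : K ^ 1600 ≤ lam := hP.pow_le hl (by norm_num)
  induction hT generalizing C' with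
  | refl => exact km_sse hP hl' hC hC'
  | tail h1 h2 ih =>
    obtain ⟨H, G, rfl, rfl⟩ := h2
    obtain ⟨ht', hd'⟩ := ZC.real h1 ht hd
    obtain ⟨C1, hC1, C2, hC2, h⟩ := km_step hP hl hirr ht' hd'
    exact ((ih hC1).trans h).trans (km_sse hP hl' hC2 hC')

theorem zc_swp (A : N2) : ZC (toZ A) (toZ (swp A)) :=
  Relation.ReflTransGen.single ⟨!![0, 1; 1, 0], !![A 1 0, A 1 1; A 0 0, A 0 1], by
    ext i j
    fin_cases i <;> fin_cases j <;> simp [toZ, Matrix.mul_apply, Fin.sum_univ_two], by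
    ext i j
    fin_cases i <;> fin_cases j <;> simp [toZ, swp, Matrix.mul_apply, Fin.sum_univ_two]⟩

theorem entry_red {A : N2} {K lam mu : ℝ} (hP : Par K lam mu) (hl : K ^ 1600 ≤ lam)
    (hirr : Irrational lam) (ht : (A 0 0 : ℝ) + A 1 1 = lam - mu)
    (hd : (A 0 0 : ℝ) * A 1 1 - A 0 1 * A 1 0 = - (lam * mu)) (hc : 1 ≤ A 1 0)
    (h1 : A 0 0 ≤ A 1 1 + A 0 1) (h2 : A 0 0 ≤ A 1 1 + A 1 0) (h4 : A 1 1 ≤ A 0 0 + A 1 0)
    (h : 4 * K ^ 6 * A 1 0 ≤ lam + mu ∨ (A 1 1 ≤ A 0 0 ∧ lam + mu ≤ 4 * K ^ 6 * A 0 1)) :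
    ∃ C ∈ KM (toZ A) K lam mu, SSE A C := by
  obtain ⟨F, hF⟩ := exists_frame (T := toZ A) hP.sum_pos.ne' hirr
    (by simpa [toZ] using ht) (by simpa [toZ] using hd)
  by_cases hs : 4 * K ^ 6 * A 1 0 ≤ lam + mu
  · exact km_of_short hF hP hl (U := 1) (W := 1) (by simp) (by simp) hc h2 h4 hs
  · obtain ⟨h5, h6⟩ := h.resolve_left hs
    rcases lt_or_gt_of_ne hP.mu_ne with hm | hm
    · exact entry_pos hF hP hm hl h5 h1 h2 h6 (not_le.1 hs).le
    · exact entry_bal hF hP hm hl h5 h1 h2 h6 (not_le.1 hs).le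

theorem entry {A : N2} {K lam mu : ℝ} (hP : Par K lam mu) (hl : K ^ 175000 ≤ lam)
    (hirr : Irrational lam) (ht : (A 0 0 : ℝ) + A 1 1 = lam - mu)
    (hd : (A 0 0 : ℝ) * A 1 1 - A 0 1 * A 1 0 = - (lam * mu)) :
    ∃ T : M2, ZC (toZ A) T ∧ ∃ C ∈ KM T K lam mu, SSE A C := by
  have hl' : K ^ 1600 ≤ lam := hP.pow_le hl (by norm_num)
  have hbc : 0 < A 0 1 * A 1 0 := by
    have h1 : (lam - A 0 0) * (lam - A 1 1) = A 0 1 * A 1 0 := by
      linear_combination hd - lam * ht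
    have h2 := mul_ne_zero (sub_ne_zero.2 (hirr.ne_nat (A 0 0))) (sub_ne_zero.2 (hirr.ne_nat (A 1 1)))
    rw [h1] at h2
    exact Nat.pos_of_ne_zero (by exact_mod_cast h2)
  obtain ⟨B, hAB, hz, hb, hc, h1, h2, h3, h4⟩ := exists_reduced A
    (Nat.pos_of_mul_pos_right hbc) (Nat.pos_of_mul_pos_left hbc)
  obtain ⟨ht', hd'⟩ := hz.real (a := lam - mu) (b := - (lam * mu)) (by simpa [toZ] using ht)
    (by simpa [toZ] using hd)
  simp only [toZ, Int.cast_natCast] at ht' hd'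
  by_cases h : 4 * K ^ 6 * B 1 0 ≤ lam + mu ∨ (B 1 1 ≤ B 0 0 ∧ lam + mu ≤ 4 * K ^ 6 * B 0 1)
  · obtain ⟨C, hC, hs⟩ := entry_red hP hl' hirr ht' hd' hc h1 h2 h4 h
    exact ⟨_, hz, C, hC, hAB.trans hs⟩
  · obtain ⟨C, hC, hs⟩ := entry_red (A := swp B) hP hl' hirr
      (by simpa [swp, add_comm] using ht') (by simpa [swp, mul_comm] using hd')
      (by simpa [swp] using hb) (by simpa [swp] using h4) (by simpa [swp] using h3)
      (by simpa [swp] using h1) (by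
        push Not at h
        simp only [swp, of_apply, cons_val', cons_val_zero, cons_val_one, cons_val_fin_one]
        rcases le_total (B 1 1) (B 0 0) with h5 | h5
        · exact .inl (h.2 h5).le
        · exact .inr ⟨h5, h.1.le⟩)
    exact ⟨_, hz.trans (zc_swp B), C, hC, (hAB.trans (sse_swp B)).trans hs⟩

theorem main_zc {A B : N2} {K lam mu : ℝ} (hP : Par K lam mu) (hl : K ^ 175000 ≤ lam)
    (hirr : Irrational lam) (ht : (A 0 0 : ℝ) + A 1 1 = lam - mu)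
    (hd : (A 0 0 : ℝ) * A 1 1 - A 0 1 * A 1 0 = - (lam * mu)) (hz : ZC (toZ A) (toZ B)) :
    SSE A B := by
  have htA : ((toZ A) 0 0 : ℝ) + (toZ A) 1 1 = lam - mu := by simpa [toZ] using ht
  have hdA : ((toZ A) 0 0 : ℝ) * (toZ A) 1 1 - (toZ A) 0 1 * (toZ A) 1 0 = - (lam * mu) := by
    simpa [toZ] using hd
  obtain ⟨ht', hd'⟩ := hz.real htA hdA
  simp only [toZ, Int.cast_natCast] at ht' hd'
  obtain ⟨T, hT, C, hC, hs⟩ := entry hP hl hirr ht hd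
  obtain ⟨T', hT', C', hC', hs'⟩ := entry hP hl hirr ht' hd'
  obtain ⟨ht1, hd1⟩ := hT.real htA hdA
  exact (hs.trans (km_zc hP hl hirr ((hT.symm.trans hz).trans hT') ht1 hd1 hC hC')).trans hs'.symm

theorem gap_arith {lam t D c : ℝ} {k : ℕ} (hl : 0 < lam) (ht : 0 < t) (hc : 0 < c)
    (hD : lam ^ 2 ≤ D) (h : (c ^ (k + 1)) ^ 2 * D ^ k ≤ (t ^ 2) ^ (k + 1)) :
    (c * lam / t) ^ (k + 1) ≤ lam := by
  have h1 : (c ^ (k + 1) * lam ^ k) ^ 2 ≤ (t ^ (k + 1)) ^ 2 := by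
    calc (c ^ (k + 1) * lam ^ k) ^ 2 = (c ^ (k + 1)) ^ 2 * (lam ^ 2) ^ k := by
          rw [mul_pow, ← pow_mul lam, ← pow_mul lam, mul_comm k 2]
      _ ≤ (c ^ (k + 1)) ^ 2 * D ^ k := by gcongr
      _ ≤ (t ^ 2) ^ (k + 1) := h
      _ = _ := by rw [← pow_mul, ← pow_mul, mul_comm]
  have h2 : c ^ (k + 1) * lam ^ k ≤ t ^ (k + 1) :=
    (pow_le_pow_iff_left₀ (by positivity) (by positivity) two_ne_zero).1 h1
  rw [div_pow, div_le_iff₀ (by positivity), mul_pow, pow_succ lam, ← mul_assoc, mul_comm lam]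
  exact mul_le_mul_of_nonneg_right h2 hl.le

/-- the class of matrices with a nonsquare discriminant and a polynomial spectral gap -/
def Cl (C k : ℕ) (A : N2) : Prop :=
  ¬ IsSquare (((A 0 0 : ℤ) - A 1 1) ^ 2 + 4 * A 0 1 * A 1 0) ∧
    C * max (((A 0 0 : ℤ) + A 1 1) ^ 2) (((A 0 0 : ℤ) - A 1 1) ^ 2 + 4 * A 0 1 * A 1 0) ^ k ≤
      min (((A 0 0 : ℤ) + A 1 1) ^ 2) (((A 0 0 : ℤ) - A 1 1) ^ 2 + 4 * A 0 1 * A 1 0) ^ (k + 1)

theorem Cl.det_ne {C k : ℕ} {A : N2} (h : Cl C k A) : (toZ A).det ≠ 0 := by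
  intro h0
  rw [det_fin_two] at h0
  simp only [toZ] at h0
  exact h.1 ⟨(A 0 0 : ℤ) + A 1 1, by linear_combination (-4 : ℤ) * h0⟩

theorem main {C k : ℕ} (hk : k + 1 = 175000) (hC : C = (10000 ^ (k + 1)) ^ 2) {A B : N2}
    (hA : Cl C k A) (hz : ZC (toZ A) (toZ B)) : SSE A B := by
  obtain ⟨hsq, hgap⟩ := hA
  obtain ⟨D, hD⟩ : ∃ D : ℕ, (D : ℤ) = ((A 0 0 : ℤ) - A 1 1) ^ 2 + 4 * A 0 1 * A 1 0 :=
    Int.eq_ofNat_of_zero_le (by positivity) |>.imp fun _ h => h.symm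
  obtain ⟨t, ht⟩ : ∃ t : ℕ, (t : ℤ) = A 0 0 + A 1 1 := ⟨A 0 0 + A 1 1, by push_cast; rfl⟩
  rw [← hD] at hsq
  rw [← hD, ← ht, hC] at hgap
  have hsq' : ¬ IsSquare D := fun h => hsq (Int.isSquare_natCast_iff.2 h)
  have hirr : Irrational √(D : ℝ) := irrational_sqrt_natCast_iff.2 hsq'
  have hs2 : √(D : ℝ) ^ 2 = D := Real.sq_sqrt (by positivity)
  have hs0 : 0 ≤ √(D : ℝ) := Real.sqrt_nonneg _
  have hg : ((10000 : ℝ) ^ (k + 1)) ^ 2 * max ((t : ℝ) ^ 2) D ^ k ≤ min ((t : ℝ) ^ 2) D ^ (k + 1) := by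
    exact_mod_cast hgap
  have hDR : (D : ℝ) = ((A 0 0 : ℝ) - A 1 1) ^ 2 + 4 * A 0 1 * A 1 0 := by exact_mod_cast hD
  have htR : (t : ℝ) = A 0 0 + A 1 1 := by exact_mod_cast ht
  have hne := hirr.ne_nat t
  have hs1 : 0 < √(D : ℝ) := hs0.lt_of_ne' (by simpa using hirr.ne_nat 0)
  have hirr' := (hirr.natCast_add t).div_natCast (m := 2) two_ne_zero
  generalize √(D : ℝ) = s at hirr' hs2 hs1 hne
  have ht0 : (0 : ℝ) ≤ t := Nat.cast_nonneg _
  rw [← hs2] at hg hDR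
  generalize (t : ℝ) = τ at *
  have e1 : max (τ ^ 2) (s ^ 2) = max τ s ^ 2 := by
    rcases le_total τ s with h | h
    · rw [max_eq_right h, max_eq_right (by gcongr)]
    · rw [max_eq_left h, max_eq_left (by gcongr)]
  have e2 : min (τ ^ 2) (s ^ 2) = min τ s ^ 2 := by
    rcases le_total τ s with h | h
    · rw [min_eq_left h, min_eq_left (by gcongr)]
    · rw [min_eq_right h, min_eq_right (by gcongr)]
  rw [e1, e2] at hg
  have hM : 0 < max τ s := lt_max_of_lt_right hs1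
  have hm : 0 < min τ s := by
    refine (le_min ht0 hs1.le).lt_of_ne fun h0 => ?_
    rw [← h0, zero_pow two_ne_zero, zero_pow (Nat.succ_ne_zero k)] at hg
    have : 0 < ((10000 : ℝ) ^ (k + 1)) ^ 2 * (max τ s ^ 2) ^ k := by positivity
    linarith
  have m1 := min_le_left τ s
  have m2 := min_le_right τ s
  have M1 := le_max_left τ s
  have M2 := le_max_right τ s
  have hP : Par (10000 * ((τ + s) / 2) / min τ s) ((τ + s) / 2) ((s - τ) / 2) := by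
    refine ⟨?_, fun h0 => hne (by linarith), ?_⟩
    · rw [le_div_iff₀ hm]
      linarith
    · have h0 : 0 < τ + s := by linarith
      have : (1 - 10 / (10000 * ((τ + s) / 2) / min τ s)) * ((τ + s) / 2) =
          (τ + s) / 2 - min τ s / 1000 := by
        field_simp
        ring
      rw [this, abs_le]
      constructor <;> linarith
  refine main_zc hP ?_ (by simpa using hirr') (by linarith) ?_ hz
  · rw [← hk]
    exact gap_arith (by linarith) hm (by norm_num) (by gcongr; linarith) hg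
  · linear_combination hDR / 4 - (τ + A 0 0 + A 1 1) / 4 * htR

end Pool.Agent.MP_993212_an.H65
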