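import Pool.Agent.MP_993212_an.H65.PWb

namespace Pool.Agent.MP_993212_an.H65

open Matrix Pool.Agent.MP_993212_an.H12

variable {F : Fr} {T : M2} {K lam mu : ℝ}

/-- the frame in the basis given by the columns of `U` -/
noncomputable def Fr.cj (F : Fr) (lam mu : ℝ) (T U W : M2) : Fr := F.pull lam mu U (W * T) 1

theorem Fr.Is.cj (h : F.Is T lam mu) (hP : Par K lam mu) {U W T' : M2} (hUW : U * W = 1)
    (hT : T * U = U * T') : (F.cj lam mu T U W).Is T' lam mu := by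
  have hWU : W * U = 1 := mul_eq_one_comm.1 hUW
  have e1 : U * (W * T) = T := by rw [← Matrix.mul_assoc, hUW, Matrix.one_mul]
  have e2 : W * T * U = T' := by
    rw [Matrix.mul_assoc, hT, ← Matrix.mul_assoc, hWU, Matrix.one_mul]
  have hd : U.det * W.det = 1 := by rw [← det_mul, hUW, det_one]
  have hg : (1 : ℝ) ^ 2 = |(U.det : ℝ)| := by
    rcases Int.eq_one_or_neg_one_of_mul_eq_one hd with h1 | h1 <;> simp [h1]
  have h0 : F.Is (U * (W * T)) lam mu := by rwa [e1]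
  have := h0.pull hP.lam_pos.ne' hP.mu_ne hg
  rwa [e2] at this

theorem Fr.cj_X (F : Fr) (lam mu : ℝ) (T U W : M2) (s : V) :
    (F.cj lam mu T U W).X s = F.X (U *ᵥ s) := by
  rw [Fr.cj, Fr.pull_X, div_one]

theorem Fr.cj_Y (F : Fr) (lam mu : ℝ) (T U W : M2) (s : V) :
    (F.cj lam mu T U W).Y s = F.Y (U *ᵥ s) := by
  rw [Fr.cj, Fr.pull_Y, div_one]

theorem Fr.Is.cj_dual_X (h : F.Is T lam mu) (hP : Par K lam mu) {U W : M2} (hUW : U * W = 1)
    (r : V) : (F.cj lam mu T U W).dual.X r = F.dual.X (r ᵥ* W) := by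
  have := hP.lam_pos.ne'
  have _ := hUW
  rw [Fr.cj, Fr.pull_dual_X', ← vecMul_vecMul, h.X_vecMul]
  field_simp

theorem Fr.Is.cj_dual_Y (h : F.Is T lam mu) (hP : Par K lam mu) {U W : M2} (hUW : U * W = 1)
    (r : V) : (F.cj lam mu T U W).dual.Y r = F.dual.Y (r ᵥ* W) := by
  have := hP.mu_ne
  have _ := hUW
  rw [Fr.cj, Fr.pull_dual_Y', ← vecMul_vecMul, h.Y_vecMul]
  field_simp

theorem cm_cj {U W : M2} (hUW : U * W = 1) (S R : Fin 4 → V) :
    cm (fun i => W *ᵥ S i) (fun i => R i ᵥ* U) = cm S R := by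
  rw [cm_mul]
  simp only [vecMul_vecMul, hUW, vecMul_one]

theorem Fr.Mar.cj (h : F.Is T lam mu) (hP : Par K lam mu) {U W T' : M2} (hUW : U * W = 1)
    (hT : T * U = U * T') {a : ℝ} {S R : Fin 4 → V} (hm : F.Mar T a S R) :
    (F.cj lam mu T U W).Mar T' a (fun i => W *ᵥ S i) (fun i => R i ᵥ* U) := by
  have hWU : W * U = 1 := mul_eq_one_comm.1 hUW
  refine ⟨?_, fun j => ?_, fun j => ?_⟩
  · rw [ten_mul, hm.1, Matrix.mul_assoc, hT, ← Matrix.mul_assoc, hWU, Matrix.one_mul]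
  · have := hm.2.1 j
    simp only [Fr.InCone, Fr.cj_X, Fr.cj_Y, mulVec_mulVec, hUW, one_mulVec] at this ⊢
    exact this
  · have := hm.2.2 j
    simp only [Fr.InCone, h.cj_dual_X hP hUW, h.cj_dual_Y hP hUW, vecMul_vecMul, hUW,
      vecMul_one] at this ⊢
    exact this

theorem Fr.cj_x0 (F : Fr) (lam mu : ℝ) (T U W : M2) {z : V} (hz : ∀ i, U i 0 = z i) :
    (F.cj lam mu T U W).x 0 = F.X z := by
  simp only [Fr.cj, Fr.pull, Fr.X, hz, div_one]

theorem Fr.cj_y0 (F : Fr) (lam mu : ℝ) (T U W : M2) {z : V} (hz : ∀ i, U i 0 = z i) :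
    (F.cj lam mu T U W).y 0 = F.Y z := by
  simp only [Fr.cj, Fr.pull, Fr.Y, hz, div_one]

theorem Fr.Is.abs_c (h : F.Is T lam mu) (hP : Par K lam mu) {U W B : M2}
    (hUW : U * W = 1) (hT : T * U = U * B) {z : V} (hz : ∀ i, U i 0 = z i) :
    |(B 1 0 : ℝ)| = (lam + mu) * (|F.X z| * |F.Y z|) := by
  have hI := h.cj hP hUW hT
  have e1 : (B 1 0 : ℝ) = - ((F.cj lam mu T U W).e * ((lam + mu) * (F.X z * F.Y z))) := by
    rw [hI.hT, hI.p1, hI.q1, F.cj_x0 lam mu T U W hz, F.cj_y0 lam mu T U W hz]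
    ring
  rw [e1, abs_neg, abs_mul, hI.abs_e, one_mul, abs_mul, abs_mul,
    abs_of_pos hP.sum_pos]

theorem conj_basis {U W B N N' : M2} (hUW : U * W = 1) (hT : T * U = U * B) (hN : N * N' = 1) :
    (U * N) * (N' * W) = 1 ∧ T * (U * N) = (U * N) * (N' * B * N) := by
  constructor
  · rw [Matrix.mul_assoc, ← Matrix.mul_assoc N, hN, Matrix.one_mul, hUW]
  · rw [← Matrix.mul_assoc, hT, Matrix.mul_assoc U N, ← Matrix.mul_assoc N,
      ← Matrix.mul_assoc N, hN, Matrix.one_mul, Matrix.mul_assoc]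

theorem pos_of_mul_pos_of_pos_right' {a b : ℝ} (h : 0 < a * b) (hb : 0 < b) : 0 < a := by
  by_contra ha
  nlinarith

theorem Fr.Is.c_eq (h : F.Is T lam mu) (hP : Par K lam mu) {U W : M2} {A : N2}
    (hUW : U * W = 1) (hT : T * U = U * toZ A) {z : V} (hz : ∀ i, U i 0 = z i) :
    (A 1 0 : ℝ) = (lam + mu) * (|F.X z| * |F.Y z|) := by
  rw [← h.abs_c hP hUW hT hz]
  simp [toZ]

/-- the short vector `z`, first column of `U`, is inside the cone -/
theorem pwP (h : F.Is T lam mu) (hP : Par K lam mu) (hl : K ^ 10 ≤ lam) {U W : M2} {A : N2}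
    (hUW : U * W = 1) (hT : T * U = U * toZ A) (hc : 1 ≤ A 1 0) (h1 : A 0 0 ≤ A 1 1 + A 1 0)
    (h2 : A 1 1 ≤ A 0 0 + A 1 0) {z : V} (hz : ∀ i, U i 0 = z i) (hx : |F.X z| ≤ 1 / K ^ 3)
    (hy : |F.Y z| ≤ |F.X z| / 4) {S R : Fin 4 → V} (hm : F.Mar T (1 / K) S R) :
    SSE (cm S R) A := by
  have key := pw (h.cj hP hUW hT) hP hl hc h1 h2 (by rwa [F.cj_x0 lam mu T U W hz])
    (by rwa [F.cj_x0 lam mu T U W hz, F.cj_y0 lam mu T U W hz]) (hm.cj h hP hUW hT)
  rwa [cm_cj hUW] at key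

/-- the short vector `z`, first column of `U`, is outside the cone -/
theorem pwD (h : F.Is T lam mu) (hP : Par K lam mu) (hl : K ^ 10 ≤ lam) {U W : M2} {A : N2}
    (hUW : U * W = 1) (hT : T * U = U * toZ A) (hc : 1 ≤ A 1 0) (h1 : A 0 0 ≤ A 1 1 + A 1 0)
    (h2 : A 1 1 ≤ A 0 0 + A 1 0) {z : V} (hz : ∀ i, U i 0 = z i) (hy : |F.Y z| ≤ 1 / K ^ 3)
    (hx : |F.X z| ≤ |F.Y z| / 4) {S R : Fin 4 → V} (hm : F.Mar T (1 / K) S R) :
    SSE (cm S R) A := by
  have hWU : W * U = 1 := mul_eq_one_comm.1 hUW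
  let P : M2 := !![0, 1; 1, 0]
  have hPP : P * P = 1 := by
    ext i j
    fin_cases i <;> fin_cases j <;> simp [P]
  have hUW' : (Wᵀ * P) * (P * Uᵀ) = 1 := by
    rw [Matrix.mul_assoc, ← Matrix.mul_assoc P, hPP, Matrix.one_mul, ← transpose_mul, hUW,
      transpose_one]
  have hWT : W * T = toZ A * W := by
    calc W * T = W * (T * U) * W := by
          rw [Matrix.mul_assoc, Matrix.mul_assoc, hUW, Matrix.mul_one]
      _ = toZ A * W := by rw [hT, ← Matrix.mul_assoc, hWU, Matrix.one_mul]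
  have hPA : (toZ A)ᵀ * P = P * toZ (swp Aᵀ) := by
    ext i j
    fin_cases i <;> fin_cases j <;> simp [P, toZ, swp, Matrix.mul_apply, Fin.sum_univ_two]
  have hT' : Tᵀ * (Wᵀ * P) = (Wᵀ * P) * toZ (swp Aᵀ) := by
    rw [← Matrix.mul_assoc, ← transpose_mul, hWT, transpose_mul, Matrix.mul_assoc, hPA,
      Matrix.mul_assoc]
  have hz' : ∀ i, (Wᵀ * P) i 0 = (Pi.single 1 1 ᵥ* W : V) i := by
    intro i
    simp [P, Matrix.mul_apply, Fin.sum_univ_two]
  have hc' := h.cj hP hUW hT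
  have ex : |F.dual.X (Pi.single 1 1 ᵥ* W)| = |F.Y z| := by
    rw [← h.cj_dual_X hP hUW, ← F.cj_y0 lam mu T U W hz]
    have : (F.cj lam mu T U W).dual.X (Pi.single 1 1) = (F.cj lam mu T U W).p 1 := by
      simp [Fr.X, Fr.dual]
    rw [this, hc'.p1, abs_neg, abs_mul, hc'.abs_e, one_mul]
  have ey : |F.dual.Y (Pi.single 1 1 ᵥ* W)| = |F.X z| := by
    rw [← h.cj_dual_Y hP hUW, ← F.cj_x0 lam mu T U W hz]
    have : (F.cj lam mu T U W).dual.Y (Pi.single 1 1) = (F.cj lam mu T U W).q 1 := by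
      simp [Fr.Y, Fr.dual]
    rw [this, hc'.q1, abs_mul, hc'.abs_e, one_mul]
  have key := pwP h.dual hP hl hUW' hT' (by simpa [swp] using hc) (by simpa [swp] using h2)
    (by simpa [swp] using h1) hz' (by rwa [ex]) (by rwa [ex, ey]) hm.dual
  rw [cm_transpose] at key
  exact sse_transpose (key.trans (sse_swp Aᵀ).symm)

/-- a short primitive vector is the first vector of a basis with a nonnegative reduced matrix -/
theorem exists_U (h : F.Is T lam mu) (hP : Par K lam mu) {z f : V} (hd : det2 z f = 1)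
    (hx : F.X z ≠ 0) (hy : F.Y z ≠ 0) (hs : |F.X z| * |F.Y z| ≤ 1 / K ^ 6) :
    ∃ (U W : M2) (A : N2), U * W = 1 ∧ T * U = U * toZ A ∧ (∀ i, U i 0 = z i) ∧ 1 ≤ A 1 0 ∧
      A 0 0 ≤ A 1 1 + A 1 0 ∧ A 1 1 ≤ A 0 0 + A 1 0 := by
  have hl0 := hP.lam_pos
  have hm0 := hP.sum_pos
  have hK := hP.hK
  -- a basis with a positive lower left entry
  obtain ⟨U, W, B, hUW, hT, hz, hc⟩ : ∃ U W B : M2, U * W = 1 ∧ T * U = U * B ∧
      (∀ i, U i 0 = z i) ∧ 0 < B 1 0 := by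
    let U : M2 := !![z 0, f 0; z 1, f 1]
    let W : M2 := !![f 1, - f 0; - z 1, z 0]
    have hUW : U * W = 1 := by
      simp only [det2] at hd
      ext i j
      fin_cases i <;> fin_cases j <;> simp [U, W, Matrix.mul_apply, Fin.sum_univ_two] <;>
        linarith
    have hT : T * U = U * (W * T * U) := by
      rw [← Matrix.mul_assoc, ← Matrix.mul_assoc, hUW, Matrix.one_mul]
    have hz : ∀ i, U i 0 = z i := by
      intro i
      fin_cases i <;> simp [U]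
    have hne : (W * T * U) 1 0 ≠ 0 := by
      intro h0
      have := h.abs_c hP hUW hT hz
      rw [h0, Int.cast_zero, abs_zero] at this
      exact (mul_pos hm0 (mul_pos (abs_pos.2 hx) (abs_pos.2 hy))).ne this
    rcases lt_or_gt_of_ne hne with hlt | hgt
    · let D : M2 := !![1, 0; 0, -1]
      have hD : D * D = 1 := by
        ext i j
        fin_cases i <;> fin_cases j <;> simp [D]
      obtain ⟨a1, a2⟩ := conj_basis hUW hT hD
      refine ⟨U * D, D * W, _, a1, a2, fun i => ?_, ?_⟩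
      · rw [← hz i]
        simp [D, Matrix.mul_apply, Fin.sum_univ_two]
      · generalize W * T * U = B at hlt
        simpa [D, Matrix.mul_apply, Fin.sum_univ_two, vecMul, dotProduct] using hlt
    · exact ⟨U, W, _, hUW, hT, hz, hgt⟩
  -- the shift
  obtain ⟨U, W, B, hUW, hT, hz, hc, h1, h2⟩ : ∃ U W B : M2, U * W = 1 ∧ T * U = U * B ∧
      (∀ i, U i 0 = z i) ∧ 0 < B 1 0 ∧ B 0 0 ≤ B 1 1 + B 1 0 ∧ B 1 1 ≤ B 0 0 + B 1 0 := by
    let k : ℤ := (B 0 0 - B 1 1 + B 1 0) / (2 * B 1 0)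
    have k1 := Int.emod_nonneg (B 0 0 - B 1 1 + B 1 0) (show 2 * B 1 0 ≠ 0 by omega)
    have k2 := Int.emod_lt_of_pos (B 0 0 - B 1 1 + B 1 0) (show 0 < 2 * B 1 0 by omega)
    have k3 : 2 * B 1 0 * k + (B 0 0 - B 1 1 + B 1 0) % (2 * B 1 0) = B 0 0 - B 1 1 + B 1 0 :=
      Int.mul_ediv_add_emod _ _
    let N : M2 := !![1, k; 0, 1]
    let N' : M2 := !![1, -k; 0, 1]
    have hN : N * N' = 1 := by
      ext i j
      fin_cases i <;> fin_cases j <;> simp [N, N', Matrix.mul_apply, Fin.sum_univ_two]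
    obtain ⟨a1, a2⟩ := conj_basis hUW hT hN
    have b10 : (N' * B * N) 1 0 = B 1 0 := by
      simp [N, N', Matrix.mul_apply, Fin.sum_univ_two, vecMul, dotProduct]
    have b00 : (N' * B * N) 0 0 = B 0 0 - k * B 1 0 := by
      simp [N, N', Matrix.mul_apply, Fin.sum_univ_two, vecMul, dotProduct]
      ring
    have b11 : (N' * B * N) 1 1 = B 1 1 + k * B 1 0 := by
      simp [N, N', Matrix.mul_apply, Fin.sum_univ_two, vecMul, dotProduct]
      ring
    refine ⟨U * N, N' * W, _, a1, a2, fun i => ?_, by rwa [b10], ?_, ?_⟩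
    · rw [← hz i]
      simp [N, Matrix.mul_apply, Fin.sum_univ_two]
    · rw [b10, b00, b11]
      linarith
    · rw [b10, b00, b11]
      linarith
  have hI := h.cj hP hUW hT
  have htr := hI.trace
  have hdet := hI.detT
  have hcv := h.abs_c hP hUW hT hz
  have hcr : (0 : ℝ) < B 1 0 := by exact_mod_cast hc
  rw [abs_of_pos hcr] at hcv
  have hsmall : (B 1 0 : ℝ) ≤ B 0 0 + B 1 1 := by
    have a1 : (lam + mu) * (|F.X z| * |F.Y z|) ≤ (lam + mu) * (1 / K ^ 6) :=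
      mul_le_mul_of_nonneg_left hs hm0.le
    have a2 : 1 / K ^ 6 ≤ 1 / K :=
      one_div_le_one_div_of_le hP.K_pos (le_self_pow₀ (by linarith) (by norm_num))
    have a3 : (lam + mu) * (1 / K ^ 6) ≤ (2 * lam) * (1 / K) :=
      mul_le_mul (by linarith [hP.mu_le]) a2 (by positivity) (by positivity)
    have a4 := hP.gap
    have a5 : (1 - 10 / K) * lam = lam - 5 * (2 * lam * (1 / K)) := by ring
    have a6 : 0 ≤ 2 * lam * (1 / K) := by
      have := hP.K_pos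
      positivity
    linarith
  have hsmall' : B 1 0 ≤ B 0 0 + B 1 1 := by exact_mod_cast hsmall
  have h00 : 0 ≤ B 0 0 := by omega
  have h11 : 0 ≤ B 1 1 := by omega
  have h01 : 0 ≤ B 0 1 := by
    have a0 : (B 1 0 : ℝ) < lam + mu := by
      have b1 : (lam + mu) * (|F.X z| * |F.Y z|) ≤ (lam + mu) * (1 / K ^ 6) :=
        mul_le_mul_of_nonneg_left hs hm0.le
      have b2 : 1 / K ^ 6 < 1 := by
        rw [div_lt_one (pow_pos hP.K_pos 6)]
        exact one_lt_pow₀ (by linarith) (by norm_num)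
      have b3 := mul_lt_mul_of_pos_left b2 hm0
      linarith
    have b1 : (B 0 0 : ℝ) ≤ B 1 1 + B 1 0 := by exact_mod_cast h1
    have b2 : (B 1 1 : ℝ) ≤ B 0 0 + B 1 0 := by exact_mod_cast h2
    have a1 : (0 : ℝ) < (lam - B 0 0) * (lam - B 1 1) := mul_pos (by linarith) (by linarith)
    have a2 : (0 : ℝ) < (B 0 1 : ℝ) * B 1 0 := by
      have : (B 0 1 : ℝ) * B 1 0 = (lam - B 0 0) * (lam - B 1 1) := by
        linear_combination lam * htr - hdet
      linarith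
    have a3 : (0 : ℝ) < B 0 1 := pos_of_mul_pos_of_pos_right' a2 hcr
    exact_mod_cast a3.le
  have hB : ∀ i j, 0 ≤ B i j := by
    intro i j
    fin_cases i <;> fin_cases j
    exacts [h00, h01, hc.le, h11]
  let A : N2 := fun i j => (B i j).toNat
  have hA : ∀ i j, (A i j : ℤ) = B i j := fun i j => Int.toNat_of_nonneg (hB i j)
  have hAB : toZ A = B := by
    ext i j
    exact hA i j
  have e00 := hA 0 0
  have e10 := hA 1 0
  have e11 := hA 1 1
  exact ⟨U, W, A, hUW, by rwa [hAB], hz, by omega, by omega, by omega⟩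

end Pool.Agent.MP_993212_an.H65
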