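import Pool.Agent.MP_993212_an.H65.Frame
import Pool.Agent.MP_993212_an.H65.EngU

namespace Pool.Agent.MP_993212_an.H65

open Matrix Pool.Agent.MP_993212_an.H12

theorem walk_core {K h lam mu g c u W X Y X' Y' : ℝ} (hK : 10000 ≤ K) (hh : h * K = 1)
    (hgap : |mu| ≤ (1 - 10 * h) * lam) (hl : 16 * K ^ 6 ≤ lam) (hg : K ^ 4 ≤ g)
    (hg' : g ≤ 2 * K ^ 4) (hc : 1 ≤ c) (hW : c * W = lam + mu) (hW' : 100 ≤ W)
    (hu : 2 * u ≤ W + 1) (hX' : 0 < X') (hXX : X' ≤ X) (hX2 : X ≤ 2 * X') (hXu : X ≤ u)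
    (hY' : 1 ≤ Y') (hYY : Y' ≤ Y) (hY2 : Y ≤ 2 * Y') (hYW : Y ≤ K * W)
    (r1 : (W - X') * Y ≤ (1 + 4 * h) * ((W + Y) * X'))
    (r2 : (W + Y') * X ≤ (1 + 4 * h) * ((W - X) * Y'))
    (g1 : (W - X') * X ≤ (1 + 4 * h) * ((W - X) * X'))
    (g2 : (W + Y') * Y ≤ (1 + 4 * h) * ((W + Y) * Y')) {r : ℝ} (hr : r ≤ g * (X + Y + 1)) :
    2 * (X + Y) ^ 2 ≤ g * (lam * X' + mu * X - c * X * X' - r) ∧
    2 * (X + Y) ^ 2 ≤ g * (lam * X' - mu * Y + c * Y * X' - r) ∧
    2 * (X + Y) ^ 2 ≤ g * (lam * Y' - mu * X - c * X * Y' - r) ∧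
    2 * (X + Y) ^ 2 ≤ g * (lam * Y' + mu * Y + c * Y * Y' - r) := by
  have hK0 : 0 < K := by linarith
  have hh0 : 0 < h := (pos_iff_pos_of_mul_pos (by rw [hh]; exact one_pos)).2 hK0
  have hh1 : h ≤ 1 / 10000 := by
    have := mul_le_mul_of_nonneg_left hK hh0.le
    linarith
  have hl0 : 0 < lam := by
    have : 0 < K ^ 6 := by positivity
    linarith
  have hml : mu ≤ lam := by
    have := mul_pos hh0 hl0
    linarith [le_abs_self mu]
  have hW0 : 0 < W := by linarith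
  have hX0 : 0 < X := by linarith
  have hY0 : 0 < Y := by linarith
  have hY0' : 0 < Y' := by linarith
  have hWl : W ≤ 2 * lam := by
    have := mul_le_mul_of_nonneg_right hc hW0.le
    linarith
  have hXY : X ≤ 1.01 * Y' := by
    have a1 : 0 < Y' * X := by positivity
    have a2 : 0 < W * Y' := by positivity
    have a3 : (1 + 4 * h) * ((W - X) * Y') ≤ 1.01 * ((W - X) * Y') :=
      mul_le_mul_of_nonneg_right (by linarith) (mul_nonneg (by linarith) hY0'.le)
    have : W * X ≤ W * (1.01 * Y') := by linarith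
    exact le_of_mul_le_mul_left this hW0
  have hYX : Y ≤ 2.02 * K * X' := by
    have a1 : (1 + 4 * h) * ((W + Y) * X') ≤ 1.01 * ((W + Y) * X') :=
      mul_le_mul_of_nonneg_right (by linarith) (by positivity)
    have a2 : Y * X' ≤ K * W * X' := mul_le_mul_of_nonneg_right hYW hX'.le
    have a3 : 10000 * (W * X') ≤ K * (W * X') := mul_le_mul_of_nonneg_right hK (by positivity)
    have a4 : 0 < W * X' := by positivity
    have : W * Y ≤ W * (2.02 * K * X') := by linarith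
    exact le_of_mul_le_mul_left this hW0
  set N := X + Y with hN
  have hN1 : 1 ≤ N := by linarith
  have hNX : N ≤ 3 * K * X' := by
    have := mul_le_mul_of_nonneg_right hK hX'.le
    linarith
  have hNX' : h * N ≤ 3 * X' := by
    have := mul_le_mul_of_nonneg_left hNX hh0.le
    calc h * N ≤ h * (3 * K * X') := this
      _ = 3 * X' * (h * K) := by ring
      _ = 3 * X' := by rw [hh, mul_one]
  have hNY : N ≤ 4 * Y' := by linarith
  have hNl : N ≤ 4 * K * lam := by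
    have a1 := mul_le_mul_of_nonneg_right hK hW0.le
    have a2 := mul_le_mul_of_nonneg_left hWl hK0.le
    linarith
  set Q := h ^ 2 * lam * N with hQ
  have hhK : h ^ 2 * K ^ 2 = 1 := by rw [← mul_pow, hh, one_pow]
  have hrQ : r ≤ Q / 4 := by
    have a1 : 16 * K ^ 4 ≤ h ^ 2 * lam := by
      calc 16 * K ^ 4 = h ^ 2 * (16 * K ^ 6) := by linear_combination (-16 * K ^ 4) * hhK
        _ ≤ h ^ 2 * lam := by gcongr
    have a2 : g * (N + 1) ≤ 2 * K ^ 4 * (2 * N) := by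
      apply mul_le_mul hg' (by linarith) (by linarith) (by positivity)
    have a3 : 16 * K ^ 4 * N ≤ h ^ 2 * lam * N := by gcongr
    linarith
  have hgQ : 2 * N ^ 2 ≤ g * (Q / 4) := by
    have a1 : K ^ 2 ≤ g * h ^ 2 := by
      calc K ^ 2 = K ^ 4 * h ^ 2 := by linear_combination (-K ^ 2) * hhK
        _ ≤ g * h ^ 2 := by gcongr
    have a2 : 32 * K ≤ K ^ 2 := by
      have := mul_le_mul_of_nonneg_right hK hK0.le
      linarith [sq K]
    have a3 : 8 * K * (lam * N) ≤ g * h ^ 2 / 4 * (lam * N) :=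
      mul_le_mul_of_nonneg_right (by linarith) (by positivity)
    have a4 : N * N ≤ 4 * K * lam * N := mul_le_mul_of_nonneg_right hNl (by linarith)
    calc 2 * N ^ 2 = 2 * (N * N) := by ring
      _ ≤ 8 * K * (lam * N) := by linarith
      _ ≤ g * h ^ 2 / 4 * (lam * N) := a3
      _ = g * (Q / 4) := by rw [hQ]; ring
  have hg0 : 0 ≤ g := le_trans (by positivity) hg
  have fin : ∀ E, Q / 2 ≤ E → 2 * N ^ 2 ≤ g * (E - r) := fun E hE =>
    hgQ.trans (mul_le_mul_of_nonneg_left (by linarith) hg0)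
  have hQX : Q ≤ 3 * h * (lam * X') := by
    have := mul_le_mul_of_nonneg_left hNX' (show 0 ≤ h * lam by positivity)
    calc Q = h * lam * (h * N) := by rw [hQ]; ring
      _ ≤ h * lam * (3 * X') := this
      _ = _ := by ring
  have hQY : Q ≤ 4 * h ^ 2 * (lam * Y') := by
    have := mul_le_mul_of_nonneg_left hNY (show 0 ≤ h ^ 2 * lam by positivity)
    calc Q ≤ h ^ 2 * lam * (4 * Y') := this
      _ = _ := by ring
  have hlX : 0 < lam * X' := by positivity
  have hlY : 0 < lam * Y' := by positivity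
  have hgap' : (1 + 4 * h) * |mu| ≤ (1 - 6 * h) * lam := by
    have a1 : (1 + 4 * h) * |mu| ≤ (1 + 4 * h) * ((1 - 10 * h) * lam) :=
      mul_le_mul_of_nonneg_left hgap (by linarith)
    have a2 : 0 ≤ h ^ 2 * lam := by positivity
    linarith
  have key : ∀ E P P' e : ℝ, W * E = lam * P + e * P' → |e| = |mu| → 0 ≤ P → 0 ≤ P' →
      P' ≤ (1 + 4 * h) * P → 6 * h * lam * P ≤ W * E := by
    intro E P P' e h1 h2 h3 h4 h5
    have a1 : - e * P' ≤ |mu| * P' := mul_le_mul_of_nonneg_right (h2 ▸ neg_le_abs e) h4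
    have a2 : |mu| * P' ≤ |mu| * ((1 + 4 * h) * P) := mul_le_mul_of_nonneg_left h5 (abs_nonneg _)
    have a3 := mul_le_mul_of_nonneg_right hgap' h3
    linarith
  have a0 : W / 3 ≤ W - X := by linarith
  have hXW : 0 ≤ W - X' := by linarith
  have b1 : h * lam * X' * (W / 3) ≤ h * lam * X' * (W - X) :=
    mul_le_mul_of_nonneg_left a0 (by positivity)
  have b2 : h * lam * Y' * (W / 3) ≤ h * lam * Y' * (W - X) :=
    mul_le_mul_of_nonneg_left a0 (by positivity)
  have b3 : 0 ≤ h * lam * (Y * X') := by positivity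
  have b4 : 0 ≤ h * lam * (Y * Y') := by positivity
  have b5 : 0 ≤ h * lam * (W * X') := by positivity
  have b6 : 0 ≤ h * lam * (W * Y') := by positivity
  have b7 : h * (h * (lam * Y')) ≤ 1 / 10000 * (h * (lam * Y')) :=
    mul_le_mul_of_nonneg_right hh1 (by positivity)
  have b8 : 0 ≤ h * (lam * Y') := by positivity
  have b9 : 0 ≤ h * (lam * X') := by positivity
  refine ⟨fin _ ?_, fin _ ?_, fin _ ?_, fin _ ?_⟩
  · have a1 := key (lam * X' + mu * X - c * X * X') ((W - X) * X') ((W - X') * X) mu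
      (by linear_combination (-(X * X')) * hW) rfl (mul_nonneg (by linarith) hX'.le)
      (mul_nonneg hXW hX0.le) g1
    have a5 : W * (2 * h * (lam * X')) ≤ W * (lam * X' + mu * X - c * X * X') := by linarith
    have := le_of_mul_le_mul_left a5 hW0
    linarith
  · have a1 := key (lam * X' - mu * Y + c * Y * X') ((W + Y) * X') ((W - X') * Y) (- mu)
      (by linear_combination (Y * X') * hW) (abs_neg _) (by positivity)
      (mul_nonneg hXW hY0.le) r1
    have a5 : W * (2 * h * (lam * X')) ≤ W * (lam * X' - mu * Y + c * Y * X') := by linarith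
    have := le_of_mul_le_mul_left a5 hW0
    linarith
  · have a1 := key (lam * Y' - mu * X - c * X * Y') ((W - X) * Y') ((W + Y') * X) (- mu)
      (by linear_combination (-(X * Y')) * hW) (abs_neg _) (mul_nonneg (by linarith) hY0'.le)
      (by positivity) r2
    have a5 : W * (2 * h * (lam * Y')) ≤ W * (lam * Y' - mu * X - c * X * Y') := by linarith
    have := le_of_mul_le_mul_left a5 hW0
    linarith
  · have a1 := key (lam * Y' + mu * Y + c * Y * Y') ((W + Y) * Y') ((W + Y') * Y) mu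
      (by linear_combination (Y * Y') * hW) rfl (by positivity) (by positivity) g2
    have a5 : W * (2 * h * (lam * Y')) ≤ W * (lam * Y' + mu * Y + c * Y * Y') := by linarith
    have := le_of_mul_le_mul_left a5 hW0
    linarith

namespace UD

variable {D : UD} {K lam mu u W : ℝ}

theorem OK.g_pos (hD : D.OK K lam mu u W) (hP : Par K lam mu) : (0 : ℝ) < D.g :=
  lt_of_lt_of_le (pow_pos hP.K_pos 4) hD.g_lo

theorem walk_lam (hP : Par K lam mu) (hl : K ^ 10 ≤ lam) : 16 * K ^ 6 ≤ lam := by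
  have hK := hP.hK
  have h1 : 16 ≤ K ^ 4 := le_trans (by linarith) (le_self_pow₀ (by linarith) (by norm_num))
  have h2 : 16 * K ^ 6 ≤ K ^ 4 * K ^ 6 := mul_le_mul_of_nonneg_right h1 (pow_pos hP.K_pos 6).le
  calc 16 * K ^ 6 ≤ K ^ 4 * K ^ 6 := h2
    _ = K ^ 10 := by ring
    _ ≤ lam := hl

theorem OK.a1_nonneg (hD : D.OK K lam mu u W) (hP : Par K lam mu) (hl : K ^ 10 ≤ lam)
    (hW : K ≤ W) : 0 ≤ D.a1 := by
  have hK := hP.hK
  have hK0 := hP.K_pos
  have hl0 := hP.lam_pos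
  have hg0 := hD.g_pos hP
  have hc : (1 : ℝ) ≤ D.c := by exact_mod_cast hD.c_lo
  have hk : (D.k : ℝ) ≤ D.g := by exact_mod_cast hD.k_hi
  have hu : 2 * u ≤ W + 1 := by linarith [(abs_le.1 hD.mid).2]
  have a1 := mul_le_mul_of_nonneg_left hu (show (0 : ℝ) ≤ D.c by linarith)
  have a2 := mul_le_mul_of_nonneg_left hW (show (0 : ℝ) ≤ D.c by linarith)
  have a3 : K * mu ≤ (K - 10) * lam := by
    have := mul_le_mul_of_nonneg_left hP.gap hK0.le
    rwa [← mul_assoc, mul_sub, mul_one, mul_div_cancel₀ _ hK0.ne'] at this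
  have a4 := walk_lam hP hl
  have a5 : K * D.k ≤ K * (2 * K ^ 4) := mul_le_mul_of_nonneg_left (hk.trans hD.g_hi) hK0.le
  have a6 : K ^ 5 ≤ K ^ 6 := pow_le_pow_right₀ (by linarith) (by norm_num)
  have a7 : K * (D.g * D.a1 + D.k) = K * (lam - D.c * u) := by rw [hD.ha]
  have a8 := mul_le_mul_of_nonneg_left a1 hK0.le
  have a9 : K * (D.c * W) = K * (lam + mu) := by rw [hD.hW]
  have a10 := hP.mu_le
  have a11 := hD.hW
  have : (0 : ℝ) ≤ K * D.g * D.a1 := by linarith
  have := (mul_nonneg_iff_of_pos_left (mul_pos hK0 hg0)).1 this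
  exact_mod_cast this

theorem OK.ineqs (hD : D.OK K lam mu u W) (hP : Par K lam mu) (hl : K ^ 10 ≤ lam) (hW : 100 ≤ W)
    {i j i' j' : ℤ} {X Y X' Y' : ℝ} (eX : X = u - i * D.g) (eY : Y = j * D.g - u)
    (eX' : X' = u - i' * D.g) (eY' : Y' = j' * D.g - u) (hX' : D.g ≤ X') (hXX : X' ≤ X)
    (hX2 : X ≤ 2 * X') (hXu : X ≤ u) (hY' : 1 ≤ Y') (hYY : Y' ≤ Y) (hY2 : Y ≤ 2 * Y')
    (hYW : Y ≤ K * W) (r1 : (W - X') * Y ≤ (1 + 4 * (1 / K)) * ((W + Y) * X'))
    (r2 : (W + Y') * X ≤ (1 + 4 * (1 / K)) * ((W - X) * Y'))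
    (g1 : (W - X') * X ≤ (1 + 4 * (1 / K)) * ((W - X) * X'))
    (g2 : (W + Y') * Y ≤ (1 + 4 * (1 / K)) * ((W + Y) * Y')) :
    0 ≤ D.y - i' * D.g * D.k ∧ 0 ≤ j' * D.g * D.k - D.y ∧
    2 * (j - i) ^ 2 ≤ D.b1 - i' * D.g * D.a1 + i * (D.d - i' * D.g * D.c) ∧
    2 * (j - i) ^ 2 ≤ D.b1 - i' * D.g * D.a1 + j * (D.d - i' * D.g * D.c) ∧
    2 * (j - i) ^ 2 ≤ j' * D.g * D.a1 - D.b1 + i * (j' * D.g * D.c - D.d) ∧
    2 * (j - i) ^ 2 ≤ j' * D.g * D.a1 - D.b1 + j * (j' * D.g * D.c - D.d) := by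
  have hK0 := hP.K_pos
  have hg0 := hD.g_pos hP
  have hc : (1 : ℝ) ≤ D.c := by exact_mod_cast hD.c_lo
  have hk : (D.k : ℝ) ≤ D.g := by exact_mod_cast hD.k_hi
  have hk1 : (1 : ℝ) ≤ D.k := by exact_mod_cast hD.k_lo
  have hu : 2 * u ≤ W + 1 := by linarith [(abs_le.1 hD.mid).2]
  have hX0 : 0 < X' := by linarith
  have core := fun r hr => walk_core (K := K) (h := 1 / K) (lam := lam) (mu := mu) (g := D.g)
    (c := D.c) (u := u) (W := W) (X := X) (Y := Y) (X' := X') (Y' := Y') hP.hK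
    (by field_simp) (by have := hP.abs_gap; rwa [div_eq_mul_one_div] at this)
    (walk_lam hP hl) hD.g_lo hD.g_hi hc hD.hW hW hu hX0 hXX hX2 hXu hY' hYY hY2 hYW r1 r2
    g1 g2 (r := r) hr
  have b1 : X' ≤ D.k * X' := le_mul_of_one_le_left hX0.le hk1
  have b2 : D.k * X' ≤ D.g * X' := mul_le_mul_of_nonneg_right hk hX0.le
  have b3 : 0 ≤ D.k * Y' := by positivity
  have b4 : D.k * Y' ≤ D.g * Y' := mul_le_mul_of_nonneg_right hk (by linarith)
  have b5 : D.g * X' ≤ D.g * X := mul_le_mul_of_nonneg_left hXX hg0.le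
  have b6 : D.g * Y' ≤ D.g * Y := mul_le_mul_of_nonneg_left hYY hg0.le
  have b7 : 0 ≤ D.g * Y := mul_nonneg hg0.le (by linarith)
  have b8 : 0 ≤ D.g * X := mul_nonneg hg0.le (by linarith)
  have e1 : (D.y : ℝ) - i' * D.g * D.k = D.k * X' + (D.y - D.k * u) := by rw [eX']; ring
  have e2 : (j' : ℝ) * D.g * D.k - D.y = D.k * Y' - (D.y - D.k * u) := by rw [eY']; ring
  have y1 := hD.y_lo
  have y2 := hD.y_hi
  obtain ⟨c1, c2, -, -⟩ := core (D.y - i' * D.g * D.k) (by rw [e1]; linarith)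
  obtain ⟨-, -, c3, c4⟩ := core (j' * D.g * D.k - D.y) (by rw [e2]; linarith)
  have ha := hD.ha
  have hb := hD.hb
  have hd := hD.hd
  have hw := hD.hW
  have fin : ∀ (n : ℤ) (E : ℝ), 2 * (X + Y) ^ 2 ≤ D.g * E → E = D.g * n → 2 * (j - i) ^ 2 ≤ n := by
    intro n E h1 h2
    have : (D.g : ℝ) ^ 2 * (2 * (j - i) ^ 2) ≤ (D.g : ℝ) ^ 2 * n := by
      calc (D.g : ℝ) ^ 2 * (2 * (j - i) ^ 2) = 2 * (X + Y) ^ 2 := by rw [eX, eY]; ring
        _ ≤ D.g * E := h1
        _ = _ := by rw [h2]; ring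
    exact_mod_cast le_of_mul_le_mul_left this (pow_pos hg0 2)
  refine ⟨?_, ?_, fin _ _ c1 ?_, fin _ _ c2 ?_, fin _ _ c3 ?_, fin _ _ c4 ?_⟩
  · have : (0 : ℝ) ≤ (D.y : ℝ) - i' * D.g * D.k := by rw [e1]; linarith
    exact_mod_cast this
  · have : (0 : ℝ) ≤ (j' : ℝ) * D.g * D.k - D.y := by rw [e2]; linarith
    exact_mod_cast this
  · push_cast
    rw [eX, eX']
    linear_combination (i' * D.g : ℝ) * ha - hb - (i * D.g : ℝ) * hd - (u - i * D.g) * hw
  · push_cast
    rw [eY, eX']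
    linear_combination (i' * D.g : ℝ) * ha - hb - (j * D.g : ℝ) * hd - (u - j * D.g) * hw
  · push_cast
    rw [eX, eY']
    linear_combination (-(j' * D.g : ℝ)) * ha + hb + (i * D.g : ℝ) * hd + (u - i * D.g) * hw
  · push_cast
    rw [eY, eY']
    linear_combination (-(j' * D.g : ℝ)) * ha + hb + (j * D.g : ℝ) * hd + (u - j * D.g) * hw

end UD

theorem walk_stepX {h g W m X Y X' : ℝ} (hh0 : 0 < h) (hh1 : h ≤ 1) (hg : 0 < g)
    (eX : X' = X - g) (hX : 0 < X') (hY : 0 < Y) (hm : 0 < m) (g1 : g ≤ h / 16 * X')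
    (g2 : g ≤ h / 16 * (W - X)) (i2 : (W + Y) * X ≤ (1 + 4 * h) * ((W - X) * Y))
    (c : (W - X) * Y ≤ (W + Y) * X) (nd : W - X ≤ (1 - h / 2) * m * X) :
    (W - X') * Y ≤ (1 + 4 * h) * ((W + Y) * X') ∧
      (W + Y) * X' ≤ (1 + 4 * h) * ((W - X') * Y) ∧ W - X' ≤ m * X' ∧
      (W - X') * X ≤ (1 + 4 * h) * ((W - X) * X') := by
  have hX0 : 0 < X := by linarith
  have ha : 0 < W - X := by
    have : 0 < h / 16 * (W - X) := by linarith
    exact (pos_iff_pos_of_mul_pos this).1 (by linarith)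
  have hW : 0 < W + Y := by linarith
  have gr : (W - X') * X ≤ (1 + h / 4) * ((W - X) * X') := by
    have a1 : W - X' ≤ (1 + h / 16) * (W - X) := by linarith
    have a2 : X ≤ (1 + h / 16) * X' := by linarith
    have a3 := mul_le_mul a1 a2 hX0.le (by positivity)
    have a4 : (1 + h / 16) * (1 + h / 16) ≤ 1 + h / 4 := by nlinarith
    have a5 := mul_le_mul_of_nonneg_right a4 (mul_pos ha hX).le
    linarith
  refine ⟨?_, ?_, ?_, gr.trans (mul_le_mul_of_nonneg_right (by linarith) (mul_pos ha hX).le)⟩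
  · have a1 := mul_le_mul_of_nonneg_right gr hY.le
    have a2 := mul_le_mul_of_nonneg_left c (show 0 ≤ (1 + h / 4) * X' by positivity)
    have a3 : 0 ≤ h * ((W + Y) * X * X') := by positivity
    have : X * ((W - X') * Y) ≤ X * ((1 + 4 * h) * ((W + Y) * X')) := by linarith
    exact le_of_mul_le_mul_left this hX0
  · have a1 : (W + Y) * X' ≤ (W + Y) * X := mul_le_mul_of_nonneg_left (by linarith) hW.le
    have a2 : (W - X) * Y ≤ (W - X') * Y := mul_le_mul_of_nonneg_right (by linarith) hY.le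
    have a3 := mul_le_mul_of_nonneg_left a2 (show 0 ≤ 1 + 4 * h by linarith)
    linarith
  · have a1 := mul_le_mul_of_nonneg_left nd (show 0 ≤ (1 + h / 4) * X' by positivity)
    have a2 : 0 ≤ h * (m * X * X') := by positivity
    have a3 : 0 ≤ h * h * (m * X * X') := by positivity
    have : X * (W - X') ≤ X * (m * X') := by linarith
    exact le_of_mul_le_mul_left this hX0

theorem walk_stepY {h g W m X Y Y' : ℝ} (hh0 : 0 < h) (hg : 0 < g) (hW : 0 < W)
    (eY : Y' = Y - g) (hX : 0 < X) (hY : 0 < Y') (hm : 0 < m) (g1 : g ≤ h / 4 * Y')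
    (hXW : X ≤ W) (i1 : (W - X) * Y ≤ (1 + 4 * h) * ((W + Y) * X))
    (c : (W + Y) * X ≤ (W - X) * Y) (nd : W + Y ≤ (1 - h / 2) * m * Y) :
    (W - X) * Y' ≤ (1 + 4 * h) * ((W + Y') * X) ∧
      (W + Y') * X ≤ (1 + 4 * h) * ((W - X) * Y') ∧ W + Y' ≤ m * Y' ∧
      (W + Y') * Y ≤ (1 + 4 * h) * ((W + Y) * Y') := by
  have hY0 : 0 < Y := by linarith
  have gr : (W + Y') * Y ≤ (1 + h / 4) * ((W + Y) * Y') := by
    have a1 : W + Y' ≤ W + Y := by linarith
    have a2 : Y ≤ (1 + h / 4) * Y' := by linarith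
    have a3 := mul_le_mul a1 a2 hY0.le (by positivity)
    linarith
  refine ⟨?_, ?_, ?_, gr.trans (mul_le_mul_of_nonneg_right (by linarith) (by positivity))⟩
  · have a1 := mul_le_mul_of_nonneg_right i1 hY.le
    have a2 : W * Y' ≤ W * Y := mul_le_mul_of_nonneg_left (by linarith) hW.le
    have a3 := mul_le_mul_of_nonneg_left a2 (show 0 ≤ (1 + 4 * h) * X by positivity)
    have : Y * ((W - X) * Y') ≤ Y * ((1 + 4 * h) * ((W + Y') * X)) := by linarith
    exact le_of_mul_le_mul_left this hY0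
  · have a1 := mul_le_mul_of_nonneg_right gr hX.le
    have a2 := mul_le_mul_of_nonneg_left c (show 0 ≤ (1 + h / 4) * Y' by positivity)
    have a3 : 0 ≤ h * ((W - X) * Y * Y') :=
      mul_nonneg hh0.le (mul_nonneg (mul_nonneg (by linarith) hY0.le) hY.le)
    have : Y * ((W + Y') * X) ≤ Y * ((1 + 4 * h) * ((W - X) * Y')) := by linarith
    exact le_of_mul_le_mul_left this hY0
  · have a1 := mul_le_mul_of_nonneg_left nd (show 0 ≤ (1 + h / 4) * Y' by positivity)
    have a2 : 0 ≤ h * (m * Y * Y') := by positivity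
    have a3 : 0 ≤ h * h * (m * Y * Y') := by positivity
    have : Y * (W + Y') ≤ Y * (m * Y') := by linarith
    exact le_of_mul_le_mul_left this hY0

/-- the invariant of the walk -/
def UD.Inv (D : UD) (A : N2) (K u W m : ℝ) (i j : ℤ) : Prop :=
  0 ≤ i ∧ 0 < u - i * D.g ∧ 0 < j * D.g - u ∧ j * D.g - u ≤ K * W ∧
    (W - (u - i * D.g)) * (j * D.g - u) ≤
      (1 + 4 * (1 / K)) * ((W + (j * D.g - u)) * (u - i * D.g)) ∧
    (W + (j * D.g - u)) * (u - i * D.g) ≤
      (1 + 4 * (1 / K)) * ((W - (u - i * D.g)) * (j * D.g - u)) ∧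
    W - (u - i * D.g) ≤ m * (u - i * D.g) ∧ W + (j * D.g - u) ≤ m * (j * D.g - u) ∧
    ∃ w, D.Up i j w ∧ SSE A (D.C i j w)

theorem UD.Inv.lt {D : UD} {A : N2} {K u W m : ℝ} {i j : ℤ} (h : D.Inv A K u W m i j)
    (hg : (0 : ℝ) < D.g) : i < j := by
  have : (i : ℝ) * D.g < j * D.g := by linarith [h.2.1, h.2.2.1]
  exact_mod_cast lt_of_mul_lt_mul_right this hg.le

theorem walk_small {K g : ℝ} (hK : 10000 ≤ K) (hg : g ≤ 2 * K ^ 4) {a : ℝ} (ha : K ^ 6 / 2 ≤ a) :
    g ≤ 1 / K / 16 * a := by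
  have hK0 : 0 < K := by linarith
  have a1 : 10000 * K ^ 4 ≤ K * K ^ 4 := mul_le_mul_of_nonneg_right hK (by positivity)
  have a2 : 1 / K / 16 * (K ^ 6 / 2) = K * K ^ 4 / 32 := by field_simp; ring
  have a3 := mul_le_mul_of_nonneg_left ha (show 0 ≤ 1 / K / 16 by positivity)
  have a4 : 0 < K ^ 4 := by positivity
  linarith

theorem UD.Inv.step {D : UD} {A : N2} {K lam mu u W m : ℝ} (hP : Par K lam mu)
    (hl : K ^ 10 ≤ lam) (hD : D.OK K lam mu u W) (hm : 4 ≤ m) (hW : K ^ 6 * m ≤ W) {i j : ℤ}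
    (h : D.Inv A K u W m i j) :
    ((1 - 1 / (2 * K)) * m * (u - i * D.g) ≤ W - (u - i * D.g) ∧
      (1 - 1 / (2 * K)) * m * (j * D.g - u) ≤ W + (j * D.g - u)) ∨
    D.Inv A K u W m (i + 1) j ∨ D.Inv A K u W m i (j - 1) := by
  have hK := hP.hK
  have hK0 := hP.K_pos
  have hg0 := hD.g_pos hP
  have hij := h.lt hg0
  obtain ⟨hi, hX, hY, hYW, i1, i2, i3, i4, w0, hw0, hs0⟩ := h
  have hiR : (0 : ℝ) ≤ i := by exact_mod_cast hi
  have hu : 2 * u ≤ W + 1 := by linarith [(abs_le.1 hD.mid).2]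
  have eK : 1 / (2 * K) = 1 / K / 2 := by field_simp
  have hh0 : 0 < 1 / K := by positivity
  have hh1 : 1 / K ≤ 1 := by rw [div_le_one hK0]; linarith
  have hK6 : K ≤ K ^ 6 := le_self_pow₀ (by linarith) (by norm_num)
  have hK64 : 10000 * K ^ 4 ≤ K ^ 6 := by
    have a1 : K ≤ K ^ 2 := le_self_pow₀ (by linarith) (by norm_num)
    calc 10000 * K ^ 4 ≤ K ^ 2 * K ^ 4 := mul_le_mul_of_nonneg_right (by linarith) (by positivity)
      _ = K ^ 6 := by ring
  have hK4 : 0 < K ^ 4 := by positivity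
  have hW4 : K ^ 6 * 4 ≤ W := le_trans (mul_le_mul_of_nonneg_left hm (by positivity)) hW
  have hgK := hD.g_hi
  have ha1 := hD.a1_nonneg hP hl (by linarith)
  have hc : 0 ≤ D.c := by linarith [hD.c_lo]
  have hk : 0 ≤ D.k := by linarith [hD.k_lo]
  rw [eK]
  generalize eX : u - i * D.g = X at *
  generalize eY : j * D.g - u = Y at *
  have hXu : X ≤ u := by
    have := mul_nonneg hiR hg0.le
    linarith
  have hXb : 0.8 * K ^ 6 ≤ X := by
    have a1 := mul_le_mul_of_nonneg_right hm hX.le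
    have : m * (0.8 * K ^ 6) ≤ m * X := by linarith
    exact le_of_mul_le_mul_left this (by linarith)
  have hYb : K ^ 6 ≤ Y := by
    have : m * K ^ 6 ≤ m * Y := by linarith
    exact le_of_mul_le_mul_left this (by linarith)
  have t1 : (W - X) * X ≤ (1 + 4 * (1 / K)) * ((W - X) * X) :=
    le_mul_of_one_le_left (mul_nonneg (by linarith) hX.le) (by linarith)
  have t2 : (W + Y) * Y ≤ (1 + 4 * (1 / K)) * ((W + Y) * Y) :=
    le_mul_of_one_le_left (mul_nonneg (by linarith) hY.le) (by linarith)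
  rcases le_total ((W - X) * Y) ((W + Y) * X) with c | c
  · by_cases nd : (1 - 1 / K / 2) * m * X ≤ W - X
    · refine .inl ⟨nd, ?_⟩
      have a1 := mul_le_mul_of_nonneg_right nd hY.le
      have : X * ((1 - 1 / K / 2) * m * Y) ≤ X * (W + Y) := by linarith
      exact le_of_mul_le_mul_left this hX
    · refine .inr (.inl ?_)
      have eX' : u - ((i + 1 : ℤ) : ℝ) * D.g = X - D.g := by push_cast; linarith
      obtain ⟨n1, n2, n3, n4⟩ := walk_stepX (W := W) (m := m) (X := X) (Y := Y) (X' := X - D.g) hh0 hh1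
        hg0 rfl (by linarith) hY (by linarith) (walk_small hK hgK (by linarith))
        (walk_small hK hgK (by linarith)) i2 c (not_le.1 nd).le
      obtain ⟨p1, p2, q1, q2, q3, q4⟩ := hD.ineqs hP hl (by linarith) (i := i) (j := j)
        (i' := i + 1) (j' := j) eX.symm eY.symm eX'.symm eY.symm (by linarith) (by linarith)
        (by linarith) hXu (by linarith) le_rfl (by linarith) hYW n1 i2 n4 t2
      have hlt : i + 1 < j := by
        have : ((i + 1 : ℤ) : ℝ) * D.g < j * D.g := by linarith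
        exact_mod_cast lt_of_mul_lt_mul_right this hg0.le
      obtain ⟨w, u1, u2, hs⟩ := D.widen hi (by omega) hlt le_rfl ha1 hc hk p1 p2 q1 q2 q3 q4
      refine ⟨by omega, ?_⟩
      rw [eX', eY]
      exact ⟨by linarith, hY, hYW, n1, n2, n3, i4, w, u2,
        (hs0.trans (D.join hij hw0 u1)).trans hs⟩
  · by_cases nd : (1 - 1 / K / 2) * m * Y ≤ W + Y
    · refine .inl ⟨?_, nd⟩
      have a1 := mul_le_mul_of_nonneg_right nd hX.le
      have : Y * ((1 - 1 / K / 2) * m * X) ≤ Y * (W - X) := by linarith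
      exact le_of_mul_le_mul_left this hY
    · refine .inr (.inr ?_)
      have eY' : ((j - 1 : ℤ) : ℝ) * D.g - u = Y - D.g := by push_cast; linarith
      have g1 : (D.g : ℝ) ≤ 1 / K / 4 * (Y - D.g) := by
        have a1 := walk_small hK hgK (show K ^ 6 / 2 ≤ Y - D.g by linarith)
        have a2 : 0 ≤ 1 / K * (Y - D.g) := mul_nonneg hh0.le (by linarith)
        linarith
      obtain ⟨n1, n2, n3, n4⟩ := walk_stepY (W := W) (m := m) (X := X) (Y := Y) (Y' := Y - D.g) hh0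
        hg0 (by linarith) rfl hX (by linarith) (by linarith) g1 (by linarith) i1 c (not_le.1 nd).le
      obtain ⟨p1, p2, q1, q2, q3, q4⟩ := hD.ineqs hP hl (by linarith) (i := i) (j := j)
        (i' := i) (j' := j - 1) eX.symm eY.symm eX.symm eY'.symm (by linarith) le_rfl
        (by linarith) hXu (by linarith) (by linarith) (by linarith) hYW i1 n2 t1 n4
      have hlt : i < j - 1 := by
        have : (i : ℝ) * D.g < ((j - 1 : ℤ) : ℝ) * D.g := by linarith
        exact_mod_cast lt_of_mul_lt_mul_right this hg0.le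
      obtain ⟨w, u1, u2, hs⟩ := D.widen hi le_rfl hlt (by omega) ha1 hc hk p1 p2 q1 q2 q3 q4
      refine ⟨hi, ?_⟩
      rw [eX, eY']
      exact ⟨hX, by linarith, by linarith, n1, n2, i3, n3, w, u2,
        (hs0.trans (D.join hij hw0 u1)).trans hs⟩

theorem UD.inv_start (D : UD) {K lam mu u W m : ℝ} (hP : Par K lam mu) (hl : K ^ 10 ≤ lam)
    (hD : D.OK K lam mu u W) (A : N2) (hA : toZ A = D.A) (hm : 4 ≤ m) (hW : K ^ 6 * m ≤ W) :
    ∃ j, D.Inv A K u W m 0 j := by
  have hK := hP.hK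
  have hK0 := hP.K_pos
  have hg0 := hD.g_pos hP
  have hu : 2 * u ≤ W + 1 := by linarith [(abs_le.1 hD.mid).2]
  have hu' : W - 1 ≤ 2 * u := by linarith [(abs_le.1 hD.mid).1]
  have hh0 : 0 < 1 / K := by positivity
  have hhK : 1 / K * K = 1 := by field_simp
  have hh1 : 1 / K ≤ 1 / 10000 := one_div_le_one_div_of_le (by norm_num) hK
  have hK6 : K ≤ K ^ 6 := le_self_pow₀ (by linarith) (by norm_num)
  have hK64 : 10000 * K ^ 4 ≤ K ^ 6 := by
    have a1 : K ≤ K ^ 2 := le_self_pow₀ (by linarith) (by norm_num)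
    calc 10000 * K ^ 4 ≤ K ^ 2 * K ^ 4 := mul_le_mul_of_nonneg_right (by linarith) (by positivity)
      _ = K ^ 6 := by ring
  have hK4 : 0 < K ^ 4 := by positivity
  have hW4 : K ^ 6 * 4 ≤ W := le_trans (mul_le_mul_of_nonneg_left hm (by positivity)) hW
  have hgK := hD.g_hi
  have hW0 : 0 < W := by linarith
  have hKW : 10000 * W ≤ K * W := mul_le_mul_of_nonneg_right hK hW0.le
  refine ⟨⌊(K * W + u) / D.g⌋, ?_⟩
  have j1 : (⌊(K * W + u) / D.g⌋ : ℝ) * D.g ≤ K * W + u := by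
    rw [← le_div_iff₀ hg0]
    exact Int.floor_le _
  have j2 : K * W + u < ((⌊(K * W + u) / D.g⌋ : ℝ) + 1) * D.g := by
    rw [← div_lt_iff₀ hg0]
    exact Int.lt_floor_add_one _
  generalize ⌊(K * W + u) / D.g⌋ = j at *
  have e0 : u - ((0 : ℤ) : ℝ) * D.g = u := by simp
  unfold UD.Inv
  rw [e0]
  generalize eY : j * D.g - u = Y at *
  have hYW : Y ≤ K * W := by linarith
  have hYW' : K * W / 2 ≤ Y := by linarith
  have hY0 : 0 < Y := by linarith
  have hu0 : 0 < u := by linarith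
  generalize eh : 1 / K = h at *
  have b1 : 1 ≤ h * u := by
    have := mul_le_mul_of_nonneg_left (show K ≤ u by linarith) hh0.le
    linarith
  have b2 : 1 ≤ h * (W - u) := by
    have := mul_le_mul_of_nonneg_left (show K ≤ W - u by linarith) hh0.le
    linarith
  have b3 : W ≤ 2 * h * Y := by
    have := mul_le_mul_of_nonneg_left hYW' hh0.le
    have e : h * (K * W / 2) = W / 2 := by linear_combination (W / 2) * hhK
    linarith
  have i1 : (W - u) * Y ≤ (1 + 4 * h) * ((W + Y) * u) := by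
    have a1 : (W - u) * Y ≤ (1 + 4 * h) * u * Y := mul_le_mul_of_nonneg_right (by linarith) hY0.le
    have a2 : 0 ≤ (1 + 4 * h) * (W * u) := by positivity
    linarith
  have i2 : (W + Y) * u ≤ (1 + 4 * h) * ((W - u) * Y) := by
    have a1 : W + Y ≤ (1 + 2 * h) * Y := by linarith
    have a2 : u ≤ (1 + h) * (W - u) := by linarith
    have a3 := mul_le_mul a1 a2 hu0.le (by positivity)
    have a4 : (1 + 2 * h) * (1 + h) ≤ 1 + 4 * h := by nlinarith
    have a5 := mul_le_mul_of_nonneg_right a4 (mul_pos (show 0 < W - u by linarith) hY0).le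
    linarith
  obtain ⟨p1, p2, q1, -, q3, -⟩ := hD.ineqs hP hl (by linarith) (i := 0) (j := j) (i' := 0)
    (j' := j) e0.symm eY.symm e0.symm eY.symm (by linarith) le_rfl (by linarith) le_rfl
    (by linarith) le_rfl (by linarith) hYW (by rwa [eh]) (by rwa [eh])
    (le_mul_of_one_le_left (mul_nonneg (by linarith) hu0.le) (by rw [eh]; linarith))
    (le_mul_of_one_le_left (by positivity) (by rw [eh]; linarith))
  have hj : 0 < j := by
    have : (0 : ℝ) * D.g < j * D.g := by linarith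
    exact_mod_cast lt_of_mul_lt_mul_right this hg0.le
  have h0 : 0 ≤ j * D.g * D.c - D.d := by
    have hc : (1 : ℝ) ≤ D.c := by exact_mod_cast hD.c_lo
    have a1 : (j : ℝ) * D.g * D.c - D.d = D.c * Y + mu := by
      rw [← eY]
      linear_combination hD.hW - hD.hd
    have a2 : (0 : ℝ) ≤ (j : ℝ) * D.g * D.c - D.d := by
      rw [a1]
      have c1 := mul_le_mul_of_nonneg_left hYW' (show (0 : ℝ) ≤ D.c by linarith)
      have c2 : K * (D.c * W) = K * (lam + mu) := by rw [hD.hW]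
      linarith [hP.sum_lo, hP.sum_pos, hP.lam_pos]
    exact_mod_cast a2
  have hjj : 0 ≤ j ^ 2 := sq_nonneg j
  obtain ⟨w, hw, hs⟩ := D.start hj (by exact_mod_cast hg0) (by linarith [hD.k_lo])
    (by simpa using p1) p2 A hA h0 (by simp only [sub_zero, zero_mul, add_zero] at q1; linarith)
    (by simp only [sub_zero, zero_mul, add_zero] at q3; linarith)
  refine ⟨le_rfl, hu0, hY0, hYW, i1, i2, ?_, ?_, w, hw, hs⟩
  · have := mul_le_mul_of_nonneg_right hm hu0.le
    linarith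
  · have := mul_le_mul_of_nonneg_right hm hY0.le
    linarith

/-- the walk along the family up to the relative slope `m` -/
theorem UD.walk (D : UD) {K lam mu u W m : ℝ} (hP : Par K lam mu) (hl : K ^ 10 ≤ lam)
    (hD : D.OK K lam mu u W) (A : N2) (hA : toZ A = D.A) (hm : 4 ≤ m) (hW : K ^ 6 * m ≤ W) :
    ∃ (i j : ℤ) (w : Fin 3 → ℤ), i < j ∧ D.Up i j w ∧ SSE A (D.C i j w) ∧
      0 < u - i * D.g ∧ 0 < j * D.g - u ∧
      (1 - 1 / (2 * K)) * m * (u - i * D.g) ≤ W - (u - i * D.g) ∧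
      W - (u - i * D.g) ≤ m * (u - i * D.g) ∧
      (1 - 1 / (2 * K)) * m * (j * D.g - u) ≤ W + (j * D.g - u) ∧
      W + (j * D.g - u) ≤ m * (j * D.g - u) := by
  have hg0 := hD.g_pos hP
  obtain ⟨j, h⟩ := D.inv_start hP hl hD A hA hm hW
  generalize (0 : ℤ) = i at h
  induction hn : (j - i).toNat using Nat.strong_induction_on generalizing i j with
  | _ n ih =>
    have hij := h.lt hg0
    rcases h.step hP hl hD hm hW with ⟨d1, d2⟩ | h' | h'
    · obtain ⟨-, hX, hY, -, -, -, i3, i4, w, hw, hs⟩ := h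
      exact ⟨i, j, w, hij, hw, hs, hX, hY, d1, i3, d2, i4⟩
    · exact ih _ (by omega) j (i + 1) h' rfl
    · exact ih _ (by omega) (j - 1) i h' rfl

end Pool.Agent.MP_993212_an.H65
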