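import Pool.Agent.MP_993212_an.H65.PWa

namespace Pool.Agent.MP_993212_an.H65

open Matrix Pool.Agent.MP_993212_an.H12

theorem exists_UD {F : Fr} {A : N2} {K lam mu : ℝ} (h : F.Is (toZ A) lam mu) (hP : Par K lam mu)
    (hc : 1 ≤ A 1 0) (h1 : A 0 0 ≤ A 1 1 + A 1 0) (h2 : A 1 1 ≤ A 0 0 + A 1 0) :
    ∃ D : UD, toZ A = D.A ∧ D.OK K lam mu ((lam - A 0 0) / A 1 0) ((lam + mu) / A 1 0) := by
  have hK := hP.hK
  have hK1 : (1 : ℝ) ≤ K ^ 4 := one_le_pow₀ (by linarith)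
  have htr := h.trace
  have hdet := h.detT
  simp only [toZ, Int.cast_natCast] at htr hdet
  have hcR : (1 : ℝ) ≤ A 1 0 := by exact_mod_cast hc
  have h1R : (A 0 0 : ℝ) ≤ A 1 1 + A 1 0 := by exact_mod_cast h1
  have h2R : (A 1 1 : ℝ) ≤ A 0 0 + A 1 0 := by exact_mod_cast h2
  have hc0 : (A 1 0 : ℝ) ≠ 0 := by linarith
  obtain ⟨g, hg⟩ : ∃ g : ℤ, g = ⌈K ^ 4⌉ := ⟨_, rfl⟩
  have hg1 : K ^ 4 ≤ g := hg ▸ Int.le_ceil _
  have hg2 : (g : ℝ) ≤ 2 * K ^ 4 := by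
    have := Int.ceil_lt_add_one (K ^ 4)
    rw [← hg] at this
    linarith
  have hgR : (0 : ℝ) < g := by linarith
  have hg0 : 0 < g := by exact_mod_cast hgR
  obtain ⟨u, hu⟩ : ∃ u : ℝ, u = (lam - A 0 0) / A 1 0 := ⟨_, rfl⟩
  obtain ⟨k, hk⟩ : ∃ k : ℤ, k = ((A 0 0 : ℤ) - 1) % g + 1 := ⟨_, rfl⟩
  obtain ⟨a1, ha1⟩ : ∃ a1 : ℤ, a1 = ((A 0 0 : ℤ) - 1) / g := ⟨_, rfl⟩
  obtain ⟨b1, hb1⟩ : ∃ b1 : ℤ, b1 = ⌈((A 0 1 : ℝ) - k * u) / g⌉ := ⟨_, rfl⟩
  have ea : g * a1 + k = A 0 0 := by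
    have := Int.mul_ediv_add_emod ((A 0 0 : ℤ) - 1) g
    rw [hk, ha1]
    linarith
  have k1 : 1 ≤ k := by
    have := Int.emod_nonneg ((A 0 0 : ℤ) - 1) hg0.ne'
    omega
  have k2 : k ≤ g := by
    have := Int.emod_lt_of_pos ((A 0 0 : ℤ) - 1) hg0
    omega
  have b_lo : (A 0 1 : ℝ) - k * u ≤ b1 * g := by
    rw [← div_le_iff₀ hgR, hb1]
    exact Int.le_ceil _
  have b_hi : (b1 - 1) * (g : ℝ) ≤ (A 0 1 : ℝ) - k * u := by
    rw [← le_div_iff₀ hgR]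
    have := Int.ceil_lt_add_one (((A 0 1 : ℝ) - k * u) / g)
    rw [← hb1] at this
    linarith
  have eaR : (g : ℝ) * a1 + k = A 0 0 := by exact_mod_cast ea
  refine ⟨⟨g, a1, b1, A 1 0, A 1 1, k, A 0 1 - g * b1⟩, ?_, ?_⟩
  · ext a b
    fin_cases a <;> fin_cases b <;> simp [toZ, UD.A, ea]
  · rw [← hu]
    refine ⟨hg1, hg2, k1, k2, ?_, ?_, ?_, ?_, ?_, ?_, ?_, ?_⟩
    · push_cast
      linarith
    · push_cast
      linarith
    · show (1 : ℤ) ≤ (A 1 0 : ℤ)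
      exact_mod_cast hc
    · simp only [Int.cast_natCast]
      rw [eaR, hu]
      field_simp
      ring
    · simp only [Int.cast_natCast]
      rw [hu]
      field_simp
      linear_combination htr
    · push_cast
      rw [hu]
      field_simp
      linear_combination (A 0 0 : ℝ) * htr - hdet
    · simp only [Int.cast_natCast]
      field_simp
    · have e : 2 * u - (lam + mu) / A 1 0 = ((A 1 1 : ℝ) - A 0 0) / A 1 0 := by
        rw [hu]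
        field_simp
        linear_combination (-1 : ℝ) * htr
      rw [e, abs_div, abs_of_pos (by linarith : (0 : ℝ) < A 1 0), div_le_one (by linarith), abs_le]
      constructor <;> linarith

/-- the numerical part of `pw` -/
theorem pw_num {K lam P N g p q : ℝ} (hK : 10000 ≤ K) (hl : K ^ 10 ≤ lam) (hP : K ^ 6 ≤ P)
    (hPl : P ≤ lam / 2) (hg : K ^ 4 ≤ g) (hg' : g ≤ 2 * K ^ 4) (hN0 : 0 ≤ N)
    (hN : N * g ≤ 5 / 2 * P) (hp : p ≤ g * (2 * P + 1)) (hq : 8 / 25 * (1 / K) ^ 2 * lam * P ≤ q) :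
    g * N ^ 2 + p ≤ q := by
  have hK0 : 0 < K := by linarith
  have k2 : 10000 ≤ K ^ 2 := by nlinarith
  have k4 : 0 < K ^ 4 := by positivity
  have k6 : 1 ≤ K ^ 6 := one_le_pow₀ (by linarith)
  have hP0 : 0 < P := by linarith
  have hl0 : 0 < lam := lt_of_lt_of_le (by positivity) hl
  have hg0 : 0 < g := by linarith
  have a1 : K ^ 4 * (g * N ^ 2) ≤ 25 / 8 * (lam * P) := by
    have b1 : K ^ 4 * (g * N ^ 2) ≤ (N * g) ^ 2 := by
      have : K ^ 4 * (g * N ^ 2) ≤ g * (g * N ^ 2) :=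
        mul_le_mul_of_nonneg_right hg (by positivity)
      nlinarith
    have b2 : (N * g) ^ 2 ≤ (5 / 2 * P) ^ 2 := pow_le_pow_left₀ (by positivity) hN 2
    nlinarith
  have a2 : K ^ 6 * p ≤ 6 * (lam * P) := by
    have b1 : p ≤ 6 * K ^ 4 * P := by
      have : g * (2 * P + 1) ≤ 2 * K ^ 4 * (3 * P) :=
        mul_le_mul hg' (by linarith) (by positivity) (by positivity)
      linarith
    have b2 : K ^ 6 * p ≤ K ^ 6 * (6 * K ^ 4 * P) := mul_le_mul_of_nonneg_left b1 (by positivity)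
    have b3 : K ^ 10 * P ≤ lam * P := mul_le_mul_of_nonneg_right hl hP0.le
    nlinarith
  have hlP : 0 < lam * P := by positivity
  have a3 : K ^ 2 * (g * N ^ 2) ≤ 1 / 10 * (lam * P) := by
    have b1 : 10000 * (K ^ 2 * (g * N ^ 2)) ≤ K ^ 2 * (K ^ 2 * (g * N ^ 2)) :=
      mul_le_mul_of_nonneg_right k2 (by positivity)
    nlinarith
  have a4 : K ^ 2 * p ≤ 1 / 10 * (lam * P) := by
    rcases le_total p 0 with hp0 | hp0
    · have : K ^ 2 * p ≤ 0 := mul_nonpos_of_nonneg_of_nonpos (by positivity) hp0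
      linarith
    · have b0 : 10000 ≤ K ^ 4 := by nlinarith
      have b1 : 10000 * (K ^ 2 * p) ≤ K ^ 4 * (K ^ 2 * p) :=
        mul_le_mul_of_nonneg_right b0 (by positivity)
      nlinarith
  have a5 : 8 / 25 * (lam * P) ≤ K ^ 2 * q := by
    have := mul_le_mul_of_nonneg_left hq (by positivity : 0 ≤ K ^ 2)
    have e : K ^ 2 * (8 / 25 * (1 / K) ^ 2 * lam * P) = 8 / 25 * (lam * P) := by
      field_simp
    linarith
  have : K ^ 2 * (g * N ^ 2 + p) ≤ K ^ 2 * q := by linarith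
  exact le_of_mul_le_mul_left this (by positivity)

/-- a covector with margin pairs robustly with a vector of slope at most one -/
theorem pair_ge {F : Fr} {T : M2} {lam mu a : ℝ} (h : F.Is T lam mu) (ha : a ≤ 1) {r s : V}
    (hr : F.dual.InCone (1 - a) (1 - a) r) (hs : F.InCone 1 1 s) :
    a * F.dual.X r * F.X s ≤ ((r ⬝ᵥ s : ℤ) : ℝ) := by
  rw [h.pair]
  obtain ⟨s0, s1, s2⟩ := hs
  obtain ⟨r0, r1, r2⟩ := hr
  have hb : 0 ≤ (1 - a) * F.dual.X r := mul_nonneg (by linarith) r0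
  rcases le_total 0 (F.dual.Y r) with hy | hy
  · have a1 : - (F.dual.Y r * F.Y s) ≤ F.dual.Y r * F.X s := by nlinarith
    have a2 : F.dual.Y r * F.X s ≤ (1 - a) * F.dual.X r * F.X s :=
      mul_le_mul_of_nonneg_right r1 s0
    nlinarith
  · have a1 : - (F.dual.Y r * F.Y s) ≤ - F.dual.Y r * F.X s := by nlinarith
    have a2 : - F.dual.Y r * F.X s ≤ (1 - a) * F.dual.X r * F.X s :=
      mul_le_mul_of_nonneg_right r2 s0
    nlinarith

theorem pw_tr {a m P W t r : ℝ} (ha0 : 0 < a) (ha1 : a ≤ 1 / 10000) (hm4 : 4 ≤ m) (hP0 : 0 < P)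
    (hWm : W = P * m) (t0 : 0 < t) (r0 : 0 < r) (t1 : (1 - a / 2) * m * t ≤ W - t)
    (t2 : W - t ≤ m * t) (r1 : (1 - a / 2) * m * r ≤ W + r) (r2 : W + r ≤ m * r) :
    4 / 5 * P ≤ t ∧ t ≤ 11 / 10 * P ∧ 4 / 5 * P ≤ r ∧ r ≤ 7 / 5 * P := by
  have hm0 : 0 < m := by linarith
  have bt : 4 * t ≤ m * t := mul_le_mul_of_nonneg_right hm4 t0.le
  have br : 4 * r ≤ m * r := mul_le_mul_of_nonneg_right hm4 r0.le
  subst hWm
  refine ⟨?_, ?_, ?_, ?_⟩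
  · have : m * (4 / 5 * P) ≤ m * t := by linarith
    exact le_of_mul_le_mul_left this hm0
  · have b : 10 / 11 * (m * t) ≤ (1 - a / 2) * (m * t) :=
      mul_le_mul_of_nonneg_right (by linarith) (by positivity)
    have : m * t ≤ m * (11 / 10 * P) := by linarith
    exact le_of_mul_le_mul_left this hm0
  · have : m * P ≤ m * r := by linarith
    have := le_of_mul_le_mul_left this hm0
    linarith
  · have b : 99 / 100 * (m * r) ≤ (1 - a / 2) * (m * r) :=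
      mul_le_mul_of_nonneg_right (by linarith) (by positivity)
    have : m * r ≤ m * (7 / 5 * P) := by linarith
    exact le_of_mul_le_mul_left this hm0

theorem pw_slope {c m t v x q : ℝ} (hv : 0 ≤ v) (hmv : m * v = x) (h1 : c * m * t ≤ q)
    (h2 : q ≤ m * t) : c * (x * t) ≤ v * q ∧ v * q ≤ x * t := by
  have a1 := mul_le_mul_of_nonneg_left h1 hv
  have a2 := mul_le_mul_of_nonneg_left h2 hv
  subst hmv
  constructor <;> linarith

theorem pw_dec (s : V) (p q γ : ℤ) (g0 : 0 ≤ γ)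
    (g1 : γ = if 0 ≤ s 1 then s 0 + p * s 1 else s 0 + q * s 1) :
    s = (s 1).toNat • (![-p, 1] : V) + (- s 1).toNat • (![q, -1] : V) +
      γ.toNat • (![1, 0] : V) := by
  have q3 : ((γ.toNat : ℕ) : ℤ) = γ := Int.toNat_of_nonneg g0
  simp only [← natCast_zsmul, q3]
  funext b
  by_cases hk : 0 ≤ s 1
  · rw [if_pos hk] at g1
    have q1 : (((s 1).toNat : ℕ) : ℤ) = s 1 := Int.toNat_of_nonneg hk
    have q2 : (((- s 1).toNat : ℕ) : ℤ) = 0 := by omega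
    rw [q1, q2, g1]
    fin_cases b <;> simp
    ring
  · rw [if_neg hk] at g1
    have q1 : (((s 1).toNat : ℕ) : ℤ) = 0 := by omega
    have q2 : (((- s 1).toNat : ℕ) : ℤ) = - s 1 := by omega
    rw [q1, q2, g1]
    fin_cases b <;> simp
    ring

theorem pw_gam {a z X Y c d g : ℝ} (ha0 : 0 < a) (c0 : 0 ≤ X) (c1 : Y ≤ (1 - a) * X)
    (hc : 0 < c) (hz : z ≤ c) (hd : (1 - a / 2) * c ≤ d) (hg : g = X * d - Y * c) :
    a / 2 * z * X ≤ g := by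
  have b1 := mul_le_mul_of_nonneg_left hd c0
  have b2 := mul_le_mul_of_nonneg_right c1 hc.le
  have b3 : a / 2 * X * z ≤ a / 2 * X * c := mul_le_mul_of_nonneg_left hz (by positivity)
  linarith

theorem pw_pass {K P g k y u i j t r : ℝ} (hK : 10000 ≤ K) (hP6 : K ^ 6 ≤ P) (g1 : K ^ 4 ≤ g)
    (g2 : g ≤ 2 * K ^ 4) (k1 : 1 ≤ k) (k2 : k ≤ g) (y1 : k * u - g ≤ y) (y2 : y ≤ k * u)
    (hte : t = u - i * g) (hre : r = j * g - u) (t_lo : 4 / 5 * P ≤ t) (t_hi : t ≤ 11 / 10 * P)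
    (r_lo : 4 / 5 * P ≤ r) (r_hi : r ≤ 7 / 5 * P) :
    0 < g ∧ 0 ≤ y - i * g * k ∧ 0 ≤ j * g * k - y ∧ y - i * g * k ≤ g * (2 * P + 1) ∧
      j * g * k - y ≤ g * (2 * P + 1) ∧ (j - i) * g ≤ 5 / 2 * P := by
  have hK0 : 0 < K := by linarith
  have k4 : 0 < K ^ 4 := by positivity
  have k6 : 0 < K ^ 6 := by positivity
  have gR : 0 < g := by linarith
  have t0 : 0 < t := by linarith
  have r0 : 0 < r := by linarith
  have gt : g ≤ t := by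
    have b1 : 10000 ≤ K ^ 2 := by nlinarith
    have b2 : 10000 * K ^ 4 ≤ K ^ 2 * K ^ 4 := mul_le_mul_of_nonneg_right b1 k4.le
    have b3 : K ^ 2 * K ^ 4 = K ^ 6 := by ring
    linarith
  have ept : k * u - i * g * k = k * t := by rw [hte]; ring
  have epr : j * g * k - k * u = k * r := by rw [hre]; ring
  have kt1 : 1 * t ≤ k * t := mul_le_mul_of_nonneg_right k1 t0.le
  have kt2 : k * t ≤ g * t := mul_le_mul_of_nonneg_right k2 t0.le
  have kr1 : 0 ≤ k * r := by positivity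
  have kr2 : k * r ≤ g * r := mul_le_mul_of_nonneg_right k2 r0.le
  have gt2 : g * t ≤ g * (2 * P) := mul_le_mul_of_nonneg_left (by linarith) gR.le
  have gr2 : g * r ≤ g * (2 * P) := mul_le_mul_of_nonneg_left (by linarith) gR.le
  have hN : (j - i) * g = t + r := by rw [hte, hre]; ring
  refine ⟨gR, ?_, ?_, ?_, ?_, ?_⟩ <;> linarith

theorem pw_P {K lam W x v : ℝ} (hK0 : 0 < K) (hxp : 0 < x) (hvp : 0 < v) (e1 : x * v * W = 1)
    (hx : x ≤ 1 / K ^ 3) (hy : v ≤ x / 4) (hW2 : W ≤ 2 * lam) :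
    ∃ m P : ℝ, m * v = x ∧ 4 ≤ m ∧ P * x ^ 2 = 1 ∧ 0 < P ∧ W = P * m ∧ K ^ 6 ≤ P ∧
      P ≤ lam / 2 := by
  have hm4 : 4 ≤ x / v := by rw [le_div_iff₀ hvp]; linarith
  have hP0 : 0 < 1 / x ^ 2 := by positivity
  have hWm : W = 1 / x ^ 2 * (x / v) := by
    field_simp
    linear_combination e1
  refine ⟨x / v, 1 / x ^ 2, by field_simp, hm4, by field_simp, hP0, hWm, ?_, ?_⟩
  · rw [le_div_iff₀ (by positivity)]
    have a1 : x * K ^ 3 ≤ 1 := by rwa [le_div_iff₀ (by positivity)] at hx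
    have a2 : (x * K ^ 3) ^ 2 ≤ 1 ^ 2 := pow_le_pow_left₀ (by positivity) a1 2
    linarith
  · have := mul_le_mul_of_nonneg_left hm4 hP0.le
    linarith

theorem pw_fr {F : Fr} {A : N2} {lam mu u W : ℝ} (h : F.Is (toZ A) lam mu)
    (hc0 : (A 1 0 : ℝ) ≠ 0) (hu : u = (lam - A 0 0) / A 1 0) (hW : W = (lam + mu) / A 1 0) :
    F.x 1 = u * F.x 0 ∧ F.y 1 = (W - u) * - F.y 0 := by
  constructor
  · have := h.X_mulVec ![1, 0]
    simp only [Fr.X, mulVec, dot2, toZ] at this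
    simp at this
    rw [hu]
    field_simp
    linear_combination this
  · have := h.Y_mulVec ![1, 0]
    simp only [Fr.Y, mulVec, dot2, toZ] at this
    simp at this
    rw [hu, hW]
    field_simp
    linear_combination this

theorem pw_XY {F : Fr} {u W x v : ℝ} (e0 : x = F.x 0) (ex1 : F.x 1 = u * x) (ey0 : F.y 0 = - v)
    (ey1 : F.y 1 = (W - u) * v) (p q : ℤ) :
    F.X ![-p, 1] = x * (u - p) ∧ F.Y ![-p, 1] = v * (W - (u - p)) ∧
      F.X ![q, -1] = x * (q - u) ∧ F.Y ![q, -1] = - (v * (W + (q - u))) ∧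
      F.X ![1, 0] = x ∧ F.Y ![1, 0] = - v := by
  simp only [Fr.X, Fr.Y, ex1, ey0, ey1, ← e0]
  refine ⟨?_, ?_, ?_, ?_, ?_, ?_⟩ <;> simp <;> ring

theorem ten_regroup {ι κ : Type} [Fintype ι] [Fintype κ] (S3 R3 : ι → V) (S R : κ → V)
    (n : ι → κ → ℕ) (hSn : ∀ k, S k = ∑ s, n s k • S3 s) (hR3 : ∀ s, R3 s = ∑ k, n s k • R k) :
    ten S3 R3 = ten S R := by
  ext b c
  simp only [ten]
  have e1 : ∀ s, S3 s b * R3 s c = ∑ k, (n s k : ℤ) * S3 s b * R k c := by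
    intro s
    rw [hR3, Finset.sum_apply, Finset.mul_sum]
    refine Finset.sum_congr rfl fun k _ => ?_
    rw [Pi.smul_apply, nsmul_eq_mul]
    ring
  have e2 : ∀ k, S k b * R k c = ∑ s, (n s k : ℤ) * S3 s b * R k c := by
    intro k
    rw [hSn k, Finset.sum_apply, Finset.sum_mul]
    refine Finset.sum_congr rfl fun s _ => ?_
    rw [Pi.smul_apply, nsmul_eq_mul]
  simp only [e1, e2]
  exact Finset.sum_comm

theorem pw_deep {F : Fr} {T : M2} {lam mu a z : ℝ} (h : F.Is T lam mu) (ha0 : 0 < a) (ha : a ≤ 1)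
    (hz0 : 0 < z) {S R : Fin 4 → V} (hm : F.Mar T a S R) (n : Fin 4 → ℕ)
    (hn : ∀ k, a / 2 * z * F.X (S k) ≤ n k) {s : V} (hs : F.InCone 1 1 s) (hz : z ≤ F.X s) :
    a ^ 2 / 2 * z ^ 2 * lam ≤ (((∑ k, n k • R k) ⬝ᵥ s : ℤ) : ℝ) := by
  rw [nsmul_sum_dot, Int.cast_sum, ← h.ten_XX hm.1, Finset.mul_sum]
  refine Finset.sum_le_sum fun k _ => ?_
  rw [Int.cast_mul, Int.cast_natCast]
  have b0 := (hm.2.2 k).1
  have b1 : a * F.dual.X (R k) * z ≤ ((R k ⬝ᵥ s : ℤ) : ℝ) :=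
    (mul_le_mul_of_nonneg_left hz (by positivity)).trans (pair_ge h ha (hm.2.2 k) hs)
  have := mul_le_mul (hn k) b1 (by positivity) (Nat.cast_nonneg _)
  linarith

theorem pw_core {F : Fr} {A : N2} {K lam mu : ℝ} (h : F.Is (toZ A) lam mu) (hP : Par K lam mu)
    (hl : K ^ 10 ≤ lam) (hc : 1 ≤ A 1 0) (h1 : A 0 0 ≤ A 1 1 + A 1 0) (h2 : A 1 1 ≤ A 0 0 + A 1 0)
    (hx0 : 0 ≤ F.x 0) (hy0 : F.y 0 ≤ 0)
    (hx : F.x 0 ≤ 1 / K ^ 3) (hy : - F.y 0 ≤ F.x 0 / 4) {S R : Fin 4 → V}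
    (hm : F.Mar (toZ A) (1 / K) S R) : SSE (cm S R) A := by
  have hK := hP.hK
  have hK0 := hP.K_pos
  obtain ⟨D, hA, hD⟩ := exists_UD h hP hc h1 h2
  obtain ⟨u, hu⟩ : ∃ u : ℝ, u = (lam - A 0 0) / A 1 0 := ⟨_, rfl⟩
  obtain ⟨W, hW⟩ : ∃ W : ℝ, W = (lam + mu) / A 1 0 := ⟨_, rfl⟩
  rw [← hu, ← hW] at hD
  have hcR : (1 : ℝ) ≤ A 1 0 := by exact_mod_cast hc
  have hlm : 0 < lam + mu := hP.sum_pos
  have hW0 : 0 < W := hW ▸ div_pos hlm (by linarith)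
  have hW2 : W ≤ 2 * lam := by
    have := div_le_self hlm.le hcR
    linarith [hP.mu_le]
  obtain ⟨ex1, ey1⟩ := pw_fr h (by linarith) hu hW
  clear hu hW hcR hlm hc h1 h2
  obtain ⟨x, hxe⟩ : ∃ x, x = F.x 0 := ⟨_, rfl⟩
  obtain ⟨v, hve⟩ : ∃ v, v = - F.y 0 := ⟨_, rfl⟩
  have ey0 : F.y 0 = - v := by rw [hve, neg_neg]
  have hv0 : 0 ≤ v := hve ▸ neg_nonneg.2 hy0
  rw [← hxe] at hx0 hx hy ex1
  rw [← hve] at hy ey1
  have ee : F.e = x * v * W := by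
    simp only [Fr.e]
    rw [ex1, ey1, ey0, ← hxe]
    ring
  have e1 : x * v * W = 1 := by
    have : 0 ≤ x * v * W := mul_nonneg (mul_nonneg hx0 hv0) hW0.le
    rcases h.e_cases with h' | h'
    · rw [← ee, h']
    · rw [← ee, h'] at this
      norm_num at this
  have he : F.e = 1 := ee.trans e1
  have hxp : 0 < x := lt_of_le_of_ne hx0 (by rintro rfl; simp at e1)
  have hvp : 0 < v := lt_of_le_of_ne hv0 (by rintro rfl; simp at e1)
  obtain ⟨m, P, hmv, hm4, hPx, hP0, hWm, hP6, hPl⟩ := pw_P hK0 hxp hvp e1 hx hy hW2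
  obtain ⟨i, j, w, hij, hup, hsse, t0, r0, t1, t2, r1, r2⟩ :=
    D.walk hP hl hD A hA hm4
      (hWm ▸ mul_le_mul_of_nonneg_right hP6 (le_trans (by norm_num) hm4))
  obtain ⟨X0, Y0, X1, Y1, X2, Y2⟩ := pw_XY hxe ex1 ey0 ey1 (i * D.g) (j * D.g)
  push_cast at X0 Y0 X1 Y1
  obtain ⟨a, hae⟩ : ∃ a, a = 1 / K := ⟨_, rfl⟩
  have ha2 : 1 / (2 * K) = a / 2 := by rw [hae, div_div, mul_comm]
  have ha0 : 0 < a := hae ▸ one_div_pos.2 hK0
  have ha1 : a ≤ 1 / 10000 := hae ▸ one_div_le_one_div_of_le (by norm_num) hK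
  have ha3 : a ≤ 1 := ha1.trans (by norm_num)
  rw [ha2] at t1 r1
  rw [← hae] at hm
  obtain ⟨t, hte⟩ : ∃ t, t = u - i * D.g := ⟨_, rfl⟩
  obtain ⟨r, hre⟩ : ∃ r, r = j * D.g - u := ⟨_, rfl⟩
  rw [← hte] at t0 t1 t2 X0 Y0
  rw [← hre] at r0 r1 r2 X1 Y1
  obtain ⟨t_lo, t_hi, r_lo, r_hi⟩ := pw_tr ha0 ha1 hm4 hP0 hWm t0 r0 t1 t2 r1 r2
  obtain ⟨s0l, s0u⟩ := pw_slope hv0 hmv t1 t2
  obtain ⟨s1l, s1u⟩ := pw_slope hv0 hmv r1 r2
  obtain ⟨gR, p1, p2, p3, p4, hN⟩ := pw_pass hK hP6 hD.g_lo hD.g_hi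
    (show (1 : ℝ) ≤ D.k by exact_mod_cast hD.k_lo)
    (show (D.k : ℝ) ≤ D.g by exact_mod_cast hD.k_hi) hD.y_lo hD.y_hi hte hre t_lo t_hi r_lo r_hi
  have hxt : 0 < x * t := mul_pos hxp t0
  have hxr : 0 < x * r := mul_pos hxp r0
  obtain ⟨z, hze⟩ : ∃ z, z = x * (4 / 5 * P) := ⟨_, rfl⟩
  have hz0 : 0 < z := hze ▸ mul_pos hxp (mul_pos (by norm_num) hP0)
  have hzt : z ≤ x * t := hze ▸ mul_le_mul_of_nonneg_left t_lo hx0
  have hzr : z ≤ x * r := hze ▸ mul_le_mul_of_nonneg_left r_lo hx0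
  have ez : 8 / 25 * (1 / K) ^ 2 * lam * P = a ^ 2 / 2 * z ^ 2 * lam := by
    rw [← hae, hze]
    linear_combination (-(8 / 25) * a ^ 2 * lam * P) * hPx
  clear t1 t2 r1 r2 t_lo t_hi r_lo r_hi hte hre hae ha2 ee e1 hmv hPx hWm hze ex1 ey1 ey0 hve hxe
    hx hy0 hW2
  obtain ⟨S3, hS3⟩ : ∃ S3 : Fin 3 → V, S3 = ![![-(i * D.g), 1], ![j * D.g, -1], ![1, 0]] :=
    ⟨_, rfl⟩
  have c0 : F.InCone 1 1 ![-(i * D.g), 1] := by
    have b0 : 0 ≤ (1 - a / 2) * (x * t) := mul_nonneg (by linarith only [ha3]) hxt.le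
    refine ⟨?_, ?_, ?_⟩ <;> simp only [X0, Y0] <;> linarith only [b0, s0l, s0u, hxt]
  have c1 : F.InCone 1 1 ![j * D.g, -1] := by
    have b0 : 0 ≤ (1 - a / 2) * (x * r) := mul_nonneg (by linarith only [ha3]) hxr.le
    refine ⟨?_, ?_, ?_⟩ <;> simp only [X1, Y1] <;> linarith only [b0, s1l, s1u, hxr]
  have c2 : F.InCone 1 1 ![1, 0] := by
    refine ⟨?_, ?_, ?_⟩ <;> simp only [X2, Y2] <;> linarith only [hy, hxp, hvp]
  have hcone : ∀ s, F.InCone 1 1 (S3 s) := by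
    intro s
    rw [hS3]
    fin_cases s
    exacts [c0, c1, c2]
  obtain ⟨γ, hγ⟩ : ∃ γ : Fin 4 → ℤ, ∀ k, γ k =
      if 0 ≤ S k 1 then S k 0 + i * D.g * S k 1 else S k 0 + j * D.g * S k 1 := ⟨_, fun _ => rfl⟩
  have γ_lo : ∀ k, a / 2 * z * F.X (S k) ≤ γ k := by
    intro k
    obtain ⟨d0, d1, d2⟩ := hm.2.1 k
    rw [hγ]
    split_ifs with hk
    · have e : S k 0 + i * D.g * S k 1 = det2 (S k) ![-(i * D.g), 1] := by
        simp only [det2, cons_val_zero, cons_val_one]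
        ring
      refine pw_gam ha0 d0 d1 hxt hzt s0l ?_
      rw [e, h.det2_eq, he, X0, Y0, one_mul]
    · have e : S k 0 + j * D.g * S k 1 = det2 ![j * D.g, -1] (S k) := by
        simp only [det2, cons_val_zero, cons_val_one]
        ring
      refine pw_gam ha0 d0 d2 hxr hzr s1l ?_
      rw [e, h.det2_eq, he, X1, Y1]
      ring
  have γ0 : ∀ k, 0 ≤ γ k := by
    intro k
    have b : 0 ≤ a / 2 * z * F.X (S k) :=
      mul_nonneg (mul_nonneg (half_pos ha0).le hz0.le) (hm.2.1 k).1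
    have : (0 : ℝ) ≤ γ k := b.trans (γ_lo k)
    exact_mod_cast this
  obtain ⟨n, hn⟩ : ∃ n : Fin 3 → Fin 4 → ℕ,
      n = ![fun k => (S k 1).toNat, fun k => (- S k 1).toNat, fun k => (γ k).toNat] := ⟨_, rfl⟩
  have hSn : ∀ k, S k = ∑ s, n s k • S3 s := by
    intro k
    rw [Fin.sum_univ_three, hn, hS3]
    exact pw_dec (S k) _ _ (γ k) (γ0 k) (hγ k)
  have hpos : ∀ k s, 0 ≤ R k ⬝ᵥ S3 s := fun k s =>
    h.pair_nonneg (hcone s) (hm.2.2 k) zero_le_one zero_le_one (by linarith only [ha0])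
      (by linarith only [ha0])
  obtain ⟨R3, hR3⟩ : ∃ R3 : Fin 3 → V, ∀ s, R3 s = ∑ k, n s k • R k := ⟨_, fun _ => rfl⟩
  have step1 : SSE (cm S R) (cm S3 R3) := lemX S3 R n S R3 hSn hR3 hpos
  have hten : ten S3 R3 = D.A := by rw [ten_regroup S3 R3 S R n hSn hR3, hm.1, hA]
  have hpos3 : ∀ s s', 0 ≤ R3 s ⬝ᵥ S3 s' := by
    intro s s'
    rw [hR3, nsmul_sum_dot]
    exact Finset.sum_nonneg fun k _ => mul_nonneg (Int.natCast_nonneg _) (hpos k s')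
  have deep : ∀ s, z ≤ F.X (S3 s) →
      8 / 25 * (1 / K) ^ 2 * lam * P ≤ ((R3 2 ⬝ᵥ S3 s : ℤ) : ℝ) := by
    intro s hs
    rw [hR3, ez]
    refine pw_deep h ha0 ha3 hz0 hm (n 2) (fun k => ?_) (hcone s) hs
    have q3 : ((n 2 k : ℕ) : ℤ) = γ k := by
      rw [hn]
      exact Int.toNat_of_nonneg (γ0 k)
    have := γ_lo k
    rw [← q3] at this
    exact_mod_cast this
  have hijR : (0 : ℝ) ≤ j - i := sub_nonneg.2 (by exact_mod_cast hij.le)
  obtain ⟨w', hup', step2⟩ := D.descent hij (by exact_mod_cast gR) (zero_le_one.trans hD.k_lo)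
    (by exact_mod_cast p1) (by exact_mod_cast p2) S3 R3 hS3 hten hpos3
    (by
      have := pw_num hK hl hP6 hPl hD.g_lo hD.g_hi hijR hN p3
        (deep 0 (by rw [hS3]; exact hzt.trans X0.ge))
      exact_mod_cast this)
    (by
      have := pw_num hK hl hP6 hPl hD.g_lo hD.g_hi hijR hN p4
        (deep 1 (by rw [hS3]; exact hzr.trans X1.ge))
      exact_mod_cast this)
  exact (step1.trans (step2.trans (D.join hij hup' hup))).trans hsse.symm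

/-- if the first basis vector is short and inside the cone, every configuration with margins is
equivalent to the matrix itself -/
theorem pw {F : Fr} {A : N2} {K lam mu : ℝ} (h : F.Is (toZ A) lam mu) (hP : Par K lam mu)
    (hl : K ^ 10 ≤ lam) (hc : 1 ≤ A 1 0) (h1 : A 0 0 ≤ A 1 1 + A 1 0) (h2 : A 1 1 ≤ A 0 0 + A 1 0)
    (hx : |F.x 0| ≤ 1 / K ^ 3) (hy : |F.y 0| ≤ |F.x 0| / 4) {S R : Fin 4 → V}
    (hm : F.Mar (toZ A) (1 / K) S R) : SSE (cm S R) A := by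
  have key : ∀ {F : Fr}, F.Is (toZ A) lam mu → 0 ≤ F.x 0 → |F.x 0| ≤ 1 / K ^ 3 →
      |F.y 0| ≤ |F.x 0| / 4 → ∀ {S R : Fin 4 → V}, F.Mar (toZ A) (1 / K) S R →
      SSE (cm S R) A := by
    intro F h hx0 hx hy S R hm
    rw [abs_of_nonneg hx0] at hx hy
    rcases le_total (F.y 0) 0 with hy0 | hy0
    · rw [abs_of_nonpos hy0] at hy
      exact pw_core h hP hl hc h1 h2 hx0 hy0 hx hy hm
    · rw [abs_of_nonneg hy0] at hy
      exact pw_core h.negy hP hl hc h1 h2 hx0 (neg_nonpos.2 hy0) hx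
        (show - - F.y 0 ≤ F.x 0 / 4 by rwa [neg_neg]) hm.negy
  rcases le_total 0 (F.x 0) with hx0 | hx0
  · exact key h hx0 hx hy hm
  · rw [← cm_neg]
    exact key h.negx (neg_nonneg.2 hx0) (show |- F.x 0| ≤ _ by rwa [abs_neg])
      (show |F.y 0| ≤ |- F.x 0| / 4 by rwa [abs_neg]) hm.negx

end Pool.Agent.MP_993212_an.H65
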