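import Pool.Agent.MP_993212_an.H65.Chain

namespace Pool.Agent.MP_993212_an.H65

open Matrix Pool.Agent.MP_993212_an.H12

/-- positive off-diagonal entries -/
def RR (T : M2) : Prop := 0 < T 0 1 ∧ 0 < T 1 0

def disc (T : M2) : ℤ := (T 0 0 - T 1 1) ^ 2 + 4 * (T 0 1 * T 1 0)

/-- an elementary equivalence over the integers with a bounded nonnegative left factor -/
def Edge (N : ℤ) (T T' : M2) : Prop :=
  ∃ H S : M2, (∀ i j, 0 ≤ H i j ∧ H i j ≤ N) ∧ T = H * S ∧ T' = S * H

def Adj (N : ℤ) (A B : M2) : Prop := RR A ∧ RR B ∧ (Edge N A B ∨ Edge N B A)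

/-- the binary form attached to a matrix -/
def qf (T : M2) (m n : ℤ) : ℤ := T 1 0 * m ^ 2 + (T 1 1 - T 0 0) * (m * n) - T 0 1 * n ^ 2

theorem qf_conj {T T' H : M2} (h : T * H = H * T') :
    T' 1 0 * H.det = qf T (H 0 0) (H 1 0) ∧ T' 0 1 * H.det = -qf T (H 0 1) (H 1 1) := by
  have e00 := congrFun (congrFun h 0) 0
  have e01 := congrFun (congrFun h 0) 1
  have e10 := congrFun (congrFun h 1) 0
  have e11 := congrFun (congrFun h 1) 1
  simp only [Matrix.mul_apply, Fin.sum_univ_two] at e00 e01 e10 e11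
  simp only [det_fin_two, qf]
  constructor
  · linear_combination H 1 0 * e00 - H 0 0 * e10
  · linear_combination H 0 1 * e11 - H 1 1 * e01

theorem qf_ne {T : M2} (hD : ¬ IsSquare (disc T)) {m n : ℤ} (hn : n ≠ 0) :
    qf T m n ≠ 0 := by
  intro h0
  apply hD
  rw [← Rat.isSquare_intCast_iff]
  have hn' : (n : ℚ) ≠ 0 := by exact_mod_cast hn
  refine ⟨((2 * T 1 0 * m + (T 1 1 - T 0 0) * n : ℤ) : ℚ) / n, ?_⟩
  have e : disc T * n ^ 2 = (2 * T 1 0 * m + (T 1 1 - T 0 0) * n) ^ 2 := by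
    simp only [qf] at h0
    simp only [disc]
    linear_combination (-4 * T 1 0) * h0
  rw [div_mul_div_comm, eq_div_iff (mul_ne_zero hn' hn')]
  exact_mod_cast (by linear_combination e)

theorem form_mono {b c k m n m' n' : ℤ} (hb : 0 < b) (hc : 0 < c) (hm : 0 ≤ m) (hn : 0 ≤ n)
    (hm' : 0 ≤ m') (hn' : 0 ≤ n') (h1 : 0 < c * m ^ 2 + k * (m * n) - b * n ^ 2)
    (h2 : c * m' ^ 2 + k * (m' * n') - b * n' ^ 2 < 0) : n * m' < m * n' := by
  by_contra hle
  rw [not_lt] at hle
  have m0 : 0 < m := by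
    refine lt_of_le_of_ne hm fun h0 => ?_
    subst h0
    nlinarith [sq_nonneg n]
  have n0 : 0 < n' := by
    refine lt_of_le_of_ne hn' fun h0 => ?_
    subst h0
    nlinarith [sq_nonneg m']
  have p0 : 0 < n * m' := lt_of_lt_of_le (mul_pos m0 n0) hle
  have n1 : 0 < n := pos_of_mul_pos_left p0 hm'
  have m1 : 0 < m' := pos_of_mul_pos_right p0 hn
  have a1 := mul_pos h1 (mul_pos m1 n0)
  have a2 := mul_pos (neg_pos.2 h2) (mul_pos m0 n1)
  have a3 := mul_nonneg (mul_pos hc (mul_pos m0 m1)).le (sub_nonneg.2 hle)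
  have a4 := mul_nonneg (mul_pos hb (mul_pos n1 n0)).le (sub_nonneg.2 hle)
  nlinarith

theorem disc_eq (T : M2) : disc T = T.trace ^ 2 - 4 * T.det := by
  simp only [disc, trace_fin_two, det_fin_two]
  ring

theorem ZC.disc_eq {A B : M2} (h : ZC A B) : disc A = disc B := by
  rw [H65.disc_eq, H65.disc_eq, h.trace_det.1, h.trace_det.2]

theorem zc_conj {T T' U W : M2} (hUW : U * W = 1) (h : T * U = U * T') : ZC T T' := by
  refine Relation.ReflTransGen.single ⟨U, W * T, ?_, ?_⟩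
  · rw [← Matrix.mul_assoc, hUW, Matrix.one_mul]
  · rw [Matrix.mul_assoc, h, ← Matrix.mul_assoc, mul_eq_one_comm.mp hUW, Matrix.one_mul]

theorem Adj.symm {N : ℤ} {A B : M2} (h : Adj N A B) : Adj N B A := ⟨h.2.1, h.1, h.2.2.symm⟩

theorem chain_symm {N : ℤ} {A B : M2} (h : Relation.ReflTransGen (Adj N) A B) :
    Relation.ReflTransGen (Adj N) B A := by
  induction h with
  | refl => exact .refl
  | tail _ h ih => exact .head h.symm ih

theorem edge_conj {N : ℤ} {T E F : M2} (hE : ∀ i j, 0 ≤ E i j ∧ E i j ≤ N) (h : E * F = 1) :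
    Edge N T (F * T * E) :=
  ⟨E, F * T, hE, by rw [← Matrix.mul_assoc, h, Matrix.one_mul], rfl⟩

theorem inter_conj {T E F : M2} (h : E * F = 1) : T * E = E * (F * T * E) := by
  rw [← Matrix.mul_assoc, ← Matrix.mul_assoc, h, Matrix.one_mul]

theorem inter_step {T T' E F U : M2} (h : E * F = 1) (h' : T * U = U * T') :
    F * T * E * (F * U) = F * U * T' := by
  rw [Matrix.mul_assoc, ← Matrix.mul_assoc E, h, Matrix.one_mul, Matrix.mul_assoc, h',
    Matrix.mul_assoc]

theorem river_pos {N : ℤ} (hN : 1 ≤ N) (n : ℕ) : ∀ {T T' U : M2}, RR T → RR T' →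
    ¬ IsSquare (disc T) → (∀ i j, 0 ≤ U i j) → U.det = 1 → T * U = U * T' →
    U 0 0 + U 0 1 + U 1 0 + U 1 1 ≤ n → Relation.ReflTransGen (Adj N) T T' := by
  induction n with
  | zero =>
    intro T T' U _ _ _ hU hd _ hn
    have := hU 0 0
    have := hU 0 1
    have := hU 1 0
    have := hU 1 1
    have a : U 0 0 = 0 := by omega
    have b : U 0 1 = 0 := by omega
    simp [det_fin_two, a, b] at hd
  | succ n ih =>
    intro T T' U hT hT' hD hU hd h hn
    have p0 := hU 0 0
    have r0 := hU 0 1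
    have q0 := hU 1 0
    have s0 := hU 1 1
    obtain ⟨hv, hw⟩ := qf_conj h
    rw [hd, mul_one] at hv hw
    have hv' : 0 < qf T (U 0 0) (U 1 0) := hv ▸ hT'.2
    have hw' : qf T (U 0 1) (U 1 1) < 0 := by have := hT'.1; omega
    have h11 := qf_ne hD (m := 1) (n := 1) one_ne_zero
    have hd' := hd
    rw [det_fin_two] at hd'
    have qr := mul_nonneg r0 q0
    have s1 : 0 < U 1 1 := lt_of_le_of_ne s0 fun h0 => by rw [← h0] at hd'; omega
    have p1 : 0 < U 0 0 := lt_of_le_of_ne p0 fun h0 => by rw [← h0] at hd'; omega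
    by_cases c1 : U 1 0 ≤ U 0 0 ∧ U 1 1 ≤ U 0 1
    · have hE : (!![1, 1; 0, 1] : M2) * !![1, -1; 0, 1] = 1 := by decide
      have hq : qf T 1 1 < 0 := by
        refine lt_of_le_of_ne (not_lt.1 fun hq => ?_) h11
        have := form_mono hT.1 hT.2 zero_le_one zero_le_one r0 s0 hq hw'
        omega
      obtain ⟨e1, e2⟩ := qf_conj (inter_conj (T := T) hE)
      have hR : RR (!![1, -1; 0, 1] * T * !![1, 1; 0, 1]) := by
        simp only [det_fin_two_of, of_apply, cons_val', cons_val_zero, cons_val_one,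
          cons_val_fin_one] at e1 e2
        have := hT.2
        have e3 : qf T 1 0 = T 1 0 := by simp [qf]
        constructor <;> omega
      refine .head ⟨hT, hR, Or.inl (edge_conj (fun i j => ?_) hE)⟩
        (ih hR hT' ?_ (fun i j => ?_) ?_ (inter_step hE h) ?_)
      · fin_cases i <;> fin_cases j <;> simp <;> omega
      · rwa [← (zc_conj hE (inter_conj hE)).disc_eq]
      · fin_cases i <;> fin_cases j <;> simp [Matrix.mul_apply, Fin.sum_univ_two] <;> omega
      · rw [det_mul, hd]; simp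
      · simp [Matrix.mul_apply, Fin.sum_univ_two]; omega
    by_cases c2 : U 0 0 ≤ U 1 0 ∧ U 0 1 ≤ U 1 1
    · have hE : (!![1, 0; 1, 1] : M2) * !![1, 0; -1, 1] = 1 := by decide
      have hq : 0 < qf T 1 1 := by
        refine lt_of_le_of_ne (not_lt.1 fun hq => ?_) h11.symm
        have := form_mono hT.1 hT.2 p0 q0 zero_le_one zero_le_one hv' hq
        omega
      obtain ⟨e1, e2⟩ := qf_conj (inter_conj (T := T) hE)
      have hR : RR (!![1, 0; -1, 1] * T * !![1, 0; 1, 1]) := by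
        simp only [det_fin_two_of, of_apply, cons_val', cons_val_zero, cons_val_one,
          cons_val_fin_one] at e1 e2
        have := hT.1
        have e3 : qf T 0 1 = -T 0 1 := by simp [qf]
        constructor <;> omega
      refine .head ⟨hT, hR, Or.inl (edge_conj (fun i j => ?_) hE)⟩
        (ih hR hT' ?_ (fun i j => ?_) ?_ (inter_step hE h) ?_)
      · fin_cases i <;> fin_cases j <;> simp <;> omega
      · rwa [← (zc_conj hE (inter_conj hE)).disc_eq]
      · fin_cases i <;> fin_cases j <;> simp [Matrix.mul_apply, Fin.sum_univ_two] <;> omega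
      · rw [det_mul, hd]; simp
      · simp [Matrix.mul_apply, Fin.sum_univ_two]; omega
    have c3 : U 1 0 < U 0 0 ∧ U 0 1 < U 1 1 := by
      by_contra c3
      have a1 : U 0 0 + 1 ≤ U 1 0 := by omega
      have a2 : U 1 1 + 1 ≤ U 0 1 := by omega
      nlinarith [mul_le_mul a2 a1 (by omega) r0]
    have a3 := mul_le_mul (show U 1 0 + 1 ≤ U 0 0 from c3.1) (show U 0 1 + 1 ≤ U 1 1 from c3.2)
      (by omega) p0
    have q1 : U 1 0 = 0 := by nlinarith
    have r1 : U 0 1 = 0 := by nlinarith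
    rw [r1, zero_mul, sub_zero] at hd'
    have p2 : U 0 0 = 1 := Int.eq_one_of_mul_eq_one_right p0 hd'
    have s2 : U 1 1 = 1 := Int.eq_one_of_mul_eq_one_left s0 hd'
    have hU1 : U = 1 := by
      ext i j
      fin_cases i <;> fin_cases j <;> simp [q1, r1, p2, s2]
    rw [hU1, Matrix.mul_one, Matrix.one_mul] at h
    rw [h]

theorem river_pos' {N : ℤ} (hN : 1 ≤ N) {T T' U : M2} (hT : RR T) (hT' : RR T')
    (hD : ¬ IsSquare (disc T)) (hU : ∀ i j, 0 ≤ U i j) (hd : U.det = 1) (h : T * U = U * T') :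
    Relation.ReflTransGen (Adj N) T T' :=
  river_pos hN (U 0 0 + U 0 1 + U 1 0 + U 1 1).toNat hT hT' hD hU hd h (Int.self_le_toNat _)

theorem river_two {N : ℤ} (hN : 1 ≤ N) {T T' U : M2} (hT : RR T) (hT' : RR T')
    (hD : ¬ IsSquare (disc T)) (hp : 0 < U 0 0) (hd : U.det = 1) (h : T * U = U * T') :
    Relation.ReflTransGen (Adj N) T T' := by
  obtain ⟨hv, hw⟩ := qf_conj h
  rw [hd, mul_one] at hv hw
  have hv' : 0 < qf T (U 0 0) (U 1 0) := hv ▸ hT'.2
  have hw' : qf T (U 0 1) (U 1 1) < 0 := by have := hT'.1; omega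
  have hd' := hd
  rw [det_fin_two] at hd'
  simp only [qf] at hv' hw'
  have hs : 0 < U 1 1 := by
    by_contra hs
    rw [not_lt] at hs
    have ps := mul_nonneg hp.le (neg_nonneg.2 hs)
    rcases le_total 0 (U 1 0) with hq | hq
    · have hr : U 0 1 ≤ 0 := by
        by_contra hr
        nlinarith [mul_nonneg (not_le.1 hr).le hq]
      have := form_mono (k := T 1 1 - T 0 0) hT.1 hT.2 hp.le hq (neg_nonneg.2 hr)
        (neg_nonneg.2 hs) hv' (by linarith)
      linarith
    · have hr : 0 ≤ U 0 1 := by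
        by_contra hr
        nlinarith [mul_nonneg (neg_nonneg.2 (not_le.1 hr).le) (neg_nonneg.2 hq)]
      have := form_mono (k := T 0 0 - T 1 1) hT.1 hT.2 hp.le (neg_nonneg.2 hq) hr
        (neg_nonneg.2 hs) (by linarith) (by linarith)
      linarith
  have qr : 0 ≤ U 0 1 * U 1 0 := by nlinarith [mul_pos hp hs]
  rcases mul_nonneg_iff.1 qr with ⟨hr, hq⟩ | ⟨hr, hq⟩
  · refine river_pos' hN hT hT' hD (fun i j => ?_) hd h
    fin_cases i <;> fin_cases j <;> simp <;> omega
  · have h1 : U * U.adjugate = 1 := by rw [mul_adjugate, hd, one_smul]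
    have h2 : U.adjugate * U = 1 := by rw [adjugate_mul, hd, one_smul]
    refine chain_symm (river_pos' (U := U.adjugate) hN hT' hT ?_ (fun i j => ?_) ?_ ?_)
    · rwa [← (zc_conj h1 h).disc_eq]
    · rw [adjugate_fin_two]
      fin_cases i <;> fin_cases j <;> simp <;> omega
    · rw [det_adjugate, hd, one_pow]
    · calc T' * U.adjugate = U.adjugate * (U * T') * U.adjugate := by
            rw [← Matrix.mul_assoc, h2, Matrix.one_mul]
        _ = U.adjugate * T := by
            rw [← h, Matrix.mul_assoc, Matrix.mul_assoc, h1, Matrix.mul_one]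

theorem river_one {N : ℤ} (hN : 1 ≤ N) {T T' U : M2} (hT : RR T) (hT' : RR T')
    (hD : ¬ IsSquare (disc T)) (hd : U.det = 1) (h : T * U = U * T') :
    Relation.ReflTransGen (Adj N) T T' := by
  rcases lt_trichotomy 0 (U 0 0) with hp | hp | hp
  · exact river_two hN hT hT' hD hp hd h
  · obtain ⟨hv, -⟩ := qf_conj h
    rw [hd, mul_one, ← hp] at hv
    have := hT'.2
    have := hT.1
    simp only [qf] at hv
    nlinarith [sq_nonneg (U 1 0)]
  · refine river_two (U := -U) hN hT hT' hD (by simpa using hp) (by simp [det_neg, hd]) ?_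
    rw [Matrix.mul_neg, Matrix.neg_mul, h]

/-- unimodularly conjugate matrices with positive off-diagonal entries are joined by shears -/
theorem river {T T' U W : M2} {N : ℤ} (hN : 1 ≤ N) (hT : RR T) (hT' : RR T')
    (hD : ¬ IsSquare (disc T)) (hUW : U * W = 1) (h : T * U = U * T') :
    Relation.ReflTransGen (Adj N) T T' := by
  have hd : U.det * W.det = 1 := by rw [← det_mul, hUW, det_one]
  rcases Int.eq_one_or_neg_one_of_mul_eq_one hd with hd | hd
  · exact river_one hN hT hT' hD hd h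
  · have hE : (!![0, 1; 1, 0] : M2) * !![0, 1; 1, 0] = 1 := by decide
    obtain ⟨e1, e2⟩ := qf_conj (inter_conj (T := T) hE)
    have hR : RR (!![0, 1; 1, 0] * T * !![0, 1; 1, 0]) := by
      simp only [det_fin_two_of, of_apply, cons_val', cons_val_zero, cons_val_one,
        cons_val_fin_one] at e1 e2
      have := hT.1
      have := hT.2
      have e3 : qf T 0 1 = -T 0 1 := by simp [qf]
      have e4 : qf T 1 0 = T 1 0 := by simp [qf]
      constructor <;> omega
    refine .head ⟨hT, hR, Or.inl (edge_conj (fun i j => ?_) hE)⟩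
      (river_one hN hR hT' ?_ ?_ (inter_step hE h))
    · fin_cases i <;> fin_cases j <;> simp <;> omega
    · rwa [← (zc_conj hE (inter_conj hE)).disc_eq]
    · rw [det_mul, hd]; simp

theorem descent {T : M2} (hT : RR T) (hD : ¬ IsSquare (disc T)) (n : ℕ) : ∀ G : M2,
    0 ≤ G 0 1 → G 0 1 < G 0 0 → 0 ≤ G 1 0 → G 1 0 ≤ G 1 1 → G 0 0 ≤ G.det →
    0 < qf T (G 0 0) (G 1 0) → G 0 0 ≤ n →
    ∃ U : M2, U.det = 1 ∧ (∀ i j, 0 ≤ (G * U) i j ∧ (G * U) i j ≤ G.det) ∧
      0 < qf T ((G * U) 0 0) ((G * U) 1 0) ∧ qf T ((G * U) 0 1) ((G * U) 1 1) < 0 := by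
  induction n with
  | zero =>
    intro G h1 h2 _ _ _ _ hn
    omega
  | succ n ih =>
    intro G h1 h2 h3 h4 h5 h6 hn
    have hd := det_fin_two G
    have a1 := mul_le_mul_of_nonneg_left h4 h1
    have a2 := mul_le_mul_of_nonneg_right (show G 0 1 + 1 ≤ G 0 0 from h2) (h3.trans h4)
    have h7 : G 1 1 ≤ G.det := by nlinarith
    have h8 : G 1 1 ≠ 0 := by
      intro h0
      have : G 1 0 = 0 := by omega
      rw [h0, this] at hd
      omega
    rcases lt_or_gt_of_ne (qf_ne hD (m := G 0 1) h8) with hq | hq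
    · refine ⟨1, det_one, fun i j => ?_, by rwa [Matrix.mul_one], by rwa [Matrix.mul_one]⟩
      rw [Matrix.mul_one]
      fin_cases i <;> fin_cases j <;> simp <;> omega
    · have w0 : 0 < G 0 1 := by
        refine lt_of_le_of_ne h1 fun h0 => ?_
        rw [← h0] at hq
        simp only [qf] at hq
        nlinarith [sq_nonneg (G 1 1), hT.1]
      obtain ⟨k, hk1, hk2⟩ : ∃ k : ℤ, G 0 0 ≤ G 0 1 * k ∧ G 0 1 * k < G 0 0 + G 0 1 := by
        refine ⟨-(-G 0 0 / G 0 1), ?_, ?_⟩
        · nlinarith [Int.emod_add_mul_ediv (-G 0 0) (G 0 1), Int.emod_nonneg (-G 0 0) w0.ne']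
        · nlinarith [Int.emod_add_mul_ediv (-G 0 0) (G 0 1), Int.emod_lt_of_pos (-G 0 0) w0]
      have k2 : 2 ≤ k := by
        by_contra hk
        nlinarith [mul_le_mul_of_nonneg_left (show k ≤ 1 by omega) h1]
      have hE : (!![0, -1; 1, k] : M2).det = 1 := by simp
      have e00 : (G * !![0, -1; 1, k]) 0 0 = G 0 1 := by simp [Matrix.mul_apply]
      have e01 : (G * !![0, -1; 1, k]) 0 1 = -G 0 0 + G 0 1 * k := by simp [Matrix.mul_apply]
      have e10 : (G * !![0, -1; 1, k]) 1 0 = G 1 1 := by simp [Matrix.mul_apply]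
      have e11 : (G * !![0, -1; 1, k]) 1 1 = -G 1 0 + G 1 1 * k := by simp [Matrix.mul_apply]
      have ed : (G * !![0, -1; 1, k]).det = G.det := by rw [det_mul, hE, mul_one]
      obtain ⟨U, u1, u2, u3, u4⟩ := ih (G * !![0, -1; 1, k]) (by omega) (by omega) (by omega)
        (by rw [e10, e11]; nlinarith [mul_le_mul_of_nonneg_left k2 (h3.trans h4)])
        (by omega) (by rwa [e00, e10]) (by omega)
      rw [Matrix.mul_assoc, ed] at u2
      rw [Matrix.mul_assoc] at u3 u4
      exact ⟨_, by rw [det_mul, hE, u1, mul_one], u2, u3, u4⟩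

theorem hermite {H : M2} (hH : H.det ≠ 0) : ∃ U : M2, IsUnit U.det ∧ 0 ≤ (H * U) 0 1 ∧
    (H * U) 0 1 < (H * U) 0 0 ∧ (H * U) 1 0 = 0 ∧ 0 < (H * U) 1 1 := by
  rw [det_fin_two] at hH
  have hg : 0 < Int.gcd (H 1 0) (H 1 1) := by
    refine Int.gcd_pos_iff.2 ?_
    by_contra h0
    rw [not_or, not_not, not_not] at h0
    simp [h0.1, h0.2] at hH
  obtain ⟨a, b, hab, ha, hb⟩ := Int.exists_gcd_one hg
  obtain ⟨x, y, hxy⟩ := Int.isCoprime_iff_gcd_eq_one.2 hab
  have g0 : (0 : ℤ) < Int.gcd (H 1 0) (H 1 1) := by exact_mod_cast hg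
  generalize (Int.gcd (H 1 0) (H 1 1) : ℤ) = g at ha hb g0
  have hp : H 0 0 * b - H 0 1 * a ≠ 0 := by
    intro h0
    apply hH
    rw [ha, hb]
    linear_combination g * h0
  set p := H 0 0 * b - H 0 1 * a with hp'
  set q := H 0 0 * x + H 0 1 * y with hq'
  have hs : p.sign * p.sign = 1 := by
    rcases lt_or_gt_of_ne hp with h | h
    · rw [Int.sign_eq_neg_one_of_neg h]; rfl
    · rw [Int.sign_eq_one_of_pos h]; rfl
  have e00 : (H * !![p.sign * b, x - q / p * b; -(p.sign * a), y + q / p * a]) 0 0 = |p| := by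
    rw [← Int.sign_mul_self_eq_abs]
    simp only [Matrix.mul_apply, Fin.sum_univ_two, of_apply, cons_val', cons_val_zero,
      cons_val_one, cons_val_fin_one]
    linear_combination -p.sign * hp'
  have e01 : (H * !![p.sign * b, x - q / p * b; -(p.sign * a), y + q / p * a]) 0 1 = q % p := by
    rw [Int.emod_def]
    simp only [Matrix.mul_apply, Fin.sum_univ_two, of_apply, cons_val', cons_val_zero,
      cons_val_one, cons_val_fin_one]
    linear_combination -hq' + q / p * hp'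
  refine ⟨!![p.sign * b, x - q / p * b; -(p.sign * a), y + q / p * a], ?_, ?_, ?_, ?_, ?_⟩
  · refine IsUnit.of_mul_eq_one p.sign ?_
    rw [det_fin_two_of]
    linear_combination hs + p.sign * p.sign * hxy
  · rw [e01]; exact Int.emod_nonneg _ hp
  · rw [e01, e00]; exact Int.emod_lt_abs _ hp
  · simp only [Matrix.mul_apply, Fin.sum_univ_two, of_apply, cons_val', cons_val_zero,
      cons_val_one, cons_val_fin_one]
    rw [ha, hb]; ring
  · simp only [Matrix.mul_apply, Fin.sum_univ_two, of_apply, cons_val', cons_val_zero,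
      cons_val_one, cons_val_fin_one]
    rw [ha, hb]
    have : a * g * (x - q / p * b) + b * g * (y + q / p * a) = g := by
      linear_combination g * hxy
    rwa [this]

theorem det_ne_of_disc {T : M2} (hD : ¬ IsSquare (disc T)) : T.det ≠ 0 := by
  intro h0
  apply hD
  rw [disc_eq, h0]
  exact ⟨T.trace, by ring⟩

/-- an elementary step can be realised with a bounded nonnegative factor -/
theorem exists_edge {T H S : M2} (hT : RR T) (hD : ¬ IsSquare (disc T)) (h : T = H * S) :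
    ∃ U W : M2, U * W = 1 ∧ RR (W * (S * H) * U) ∧ Edge |T.det| T (W * (S * H) * U) := by
  have hd := det_ne_of_disc hD
  have hH : H.det ≠ 0 := by
    intro h0
    apply hd
    rw [h, det_mul, h0, zero_mul]
  obtain ⟨U₀, u0, a1, a2, a3, a4⟩ := hermite hH
  have dG : (H * U₀).det = (H * U₀) 0 0 * (H * U₀) 1 1 := by rw [det_fin_two, a3]; ring
  have p0 : 0 < (H * U₀) 0 0 := by omega
  obtain ⟨U₁, u1, b1, b2, b3⟩ := descent hT hD ((H * U₀) 0 0).toNat (H * U₀) a1 a2 a3.ge
    (by omega) (by rw [dG]; nlinarith) (by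
      rw [a3]
      simp only [qf]
      nlinarith [mul_pos hT.2 (pow_pos p0 2)]) (Int.self_le_toNat _)
  rw [Matrix.mul_assoc] at b1 b2 b3
  have u2 : IsUnit (U₀ * U₁).det := by rwa [det_mul, u1, mul_one]
  have d1 : (H * (U₀ * U₁)).det = (H * U₀).det := by
    rw [← Matrix.mul_assoc, det_mul _ U₁, u1, mul_one]
  rw [← d1] at b1
  have d0 : 0 < (H * (U₀ * U₁)).det := by rw [d1, dG]; exact mul_pos p0 a4
  generalize U₀ * U₁ = U at b1 b2 b3 u2 d0
  have hUW := mul_nonsing_inv U u2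
  have e1 : T = H * U * (U⁻¹ * S) := by
    rw [Matrix.mul_assoc, ← Matrix.mul_assoc U, hUW, Matrix.one_mul, h]
  have e2 : U⁻¹ * (S * H) * U = U⁻¹ * S * (H * U) := by simp only [Matrix.mul_assoc]
  have e3 : T * (H * U) = H * U * (U⁻¹ * (S * H) * U) := by
    rw [e2, ← Matrix.mul_assoc (H * U), ← e1]
  obtain ⟨c1, c2⟩ := qf_conj e3
  have le : (H * U).det ≤ |T.det| := by
    refine Int.le_of_dvd (abs_pos.2 hd) ((dvd_abs _ _).2 ⟨(U⁻¹ * S).det, ?_⟩)
    rw [← det_mul, ← e1]
  refine ⟨U, U⁻¹, hUW, ⟨?_, ?_⟩, H * U, U⁻¹ * S, fun i j => ⟨(b1 i j).1, (b1 i j).2.trans le⟩,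
    e1, e2⟩
  · exact pos_of_mul_pos_left (by omega) d0.le
  · exact pos_of_mul_pos_left (by omega) d0.le

theorem zc_of_adj {N : ℤ} {T T' : M2} (h : Relation.ReflTransGen (Adj N) T T') : ZC T T' := by
  induction h with
  | refl => exact .refl
  | tail _ h ih =>
    rcases h.2.2 with ⟨H, S, -, h1, h2⟩ | ⟨H, S, -, h1, h2⟩
    · exact .tail ih ⟨H, S, h1, h2⟩
    · exact .tail ih ⟨S, H, h2, h1⟩

theorem zc_iff_adj {T T' : M2} (hT : RR T) (hT' : RR T') (hD : ¬ IsSquare (disc T)) :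
    ZC T T' ↔ Relation.ReflTransGen (Adj |T.det|) T T' := by
  refine ⟨fun h => ?_, zc_of_adj⟩
  have key : ∀ {B : M2}, ZC T B → ∃ A U W : M2, U * W = 1 ∧ RR A ∧
      Relation.ReflTransGen (Adj |T.det|) T A ∧ A * U = U * B := by
    intro B hB
    unfold ZC at hB
    induction hB with
    | refl => exact ⟨T, 1, 1, Matrix.mul_one _, hT, .refl, by simp⟩
    | tail _ h ih =>
      obtain ⟨H, S, h1, h2⟩ := h
      obtain ⟨A, U, W, hUW, hA, hc, e⟩ := ih
      have z := zc_of_adj hc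
      have e1 : A = U * H * (S * W) := by
        rw [Matrix.mul_assoc, ← Matrix.mul_assoc H, ← h1, ← Matrix.mul_assoc, ← e,
          Matrix.mul_assoc, hUW, Matrix.mul_one]
      obtain ⟨U', W', hUW', hR, hE⟩ := exists_edge hA (z.disc_eq ▸ hD) e1
      have e2 : S * W * (U * H) = S * H := by
        rw [Matrix.mul_assoc, ← Matrix.mul_assoc W, mul_eq_one_comm.mp hUW, Matrix.one_mul]
      rw [e2, ← h2] at hR hE
      rw [← z.trace_det.2] at hE
      refine ⟨_, W', U', mul_eq_one_comm.mp hUW', hR, hc.tail ⟨hA, hR, Or.inl hE⟩, ?_⟩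
      rw [Matrix.mul_assoc, hUW', Matrix.mul_one]
  obtain ⟨A, U, W, hUW, hA, hc, e⟩ := key h
  exact hc.trans (river (Int.one_le_abs (det_ne_of_disc hD)) hA hT'
    ((zc_of_adj hc).disc_eq ▸ hD) hUW e)

end Pool.Agent.MP_993212_an.H65
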