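import Pool.Agent.MP_993212_an.H65.Lattice
import Pool.Agent.MP_993212_an.H65.Mix

namespace Pool.Agent.MP_993212_an.H65

open Matrix Pool.Agent.MP_993212_an.H12

theorem Fr.InCone.of_scale {F F' : Fr} {s s' : V} {a b c : ℝ} (h : F'.InCone a b s') (hc : 0 ≤ c)
    (hx : F.X s = c * F'.X s') (hy : F.Y s = c * F'.Y s') : F.InCone a b s := by
  obtain ⟨h0, h1, h2⟩ := h
  refine ⟨?_, ?_, ?_⟩
  · rw [hx]
    exact mul_nonneg hc h0
  · rw [hx, hy]
    have := mul_le_mul_of_nonneg_left h1 hc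
    linarith
  · rw [hx, hy]
    have := mul_le_mul_of_nonneg_left h2 hc
    linarith

theorem mul_le_of_sq {g P lam : ℝ} (h1 : g ^ 2 ≤ lam) (h2 : P ^ 2 ≤ lam) :
    g * P ≤ lam := by
  nlinarith [sq_nonneg (g - P)]

theorem Par.slope {K lam mu : ℝ} (hP : Par K lam mu) :
    |mu| / (lam * ((1 - 1 / K) * (1 - 1 / K))) + 1 / K ≤ 1 - 1 / K := by
  have hK := hP.hK
  have hl := hP.lam_pos
  have hg := hP.abs_gap
  have h0 : 0 < 1 / K := by positivity
  have h1 : 1 / K ≤ 1 / 10000 := one_div_le_one_div_of_le (by norm_num) hK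
  have e : 10 / K = 10 * (1 / K) := by ring
  rw [e] at hg
  generalize 1 / K = t at h0 h1 hg
  have hp : 0 < lam * ((1 - t) * (1 - t)) := mul_pos hl (mul_pos (by linarith) (by linarith))
  have key : |mu| / (lam * ((1 - t) * (1 - t))) ≤ 1 - 2 * t := by
    rw [div_le_iff₀ hp]
    have : 1 - 10 * t ≤ (1 - 2 * t) * ((1 - t) * (1 - t)) := by
      nlinarith [mul_nonneg h0.le h0.le, mul_nonneg (mul_nonneg h0.le h0.le) (by linarith : 0 ≤ 1 - t)]
    have := mul_le_mul_of_nonneg_right this hl.le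
    linarith
  linarith

/-- a configuration that is central for both lattices -/
theorem exists_mixed {F : Fr} {H G : M2} {K lam mu g E : ℝ} (h : F.Is (H * G) lam mu)
    (hP : Par K lam mu) (hl : K ^ 1600 ≤ lam) (hg : 1 ≤ g) (hgH : g ^ 2 = |(H.det : ℝ)|)
    (hgl : g ^ 2 ≤ lam) (hb : (F.pull lam mu H G g).Bal 6) (hE : F.dual.Cover E)
    (hEl : g * E * K ^ 1544 ≤ lam) :
    ∃ S Q : Fin 4 → V, F.Cen (H * G) (1 / K) (K ^ 308) (fun i => H *ᵥ S i) Q ∧
      (F.pull lam mu H G g).Cen (G * H) (1 / K) (K ^ 308) S (fun i => Q i ᵥ* H) := by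
  have hK := hP.hK
  have hK0 := hP.K_pos
  have hK1 : 1 ≤ K := by linarith
  have hl0 := hP.lam_pos
  have hm0 := hP.mu_ne
  have hg0 : 0 < g := by linarith
  have h' := h.pull hl0.ne' hm0 hgH
  have t0 : 0 < 1 / K := by positivity
  have t1 : 1 / K ≤ 1 / 10000 := one_div_le_one_div_of_le (by norm_num) hK
  have hE0 : 0 ≤ E := by
    obtain ⟨s, hs, -⟩ := hE 0 0
    exact (abs_nonneg _).trans hs
  have hA1 : 1 ≤ K ^ 308 := one_le_pow₀ hK1
  obtain ⟨S0, hS0, hS2⟩ := h'.exists_base (E := 6) (a := 1 - 1 / K) (t := 1 / K) (A := K ^ 308) hb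
    (by norm_num) (by linarith) (by linarith) t0 (by linarith) hA1
  have hM : K ^ 308 + 26 * 6 / (1 / K) ≤ 2 * K ^ 308 := by
    have e : 26 * 6 / (1 / K) = 156 * K := by field_simp; norm_num
    have h2 : K ^ 2 ≤ K ^ 308 := pow_le_pow_right₀ hK1 (by norm_num)
    rw [e]
    nlinarith
  have hM1 : 1 ≤ K ^ 308 + 26 * 6 / (1 / K) := by
    have : 0 ≤ 26 * 6 / (1 / K) := by positivity
    linarith
  generalize K ^ 308 + 26 * 6 / (1 / K) = M at hS0 hM hM1
  have hc : ∀ u v : ℝ, ∃ r : V, |(F.pull lam mu H G g).dual.X (r ᵥ* H) - u| ≤ g * E ∧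
      |(F.pull lam mu H G g).dual.Y (r ᵥ* H) - v| ≤ g * E := by
    intro u v
    obtain ⟨r, hr1, hr2⟩ := hE (u / g) (v / g)
    refine ⟨r, ?_, ?_⟩
    · rw [h.pull_dual_X hl0.ne']
      have e : g * F.dual.X r - u = g * (F.dual.X r - u / g) := by field_simp
      rw [e, abs_mul, abs_of_pos hg0]
      exact mul_le_mul_of_nonneg_left hr1 hg0.le
    · rw [h.pull_dual_Y hm0]
      have e : g * F.dual.Y r - v = g * (F.dual.Y r - v / g) := by field_simp
      rw [e, abs_mul, abs_of_pos hg0]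
      exact mul_le_mul_of_nonneg_left hr2 hg0.le
  have hE' : 1024 * M ^ 5 * (g * E) ≤ (1 / K) ^ 2 * lam := by
    have a1 : M ^ 5 ≤ (2 * K ^ 308) ^ 5 := pow_le_pow_left₀ (by linarith) hM 5
    have a2 : (2 * K ^ 308) ^ 5 = 32 * K ^ 1540 := by
      rw [mul_pow, ← pow_mul]
      norm_num
    have a3 : K ^ 1544 = K ^ 1540 * K ^ 2 * K ^ 2 := by
      rw [← pow_add, ← pow_add]
    have a4 : 32768 ≤ K ^ 2 := by nlinarith
    have a5 : 0 ≤ K ^ 1540 := by positivity
    have a6 : 0 ≤ g * E := by positivity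
    rw [a2] at a1
    rw [a3] at hEl
    have e : (1 / K) ^ 2 * lam = lam / K ^ 2 := by field_simp
    rw [e, le_div_iff₀ (by positivity)]
    generalize K ^ 1540 = P at a1 a5 hEl
    generalize K ^ 2 = Q at a4 hEl
    generalize g * E = D at a6 hEl
    generalize M ^ 5 = N at a1
    have b1 : 1024 * N * D * Q ≤ 1024 * (32 * P) * D * Q := by gcongr
    have b2 : 32768 * (D * (P * Q)) ≤ Q * (D * (P * Q)) :=
      mul_le_mul_of_nonneg_right a4 (by positivity)
    nlinarith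
  obtain ⟨Q, hQ, hQc, hQ2⟩ := h'.mix hP.abs_lt hS0 hM1 (by nlinarith) (by linarith) t0
    (by linarith) hc hE'
  have hsl := hP.slope
  have hQc' : ∀ j, (F.pull lam mu H G g).dual.InCone (1 - 1 / K) (1 - 1 / K) (Q j ᵥ* H) :=
    fun j => (hQc j).mono hsl hsl
  have hbig : g * K ^ 308 ≤ lam / (8 * M) := by
    have a1 : g * K ^ 800 ≤ lam :=
      mul_le_of_sq hgl (by rw [← pow_mul]; exact hl)
    have a2 : K ^ 308 * K ^ 308 * K ≤ K ^ 800 := by
      rw [← pow_add, ← pow_succ]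
      exact pow_le_pow_right₀ hK1 (by norm_num)
    rw [le_div_iff₀ (by linarith)]
    generalize K ^ 800 = P at a1 a2
    generalize K ^ 308 = A at *
    have b1 : g * A * (8 * M) ≤ g * A * (8 * (2 * A)) := by gcongr
    have b2 : g * (A * A * K) ≤ g * P := by gcongr
    have b3 : g * (A * A) * 16 ≤ g * (A * A) * K := by gcongr; linarith
    nlinarith
  have hgi : 0 ≤ 1 / g := by positivity
  refine ⟨S0, Q, ⟨⟨?_, fun j => ?_, fun j => ?_⟩, 2, ?_, ?_⟩, ⟨⟨?_, hS0.cone, hQc'⟩, 2, hS2, ?_⟩⟩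
  · have := ten_mul H 1 S0 Q
    simp only [vecMul_one, Matrix.mul_one, hQ] at this
    exact this
  · refine (hS0.cone j).of_scale hg0.le ?_ ?_
    · rw [Fr.pull_X]
      field_simp
    · rw [Fr.pull_Y]
      field_simp
  · refine (hQc' j).of_scale hgi ?_ ?_
    · rw [h.pull_dual_X hl0.ne']
      field_simp
    · rw [h.pull_dual_Y hm0]
      field_simp
  · rw [Fr.pull_X, le_div_iff₀ hg0] at hS2
    nlinarith
  · rw [h.pull_dual_X hl0.ne'] at hQ2
    exact le_of_mul_le_mul_left (hbig.trans hQ2) hg0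
  · have := ten_mul 1 H S0 Q
    simp only [one_mulVec, Matrix.one_mul, hQ] at this
    exact this
  · refine le_trans ?_ (hbig.trans hQ2)
    nlinarith

end Pool.Agent.MP_993212_an.H65
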