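import Pool.Agent.MP_993212_an.H65.Local
import Pool.Agent.MP_993212_an.H65.PWU

namespace Pool.Agent.MP_993212_an.H65

open Matrix Pool.Agent.MP_993212_an.H12

theorem inCone_of_abs {F : Fr} {a : ℝ} {s : V} (h0 : 0 ≤ F.X s) (h : |F.Y s| ≤ a * F.X s) :
    F.InCone a a s :=
  ⟨h0, (le_abs_self _).trans h, (neg_le_abs _).trans h⟩

/-- the real inequalities behind the explicit configuration -/
theorem step2b_real {η lam mu g M c P Q x y xf yf α β γ δ : ℝ} (hη : 0 < η) (hη1 : η ≤ 1 / 10000)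
    (hlam : 0 < lam) (hgap : |mu| ≤ (1 - 10 * η) * lam)
    (hgl : g ^ 2 ≤ lam) (hM : 1 ≤ M) (hbig : 10 * M ^ 2 ≤ η * lam) (hc : 1 ≤ c)
    (hPQ : P + Q = lam + mu) (h1 : P ≤ Q + c) (h2 : Q ≤ P + c) (hx0 : 0 < x)
    (hy : |y| = (1 + 3 * η) * x) (hx : x * lam ≤ g * M) (hceq : c = (lam + mu) * (x * |y|))
    (hxf : c * xf = P * x) (hyf : c * yf = - (Q * y)) (e1 : α * x + β * y = 1)
    (e2 : α * xf + β * yf = 0) (e3 : γ * x + δ * y = 0) (e4 : γ * xf + δ * yf = 1) :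
    |mu| * |y| ≤ (1 - η) * (lam * x) ∧ 0 ≤ xf ∧ |mu| * |yf| ≤ (1 - η) * (lam * xf) ∧
      0 ≤ γ ∧ |δ| ≤ (1 - η) * γ ∧ lam ≤ 3 * (g * α) * M ∧ |β| ≤ (1 - 2 * η) * α ∧
      g ≤ 2 * (lam * x) := by
  have hηl := mul_pos hη hlam
  have hL : 0 < lam + mu := by linarith [neg_le_abs mu]
  have hml : mu ≤ lam := by linarith [le_abs_self mu]
  have hc0 : 0 < c := by linarith
  have hm7 : |mu| * (1 + 3 * η) ≤ (1 - 7 * η) * lam := by
    have a1 := mul_le_mul_of_nonneg_right hgap (show 0 ≤ 1 + 3 * η by linarith)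
    have a2 := mul_pos hη hηl
    linarith
  -- `c` is small compared with `lam + mu`
  have hxx : lam * x ^ 2 * lam ≤ lam * M ^ 2 := by
    have a1 : (x * lam) ^ 2 ≤ (g * M) ^ 2 := pow_le_pow_left₀ (by positivity) hx 2
    have a2 : g ^ 2 * M ^ 2 ≤ lam * M ^ 2 := mul_le_mul_of_nonneg_right hgl (by positivity)
    nlinarith
  have hxx' : lam * x ^ 2 ≤ M ^ 2 := by
    by_contra hcon
    push Not at hcon
    nlinarith
  have hcs : 5 * c ≤ η * (lam + mu) := by
    have a1 : x * |y| ≤ 2 * x ^ 2 := by rw [hy]; nlinarith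
    have a2 : 5 * (x * |y|) ≤ η := by
      by_contra hcon
      push Not at hcon
      have : η * lam < 10 * x ^ 2 * lam := by nlinarith
      nlinarith
    rw [hceq]
    nlinarith
  have hηL : η * (lam + mu) ≤ (lam + mu) / 10000 := by nlinarith
  have hP0 : (lam + mu) / 3 ≤ P := by linarith
  have hQ0 : (lam + mu) / 3 ≤ Q := by linarith
  have hcP : c ≤ η / 2 * P := by nlinarith
  have hcQ : c ≤ η / 2 * Q := by nlinarith
  have hQP : Q ≤ (1 + η / 2) * P := by linarith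
  have hPQ' : P ≤ (1 + η / 2) * Q := by linarith
  have hPpos : 0 < P := by linarith
  have hQpos : 0 < Q := by linarith
  have hxf0 : 0 < xf := (mul_pos_iff_of_pos_left hc0).1 (by rw [hxf]; positivity)
  have hyf' : c * |yf| = Q * ((1 + 3 * η) * x) := by
    rw [← hy, ← abs_of_pos hc0, ← abs_mul, hyf, abs_neg, abs_mul, abs_of_pos hQpos]
  have hα : (lam + mu) * (α * x) = Q := by
    rw [← hPQ]
    linear_combination Q * e1 + c * e2 - α * hxf - β * hyf
  have hβ : (lam + mu) * (β * y) = P := by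
    linear_combination (lam + mu) * e1 - hα - hPQ
  have hγ : (lam + mu) * (γ * x) = c := by
    rw [← hPQ]
    linear_combination Q * e3 + c * e4 - γ * hxf - δ * hyf
  have hδ : (lam + mu) * (δ * y) = - c := by
    linear_combination (lam + mu) * e3 - hγ
  have hLx : 0 < (lam + mu) * x := by positivity
  have hβ' : (lam + mu) * x * (|β| * (1 + 3 * η)) = P := by
    have : |(lam + mu) * (β * y)| = P := by rw [hβ, abs_of_pos hPpos]
    rw [abs_mul, abs_mul, abs_of_pos hL, hy] at this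
    linear_combination this
  have hδ' : (lam + mu) * x * (|δ| * (1 + 3 * η)) = c := by
    have : |(lam + mu) * (δ * y)| = c := by rw [hδ, abs_neg, abs_of_pos hc0]
    rw [abs_mul, abs_mul, abs_of_pos hL, hy] at this
    linear_combination this
  have hγ0 : 0 < γ := (mul_pos_iff_of_pos_right hx0).1
    ((mul_pos_iff_of_pos_left hL).1 (by rw [hγ]; exact hc0))
  have hα0 : 0 < α := (mul_pos_iff_of_pos_right hx0).1
    ((mul_pos_iff_of_pos_left hL).1 (by rw [hα]; exact hQpos))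
  have hδγ : |δ| * (1 + 3 * η) = γ := by
    apply mul_left_cancel₀ hLx.ne'
    linear_combination hδ' - hγ
  have hβα : |β| * (1 + 3 * η) ≤ (1 + η / 2) * α := by
    apply le_of_mul_le_mul_left _ hLx
    rw [hβ']
    calc P ≤ (1 + η / 2) * Q := hPQ'
      _ = (lam + mu) * x * ((1 + η / 2) * α) := by rw [← hα]; ring
  have n1 : (1 - 7 * η) * (1 + η / 2) ≤ 1 - η := by
    have := sq_nonneg η
    linarith [show (1 - 7 * η) * (1 + η / 2) = 1 - 13 / 2 * η - 7 / 2 * η ^ 2 by ring]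
  have hlx : 0 < lam * x := by positivity
  refine ⟨?_, hxf0.le, ?_, hγ0.le, ?_, ?_, ?_, ?_⟩
  · rw [hy]
    have a1 := mul_le_mul_of_nonneg_right hm7 hx0.le
    have a2 := mul_pos hη hlx
    linarith
  · apply le_of_mul_le_mul_left _ hc0
    have a1 : c * (|mu| * |yf|) = (|mu| * (1 + 3 * η)) * (Q * x) := by
      linear_combination |mu| * hyf'
    have a2 : c * ((1 - η) * (lam * xf)) = (1 - η) * lam * (P * x) := by
      linear_combination (1 - η) * lam * hxf
    rw [a1, a2]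
    have a3 : Q * x ≤ (1 + η / 2) * (P * x) := by
      have := mul_le_mul_of_nonneg_right hQP hx0.le
      linarith
    have a4 : 0 ≤ (1 - 7 * η) * lam := mul_nonneg (by linarith) hlam.le
    have a5 : 0 ≤ lam * (P * x) := by positivity
    calc |mu| * (1 + 3 * η) * (Q * x) ≤ (1 - 7 * η) * lam * (Q * x) :=
          mul_le_mul_of_nonneg_right hm7 (by positivity)
      _ ≤ (1 - 7 * η) * lam * ((1 + η / 2) * (P * x)) := mul_le_mul_of_nonneg_left a3 a4
      _ = ((1 - 7 * η) * (1 + η / 2)) * (lam * (P * x)) := by ring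
      _ ≤ (1 - η) * (lam * (P * x)) := mul_le_mul_of_nonneg_right n1 a5
      _ = (1 - η) * lam * (P * x) := by ring
  · rw [← hδγ]
    have := abs_nonneg δ
    have a1 : 0 ≤ |δ| * (η * (2 - 3 * η)) := mul_nonneg this (mul_nonneg hη.le (by linarith))
    linarith
  · have a1 : 1 / 3 ≤ α * x := by
      apply le_of_mul_le_mul_left _ hL
      rw [hα]
      linarith
    have a2 : α * (x * lam) ≤ α * (g * M) := mul_le_mul_of_nonneg_left hx hα0.le
    have a3 := mul_le_mul_of_nonneg_right a1 hlam.le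
    linarith
  · have a0 : 0 < 1 + 3 * η := by linarith
    apply le_of_mul_le_mul_right _ a0
    refine hβα.trans ?_
    have a1 : 0 ≤ α * (η * (1 / 2 - 6 * η)) := mul_nonneg hα0.le (mul_nonneg hη.le (by linarith))
    linarith
  · have a1 : 1 ≤ 4 * (lam * x ^ 2) := by
      have b1 : c = (lam + mu) * (1 + 3 * η) * x ^ 2 := by rw [hceq, hy]; ring
      have b2 : (lam + mu) * (1 + 3 * η) ≤ 4 * lam := by
        have := mul_le_mul (show lam + mu ≤ 2 * lam by linarith) (show 1 + 3 * η ≤ 2 by linarith)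
          (by linarith) (by linarith)
        linarith
      have b3 := mul_le_mul_of_nonneg_right b2 (sq_nonneg x)
      linarith
    apply abs_le_of_sq_le_sq' _ (by positivity) |>.2
    have a2 := mul_le_mul_of_nonneg_left a1 hlam.le
    linarith

/-- splitting a long covector into a multiple of a central one and a remainder -/
theorem split_real {η ξ ζ a b E n B : ℝ} (hη : 0 < η) (hη1 : η ≤ 1 / 10000) (hn : 1 ≤ n)
    (hE : 1 ≤ E) (hB : 1 ≤ B) (hξ : 4 * n * E * B ≤ η * ξ) (hζ : |ζ| ≤ (1 - 2 * η) * ξ)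
    (ha : |a - ξ / (2 * n)| ≤ E) (hb : |b - ζ / (2 * n)| ≤ E) :
    B ≤ a ∧ |b| ≤ (1 - η) * a ∧ 0 ≤ ξ - n * a ∧ |ζ - n * b| ≤ (1 - η) * (ξ - n * a) := by
  have hn0 : 0 < n := by linarith
  set s := ξ / (2 * n) with hs
  set t := ζ / (2 * n) with ht
  have e1 : ξ = 2 * n * s := by rw [hs]; field_simp
  have e2 : ζ = 2 * n * t := by rw [ht]; field_simp
  have hEB : E ≤ E * B := by nlinarith
  have hEB' : B ≤ E * B := by nlinarith
  have h1 : 2 * (E * B) ≤ η * s := by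
    apply le_of_mul_le_mul_left _ (by positivity : 0 < 2 * n)
    rw [e1] at hξ
    linarith
  have hs0 : 0 < s := by
    by_contra hcon
    push Not at hcon
    nlinarith
  have hηs : η * s ≤ s / 10000 := by nlinarith
  have h2 : |t| ≤ (1 - 2 * η) * s := by
    apply le_of_mul_le_mul_left _ (by positivity : 0 < 2 * n)
    rw [e1, e2, abs_mul, abs_of_pos (by positivity : 0 < 2 * n)] at hζ
    linarith
  obtain ⟨a1, a2⟩ := abs_le.1 ha
  obtain ⟨b1, b2⟩ := abs_le.1 hb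
  obtain ⟨t1, t2⟩ := abs_le.1 h2
  have hηE : 0 ≤ η * E := by positivity
  have hηa : η * a ≤ η * (s + E) := mul_le_mul_of_nonneg_left (by linarith) hη.le
  have hηa' : η * (s - E) ≤ η * a := mul_le_mul_of_nonneg_left (by linarith) hη.le
  have hηE' : η * E ≤ E / 10000 := by nlinarith
  have k1 : |2 * t - b| ≤ (1 - η) * (2 * s - a) := by
    have u1 : (1 - η) * (s - E) ≤ (1 - η) * (2 * s - a) :=
      mul_le_mul_of_nonneg_left (by linarith) (by linarith)
    rw [abs_le]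
    constructor <;> nlinarith
  refine ⟨by linarith, ?_, ?_, ?_⟩
  · have u1 : (1 - η) * (s - E) ≤ (1 - η) * a :=
      mul_le_mul_of_nonneg_left (by linarith) (by linarith)
    rw [abs_le]
    constructor <;> nlinarith
  · rw [e1]
    nlinarith
  · rw [e1, e2, show 2 * n * t - n * b = n * (2 * t - b) by ring, abs_mul, abs_of_pos hn0]
    nlinarith

theorem ten_split (n : ℕ) (s t r p q : V) :
    ten ![n • s, s, t, 0] ![r, p - n • r, q, 0] = ten ![s, t] ![p, q] := by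
  ext a b
  simp only [ten, Fin.sum_univ_four, Fin.sum_univ_two, cons_val_zero, cons_val_one, cons_val,
    Pi.sub_apply, Pi.zero_apply, nsmul_eq_mul, Pi.mul_apply, Pi.natCast_apply]
  ring

theorem sse_split (n : ℕ) (s t r p q : V) (h1 : 0 ≤ r ⬝ᵥ s) (h2 : 0 ≤ r ⬝ᵥ t)
    (h3 : 0 ≤ (p - n • r) ⬝ᵥ s) (h4 : 0 ≤ (p - n • r) ⬝ᵥ t) (h5 : 0 ≤ q ⬝ᵥ s)
    (h6 : 0 ≤ q ⬝ᵥ t) :
    SSE (cm ![s, t] ![p, q]) (cm ![n • s, s, t, 0] ![r, p - n • r, q, 0]) := by
  refine (lemX ![s, t] ![r, p - n • r, q, 0] ![![n, 1, 0, 0], ![0, 0, 1, 0]] _ _ ?_ ?_ ?_).symm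
  · intro k
    fin_cases k <;> simp [Fin.sum_univ_two]
  · intro i
    fin_cases i <;> simp [Fin.sum_univ_four]
  · intro k i
    fin_cases k <;> fin_cases i
    exacts [h1, h2, h3, h4, h5, h6, (zero_dotProduct _).ge, (zero_dotProduct _).ge]

/-- the explicit central configuration at the critical scale -/
theorem step2b_core {F : Fr} {H G U W : M2} {A : N2} {K lam mu g E B M : ℝ}
    (h : F.Is (H * G) lam mu) (hP : Par K lam mu) (hg : 1 ≤ g) (hgH : g ^ 2 = |(H.det : ℝ)|)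
    (hgl : g ^ 2 ≤ lam) (hcov : (F.pull lam mu H G g).dual.Cover E) (hUW : U * W = 1)
    (hT : H * G * U = U * toZ A) (hc : 1 ≤ A 1 0) (h1 : A 0 0 ≤ A 1 1 + A 1 0)
    (h2 : A 1 1 ≤ A 0 0 + A 1 0) {z : V} (hz : ∀ i, U i 0 = z i) (hx0 : 0 < F.X z)
    (hy : |F.Y z| = (1 + 3 * (1 / K)) * F.X z) (hx : F.X z * lam ≤ g * M) (hB : 1 ≤ B)
    (hE : 1 ≤ E) (hM : 1 ≤ M) (hbig : 36 * K * (B ^ 2 * E * M ^ 2) ≤ lam) :
    ∃ S R : Fin 4 → V, (F.pull lam mu H G g).Cen (G * H) (1 / K) B S R ∧ SSE A (cm S R) := by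
  have hK := hP.hK
  have hK0 := hP.K_pos
  have hlam := hP.lam_pos
  have hmu := hP.mu_ne
  have hg0 : 0 < g := by linarith
  set η : ℝ := 1 / K with hηdef
  have hη : 0 < η := by positivity
  have hη1 : η ≤ 1 / 10000 := one_div_le_one_div_of_le (by norm_num) hK
  have hηK : η * K = 1 := by rw [hηdef]; field_simp
  have hgap : |mu| ≤ (1 - 10 * η) * lam := by
    have := hP.abs_gap
    rwa [show 10 / K = 10 * η by rw [hηdef]; ring] at this
  have hbig' : 36 * (B ^ 2 * E * M ^ 2) ≤ η * lam := by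
    have := mul_le_mul_of_nonneg_left hbig hη.le
    linarith [show η * (36 * K * (B ^ 2 * E * M ^ 2)) = 36 * (B ^ 2 * E * M ^ 2) * (η * K) by ring,
      show 36 * (B ^ 2 * E * M ^ 2) * (η * K) = 36 * (B ^ 2 * E * M ^ 2) by rw [hηK, mul_one]]
  have hB2 : 1 ≤ B ^ 2 * E := one_le_mul_of_one_le_of_one_le (one_le_pow₀ hB) hE
  have hM2 : M ^ 2 ≤ B ^ 2 * E * M ^ 2 := le_mul_of_one_le_left (by positivity) hB2
  have hWU : W * U = 1 := mul_eq_one_comm.1 hUW
  have hWT : W * (H * G) * U = toZ A := by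
    rw [Matrix.mul_assoc, hT, ← Matrix.mul_assoc, hWU, Matrix.one_mul]
  -- the basis and the dual basis
  let f : V := fun i => U i 1
  let zs : V := fun i => W 0 i
  let fs : V := fun i => W 1 i
  have hz' : z = fun i => U i 0 := funext fun i => (hz i).symm
  have wu : ∀ i j, W i 0 * U 0 j + W i 1 * U 1 j = if i = j then 1 else 0 := by
    intro i j
    have := congrFun (congrFun hWU i) j
    rwa [Matrix.mul_apply, Fin.sum_univ_two, Matrix.one_apply] at this
  have p1 : zs ⬝ᵥ z = 1 := by rw [dot2, hz']; simpa using wu 0 0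
  have p2 : zs ⬝ᵥ f = 0 := by rw [dot2]; simpa using wu 0 1
  have p3 : fs ⬝ᵥ z = 0 := by rw [dot2, hz']; simpa using wu 1 0
  have p4 : fs ⬝ᵥ f = 1 := by rw [dot2]; simpa using wu 1 1
  have e1 := h.pair zs z
  have e2 := h.pair zs f
  have e3 := h.pair fs z
  have e4 := h.pair fs f
  rw [p1] at e1
  rw [p2] at e2
  rw [p3] at e3
  rw [p4] at e4
  push_cast at e1 e2 e3 e4
  have hTz : (H * G) *ᵥ z = (A 0 0) • z + (A 1 0) • f := by
    funext i
    have := congrFun (congrFun hT i) 0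
    rw [Matrix.mul_apply, Matrix.mul_apply (M := U), Fin.sum_univ_two, Fin.sum_univ_two] at this
    simp only [toZ] at this
    simp only [hz', f, mulVec, dotProduct, Fin.sum_univ_two, Pi.add_apply, nsmul_eq_mul,
      Pi.mul_apply, Pi.natCast_apply]
    linarith
  have hX := h.X_mulVec z
  have hY := h.Y_mulVec z
  rw [hTz, Fr.X_add, Fr.X_nsmul, Fr.X_nsmul] at hX
  rw [hTz, Fr.Y_add, Fr.Y_nsmul, Fr.Y_nsmul] at hY
  have htr : (A 0 0 : ℝ) + A 1 1 = lam - mu := by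
    rw [← h.trace]
    have t1 : (toZ A).trace = (H * G).trace := by
      rw [← hWT, Matrix.trace_mul_comm, ← Matrix.mul_assoc, hUW, Matrix.one_mul]
    rw [Matrix.trace_fin_two, Matrix.trace_fin_two] at t1
    simp only [toZ] at t1
    exact_mod_cast t1
  have hceq := h.c_eq hP hUW hT hz
  rw [abs_of_pos hx0] at hceq
  have h1' : (A 0 0 : ℝ) ≤ A 1 1 + A 1 0 := by exact_mod_cast h1
  have h2' : (A 1 1 : ℝ) ≤ A 0 0 + A 1 0 := by exact_mod_cast h2
  obtain ⟨r1, r2, r3, r4, r5, r6, r7, r8⟩ := step2b_real (c := (A 1 0 : ℝ))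
    (P := lam - A 0 0) (Q := mu + A 0 0) (xf := F.X f) (yf := F.Y f) hη hη1 hlam hgap hgl hM
    (by linarith [sq_nonneg M]) (by exact_mod_cast hc) (by ring) (by linarith) (by linarith) hx0 hy
    hx hceq (by linarith) (by linarith) e1.symm e2.symm e3.symm e4.symm
  set F' := F.pull lam mu H G g with hF'
  have h' : F'.Is (G * H) lam mu := h.pull hlam.ne' hmu hgH
  -- the multiplicity
  set n : ℕ := ⌈2 * B⌉₊ with hn
  have hn1 : 2 * B ≤ n := Nat.le_ceil _
  have hn2 : (n : ℝ) ≤ 3 * B := by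
    have := Nat.ceil_lt_add_one (show 0 ≤ 2 * B by linarith)
    linarith
  have xz : F'.dual.X (zs ᵥ* H) = g * F.dual.X zs := h.pull_dual_X hlam.ne' g zs
  have yz : F'.dual.Y (zs ᵥ* H) = g * F.dual.Y zs := h.pull_dual_Y hmu g zs
  have xf : F'.dual.X (fs ᵥ* H) = g * F.dual.X fs := h.pull_dual_X hlam.ne' g fs
  have yf : F'.dual.Y (fs ᵥ* H) = g * F.dual.Y fs := h.pull_dual_Y hmu g fs
  obtain ⟨r, ha, hb⟩ := hcov (g * F.dual.X zs / (2 * n)) (g * F.dual.Y zs / (2 * n))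
  have hξ : 4 * (n : ℝ) * E * B ≤ η * (g * F.dual.X zs) := by
    have hM0 : 0 < M := by linarith
    apply le_of_mul_le_mul_right _ hM0
    have a1 := mul_le_mul_of_nonneg_left r6 hη.le
    have a2 : (n : ℝ) * (E * B * M) ≤ 3 * B * (E * B * M) :=
      mul_le_mul_of_nonneg_right hn2 (by positivity)
    have a3 : B ^ 2 * E * M ≤ B ^ 2 * E * M ^ 2 :=
      mul_le_mul_of_nonneg_left (by nlinarith) (by positivity)
    linarith
  have hζ : |g * F.dual.Y zs| ≤ (1 - 2 * η) * (g * F.dual.X zs) := by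
    rw [abs_mul, abs_of_pos hg0]
    have := mul_le_mul_of_nonneg_left r7 hg0.le
    linarith
  obtain ⟨s1, s2, s3, s4⟩ := split_real hη hη1 (by linarith) hE hB hξ hζ ha hb
  have cz : F'.InCone (1 - η) (1 - η) (G *ᵥ z) := by
    apply inCone_of_abs
    · rw [h.pull_X_S]
      positivity
    · rw [h.pull_X_S, h.pull_Y_S, abs_div, abs_of_pos hg0, ← mul_div_assoc, abs_mul, abs_neg]
      exact div_le_div_of_nonneg_right r1 hg0.le
  have cf : F'.InCone (1 - η) (1 - η) (G *ᵥ f) := by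
    apply inCone_of_abs
    · rw [h.pull_X_S]
      positivity
    · rw [h.pull_X_S, h.pull_Y_S, abs_div, abs_of_pos hg0, ← mul_div_assoc, abs_mul, abs_neg]
      exact div_le_div_of_nonneg_right r3 hg0.le
  have cn : F'.InCone (1 - η) (1 - η) (n • (G *ᵥ z)) := by
    obtain ⟨c0, c1, c2⟩ := cz
    have hn0 : (0 : ℝ) ≤ n := Nat.cast_nonneg n
    refine ⟨?_, ?_, ?_⟩
    · rw [Fr.X_nsmul]
      positivity
    · rw [Fr.X_nsmul, Fr.Y_nsmul]
      have := mul_le_mul_of_nonneg_left c1 hn0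
      linarith
    · rw [Fr.X_nsmul, Fr.Y_nsmul]
      have := mul_le_mul_of_nonneg_left c2 hn0
      linarith
  have cr : F'.dual.InCone (1 - η) (1 - η) r := inCone_of_abs (by linarith) s2
  have cr' : F'.dual.InCone (1 - η) (1 - η) (zs ᵥ* H - n • r) := by
    apply inCone_of_abs
    · rw [Fr.X_sub, Fr.X_nsmul, xz]
      exact s3
    · rw [Fr.X_sub, Fr.X_nsmul, xz, Fr.Y_sub, Fr.Y_nsmul, yz]
      exact s4
  have cfs : F'.dual.InCone (1 - η) (1 - η) (fs ᵥ* H) := by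
    apply inCone_of_abs
    · rw [xf]
      positivity
    · rw [xf, yf, abs_mul, abs_of_pos hg0]
      have := mul_le_mul_of_nonneg_left r5 hg0.le
      linarith
  have hten : ten ![G *ᵥ z, G *ᵥ f] ![zs ᵥ* H, fs ᵥ* H] = G * H := by
    have t1 := ten_mul G H ![z, f] ![zs, fs]
    have t2 : ten ![z, f] ![zs, fs] = 1 := by
      rw [← hUW]
      ext a b
      simp [ten, hz', f, zs, fs, Matrix.mul_apply, Fin.sum_univ_two]
    rw [t2, Matrix.mul_one] at t1
    rw [← t1]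
    congr 1 <;> funext i <;> fin_cases i <;> rfl
  have hcm : cm ![G *ᵥ z, G *ᵥ f] ![zs ᵥ* H, fs ᵥ* H] = A := by
    have key : ∀ i j, ((fun k => W i k) ᵥ* H) ⬝ᵥ (G *ᵥ fun k => U k j) = (A i j : ℤ) := by
      intro i j
      have := congrFun (congrFun hWT i) j
      simp only [toZ, Matrix.mul_apply, Fin.sum_univ_two] at this
      simp only [vecMul, mulVec, dotProduct, Fin.sum_univ_two]
      linarith
    ext i j
    rw [hz']
    fin_cases i <;> fin_cases j
    exacts [(congrArg Int.toNat (key 0 0)).trans (Int.toNat_natCast _),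
      (congrArg Int.toNat (key 0 1)).trans (Int.toNat_natCast _),
      (congrArg Int.toNat (key 1 0)).trans (Int.toNat_natCast _),
      (congrArg Int.toNat (key 1 1)).trans (Int.toNat_natCast _)]
  refine ⟨![n • (G *ᵥ z), G *ᵥ z, G *ᵥ f, 0], ![r, zs ᵥ* H - n • r, fs ᵥ* H, 0],
    ⟨⟨?_, ?_, ?_⟩, 0, ?_, ?_⟩, ?_⟩
  · rw [← hten]
    exact ten_split _ _ _ _ _ _
  · intro j
    fin_cases j
    exacts [cn, cz, cf, Fr.InCone.zero _ _ _]
  · intro j
    fin_cases j
    exacts [cr, cr', cfs, Fr.InCone.zero _ _ _]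
  · show B ≤ F'.X (n • (G *ᵥ z))
    rw [Fr.X_nsmul, h.pull_X_S]
    have a1 : 1 / 2 ≤ lam * F.X z / g := by
      rw [le_div_iff₀ hg0]
      linarith
    have a2 := mul_le_mul_of_nonneg_left a1 (Nat.cast_nonneg (α := ℝ) n)
    linarith
  · exact s1
  · rw [← hcm]
    have u1 : 0 ≤ 1 - η := by linarith
    have u2 : (1 - η) * (1 - η) ≤ 1 := mul_le_one₀ (by linarith) u1 (by linarith)
    have hp : ∀ {r s : V}, F'.dual.InCone (1 - η) (1 - η) r → F'.InCone (1 - η) (1 - η) s →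
        0 ≤ r ⬝ᵥ s := fun hr hs => h'.pair_nonneg hs hr u1 u1 u2 u2
    exact sse_split _ _ _ _ _ _ (hp cr cz) (hp cr cf) (hp cr' cz) (hp cr' cf) (hp cfs cz)
      (hp cfs cf)

/-- the critical scale -/
theorem scale_real {η lam g M x y : ℝ} (hη : 0 < η) (hη1 : η ≤ 1 / 10000) (hlam : 0 < lam)
    (hg : 0 < g) (hM : 0 < M) (hgl : g ^ 2 ≤ lam) (hx0 : 0 < x) (hy0 : 0 < y)
    (hx : x * lam ≤ g * M) (hy : y * lam ≤ g * M) (hxy : 1 ≤ 2 * lam * (x * y)) :
    ∃ k : ℝ, 0 < k ∧ y / k = (1 + 3 * η) * (k * x) ∧ k * x * lam ≤ g * M ∧ k ≤ 2 * M ∧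
      1 / k ≤ 2 * M := by
  have h3 : 0 < 1 + 3 * η := by linarith
  obtain ⟨k, hk0, hk⟩ : ∃ k : ℝ, 0 < k ∧ k ^ 2 * (x * (1 + 3 * η)) = y := by
    refine ⟨√(y / (x * (1 + 3 * η))), Real.sqrt_pos.2 (by positivity), ?_⟩
    rw [Real.sq_sqrt (by positivity)]
    field_simp
  have hgM : (g * M) ^ 2 ≤ lam * M ^ 2 := by
    rw [mul_pow]
    exact mul_le_mul_of_nonneg_right hgl (by positivity)
  have sqb : ∀ t : ℝ, 0 < t → t * lam ≤ g * M → lam * t ^ 2 ≤ M ^ 2 := by
    intro t ht h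
    have a1 : (t * lam) ^ 2 ≤ (g * M) ^ 2 := pow_le_pow_left₀ (by positivity) h 2
    apply le_of_mul_le_mul_left _ hlam
    linarith
  have hx2 := sqb x hx0 hx
  have hy2 := sqb y hy0 hy
  have hkx : k ^ 2 * x ≤ y := by
    have : 0 < k ^ 2 * x * η := by positivity
    linarith
  have hkx' : y ≤ 2 * (k ^ 2 * x) := by
    have a1 : 0 < k ^ 2 * x := by positivity
    have := mul_le_mul_of_nonneg_left hη1 a1.le
    linarith
  refine ⟨k, hk0, ?_, ?_, ?_, ?_⟩
  · rw [div_eq_iff hk0.ne', ← hk]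
    ring
  · apply abs_le_of_sq_le_sq' _ (by positivity) |>.2
    have a1 : (x * lam) * (y * lam) ≤ (g * M) * (g * M) :=
      mul_le_mul hx hy (by positivity) (by positivity)
    have a2 := mul_le_mul_of_nonneg_left hkx (show 0 ≤ x * lam ^ 2 by positivity)
    linarith
  · apply abs_le_of_sq_le_sq' _ (by positivity) |>.2
    have a1 := mul_le_mul_of_nonneg_left hxy (sq_nonneg k)
    have a2 := mul_le_mul_of_nonneg_left hkx (show 0 ≤ 2 * lam * y by positivity)
    have a3 := sq_nonneg M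
    linarith
  · rw [div_le_iff₀ hk0]
    apply abs_le_of_sq_le_sq' _ (by positivity) |>.2
    have a2 := mul_le_mul_of_nonneg_left hkx' (show 0 ≤ 2 * lam * x by positivity)
    have a3 := mul_le_mul_of_nonneg_left hx2 (sq_nonneg k)
    linarith

theorem step2b_pos {F : Fr} {H G U W : M2} {A : N2} {K lam mu g : ℝ} (h : F.Is (H * G) lam mu)
    (hP : Par K lam mu) (hl : K ^ 175000 ≤ lam) (hg : 1 ≤ g) (hgH : g ^ 2 = |(H.det : ℝ)|)
    (hgl : g ^ 2 ≤ lam) (hb : (F.pull lam mu H G g).Bal 3) (hUW : U * W = 1)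
    (hT : H * G * U = U * toZ A) (hc : 1 ≤ A 1 0) (h1 : A 0 0 ≤ A 1 1 + A 1 0)
    (h2 : A 1 1 ≤ A 0 0 + A 1 0) {z : V} (hz : ∀ i, U i 0 = z i) (hx0 : 0 < F.X z)
    (hx : |F.X z| * lam ≤ g * K ^ 1545) (hy : |F.Y z| * lam ≤ g * K ^ 1545) :
    ∃ C ∈ KM (G * H) K lam mu, SSE A C := by
  have hK := hP.hK
  have hK0 := hP.K_pos
  have hK1 : 1 ≤ K := by linarith
  have hlam := hP.lam_pos
  have hmu := hP.mu_ne
  have hml := hP.mu_le
  have hceq := h.c_eq hP hUW hT hz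
  have hc' : (1 : ℝ) ≤ A 1 0 := by exact_mod_cast hc
  rw [abs_of_pos hx0] at hceq hx
  have hy0 : 0 < |F.Y z| := by
    rcases (abs_nonneg (F.Y z)).eq_or_lt with h0 | h0
    · rw [← h0, mul_zero, mul_zero] at hceq
      linarith
    · exact h0
  have hxy : 1 ≤ 2 * lam * (F.X z * |F.Y z|) := by
    have := mul_le_mul_of_nonneg_right (show lam + mu ≤ 2 * lam by linarith)
      (mul_pos hx0 hy0).le
    linarith
  obtain ⟨M, hMdef⟩ : ∃ M, M = K ^ 1545 := ⟨_, rfl⟩
  obtain ⟨Z, hZdef⟩ : ∃ Z, Z = K ^ 1547 := ⟨_, rfl⟩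
  have hM : 1 ≤ M := hMdef ▸ one_le_pow₀ hK1
  have hZM : Z = K * K * M := by
    rw [hZdef, hMdef, show 1547 = 1 + 1 + 1545 from rfl, pow_add, pow_add, pow_one]
  have hZ1 : 1 ≤ Z := hZdef ▸ one_le_pow₀ hK1
  have hZ : 60 * (2 * M * 3) * K ≤ Z := by
    rw [hZM]
    have := mul_le_mul_of_nonneg_right hK (show 0 ≤ K * M by positivity)
    have a1 : 0 ≤ K * M := by positivity
    linarith
  have hZl : Z ^ 113 ≤ lam := by
    rw [hZdef, ← pow_mul]
    exact (pow_le_pow_right₀ hK1 (by norm_num)).trans hl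
  have hE : 1 ≤ 2 * M * 3 := by linarith
  have hMZ : M ≤ Z := by
    rw [hZdef, hMdef]
    exact pow_le_pow_right₀ hK1 (by norm_num)
  have hbig : 36 * K * ((Z ^ 22) ^ 2 * (2 * M * 3) * M ^ 2) ≤ lam := by
    refine le_trans ?_ hZl
    have a1 : M ^ 2 ≤ Z ^ 2 := pow_le_pow_left₀ (by linarith) hMZ 2
    have a2 : 36 * K * (2 * M * 3) ≤ Z := by
      have : 0 ≤ K * M := by positivity
      linarith
    have hZ0 : 0 ≤ Z := by linarith
    calc 36 * K * ((Z ^ 22) ^ 2 * (2 * M * 3) * M ^ 2)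
        = (Z ^ 22) ^ 2 * ((36 * K * (2 * M * 3)) * M ^ 2) := by ring
      _ ≤ (Z ^ 22) ^ 2 * (Z * Z ^ 2) :=
          mul_le_mul_of_nonneg_left (mul_le_mul a2 a1 (by positivity) hZ0) (by positivity)
      _ = Z ^ 47 := by ring
      _ ≤ Z ^ 113 := pow_le_pow_right₀ hZ1 (by norm_num)
  have h308 : K ^ 308 ≤ Z ^ 22 := by
    rw [hZdef, ← pow_mul]
    exact pow_le_pow_right₀ hK1 (by norm_num)
  rw [← hMdef] at hx hy
  obtain ⟨k, hk0, k1, k2, k3, k4⟩ := scale_real (η := 1 / K) (by positivity)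
    (one_div_le_one_div_of_le (by norm_num) hK) hlam (by linarith) (by linarith) hgl hx0 hy0 hx hy
    hxy
  set F' := F.pull lam mu H G g with hF'
  have h' : F'.Is (G * H) lam mu := h.pull hlam.ne' hmu hgH
  have hbal : ∀ l : ℝ, 0 < l → l ≤ 2 * M → 1 / l ≤ 2 * M → (F'.sc l).Bal (2 * M * 3) :=
    fun l a b c => hb.sc a b c
  have hZ22 : 1 ≤ Z ^ 22 := one_le_pow₀ hZ1
  obtain ⟨S, R, hcen, hA⟩ := step2b_core (E := 2 * M * 3) (B := Z ^ 22) (M := M) (h.sc hk0.ne') hP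
    hg hgH hgl (by
      rw [Fr.pull_sc]
      exact (h'.sc hk0.ne').dual.cover ((h'.sc hk0.ne').bal_dual (hbal k hk0 k3 k4)))
    hUW hT hc h1 h2 hz (by rw [Fr.sc_X]; positivity)
    (by rw [Fr.sc_X, Fr.sc_Y, abs_div, abs_of_pos hk0, k1]) (by rw [Fr.sc_X]; exact k2) hZ22 hE hM
    hbig
  rw [Fr.pull_sc] at hcen
  obtain ⟨S1, R1, hc1⟩ := h'.exists_cen hP (hb.mono (by linarith : (3 : ℝ) ≤ 2 * M * 3)) hE hZ hZl
  have hKK : 1 / K ≤ 2 / K := div_le_div_of_nonneg_right (by norm_num) hK0.le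
  have hc2 : (F'.sc 1).Cen (G * H) (1 / K) (Z ^ 22) S1 R1 := by
    rw [Fr.sc_one]
    exact hc1.mono hKK (by linarith)
  refine ⟨cm S1 R1, ⟨F', S1, R1, h', (h'.good_of_bal hb).mono ?_, hc1.mono hKK (by linarith), rfl⟩,
    hA.trans ?_⟩
  · apply one_div_le_one_div_of_le (by norm_num)
    have : K ^ 1 ≤ K ^ 4 := pow_le_pow_right₀ hK1 (by norm_num)
    rw [pow_one] at this
    linarith
  · rcases le_total k 1 with hk | hk
    · refine h'.loc_star hP hE hZ hZl hk0 hk (fun l a b => hbal l (by linarith) (by linarith) ?_)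
        hcen hc2
      exact (one_div_le_one_div_of_le hk0 a).trans k4
    · refine (h'.loc_star hP hE hZ hZl one_pos hk
        (fun l a b => hbal l (by linarith) (by linarith) ?_) hc2 hcen).symm
      have := one_div_le_one_div_of_le one_pos a
      linarith

/-- the case of a very short vector in the first lattice -/
theorem step2b {F : Fr} {H G U W : M2} {A : N2} {K lam mu g : ℝ} (h : F.Is (H * G) lam mu)
    (hP : Par K lam mu) (hl : K ^ 175000 ≤ lam) (hg : 1 ≤ g) (hgH : g ^ 2 = |(H.det : ℝ)|)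
    (hgl : g ^ 2 ≤ lam) (hb : (F.pull lam mu H G g).Bal 3) (hUW : U * W = 1)
    (hT : H * G * U = U * toZ A) (hc : 1 ≤ A 1 0) (h1 : A 0 0 ≤ A 1 1 + A 1 0)
    (h2 : A 1 1 ≤ A 0 0 + A 1 0) {z : V} (hz : ∀ i, U i 0 = z i)
    (hx : |F.X z| * lam ≤ g * K ^ 1545) (hy : |F.Y z| * lam ≤ g * K ^ 1545) :
    ∃ C ∈ KM (G * H) K lam mu, SSE A C := by
  rcases lt_trichotomy (F.X z) 0 with h0 | h0 | h0
  · refine step2b_pos (U := -U) (W := -W) (z := -z) h hP hl hg hgH hgl hb ?_ ?_ hc h1 h2 ?_ ?_ ?_ ?_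
    · rw [neg_mul_neg, hUW]
    · rw [mul_neg, neg_mul, hT]
    · intro i
      rw [Matrix.neg_apply, hz, Pi.neg_apply]
    · rw [Fr.X_neg]
      linarith
    · rwa [Fr.X_neg, abs_neg]
    · rwa [Fr.Y_neg, abs_neg]
  · have hceq := h.c_eq hP hUW hT hz
    rw [h0, abs_zero, zero_mul, mul_zero] at hceq
    have : A 1 0 = 0 := by exact_mod_cast hceq
    omega
  · exact step2b_pos h hP hl hg hgH hgl hb hUW hT hc h1 h2 hz h0 hx hy

end Pool.Agent.MP_993212_an.H65
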