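import Pool.Agent.MP_993212_an.H65.Walk
import Pool.Agent.MP_993212_an.H65.Step2a
import Pool.Agent.MP_993212_an.H65.Step2b

namespace Pool.Agent.MP_993212_an.H65

open Matrix Pool.Agent.MP_993212_an.H12

/-- a mixed configuration is canonical for the second matrix -/
theorem mixed_km {F : Fr} {H G : M2} {K lam mu g E : ℝ} (h : F.Is (H * G) lam mu)
    (hP : Par K lam mu) (hl : K ^ 1600 ≤ lam) (hg : 1 ≤ g) (hgH : g ^ 2 = |(H.det : ℝ)|)
    (hgl : g ^ 2 ≤ lam) (hb : (F.pull lam mu H G g).Bal 6) (hE : F.Bal E)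
    (hEl : g * E * K ^ 1544 ≤ lam) :
    ∃ S R : Fin 4 → V, F.Cen (H * G) (1 / K) (K ^ 308) S R ∧ cm S R ∈ KM (G * H) K lam mu := by
  obtain ⟨S, Q, h1, h2⟩ :=
    exists_mixed h hP hl hg hgH hgl hb (h.dual.cover (h.bal_dual hE)) hEl
  have h' := h.pull hP.lam_pos.ne' hP.mu_ne hgH
  refine ⟨_, _, h1, _, _, _, h', (h'.good_of_bal hb).mono ?_, h2, cm_mul H S Q⟩
  have hK := hP.hK
  have : K ≤ K ^ 4 := le_self_pow₀ (by linarith) (by norm_num)
  exact one_div_le_one_div_of_le (by norm_num) (by linarith)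

theorem step2_bal {F : Fr} {H G : M2} {K lam mu g : ℝ} (h : F.Is (H * G) lam mu)
    (hP : Par K lam mu) (hl : K ^ 175000 ≤ lam) (hirr : Irrational lam) (hg : 1 ≤ g)
    (hgH : g ^ 2 = |(H.det : ℝ)|) (hgl : g ^ 2 ≤ lam) (hb : (F.pull lam mu H G g).Bal 3) :
    ∃ C ∈ KM (H * G) K lam mu, ∃ C' ∈ KM (G * H) K lam mu, SSE C C' := by
  have hK := hP.hK
  have hK0 := hP.K_pos
  have hK1 : 1 ≤ K := by linarith
  have hl0 := hP.lam_pos
  have hl1 : K ^ 1600 ≤ lam := (pow_le_pow_right₀ hK1 (by norm_num)).trans hl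
  have hl2 : K ^ 10 ≤ lam := (pow_le_pow_right₀ hK1 (by norm_num)).trans hl
  have h4 : 1 ≤ K ^ 4 := one_le_pow₀ hK1
  have e0 : 0 < 1 / K ^ 4 := by positivity
  have e1 : 1 / K ^ 4 ≤ 1 := by
    rw [div_le_one (by positivity)]
    exact h4
  by_cases hgood : F.Good (1 / K ^ 4)
  · have hB := h.bal_of_good e0 e1 hgood
    rw [one_div_one_div] at hB
    have hEl : g * (1 + K ^ 4) * K ^ 1544 ≤ lam := by
      have a1 : g * K ^ 1549 ≤ lam :=
        mul_le_of_sq hgl (by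
          rw [← pow_mul]
          exact (pow_le_pow_right₀ hK1 (by norm_num)).trans hl)
      have a2 : K ^ 1549 = K * K ^ 4 * K ^ 1544 := by
        rw [← pow_succ', ← pow_add]
      have a3 : 1 + K ^ 4 ≤ K * K ^ 4 := by nlinarith
      have a4 : 0 ≤ K ^ 1544 := by positivity
      rw [a2] at a1
      generalize K ^ 1544 = P at a1 a4
      have : g * (1 + K ^ 4) * P ≤ g * (K * K ^ 4) * P := by gcongr
      linarith
    obtain ⟨S, R, h1, h2⟩ := mixed_km h hP hl1 hg hgH hgl (hb.mono (by norm_num)) hB hEl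
    exact ⟨cm S R, ⟨F, S, R, h, hgood, h1, rfl⟩, cm S R, h2, SSE.refl _⟩
  obtain ⟨z, f, hd, hx, hy⟩ := Fr.exists_short hgood
  have hz0 : z ≠ 0 := by
    rintro rfl
    simp [det2] at hd
  have hxy : |F.X z| * |F.Y z| ≤ 1 / K ^ 4 * (1 / K ^ 4) :=
    mul_le_mul hx.le hy.le (abs_nonneg _) e0.le
  have hs : 4 * K ^ 6 * (|F.X z| * |F.Y z|) ≤ 1 := by
    have a1 : 4 * K ^ 6 * (1 / K ^ 4 * (1 / K ^ 4)) = 4 / K ^ 2 := by field_simp
    have a2 : 4 / K ^ 2 ≤ 1 := by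
      rw [div_le_one (by positivity)]
      nlinarith
    have a3 : 4 * K ^ 6 * (|F.X z| * |F.Y z|) ≤ 4 * K ^ 6 * (1 / K ^ 4 * (1 / K ^ 4)) := by gcongr
    linarith
  obtain ⟨U, W, A, hUW, hT, hz, hc, h1, h2⟩ :=
    exists_U h hP hd (h.X_ne hirr hz0) (h.Y_ne hirr hz0) (by
      rw [le_div_iff₀ (by positivity)]
      have : 0 ≤ K ^ 6 * (|F.X z| * |F.Y z|) := by positivity
      linarith)
  obtain ⟨C, hC, hAC⟩ := km_of_short h hP hl1 hUW hT hc h1 h2 (by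
    rw [h.c_eq hP hUW hT hz]
    have := mul_le_mul_of_nonneg_left hs hP.sum_pos.le
    linarith)
  suffices key : ∃ C' ∈ KM (G * H) K lam mu, SSE A C' by
    obtain ⟨C', hC', hAC'⟩ := key
    exact ⟨C, hC, C', hC', hAC.symm.trans hAC'⟩
  obtain ⟨m, hm⟩ : ∃ m, m = max |F.X z| |F.Y z| := ⟨_, rfl⟩
  have hxm : |F.X z| ≤ m := hm ▸ le_max_left _ _
  have hym : |F.Y z| ≤ m := hm ▸ le_max_right _ _
  by_cases hsm : m * lam ≤ g * K ^ 1545
  · exact step2b h hP hl hg hgH hgl hb hUW hT hc h1 h2 hz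
      ((mul_le_mul_of_nonneg_right hxm hl0.le).trans hsm)
      ((mul_le_mul_of_nonneg_right hym hl0.le).trans hsm)
  obtain ⟨hmp, f', hd', hx', hy'⟩ := h.reduce hd hm
  have hm1 : m ≤ 1 := by
    rw [hm]
    exact max_le (hx.le.trans e1) (hy.le.trans e1)
  have hmi : 1 ≤ 1 / m := by
    rw [le_div_iff₀ hmp]
    linarith
  have hB : F.Bal (2 * (1 / m)) :=
    ⟨z, f', hd', by linarith, by linarith, by linarith, by linarith⟩
  have hEl : g * (2 * (2 * (1 / m))) * K ^ 1544 ≤ lam := by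
    have a1 : g * (2 * (2 * (1 / m))) * K ^ 1544 = g * (K ^ 1544 * 4) / m := by
      field_simp
      norm_num
    rw [a1, div_le_iff₀ hmp]
    have a2 : K ^ 1545 = K ^ 1544 * K := pow_succ _ _
    have a4 : 0 ≤ K ^ 1544 := by positivity
    rw [a2] at hsm
    generalize K ^ 1544 = P at hsm a4
    have : g * (P * 4) ≤ g * (P * K) := by gcongr; linarith
    linarith
  have h3 : 2 * (1 / K ^ 4) ≤ 1 / K ^ 3 := by
    rw [mul_one_div, div_le_div_iff₀ (by positivity) (by positivity)]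
    have : K ^ 4 = K * K ^ 3 := by ring
    have : 0 ≤ K ^ 3 := by positivity
    nlinarith
  have main : ∀ k : ℝ, 0 < k → k ≤ 2 → 1 / k ≤ 2 → ∃ S R : Fin 4 → V,
      (F.sc k).Mar (H * G) (1 / K) S R ∧ cm S R ∈ KM (G * H) K lam mu := by
    intro k hk hk1 hk2
    obtain ⟨S, R, a1, a2⟩ := mixed_km (h.sc hk.ne') hP hl1 hg hgH hgl (by
      rw [Fr.pull_sc]
      exact (hb.sc hk hk1 hk2).mono (by norm_num)) (hB.sc hk hk1 hk2) hEl
    exact ⟨S, R, a1.1, a2⟩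
  rcases le_total |F.Y z| |F.X z| with hle | hle
  · obtain ⟨S, R, a1, a2⟩ := main 2 (by norm_num) le_rfl (by norm_num)
    refine ⟨_, a2, (pwP (h.sc two_ne_zero) hP hl2 hUW hT hc h1 h2 hz ?_ ?_ a1).symm⟩
    · rw [Fr.sc_X, abs_mul, abs_two]
      linarith
    · rw [Fr.sc_X, Fr.sc_Y, abs_mul, abs_div, abs_two]
      linarith
  · obtain ⟨S, R, a1, a2⟩ := main (1 / 2) (by norm_num) (by norm_num) (by norm_num)
    have e : |(1 / 2 : ℝ)| = 1 / 2 := abs_of_pos (by norm_num)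
    refine ⟨_, a2, (pwD (h.sc (by norm_num)) hP hl2 hUW hT hc h1 h2 hz ?_ ?_ a1).symm⟩
    · rw [Fr.sc_Y, abs_div, e]
      linarith
    · rw [Fr.sc_X, Fr.sc_Y, abs_mul, e, abs_div, e]
      linarith

/-- one elementary equivalence over the integers preserves the canonical class -/
theorem step2 {F : Fr} {H G : M2} {K lam mu : ℝ} (h : F.Is (H * G) lam mu) (hP : Par K lam mu)
    (hl : K ^ 175000 ≤ lam) (hirr : Irrational lam) (hH : |(H.det : ℝ)| ≤ lam) :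
    ∃ C ∈ KM (H * G) K lam mu, ∃ C' ∈ KM (G * H) K lam mu, SSE C C' := by
  have hl0 := hP.lam_pos
  have hm0 := hP.mu_ne
  have hgH : Real.sqrt |(H.det : ℝ)| ^ 2 = |(H.det : ℝ)| := Real.sq_sqrt (abs_nonneg _)
  have hdet : (H.det : ℝ) * G.det = - (lam * mu) := by
    rw [← h.detT, ← Int.cast_mul, ← det_mul, det_fin_two]
    push_cast
    ring
  have hH0 : H.det ≠ 0 := by
    intro h0
    rw [h0, Int.cast_zero, zero_mul] at hdet
    exact mul_ne_zero hl0.ne' hm0 (by linarith)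
  have hg : 1 ≤ Real.sqrt |(H.det : ℝ)| := by
    rw [Real.one_le_sqrt]
    exact_mod_cast Int.one_le_abs hH0
  obtain ⟨k, hk, hb⟩ := (h.pull hl0.ne' hm0 hgH).exists_bal3
  rw [← Fr.pull_sc] at hb
  exact step2_bal (h.sc hk.ne') hP hl hirr hg hgH (hgH.le.trans hH) hb

end Pool.Agent.MP_993212_an.H65
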