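import Pool.Agent.MP_993212_an.H18.WSpec
import Pool.Agent.MP_993212_an.H16.TR

/-! Counting loops by the logarithmic derivative, and the extraction of the short loops. -/

namespace Pool.Agent.MP_993212_an.H65

open Matrix Polynomial Finset H16 H92 H15 H18

/-- `g` is minus the logarithmic derivative of `D` modulo `X ^ n` -/
def LD (n : ℕ) (D g : ℤ[X]) : Prop := X ^ n ∣ derivative D + D * g

theorem LD.mul {n : ℕ} {D E g f : ℤ[X]} (h : LD n D g) (h' : LD n E f) : LD n (D * E) (g + f) := by
  have := (h.mul_left E).add (h'.mul_left D)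
  rwa [show E * (derivative D + D * g) + D * (derivative E + E * f) =
    derivative (D * E) + D * E * (g + f) by rw [derivative_mul]; ring] at this

theorem LD.prod {ι : Type} {n : ℕ} (s : Finset ι) {D g : ι → ℤ[X]}
    (h : ∀ i ∈ s, LD n (D i) (g i)) : LD n (∏ i ∈ s, D i) (∑ i ∈ s, g i) := by
  classical
  induction s using Finset.induction_on with
  | empty => simp [LD]
  | insert a s ha ih =>
    rw [prod_insert ha, sum_insert ha]
    exact (h a (mem_insert_self _ _)).mul (ih fun i hi => h i (mem_insert_of_mem hi))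

theorem dvd_deriv {n : ℕ} {D : ℤ[X]} (h : X ^ (n + 1) ∣ D) : X ^ n ∣ derivative D := by
  obtain ⟨q, rfl⟩ := h
  rw [derivative_mul, derivative_X_pow_succ]
  exact ((dvd_mul_left _ _).mul_right _).add ((pow_dvd_pow _ (Nat.le_succ n)).mul_right _)

theorem LD.congr {n : ℕ} {D E g : ℤ[X]} (h : LD n D g) (e : X ^ (n + 1) ∣ E - D) : LD n E g := by
  have := (h.add (dvd_deriv e)).add (((pow_dvd_pow _ (Nat.le_succ n)).trans e).mul_right g)
  rwa [show derivative D + D * g + derivative (E - D) + (E - D) * g = derivative E + E * g by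
    rw [derivative_sub]; ring] at this

theorem LD.uniq {n : ℕ} {D g f : ℤ[X]} (h : LD n D g) (h' : LD n D f) (h0 : D.coeff 0 = 1) :
    X ^ n ∣ g - f := by
  have a4 : IsCoprime ((X : ℤ[X]) ^ n) D := by
    refine IsCoprime.pow_left ⟨-divX D, 1, ?_⟩
    have := divX_mul_X_add D
    rw [h0, map_one] at this
    linear_combination -this
  have := dvd_sub h h'
  rw [show derivative D + D * g - (derivative D + D * f) = D * (g - f) by ring] at this
  exact a4.dvd_of_dvd_mul_left this

theorem LD.single (n p : ℕ) :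
    LD n (1 - X ^ (p + 1)) (∑ j ∈ range n, C ((p + 1 : ℕ) : ℤ) * X ^ ((p + 1) * j + p)) := by
  have e : (∑ j ∈ range n, C ((p + 1 : ℕ) : ℤ) * X ^ ((p + 1) * j + p) : ℤ[X]) =
      C ((p + 1 : ℕ) : ℤ) * X ^ p * ∑ j ∈ range n, (X ^ (p + 1)) ^ j := by
    rw [mul_sum]
    exact sum_congr rfl fun j _ => by rw [← pow_mul]; ring
  have g := mul_neg_geom_sum (X ^ (p + 1) : ℤ[X]) n
  refine ⟨-(C ((p + 1 : ℕ) : ℤ) * X ^ p * X ^ (p * n)), ?_⟩
  rw [e, derivative_sub, derivative_one, derivative_X_pow_succ, mul_left_comm, g]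
  push_cast
  ring

theorem single_coeff (p m : ℕ) :
    (∑ j ∈ range (m + 1), C ((p + 1 : ℕ) : ℤ) * X ^ ((p + 1) * j + p) : ℤ[X]).coeff m =
      if p + 1 ∣ m + 1 then ((p + 1 : ℕ) : ℤ) else 0 := by
  simp only [finsetSum_coeff, coeff_C_mul_X_pow]
  split_ifs with h
  · obtain ⟨c, hc⟩ := h
    obtain ⟨c, rfl⟩ : ∃ d, c = d + 1 := ⟨c - 1, by
      rcases c with _ | c
      · simp at hc
      · simp⟩
    have h1 : m = (p + 1) * c + p := by nlinarith
    rw [sum_eq_single c, if_pos h1]
    · intro j _ hj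
      refine if_neg fun h => hj ?_
      exact Nat.eq_of_mul_eq_mul_left (show 0 < p + 1 by omega) (by omega)
    · intro hc'
      exact absurd (mem_range.2 (by nlinarith)) hc'
  · exact sum_eq_zero fun j _ => if_neg fun e => h ⟨j + 1, by rw [e]; ring⟩

theorem LD.deep {n k : ℕ} {φ : ℤ[X]} (h : X ^ (k + 1) ∣ φ) (hn : n ≤ 2 * k + 1) :
    LD n (1 - φ) (derivative φ) := by
  have := (mul_dvd_mul h (dvd_deriv h)).neg_right
  rw [← pow_add] at this
  refine (pow_dvd_pow _ (by omega)).trans (this.trans (dvd_of_eq ?_))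
  rw [derivative_sub, derivative_one]
  ring

theorem det_diag {I : Type} [Fintype I] [DecidableEq I] (M : Matrix I I ℤ[X]) (z : I) (d : ℤ[X])
    (h : ∀ u l, l ≠ z → u ≠ l → d ∣ M u l) : d ∣ M.det - ∏ i, M i i := by
  rw [det_apply', ← add_sum_erase univ _ (mem_univ (1 : Equiv.Perm I))]
  simp only [Equiv.Perm.sign_one, Units.val_one, Int.cast_one, one_mul, Equiv.Perm.one_apply,
    add_sub_cancel_left]
  refine dvd_sum fun σ hσ => Dvd.dvd.mul_left ?_ _
  obtain ⟨l, hl, hσl⟩ : ∃ l, l ≠ z ∧ σ l ≠ l := by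
    by_contra hc
    push Not at hc
    refine ne_of_mem_erase hσ (Equiv.ext fun i => ?_)
    by_cases hi : i = z
    · subst hi
      by_contra hz
      exact hz (σ.injective (hc _ hz))
    · exact hc i hi
  exact (h _ l hl hσl).trans (dvd_prod_of_mem _ (mem_univ l))

theorem traceStmt : TraceStmt := by
  intro V I _ _ _ _ A N z L k T per hd hcl hk hT hu
  obtain ⟨k, rfl⟩ : ∃ j, k = j + 1 := ⟨k - 1, by omega⟩
  have key : ∀ m > 0, m ∈ {m | 0 < m ∧ m < 2 * (k + 1) ∧ m < L} → ∑ d ∈ m.divisors,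
      (d : ℤ) * ((T.filter fun w => per w = d).card + ∑ u ∈ Tᶜ, (N u u).coeff d) =
        ((trace (A ^ m) : ℕ) : ℤ) := by
    rintro m - ⟨h0, h1, h2⟩
    obtain ⟨m, rfl⟩ : ∃ j, m = j + 1 := ⟨m - 1, by omega⟩
    have hL : (X : ℤ[X]) ^ (m + 1 + 1) ∣ X ^ L := pow_dvd_pow _ (by omega)
    have a1 : LD (m + 1) (∏ i, (1 - N) i i) (∑ i, if i ∈ T then
        ∑ j ∈ range (m + 1), C ((per i - 1 + 1 : ℕ) : ℤ) * X ^ ((per i - 1 + 1) * j + (per i - 1))
        else derivative (N i i)) := by
      refine LD.prod _ fun i _ => ?_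
      rw [Matrix.sub_apply, one_apply_eq]
      split_ifs with hi
      · refine (LD.single _ _).congr (hL.trans ?_)
        rw [Nat.sub_add_cancel (hT i hi).1, ← dvd_neg]
        exact (hT i hi).2.trans (dvd_of_eq (by ring))
      · exact LD.deep (hu i hi) (by omega)
    have a2 := a1.congr (hL.trans (det_diag (1 - N) z _ fun u l h1 h2 => by
      rw [Matrix.sub_apply, one_apply_ne h2, zero_sub, dvd_neg]
      exact hcl u l h1 h2))
    rw [hd] at a2
    have a3 := X_pow_dvd_iff.1 (a2.uniq (tr_newton (m + 1) (zz A)) (tr_coeff_zero _)) m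
      (Nat.lt_succ_self m)
    rw [coeff_sub, trGen_coeff _ _ (Nat.lt_succ_self m), sub_eq_zero, ← zz_pow, finsetSum_coeff,
      ← sum_add_sum_compl T] at a3
    rw [show ((trace (A ^ (m + 1)) : ℕ) : ℤ) = trace (zz (A ^ (m + 1))) by
      simp [trace, zz_apply], ← a3]
    simp only [mul_add, sum_add_distrib]
    congr 1
    · simp only [card_filter, Nat.cast_sum, mul_sum]
      rw [sum_comm]
      refine sum_congr rfl fun w hw => ?_
      rw [if_pos hw, single_coeff, Nat.sub_add_cancel (hT w hw).1]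
      simp only [Nat.cast_ite, Nat.cast_one, Nat.cast_zero, mul_ite, mul_one, mul_zero, sum_ite_eq,
        Nat.mem_divisors, ne_eq, Nat.add_eq_zero_iff, one_ne_zero, and_false, not_false_eq_true,
        and_true]
    · rw [sum_eq_single (m + 1), mul_sum]
      · refine sum_congr rfl fun u hu' => ?_
        rw [if_neg (mem_compl.1 hu'), coeff_derivative]
        push_cast
        ring
      · intro d hd' hne
        have h3 : d < k + 1 := by
          obtain ⟨c, hc⟩ := Nat.dvd_of_mem_divisors hd'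
          have : 2 ≤ c := by
            rcases c with _ | _ | c
            · simp at hc
            · exact absurd (by omega) hne
            · omega
          nlinarith
        rw [sum_eq_zero fun u hu' => X_pow_dvd_iff.1 (hu u (mem_compl.1 hu')) d h3, mul_zero]
      · intro h
        exact absurd (Nat.mem_divisors_self _ (by omega)) h
  intro m h0 h1 h2
  have := (ArithmeticFunction.sum_eq_iff_sum_mul_moebius_eq_on _ (by
    rintro a b hab ⟨h0, h1, h2⟩
    have := Nat.le_of_dvd h0 hab
    exact ⟨Nat.pos_of_dvd_of_pos hab h0, by omega, by omega⟩)).1 key m h0 ⟨h0, h1, h2⟩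
  rw [← this, np]
  simp only [Int.cast_id]
  exact (Nat.sum_divisorsAntidiagonal' fun a b =>
    ArithmeticFunction.moebius a * ((trace (A ^ b) : ℕ) : ℤ)).symm

section Low

variable {V I G : Type} [Fintype V] [DecidableEq V] [Fintype I] [DecidableEq I] [AddCommGroup G]
  [Module ℤ[X] G]

theorem vp_of_hs {N : Matrix I I ℤ[X]} (h : Hs N) : VP (1 - N) 0 := by
  refine ⟨fun _ _ _ => by simp, by ext; simp [H92.cf], ⟨N, 0, h.1, fun _ _ _ => by simp, by simp⟩, ?_⟩
  have : 1 - H92.cf 0 (1 - N) = H92.cf 0 N := by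
    ext i j
    simp only [H92.cf, Matrix.sub_apply, map_apply, coeff_sub, one_apply]
    split_ifs <;> simp
  rw [this, h.2]
  exact IsNilpotent.zero

theorem level (hT : TraceStmt) {A : Matrix V V ℕ} {N : Matrix I I ℤ[X]} {z : I} {ρ η : ℝ} {L : ℕ}
    {P : Finset I} {per : I → ℕ} (hd : (1 - N).det = (pen (zz A)).det) (hS : St ρ η z L N)
    (hP : ∀ w ∈ P, 1 ≤ per w ∧ X ^ L ∣ N w w - X ^ per w) : ∀ k, k ≤ L →
    (∀ j, 1 ≤ j → j < k → ((P.filter fun w => per w = j).card : ℤ) * j = np j A) →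
    ∀ u, u ∉ P → X ^ k ∣ N u u := by
  intro k
  induction k with
  | zero => intro _ _ u _; simp
  | succ k ih =>
    intro hk hc u hu
    have h1 := ih (by omega) fun j h1 h2 => hc j h1 (by omega)
    refine X_pow_dvd_iff.2 fun d hd' => ?_
    rcases (Nat.lt_succ_iff.1 hd').lt_or_eq with h | rfl
    · exact X_pow_dvd_iff.1 (h1 u hu) d h
    rcases Nat.eq_zero_or_pos d with rfl | h0
    · exact congrFun (congrFun hS.hs.2 u) u
    have h2 := hT V I A N z L d P per hd hS.clean h0 hP h1 d h0 (by omega) (by omega)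
    rw [← hc d h0 (by omega), mul_comm, mul_right_inj' (by exact_mod_cast h0.ne'),
      left_eq_add] at h2
    exact (sum_eq_zero_iff_of_nonneg fun v _ => hS.hs.1 v v d).1 h2 u (mem_compl.2 hu)

end Low

theorem lowExt_of (hE : ExtStmt) (hT : TraceStmt) : LowExtStmt := by
  intro V I G _ _ _ _ _ _ A N ξ z ρ η L h T per hd hS hr h0 hη hρ hL hz hT' hc
  have key : ∀ P : Finset I, P ⊆ T → (∀ w ∈ T, w ∉ P → ∀ x ∈ P, per x ≤ per w) →
      ∃ N' ξ', Eq0 N ξ N' ξ' ∧ (∀ i, i ∉ P → ξ' i = ξ i) ∧ St ρ η z L N' ∧ Keep P N N' ∧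
        ∀ w ∈ P, X ^ L ∣ N' w w - X ^ per w := by
    intro P
    induction P using Finset.induction_on_max_value per with
    | empty =>
      exact fun _ _ => ⟨N, ξ, Eqv.refl (vp_of_hs hS.hs) hr, fun _ _ => rfl, hS,
        fun _ _ => ⟨id, id⟩, fun _ hw => absurd hw (notMem_empty _)⟩
    | insert a s ha hmax ih =>
      intro hsub hmin
      have haT := hsub (mem_insert_self _ _)
      have hsT : s ⊆ T := (subset_insert _ _).trans hsub
      obtain ⟨N', ξ', e1, e2, e3, e4, e5⟩ := ih hsT fun w hw hws x hx => by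
        by_cases hwa : w = a
        · rw [hwa]; exact hmax x hx
        · exact hmin w hw (by simp [hwa, hws]) x (mem_insert_of_mem hx)
      obtain ⟨a1, a2, a3, a4⟩ := hT' a haT
      have hd' : (1 - N').det = (pen (zz A)).det := e1.det.symm.trans hd
      have hP : ∀ w ∈ s, 1 ≤ per w ∧ X ^ L ∣ N' w w - X ^ per w :=
        fun w hw => ⟨(hT' w (hsT hw)).2.2.1, e5 w hw⟩
      have h1 := level hT hd' e3 hP (per a) (by omega) fun j h1 h2 => by
        rw [← hc j h1 (by omega)]
        congr 3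
        ext w
        simp only [mem_filter]
        refine ⟨fun h => ⟨hsT h.1, h.2⟩, fun h => ⟨?_, h.2⟩⟩
        by_contra hw
        by_cases hwa : w = a
        · rw [hwa] at h; omega
        · have := hmin w h.1 (by simp [hwa, hw]) a (mem_insert_self _ _)
          omega
      have h2 := hT V I A N' z L (per a) s per hd' e3.clean a3 hP h1 (per a) a3 (by omega)
        (by omega)
      rw [← hc _ a3 a4, mul_comm, mul_right_inj' (by exact_mod_cast (by omega : per a ≠ 0))] at h2
      have h3 : (s.filter fun w => per w = per a).card < (T.filter fun w => per w = per a).card :=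
        card_lt_card ⟨filter_subset_filter _ hsT, fun h =>
          ha (mem_filter.1 (h (mem_filter.2 ⟨haT, rfl⟩))).1⟩
      obtain ⟨v, hv, hv0⟩ : ∃ v ∈ sᶜ, 0 < (N' v v).coeff (per a) := by
        by_contra hcon
        push Not at hcon
        have := sum_nonpos hcon
        omega
      have hsa := (e4 a ha).1 a1
      have hav : a ≠ v := by
        rintro rfl
        rw [hsa a] at hv0
        simp at hv0
      obtain ⟨N'', f1, f2, f3, f4, -, -, f5⟩ := hE I G N' ξ' z v a ρ η L (X ^ per a) e3 e1.rel' h0 hη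
        (fun e => hz (e ▸ haT)) hav hsa ((e4 a ha).2 a2)
        (fun k => by rw [coeff_X_pow]; split_ifs <;> simp)
        (fun k => by
          rw [coeff_sub, coeff_X_pow]
          split_ifs with hk
          · rw [hk]; omega
          · simpa using e3.hs.1 v v k)
        (fun _ => by
          rw [nz_X_pow h0]
          exact (pow_le_of_le_one h0 (by linarith) (by omega)).trans hρ)
      refine ⟨N'', _, e1.trans f1, fun i hi => ?_, f2, fun j hj => ?_, fun w hw => ?_⟩
      · rw [mem_insert, not_or] at hi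
        rw [Function.update_of_ne hi.1, e2 i hi.2]
      · rw [mem_coe, mem_insert, not_or] at hj
        exact ⟨fun h => (f3 j hj.1).1 ((e4 j hj.2).1 h), fun h => (f3 j hj.1).2 ((e4 j hj.2).2 h)⟩
      · rcases mem_insert.1 hw with rfl | hw
        · exact f4
        · have := (f5 w (fun e => mem_compl.1 hv (e ▸ hw)) fun e => ha (e ▸ hw)).add (e5 w hw)
          rwa [sub_add_sub_cancel] at this
  obtain ⟨N', ξ', e1, e2, e3, e4, e5⟩ := key T Subset.rfl fun w hw hw' => absurd hw hw'
  exact ⟨N', ξ', e1, e2, e3, e4, e5, level hT (e1.det.symm.trans hd) e3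
    (fun w hw => ⟨(hT' w hw).2.2.1, e5 w hw⟩) h hL hc⟩

end Pool.Agent.MP_993212_an.H65
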