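import Pool.Agent.MP_993212_an.H65.Local
import Pool.Agent.MP_993212_an.H65.PWU
import Pool.Agent.MP_993212_an.H65.Chain

namespace Pool.Agent.MP_993212_an.H65

open Matrix Pool.Agent.MP_993212_an.H12

variable {F : Fr} {T : M2} {K lam mu : ℝ}

namespace WalkAux

theorem one_le_K (hP : Par K lam mu) : 1 ≤ K := by linarith [hP.hK]

theorem eps_pos (hP : Par K lam mu) : 0 < 1 / K ^ 4 := by
  have := hP.K_pos
  positivity

theorem eps_le (hP : Par K lam mu) : 1 / K ^ 4 ≤ 1 / 2 := by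
  have h1 : K ^ 1 ≤ K ^ 4 := pow_le_pow_right₀ (one_le_K hP) (by norm_num)
  rw [pow_one] at h1
  exact one_div_le_one_div_of_le (by norm_num) (by linarith [hP.hK])

theorem one_le_E (hP : Par K lam mu) : 1 ≤ 1 + 1 / (1 / K ^ 4) := by
  have := eps_pos hP
  have : 0 < 1 / (1 / K ^ 4) := by positivity
  linarith

theorem E_le_Z (hP : Par K lam mu) : 60 * (1 + 1 / (1 / K ^ 4)) * K ≤ K ^ 14 := by
  rw [one_div_one_div]
  have hK := hP.hK
  have h1 : (1 : ℝ) ≤ K ^ 4 := one_le_pow₀ (one_le_K hP)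
  have h2 : K ^ 6 ≤ K ^ 14 := pow_le_pow_right₀ (one_le_K hP) (by norm_num)
  have h3 : K ^ 6 = K ^ 4 * K * K := by ring
  have h4 : 0 ≤ K ^ 4 * K := by positivity
  have h5 : (1 + K ^ 4) * K ≤ 2 * (K ^ 4 * K) := by nlinarith
  nlinarith

theorem Z_le (hP : Par K lam mu) (hl : K ^ 1600 ≤ lam) : (K ^ 14) ^ 113 ≤ lam := by
  rw [← pow_mul]
  exact (pow_le_pow_right₀ (one_le_K hP) (by norm_num)).trans hl

theorem ten_le (hP : Par K lam mu) (hl : K ^ 1600 ≤ lam) : K ^ 10 ≤ lam :=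
  (pow_le_pow_right₀ (one_le_K hP) (by norm_num)).trans hl

theorem Z22 (K : ℝ) : K ^ 308 = (K ^ 14) ^ 22 := by rw [← pow_mul]

theorem bal (h : F.Is T lam mu) (hP : Par K lam mu) (hg : F.Good (1 / K ^ 4)) :
    F.Bal (1 + 1 / (1 / K ^ 4)) :=
  h.bal_of_good (eps_pos hP) (by linarith [eps_le hP]) hg

theorem loc_good (h : F.Is T lam mu) (hP : Par K lam mu) (hl : K ^ 1600 ≤ lam) {k1 k2 : ℝ}
    (hk1 : 0 < k1) (hk : k1 ≤ k2) (hk' : k2 ≤ k1 * (1 + 1 / (4 * K)))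
    (hg : (F.sc k1).Good (1 / K ^ 4)) (hg' : (F.sc k2).Good (1 / K ^ 4)) {S R S' R' : Fin 4 → V}
    (hc : (F.sc k1).Cen T (1 / K) (K ^ 308) S R) (hc' : (F.sc k2).Cen T (1 / K) (K ^ 308) S' R') :
    SSE (cm S R) (cm S' R') := by
  have e : F.sc k2 = (F.sc k1).sc (k2 / k1) := by
    rw [Fr.sc_sc]
    congr 1
    field_simp
  have h1 := h.sc hk1.ne'
  have h2 := h.sc (hk1.trans_le hk).ne'
  have b1 := bal h1 hP hg
  have b2 := bal h2 hP hg'
  rw [Z22] at hc hc'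
  rw [e] at b2 hc'
  exact h1.loc hP (one_le_E hP) (E_le_Z hP) (Z_le hP hl) ((one_le_div hk1).2 hk)
    ((div_le_iff₀' hk1).2 hk') b1 b2 hc hc'

theorem star_good (h : F.Is T lam mu) (hP : Par K lam mu) (hl : K ^ 1600 ≤ lam) {k1 k2 : ℝ}
    (hk1 : 0 < k1) (hk : k1 ≤ k2) (hg : ∀ k, k1 ≤ k → k ≤ k2 → (F.sc k).Good (1 / K ^ 4))
    {S R S' R' : Fin 4 → V}
    (hc : (F.sc k1).Cen T (1 / K) (K ^ 308) S R) (hc' : (F.sc k2).Cen T (1 / K) (K ^ 308) S' R') :
    SSE (cm S R) (cm S' R') := by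
  rw [Z22] at hc hc'
  exact h.loc_star hP (one_le_E hP) (E_le_Z hP) (Z_le hP hl) hk1 hk
    (fun k h1 h2 => bal (h.sc (hk1.trans_le h1).ne') hP (hg k h1 h2)) hc hc'

theorem abs_sc_X (F : Fr) {k : ℝ} (hk : 0 < k) (s : V) : |(F.sc k).X s| = k * |F.X s| := by
  rw [Fr.sc_X, abs_mul, abs_of_pos hk]

theorem abs_sc_Y (F : Fr) {k : ℝ} (hk : 0 < k) (s : V) : |(F.sc k).Y s| = |F.Y s| / k := by
  rw [Fr.sc_Y, abs_div, abs_of_pos hk]

theorem two_eps (hP : Par K lam mu) : 2 * (1 / K ^ 4) ≤ 1 / (2 * (1 / K ^ 4)) := by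
  have h1 := eps_pos hP
  have h2 := eps_le hP
  rw [le_div_iff₀ (by positivity)]
  nlinarith

theorem two_eps' (hP : Par K lam mu) : 2 * (1 / K ^ 4) ≤ 1 / K ^ 3 := by
  have hK := hP.K_pos
  have h : 2 * (1 / K ^ 4) = 1 / K ^ 3 * (2 / K) := by field_simp
  rw [h]
  refine mul_le_of_le_one_right (by positivity) ?_
  rw [div_le_one hK]
  linarith [hP.hK]

theorem ne_zero_of_det {z f : V} (hd : det2 z f = 1) : z ≠ 0 := by
  rintro rfl
  simp [det2] at hd

theorem negx_negx (F : Fr) : F.negx.negx = F := by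
  cases F
  simp [Fr.negx]

theorem negy_negy (F : Fr) : F.negy.negy = F := by
  cases F
  simp [Fr.negy]

end WalkAux

open WalkAux

theorem Fr.Is.exists_cen_good (h : F.Is T lam mu) (hP : Par K lam mu) (hl : K ^ 1600 ≤ lam)
    (hg : F.Good (1 / K ^ 4)) : ∃ S R : Fin 4 → V, F.Cen T (1 / K) (K ^ 308) S R := by
  obtain ⟨S, R, hc⟩ := h.exists_cen hP (bal h hP hg) (one_le_E hP) (E_le_Z hP) (Z_le hP hl)
  have hK := hP.K_pos
  refine ⟨S, R, hc.mono (div_le_div_of_nonneg_right (by norm_num) hK.le) ?_⟩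
  rw [← Z22]
  have : 0 < K ^ 308 := pow_pos hK _
  linarith

namespace WalkAux

/-- crossing the window in which the vector `z` is short -/
theorem cross (h : F.Is T lam mu) (hP : Par K lam mu) (hl : K ^ 1600 ≤ lam) {z f : V}
    (hd : det2 z f = 1) {a b : ℝ} (ha : 0 < a) (hab : a ≤ b)
    (hy : |F.Y z| = a * (1 / K ^ 4)) (hx : b * |F.X z| = 1 / K ^ 4) :
    (F.sc a).Good (1 / K ^ 4) ∧ (F.sc b).Good (1 / K ^ 4) ∧ ∀ S R S' R' : Fin 4 → V,
      (F.sc a).Cen T (1 / K) (K ^ 308) S R → (F.sc b).Cen T (1 / K) (K ^ 308) S' R' →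
      SSE (cm S R) (cm S' R') := by
  have e0 := eps_pos hP
  have e1 := two_eps hP
  have e2 := two_eps' hP
  have e3 := eps_le hP
  have hK := hP.K_pos
  have e6 : 1 / K ^ 4 * (1 / K ^ 4) ≤ 1 / K ^ 6 := by
    rw [div_mul_div_comm, one_mul, ← pow_add]
    exact one_div_le_one_div_of_le (by positivity)
      (pow_le_pow_right₀ (one_le_K hP) (by norm_num))
  generalize hε : 1 / K ^ 4 = ε at e0 e1 e3 e2 e6 hy hx
  have hb : 0 < b := ha.trans_le hab
  have x0 : 0 ≤ |F.X z| := abs_nonneg _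
  have xpos : 0 < |F.X z| := by
    rcases x0.lt_or_eq with h0 | h0
    · exact h0
    · rw [← h0] at hx
      linarith
  have ypos : 0 < |F.Y z| := by rw [hy]; positivity
  have hax : a * |F.X z| ≤ ε := by
    rw [← hx]
    exact mul_le_mul_of_nonneg_right hab x0
  have g1 : ∀ k, a / 2 ≤ k → k ≤ a → (F.sc k).Good ε := by
    intro k k1 k2
    have hk : 0 < k := by linarith
    refine (h.sc hk.ne').good_of_prim hd e0 (Or.inr ?_) ?_ ?_
    · rw [abs_sc_Y F hk, hy, le_div_iff₀ hk]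
      nlinarith
    · rw [abs_sc_X F hk]
      have : k * |F.X z| ≤ a * |F.X z| := mul_le_mul_of_nonneg_right k2 x0
      linarith
    · rw [abs_sc_Y F hk, hy]
      refine le_trans ?_ e1
      rw [div_le_iff₀ hk]
      nlinarith
  have g2 : ∀ k, b ≤ k → k ≤ 2 * b → (F.sc k).Good ε := by
    intro k k1 k2
    have hk : 0 < k := by linarith
    refine (h.sc hk.ne').good_of_prim hd e0 (Or.inl ?_) ?_ ?_
    · rw [abs_sc_X F hk, ← hx]
      exact mul_le_mul_of_nonneg_right k1 x0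
    · rw [abs_sc_X F hk]
      have : k * |F.X z| ≤ 2 * b * |F.X z| := mul_le_mul_of_nonneg_right k2 x0
      linarith
    · rw [abs_sc_Y F hk, hy]
      refine le_trans ?_ e1
      rw [div_le_iff₀ hk]
      nlinarith
  refine ⟨g1 a (by linarith) le_rfl, g2 b le_rfl (by linarith), fun S R S' R' hc hc' => ?_⟩
  subst hε
  have ha2 : 0 < a / 2 := by linarith
  have hb2 : 0 < 2 * b := by linarith
  obtain ⟨S1, R1, c1⟩ := (h.sc ha2.ne').exists_cen_good hP hl (g1 _ le_rfl (by linarith))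
  obtain ⟨S2, R2, c2⟩ := (h.sc hb2.ne').exists_cen_good hP hl (g2 _ (by linarith) le_rfl)
  have hxy : |F.X z| * |F.Y z| ≤ 1 / K ^ 6 := by
    refine le_trans ?_ e6
    rw [hy, ← mul_assoc, mul_comm _ a]
    exact mul_le_mul_of_nonneg_right hax e0.le
  obtain ⟨U, W, A, hUW, hT, hz, hA, hA1, hA2⟩ :=
    exists_U h hP hd (abs_pos.1 xpos) (abs_pos.1 ypos) hxy
  have yD : |(F.sc (a / 2)).Y z| = 2 * (1 / K ^ 4) := by
    rw [abs_sc_Y F ha2, hy]
    field_simp
  have xP : |(F.sc (2 * b)).X z| = 2 * (1 / K ^ 4) := by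
    rw [abs_sc_X F hb2, ← hx]
    ring
  have s1 := star_good h hP hl ha2 (by linarith) g1 c1 hc
  have s2 : SSE (cm S1 R1) A := by
    refine pwD (h.sc ha2.ne') hP (ten_le hP hl) hUW hT hA hA1 hA2 hz (by rw [yD]; exact e2) ?_ c1.1
    rw [yD, abs_sc_X F ha2]
    linarith
  have s3 : SSE (cm S2 R2) A := by
    refine pwP (h.sc hb2.ne') hP (ten_le hP hl) hUW hT hA hA1 hA2 hz (by rw [xP]; exact e2) ?_ c2.1
    rw [xP, abs_sc_Y F hb2, hy, div_le_iff₀ hb2]
    nlinarith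
  have s4 := star_good h hP hl hb (by linarith) g2 hc' c2
  exact ((s1.symm.trans s2).trans s3.symm).trans s4.symm

theorem walk_aux (h : F.Is T lam mu) (hP : Par K lam mu) (hl : K ^ 1600 ≤ lam)
    (hg : F.Good (1 / K ^ 4)) {S R : Fin 4 → V} (hc : F.Cen T (1 / K) (K ^ 308) S R) (n : ℕ) :
    ∀ k : ℝ, 1 ≤ k → k ≤ (1 + 1 / (4 * K)) ^ (n + 1) → (F.sc k).Good (1 / K ^ 4) →
      ∀ S' R' : Fin 4 → V, (F.sc k).Cen T (1 / K) (K ^ 308) S' R' → SSE (cm S R) (cm S' R') := by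
  have hK := hP.K_pos
  have hθ : 1 < 1 + 1 / (4 * K) := by
    have : 0 < 1 / (4 * K) := by positivity
    linarith
  have base : ∀ k : ℝ, 1 ≤ k → k ≤ 1 + 1 / (4 * K) → (F.sc k).Good (1 / K ^ 4) →
      ∀ S' R' : Fin 4 → V, (F.sc k).Cen T (1 / K) (K ^ 308) S' R' → SSE (cm S R) (cm S' R') := by
    intro k k1 k2 hg' S' R' hc'
    refine loc_good h hP hl one_pos k1 (by rwa [one_mul]) ?_ hg' ?_ hc'
    · rwa [Fr.sc_one]
    · rwa [Fr.sc_one]
  induction n with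
  | zero =>
    intro k k1 k2
    rw [zero_add, pow_one] at k2
    exact base k k1 k2
  | succ n ih =>
    intro k k1 k2 hg' S' R' hc'
    rcases le_or_gt k (1 + 1 / (4 * K)) with k3 | k3
    · exact base k k1 k3 hg' S' R' hc'
    have hθ0 : 0 < 1 + 1 / (4 * K) := by linarith
    obtain ⟨k', hk'⟩ : ∃ k', k = k' * (1 + 1 / (4 * K)) := ⟨k / (1 + 1 / (4 * K)), by field_simp⟩
    have l1 : 1 < k' := by
      by_contra h0
      have : k' * (1 + 1 / (4 * K)) ≤ 1 * (1 + 1 / (4 * K)) :=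
        mul_le_mul_of_nonneg_right (not_lt.1 h0) hθ0.le
      linarith
    have l0 : 0 < k' := by linarith
    have l2 : k' ≤ (1 + 1 / (4 * K)) ^ (n + 1) := by
      rw [hk', pow_succ _ (n + 1)] at k2
      exact le_of_mul_le_mul_right k2 hθ0
    have l3 : k' ≤ k := by
      rw [hk']
      exact le_mul_of_one_le_right l0.le hθ.le
    by_cases gk : (F.sc k').Good (1 / K ^ 4)
    · obtain ⟨S1, R1, c1⟩ := (h.sc l0.ne').exists_cen_good hP hl gk
      exact (ih k' l1.le l2 gk S1 R1 c1).trans (loc_good h hP hl l0 l3 hk'.le gk hg' c1 hc')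
    obtain ⟨z, f, hd, hx, hy⟩ := Fr.exists_short gk
    have hz := ne_zero_of_det hd
    have k0 : 0 < k := by linarith
    have e0 := eps_pos hP
    have q1 := hg z hz
    have q2 := hg' z hz
    rw [abs_sc_X F l0] at hx
    rw [abs_sc_Y F l0, div_lt_iff₀ l0] at hy
    rw [abs_sc_X F k0, abs_sc_Y F k0, le_div_iff₀ k0] at q2
    have cr := @cross F T K lam mu h hP hl z f hd
    generalize hε : 1 / K ^ 4 = ε at e0 q1 q2 hx hy cr
    have x0 : 0 ≤ |F.X z| := abs_nonneg _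
    have y1 : ε ≤ |F.Y z| := by
      rcases q1 with q | q
      · nlinarith
      · exact q
    have x1 : ε ≤ k * |F.X z| := by
      rcases q2 with q | q
      · exact q
      · nlinarith
    have xpos : 0 < |F.X z| := by
      rcases x0.lt_or_eq with h0 | h0
      · exact h0
      · rw [← h0] at x1
        linarith
    have a1 : 1 ≤ |F.Y z| / ε := (one_le_div e0).2 y1
    have a2 : |F.Y z| / ε ≤ k' := by
      rw [div_le_iff₀ e0]
      linarith
    have b1 : k' ≤ ε / |F.X z| := by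
      rw [le_div_iff₀ xpos]
      exact hx.le
    have b2 : ε / |F.X z| ≤ k := by
      rw [div_le_iff₀ xpos]
      exact x1
    obtain ⟨ga, gb, rel⟩ := cr (a := |F.Y z| / ε) (b := ε / |F.X z|) (by linarith) (a2.trans b1)
      (by field_simp) (by field_simp)
    subst hε
    have a0 : 0 < |F.Y z| / (1 / K ^ 4) := by linarith
    have b0 : 0 < 1 / K ^ 4 / |F.X z| := by linarith
    obtain ⟨S1, R1, c1⟩ := (h.sc a0.ne').exists_cen_good hP hl ga
    obtain ⟨S2, R2, c2⟩ := (h.sc b0.ne').exists_cen_good hP hl gb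
    refine ((ih _ a1 (a2.trans l2) ga S1 R1 c1).trans (rel S1 R1 S2 R2 c1 c2)).trans
      (loc_good h hP hl b0 b2 ?_ gb hg' c2 hc')
    rw [hk']
    exact mul_le_mul_of_nonneg_right b1 hθ0.le

end WalkAux

/-- the walk over all scales of one frame -/
theorem Fr.Is.walk (h : F.Is T lam mu) (hP : Par K lam mu) (hl : K ^ 1600 ≤ lam) {k : ℝ}
    (hk : 1 ≤ k) (hg : F.Good (1 / K ^ 4)) (hg' : (F.sc k).Good (1 / K ^ 4))
    {S R S' R' : Fin 4 → V} (hc : F.Cen T (1 / K) (K ^ 308) S R)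
    (hc' : (F.sc k).Cen T (1 / K) (K ^ 308) S' R') : SSE (cm S R) (cm S' R') := by
  have hK := hP.K_pos
  have hθ : 1 < 1 + 1 / (4 * K) := by
    have : 0 < 1 / (4 * K) := by positivity
    linarith
  obtain ⟨n, hn⟩ := pow_unbounded_of_one_lt k hθ
  exact walk_aux h hP hl hg hc n k hk
    (hn.le.trans (pow_le_pow_right₀ hθ.le (Nat.le_succ n))) hg' S' R' hc'

theorem Fr.Is.walk' (h : F.Is T lam mu) (hP : Par K lam mu) (hl : K ^ 1600 ≤ lam) {k : ℝ}
    (hk : 0 < k) (hg : F.Good (1 / K ^ 4)) (hg' : (F.sc k).Good (1 / K ^ 4))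
    {S R S' R' : Fin 4 → V} (hc : F.Cen T (1 / K) (K ^ 308) S R)
    (hc' : (F.sc k).Cen T (1 / K) (K ^ 308) S' R') : SSE (cm S R) (cm S' R') := by
  rcases le_total 1 k with k1 | k1
  · exact h.walk hP hl k1 hg hg' hc hc'
  · have e : F = (F.sc k).sc (1 / k) := by
      rw [Fr.sc_sc, mul_one_div_cancel hk.ne', Fr.sc_one]
    refine ((h.sc hk.ne').walk hP hl ((one_le_div hk).2 k1) hg' ?_ hc' ?_).symm
    · rwa [← e]
    · rwa [← e]

/-- all canonical matrices of `T` are equivalent -/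
theorem km_sse (hP : Par K lam mu) (hl : K ^ 1600 ≤ lam) {C C' : Matrix (Fin 4) (Fin 4) ℕ}
    (hC : C ∈ KM T K lam mu) (hC' : C' ∈ KM T K lam mu) : SSE C C' := by
  obtain ⟨F, S, R, h, hg, hc, rfl⟩ := hC
  obtain ⟨F', S', R', h', hg', hc', rfl⟩ := hC'
  obtain ⟨k, hk, e | e | e | e⟩ := h.unique h' hP.sum_pos.ne'
  · subst e
    exact h.walk' hP hl hk hg hg' hc hc'
  · subst e
    have g := hg'.negx
    have c := hc'.negx
    rw [negx_negx] at g c
    have := h.walk' hP hl hk hg g hc c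
    rwa [cm_neg] at this
  · subst e
    have g := hg'.negy
    have c := hc'.negy
    rw [negy_negy] at g c
    exact h.walk' hP hl hk hg g hc c
  · subst e
    have g := hg'.negy.negx
    have c := hc'.negy.negx
    rw [negy_negy, negx_negx] at g c
    have := h.walk' hP hl hk hg g hc c
    rwa [cm_neg] at this

/-- the matrix in a basis starting with a short vector is canonical -/
theorem km_of_short (h : F.Is T lam mu) (hP : Par K lam mu) (hl : K ^ 1600 ≤ lam) {U W : M2}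
    {A : N2} (hUW : U * W = 1) (hT : T * U = U * toZ A) (hc : 1 ≤ A 1 0)
    (h1 : A 0 0 ≤ A 1 1 + A 1 0) (h2 : A 1 1 ≤ A 0 0 + A 1 0)
    (hs : 4 * K ^ 6 * A 1 0 ≤ lam + mu) : ∃ C ∈ KM T K lam mu, SSE A C := by
  have hK := hP.K_pos
  have hlm : 0 < lam + mu := hP.sum_pos
  obtain ⟨z, hz⟩ : ∃ z : V, ∀ i, U i 0 = z i := ⟨fun i => U i 0, fun _ => rfl⟩
  obtain ⟨f, hd⟩ : ∃ f : V, det2 z f = 1 := by
    refine ⟨fun i => W.det * U i 1, ?_⟩
    have := congrArg Matrix.det hUW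
    rw [det_mul, det_one, det_fin_two U] at this
    simp only [det2, ← hz]
    linear_combination this
  have ce := h.c_eq hP hUW hT hz
  have c1 : (1 : ℝ) ≤ A 1 0 := by exact_mod_cast hc
  have xy : 4 * K ^ 6 * (|F.X z| * |F.Y z|) ≤ 1 := by
    rw [ce] at hs
    refine le_of_mul_le_mul_left ?_ hlm
    linarith
  have xpos : 0 < |F.X z| := by
    rcases (abs_nonneg (F.X z)).lt_or_eq with h0 | h0
    · exact h0
    · rw [← h0] at ce
      linarith
  have k0 : 0 < 1 / (K ^ 3 * |F.X z|) := by positivity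
  have ex : |(F.sc (1 / (K ^ 3 * |F.X z|))).X z| = 1 / K ^ 3 := by
    rw [abs_sc_X F k0]
    field_simp
  have ey : |(F.sc (1 / (K ^ 3 * |F.X z|))).Y z| ≤ 1 / K ^ 3 / 4 := by
    rw [abs_sc_Y F k0, div_div_eq_mul_div, div_one, div_div, le_div_iff₀ (by positivity)]
    calc _ = 4 * K ^ 6 * (|F.X z| * |F.Y z|) := by ring
      _ ≤ 1 := xy
  have k3 : (1 : ℝ) / K ^ 3 ≤ 1 := by
    rw [div_le_one (by positivity)]
    exact one_le_pow₀ (one_le_K hP)
  have k30 : (0 : ℝ) < 1 / K ^ 3 := by positivity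
  have e0 := eps_pos hP
  have e2 := two_eps' hP
  have e4 : 1 ≤ 1 / (2 * (1 / K ^ 4)) := by
    rw [le_div_iff₀ (by positivity)]
    linarith [eps_le hP]
  have h' := h.sc k0.ne'
  have g := h'.good_of_prim hd e0 (Or.inl (by rw [ex]; linarith)) (by rw [ex]; linarith)
    (by linarith)
  obtain ⟨S, R, c⟩ := h'.exists_cen_good hP hl g
  refine ⟨cm S R, ⟨_, S, R, h', g, c, rfl⟩, ?_⟩
  exact (pwP h' hP (ten_le hP hl) hUW hT hc h1 h2 hz ex.le (by rwa [ex]) c.1).symm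

end Pool.Agent.MP_993212_an.H65
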